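import Pool.Agent.Lib.MP_3a6b94_an.Tools

open MeasureTheory Set Metric Filter Topology
open scoped ENNReal NNReal Real ComplexConjugate

namespace Pool.Agent.Lib.MP_3a6b94_an

theorem integral_circle_orth (m n : ℕ) :
    ∫ θ, circleMap 0 1 θ ^ m * conj (circleMap 0 1 θ ^ n) ∂arc =
      if m = n then ((2 * π : ℝ) : ℂ) else 0 := by
  have e : ∀ θ : ℝ, circleMap 0 1 θ ^ m * conj (circleMap 0 1 θ ^ n) =
      Complex.exp ((((m : ℤ) - n : ℤ) : ℂ) * Complex.I * θ) := by
    intro θ
    simp only [circleMap, zero_add, Complex.ofReal_one, one_mul, ← Complex.exp_nat_mul,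
      ← Complex.exp_conj, ← Complex.exp_add, map_mul, Complex.conj_ofReal, Complex.conj_I,
      Complex.conj_natCast]
    congr 1
    push_cast
    ring
  simp_rw [e]
  rw [integral_arc]
  split_ifs with h
  · simp [h]
  · have hne : (((m : ℤ) - n : ℤ) : ℂ) * Complex.I ≠ 0 := by
      refine mul_ne_zero ?_ Complex.I_ne_zero
      exact Int.cast_ne_zero.mpr (sub_ne_zero.mpr (by exact_mod_cast h))
    rw [integral_exp_mul_complex hne]
    have : Complex.exp ((((m : ℤ) - n : ℤ) : ℂ) * Complex.I * ((2 * π : ℝ) : ℂ)) = 1 := by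
      rw [← Complex.exp_int_mul_two_pi_mul_I ((m : ℤ) - n)]
      congr 1
      push_cast
      ring
    rw [this]
    simp

theorem hasSum_integral_series {c : ℕ → ℂ} (hc : Summable fun n => ‖c n‖) {f G : ℝ → ℂ}
    (hf : ∀ θ, HasSum (fun n => c n * circleMap 0 1 θ ^ n) (f θ)) (hG : Integrable G arc) :
    HasSum (fun n => c n * ∫ θ, circleMap 0 1 θ ^ n * G θ ∂arc) (∫ θ, f θ * G θ ∂arc) := by
  have hint : ∀ n : ℕ, Integrable (fun θ => c n * (circleMap 0 1 θ ^ n * G θ)) arc := fun n =>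
    (hG.bdd_mul (c := 1) ((continuous_circleMap 0 1).pow n).aestronglyMeasurable
      (Eventually.of_forall fun θ => by simp)).const_mul _
  have h := hasSum_integral_of_summable_integral_norm hint (by
    have : ∀ n : ℕ, ∫ θ, ‖c n * (circleMap 0 1 θ ^ n * G θ)‖ ∂arc = ‖c n‖ * ∫ θ, ‖G θ‖ ∂arc := by
      intro n
      rw [← integral_const_mul]
      simp
    simp_rw [this]
    exact hc.mul_right _)
  simp_rw [integral_const_mul] at h
  have e : ∀ θ, ∑' n : ℕ, c n * (circleMap 0 1 θ ^ n * G θ) = f θ * G θ := by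
    intro θ
    simp_rw [← mul_assoc]
    exact ((hf θ).mul_right _).tsum_eq
  simpa only [e] using h

theorem hasSum_parseval_aux {c : ℕ → ℂ} (hc : Summable fun n => ‖c n‖) {f : ℝ → ℂ}
    (hfc : Continuous f) (hf : ∀ θ, HasSum (fun n => c n * circleMap 0 1 θ ^ n) (f θ)) :
    HasSum (fun n => 2 * π * ‖c n‖ ^ 2) (∫ θ, ‖f θ‖ ^ 2 ∂arc) := by
  have h1 : ∀ n : ℕ, ∫ θ, f θ * conj (circleMap 0 1 θ ^ n) ∂arc = c n * (2 * π : ℝ) := by
    intro n
    have h := hasSum_integral_series hc hf (G := fun θ => conj (circleMap 0 1 θ ^ n))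
      (integrable_arc_of_continuous
        (Complex.continuous_conj.comp ((continuous_circleMap 0 1).pow n)))
    simp_rw [integral_circle_orth] at h
    refine h.unique ?_
    have := hasSum_single (f := fun m => c m * if m = n then ((2 * π : ℝ) : ℂ) else 0) n
      (fun m hm => by simp [hm])
    simpa using this
  have h2 := hasSum_integral_series hc hf (G := fun θ => conj (f θ))
    (integrable_arc_of_continuous (Complex.continuous_conj.comp hfc))
  have h3 : ∀ n : ℕ, c n * ∫ θ, circleMap 0 1 θ ^ n * conj (f θ) ∂arc =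
      ((2 * π * ‖c n‖ ^ 2 : ℝ) : ℂ) := by
    intro n
    have : ∀ θ, circleMap 0 1 θ ^ n * conj (f θ) = conj (f θ * conj (circleMap 0 1 θ ^ n)) := by
      intro θ
      simp [mul_comm]
    simp_rw [this]
    rw [integral_conj, h1, map_mul, Complex.conj_ofReal, ← mul_assoc, Complex.mul_conj,
      Complex.normSq_eq_norm_sq]
    push_cast
    ring
  simp_rw [h3, Complex.mul_conj, Complex.normSq_eq_norm_sq] at h2
  rw [integral_complex_ofReal] at h2
  exact_mod_cast h2

theorem hasSum_taylor_circle {F : ℂ → ℂ} {R r : ℝ} (hF : DifferentiableOn ℂ F (ball 0 R))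
    (hr : 0 ≤ r) (hrR : r < R) (θ : ℝ) :
    HasSum (fun n : ℕ => (iteratedDeriv n F 0 / n.factorial * r ^ n) * circleMap 0 1 θ ^ n)
      (F (circleMap 0 r θ)) := by
  have hz : circleMap 0 r θ ∈ ball (0 : ℂ) R := by simpa [abs_of_nonneg hr] using hrR
  have h := Complex.hasSum_taylorSeries_on_ball hF hz
  have e : circleMap 0 r θ = r * circleMap 0 1 θ := by simp [circleMap]
  have e2 : (fun n : ℕ => (iteratedDeriv n F 0 / n.factorial * r ^ n) * circleMap 0 1 θ ^ n) =
      fun n : ℕ => ((n.factorial : ℂ))⁻¹ • (circleMap 0 r θ - 0) ^ n • iteratedDeriv n F 0 := by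
    funext n
    rw [e, sub_zero, mul_pow, smul_eq_mul, smul_eq_mul]
    ring
  rw [e2]
  exact h

theorem summable_taylor {F : ℂ → ℂ} {R r : ℝ} (hF : DifferentiableOn ℂ F (ball 0 R))
    (hr : 0 ≤ r) (hrR : r < R) :
    Summable fun n : ℕ => ‖iteratedDeriv n F 0 / n.factorial * (r : ℂ) ^ n‖ := by
  have h := (hasSum_taylor_circle hF hr hrR 0).summable
  simp only [circleMap_zero, Complex.ofReal_one, Complex.ofReal_zero, zero_mul, Complex.exp_zero,
    mul_one, one_pow] at h
  exact summable_norm_iff.mpr h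

theorem continuous_comp_circleMap {F : ℂ → ℂ} {R r : ℝ} (hF : ContinuousOn F (ball 0 R))
    (hr : 0 ≤ r) (hrR : r < R) : Continuous fun θ => F (circleMap 0 r θ) :=
  hF.comp_continuous (continuous_circleMap 0 r) fun θ => by simpa [abs_of_nonneg hr] using hrR

/-- Parseval identity on a circle. -/
theorem hasSum_parseval {F : ℂ → ℂ} {R r : ℝ} (hF : DifferentiableOn ℂ F (ball 0 R))
    (hr : 0 ≤ r) (hrR : r < R) :
    HasSum (fun n : ℕ => 2 * π * (‖iteratedDeriv n F 0‖ / n.factorial) ^ 2 * r ^ (2 * n))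
      (∫ θ, ‖F (circleMap 0 r θ)‖ ^ 2 ∂arc) := by
  have h := hasSum_parseval_aux (summable_taylor hF hr hrR)
    (continuous_comp_circleMap hF.continuousOn hr hrR) (hasSum_taylor_circle hF hr hrR)
  have e : (fun n : ℕ => 2 * π * (‖iteratedDeriv n F 0‖ / n.factorial) ^ 2 * r ^ (2 * n)) =
      fun n : ℕ => 2 * π * ‖iteratedDeriv n F 0 / n.factorial * (r : ℂ) ^ n‖ ^ 2 := by
    funext n
    simp only [norm_mul, norm_div, norm_pow, Complex.norm_natCast, Complex.norm_real,
      Real.norm_eq_abs, abs_of_nonneg hr]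
    ring
  rw [e]
  exact h

/-- Littlewood-Paley type inequality. -/
theorem mean_sq_le {F : ℂ → ℂ} (hF : DifferentiableOn ℂ F (ball 0 1)) {r A : ℝ} (hr : 0 ≤ r)
    (hr1 : r < 1)
    (hA : ∀ s ∈ Icc 0 r, ∫ θ, ‖deriv F (circleMap 0 s θ)‖ ^ 2 ∂arc ≤ A / (1 - s) ^ 2) :
    ∫ θ, ‖F (circleMap 0 r θ)‖ ^ 2 ∂arc ≤ 2 * π * ‖F 0‖ ^ 2 + 4 * A * (-Real.log (1 - r)) := by
  have hF' : DifferentiableOn ℂ (deriv F) (ball 0 1) := hF.deriv isOpen_ball
  set a : ℕ → ℝ := fun n => 2 * π * (‖iteratedDeriv n F 0‖ / n.factorial) ^ 2 with ha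
  have ha0 : ∀ n, 0 ≤ a n := fun n => by positivity
  have h1 := hasSum_parseval hF hr hr1
  have h2 : ∀ s ∈ Icc 0 r, ∀ N, ∑ n ∈ Finset.range N, ((n : ℝ) + 1) ^ 2 * a (n + 1) * s ^ (2 * n)
      ≤ A / (1 - s) ^ 2 := by
    intro s hs N
    refine le_trans (le_of_eq ?_) ((sum_le_hasSum (Finset.range N) (fun n _ => by
      have := hs.1
      positivity) (hasSum_parseval hF' hs.1 (hs.2.trans_lt hr1))).trans (hA s hs))
    refine Finset.sum_congr rfl fun n _ => ?_
    simp only [ha, iteratedDeriv_succ', Nat.factorial_succ]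
    push_cast
    field_simp
  have h3 : ∀ N, ∑ n ∈ Finset.range N, a (n + 1) * r ^ (2 * (n + 1)) ≤
      4 * A * (-Real.log (1 - r)) := by
    intro N
    have e1 : ∫ s in (0 : ℝ)..r, A / (1 - s) = A * (-Real.log (1 - r)) := by
      have := intervalIntegral.integral_eq_sub_of_hasDerivAt (a := 0) (b := r)
        (f := fun s => A * (-Real.log (1 - s))) (f' := fun s => A / (1 - s)) (fun s hs => by
          rw [uIcc_of_le hr] at hs
          have h := (((hasDerivAt_id' s).const_sub 1).log (by linarith [hs.2])).neg.const_mul A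
          refine h.congr_deriv ?_
          ring) (by
          refine ContinuousOn.intervalIntegrable ?_
          rw [uIcc_of_le hr]
          exact continuousOn_const.div (by fun_prop) fun s hs => by linarith [hs.2])
      simpa using this
    have e2 : ∀ n : ℕ, a (n + 1) * r ^ (2 * (n + 1)) ≤
        4 * ∫ s in (0 : ℝ)..r, (r - s) * (((n : ℝ) + 1) ^ 2 * a (n + 1) * s ^ (2 * n)) := by
      intro n
      have e : ∫ s in (0 : ℝ)..r, (r - s) * (((n : ℝ) + 1) ^ 2 * a (n + 1) * s ^ (2 * n)) =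
          ((n : ℝ) + 1) ^ 2 * a (n + 1) * r ^ (2 * (n + 1)) / ((2 * n + 1) * (2 * n + 2)) := by
        have : ∀ s : ℝ, (r - s) * (((n : ℝ) + 1) ^ 2 * a (n + 1) * s ^ (2 * n)) =
            (((n : ℝ) + 1) ^ 2 * a (n + 1) * r) * s ^ (2 * n) -
              (((n : ℝ) + 1) ^ 2 * a (n + 1)) * s ^ (2 * n + 1) := fun s => by ring
        simp_rw [this]
        rw [intervalIntegral.integral_sub (by apply Continuous.intervalIntegrable; fun_prop)
          (by apply Continuous.intervalIntegrable; fun_prop), intervalIntegral.integral_const_mul,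
          intervalIntegral.integral_const_mul, integral_pow, integral_pow]
        push_cast
        field_simp
        ring
      rw [e, ← mul_div_assoc, le_div_iff₀ (by positivity)]
      have : 0 ≤ a (n + 1) * r ^ (2 * (n + 1)) := mul_nonneg (ha0 _) (by positivity)
      have h4 : (2 * (n : ℝ) + 1) * (2 * n + 2) ≤ 4 * (n + 1) ^ 2 := by
        nlinarith [Nat.cast_nonneg (α := ℝ) n]
      nlinarith
    refine (Finset.sum_le_sum fun n _ => e2 n).trans ?_
    rw [← Finset.mul_sum, ← intervalIntegral.integral_finsetSum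
      (fun n _ => by apply Continuous.intervalIntegrable; fun_prop), mul_assoc, ← e1]
    refine mul_le_mul_of_nonneg_left (intervalIntegral.integral_mono_on hr
      (by apply Continuous.intervalIntegrable; fun_prop) ?_ fun s hs => ?_) (by norm_num)
    · refine ContinuousOn.intervalIntegrable ?_
      rw [uIcc_of_le hr]
      exact continuousOn_const.div (by fun_prop) fun s hs => by linarith [hs.2]
    · rw [← Finset.mul_sum]
      have h5 := h2 s hs N
      have h6 : 0 < 1 - s := by linarith [hs.2]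
      have h7 : 0 ≤ ∑ n ∈ Finset.range N, ((n : ℝ) + 1) ^ 2 * a (n + 1) * s ^ (2 * n) :=
        Finset.sum_nonneg fun n _ => by
          have := hs.1
          have := ha0 (n + 1)
          positivity
      calc _ ≤ (1 - s) * (A / (1 - s) ^ 2) :=
            mul_le_mul (by linarith) h5 h7 h6.le
        _ = A / (1 - s) := by field_simp
  have h4 := (hasSum_nat_add_iff' 1).mpr h1
  have h5 := Real.tsum_le_of_sum_range_le (fun n => mul_nonneg (ha0 (n + 1)) (by positivity)) h3
  rw [h4.tsum_eq] at h5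
  simp only [Finset.range_one, Finset.sum_singleton, iteratedDeriv_zero, Nat.factorial_zero,
    Nat.cast_one, div_one, mul_zero, pow_zero, mul_one] at h5
  linarith

/-- Bounded holomorphic functions have boundary values along a subsequence of circles. -/
theorem exists_bdry {f : ℂ → ℂ} (hf : DifferentiableOn ℂ f (ball 0 1)) {M : ℝ}
    (hM : ∀ z ∈ ball (0 : ℂ) 1, ‖f z‖ ≤ M) {ρ : ℕ → ℝ} (hρ : Radii ρ) :
    ∃ (κ : ℕ → ℕ) (g : ℝ → ℂ), StrictMono κ ∧ Bdry (ρ ∘ κ) f g := by
  set a : ℕ → ℝ := fun n => 2 * π * (‖iteratedDeriv n f 0‖ / n.factorial) ^ 2 with ha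
  have ha0 : ∀ n, 0 ≤ a n := fun n => by positivity
  have hc : ∀ i, Continuous fun θ => f (circleMap 0 (ρ i) θ) := fun i =>
    continuous_comp_circleMap hf.continuousOn (hρ.mem i).1.le (hρ.mem i).2
  have hsum : Summable a := by
    refine summable_of_sum_range_le ha0 (c := 2 * π * M ^ 2) fun N => ?_
    have ht : Tendsto (fun i => ∑ n ∈ Finset.range N, a n * ρ i ^ (2 * n)) atTop
        (𝓝 (∑ n ∈ Finset.range N, a n * 1 ^ (2 * n))) :=
      tendsto_finsetSum _ fun n _ => (hρ.tendsto.pow _).const_mul _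
    simp only [one_pow, mul_one] at ht
    refine le_of_tendsto' ht fun i => ?_
    refine (sum_le_hasSum (Finset.range N) (fun n _ => mul_nonneg (ha0 n)
      (pow_nonneg (hρ.mem i).1.le _)) (hasSum_parseval hf (hρ.mem i).1.le (hρ.mem i).2)).trans ?_
    calc _ ≤ ∫ _, M ^ 2 ∂arc := by
          refine integral_mono (integrable_arc_of_continuous ((hc i).norm.pow 2))
            (integrable_const _) fun θ => pow_le_pow_left₀ (norm_nonneg _) (hM _ ?_) 2
          exact circleMap_mem_ball (by rw [abs_of_pos (hρ.mem i).1]; exact (hρ.mem i).2) θ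
      _ = _ := by
          rw [integral_const, Measure.real, arc_univ, ENNReal.toReal_ofReal (by positivity),
            smul_eq_mul]
  set D : ℕ → ℝ := fun i => ∑' n, a n * (1 - ρ i ^ n) ^ 2 with hD
  have hb : ∀ i n, a n * (1 - ρ i ^ n) ^ 2 ≤ a n := fun i n => by
    have h1 : 0 ≤ ρ i ^ n := pow_nonneg (hρ.mem i).1.le n
    have h2 : ρ i ^ n ≤ 1 := pow_le_one₀ (hρ.mem i).1.le (hρ.mem i).2.le
    exact mul_le_of_le_one_right (ha0 n) (by nlinarith)
  have hDs : ∀ i, Summable fun n => a n * (1 - ρ i ^ n) ^ 2 := fun i =>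
    Summable.of_nonneg_of_le (fun n => mul_nonneg (ha0 n) (sq_nonneg _)) (hb i) hsum
  have hD0 : Tendsto D atTop (𝓝 0) := by
    have := tendsto_tsum_of_dominated_convergence (𝓕 := atTop)
      (f := fun i n => a n * (1 - ρ i ^ n) ^ 2) (g := fun n => a n * (1 - 1 ^ n) ^ 2) hsum
      (fun n => (((hρ.tendsto.pow n).const_sub 1).pow 2).const_mul _)
      (Eventually.of_forall fun i n => by
        rw [Real.norm_eq_abs, abs_of_nonneg (mul_nonneg (ha0 n) (sq_nonneg _))]
        exact hb i n)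
    simpa using this
  have hdiff : ∀ i j, ∫ θ, ‖f (circleMap 0 (ρ i) θ) - f (circleMap 0 (ρ j) θ)‖ ^ 2 ∂arc ≤
      2 * D i + 2 * D j := by
    intro i j
    have h := hasSum_parseval_aux (c := fun n => iteratedDeriv n f 0 / n.factorial * (ρ i : ℂ) ^ n -
      iteratedDeriv n f 0 / n.factorial * (ρ j : ℂ) ^ n)
      (Summable.of_nonneg_of_le (fun n => norm_nonneg _) (fun n => norm_sub_le _ _)
        ((summable_taylor hf (hρ.mem i).1.le (hρ.mem i).2).add
          (summable_taylor hf (hρ.mem j).1.le (hρ.mem j).2))) ((hc i).sub (hc j)) (fun θ => by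
        simp_rw [sub_mul]
        exact (hasSum_taylor_circle hf (hρ.mem i).1.le (hρ.mem i).2 θ).sub
          (hasSum_taylor_circle hf (hρ.mem j).1.le (hρ.mem j).2 θ))
    refine hasSum_le (fun n => ?_) h
      (((hDs i).hasSum.mul_left 2).add ((hDs j).hasSum.mul_left 2))
    rw [← mul_sub, norm_mul, norm_div, Complex.norm_natCast, mul_pow, ← mul_assoc]
    have e : ‖(ρ i : ℂ) ^ n - (ρ j : ℂ) ^ n‖ ^ 2 = (ρ i ^ n - ρ j ^ n) ^ 2 := by
      rw [← Complex.ofReal_pow, ← Complex.ofReal_pow, ← Complex.ofReal_sub, Complex.norm_real,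
        Real.norm_eq_abs, sq_abs]
    rw [e]
    have := ha0 n
    change a n * _ ≤ _
    nlinarith [mul_nonneg this (sq_nonneg ((1 - ρ i ^ n) + (1 - ρ j ^ n)))]
  obtain ⟨κ, hκ, hκD⟩ := extraction_forall_of_eventually (P := fun i j => D j < (1 / 8) ^ i)
    fun i => hD0.eventually (gt_mem_nhds (by positivity))
  set Δ : ℕ → ℝ → ℝ := fun i θ =>
    4 ^ i * ‖f (circleMap 0 (ρ (κ i)) θ) - f (circleMap 0 (ρ (κ (i + 1))) θ)‖ ^ 2 with hΔ
  have hΔc : ∀ i, Continuous (Δ i) := fun i =>
    continuous_const.mul (((hc _).sub (hc _)).norm.pow 2)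
  have hΔ0 : ∀ i θ, 0 ≤ Δ i θ := fun i θ => by positivity
  have hfin : ∫⁻ θ, ∑' i, ENNReal.ofReal (Δ i θ) ∂arc ≠ ⊤ := by
    rw [lintegral_tsum fun i => (hΔc i).measurable.ennreal_ofReal.aemeasurable]
    have hs : Summable fun i : ℕ => 4 * (1 / 2 : ℝ) ^ i := summable_geometric_two.mul_left 4
    refine ne_top_of_le_ne_top (b := ∑' i : ℕ, ENNReal.ofReal (4 * (1 / 2 : ℝ) ^ i)) ?_
      (ENNReal.tsum_le_tsum fun i => ?_)
    · rw [← ENNReal.ofReal_tsum_of_nonneg (fun i => by positivity) hs]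
      exact ENNReal.ofReal_ne_top
    · rw [← ofReal_integral_eq_lintegral_ofReal (integrable_arc_of_continuous (hΔc i))
        (Eventually.of_forall (hΔ0 i))]
      refine ENNReal.ofReal_le_ofReal ?_
      rw [hΔ]
      simp only
      rw [integral_const_mul]
      have h1 := hdiff (κ i) (κ (i + 1))
      have h2 := hκD i
      have h3 := hκD (i + 1)
      have h4 : (1 / 8 : ℝ) ^ (i + 1) ≤ (1 / 8) ^ i :=
        pow_le_pow_of_le_one (by norm_num) (by norm_num) (Nat.le_succ i)
      calc _ ≤ (4 : ℝ) ^ i * (4 * (1 / 8) ^ i) :=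
            mul_le_mul_of_nonneg_left (by linarith) (by positivity)
        _ = _ := by
            rw [mul_left_comm, ← mul_pow]
            norm_num
  have hae : ∀ᵐ θ ∂arc, ∃ l, Tendsto (fun i => f (circleMap 0 (ρ (κ i)) θ)) atTop (𝓝 l) := by
    filter_upwards [ae_lt_top' (AEMeasurable.tsum
      fun i => (hΔc i).measurable.ennreal_ofReal.aemeasurable) hfin] with θ hθ
    refine cauchySeq_tendsto_of_complete (cauchySeq_of_le_geometric (1 / 2)
      (Real.sqrt (∑' i, ENNReal.ofReal (Δ i θ)).toReal) (by norm_num) fun i => ?_)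
    have h1 : Δ i θ ≤ (∑' i, ENNReal.ofReal (Δ i θ)).toReal :=
      (ENNReal.ofReal_le_iff_le_toReal hθ.ne).mp (ENNReal.le_tsum i)
    have h2 := Real.sqrt_le_sqrt h1
    rw [hΔ] at h2
    simp only at h2
    rw [Real.sqrt_mul (by positivity), Real.sqrt_sq (norm_nonneg _),
      show (4 : ℝ) ^ i = (2 ^ i) ^ 2 by rw [← pow_mul, mul_comm, pow_mul]; norm_num,
      Real.sqrt_sq (by positivity)] at h2
    rw [dist_eq_norm, one_div, inv_pow, ← div_eq_mul_inv, le_div_iff₀ (by positivity), mul_comm]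
    exact h2
  obtain ⟨g, hg, hgt⟩ := exists_stronglyMeasurable_limit_of_tendsto_ae
    (fun i => (hc (κ i)).aestronglyMeasurable) hae
  exact ⟨κ, g, hκ, hg.measurable, hgt⟩

end Pool.Agent.Lib.MP_3a6b94_an
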