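import Pool.Agent.Lib.MP_3a6b94_an.BeurlingHalf

open MeasureTheory Set Metric Filter Topology
open scoped ENNReal NNReal Real ComplexConjugate

namespace Pool.Agent.Lib.MP_3a6b94_an

/-- A bounded holomorphic function in the upper half plane with divergent logarithmic integral
vanishes. -/
theorem eq_zero_of_log_divergent {F : ℂ → ℂ} (hF : Differentiable ℂ F) {A : ℝ}
    (hA : ∀ s : ℂ, 0 ≤ s.im → ‖F s‖ ≤ A) {M : ℕ → ℝ} (hM0 : ∀ N, 0 ≤ M N)
    (hM : ¬ Summable fun N : ℕ => M N / ((N : ℝ) + 1) ^ 2)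
    (hFM : ∀ (N : ℕ) (s : ℝ), s ∈ Icc ((N : ℝ) + 1) (N + 2) → ‖F s‖ ≤ A * Real.exp (-M N))
    (s : ℂ) : F s = 0 :=
  eq_zero_of_log_divergent_aux hF hA hM0 hM hFM s

theorem exists_density {K : Set ℝ} (hK : volume K ≠ 0) :
    ∃ t ∈ K, ∃ c : ℝ, 0 < c ∧
      ∀ d ∈ Ioc (0 : ℝ) 1, ENNReal.ofReal (c * d) ≤ volume (K ∩ closedBall t d) := by
  have h1 := Besicovitch.ae_tendsto_measure_inter_div (volume : Measure ℝ) K
  obtain ⟨t, htK, ht⟩ := Measure.exists_mem_of_measure_ne_zero_of_ae hK h1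
  have h2 : ∀ᶠ r in 𝓝[>] (0 : ℝ),
      (1 / 2 : ℝ≥0∞) < volume (K ∩ closedBall t r) / volume (closedBall t r) :=
    ht.eventually (lt_mem_nhds (by simp))
  obtain ⟨δ, hδ, hδ'⟩ := (mem_nhdsGT_iff_exists_Ioc_subset).mp h2
  have h3 : ∀ r ∈ Ioc 0 δ, ENNReal.ofReal r ≤ volume (K ∩ closedBall t r) := by
    intro r hr
    have h4 : (1 / 2 : ℝ≥0∞) < volume (K ∩ closedBall t r) / volume (closedBall t r) := hδ' hr
    rw [Real.volume_closedBall, ENNReal.lt_div_iff_mul_lt (Or.inl (by simpa using hr.1))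
      (Or.inl ENNReal.ofReal_ne_top), ENNReal.ofReal_mul zero_le_two, ← mul_assoc,
      ENNReal.ofReal_ofNat, one_div, ENNReal.inv_mul_cancel two_ne_zero (by simp), one_mul] at h4
    exact h4.le
  have hδ0 : 0 < δ := hδ
  refine ⟨t, htK, min δ 1, lt_min hδ0 one_pos, fun d hd => ?_⟩
  refine (h3 _ ⟨mul_pos (lt_min hδ0 one_pos) hd.1, ?_⟩).trans
    (measure_mono (inter_subset_inter_right _ (closedBall_subset_closedBall ?_)))
  · exact (mul_le_of_le_one_right (lt_min hδ0 one_pos).le hd.2).trans (min_le_left _ _)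
  · exact mul_le_of_le_one_left hd.1.le (min_le_right _ _)

theorem poisson_le {z : ℂ} (hz : z ∈ ball (0 : ℂ) 1) (θ : ℝ) :
    poissonKernel 0 z (circleMap 0 1 θ) ≤ 2 / (1 - ‖z‖) := by
  have h1 := re_herglotzRieszKernel_le (circleMap_mem_sphere 0 zero_le_one θ) hz
  have h2 := mem_ball_zero_iff.mp hz
  rw [poissonKernel_eq_re_herglotzRieszKernel, Function.comp_apply]
  refine h1.trans ?_
  rw [sub_zero]
  exact div_le_div_of_nonneg_right (by linarith) (by linarith)

theorem harm_lower {K : Set ℝ} (hKm : MeasurableSet K) (hK : K ⊆ Ioc 0 (2 * π)) {t c : ℝ}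
    (hc : 0 < c)
    (hd : ∀ d ∈ Ioc (0 : ℝ) 1, ENNReal.ofReal (c * d) ≤ volume (K ∩ closedBall t d))
    {x : ℝ} (hx : x ∈ Ioo (0 : ℝ) 1) {L : ℝ} (hL : 0 ≤ L) :
    c / 4 * L ≤ ∫ θ, poissonKernel 0 (x * circleMap 0 1 t) (circleMap 0 1 θ) *
      K.indicator (fun _ => L) θ ∂arc := by
  have hz : (x : ℂ) * circleMap 0 1 t ∈ ball (0 : ℂ) 1 := by simpa [abs_of_pos hx.1] using hx.2
  have hd0 : 0 < 1 - x := by linarith [hx.2]
  set S := K ∩ closedBall t (1 - x) with hS
  have hSm : MeasurableSet S := hKm.inter measurableSet_closedBall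
  have hP := continuous_poissonKernel hz
  have hP0 := poissonKernel_nonneg (mem_ball_zero_iff.mp hz).le
  have i1 : Integrable (fun θ => poissonKernel 0 (x * circleMap 0 1 t) (circleMap 0 1 θ) *
      K.indicator (fun _ => L) θ) arc :=
    (integrable_arc_of_continuous hP).mul_bdd (c := L)
      (measurable_const.indicator hKm).aestronglyMeasurable
      (Eventually.of_forall fun θ => by
        by_cases h : θ ∈ K <;> simp [h, hL, abs_of_nonneg hL])
  have h1 : ∫ θ, S.indicator (fun _ => L / (4 * (1 - x))) θ ∂arc ≤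
      ∫ θ, poissonKernel 0 (x * circleMap 0 1 t) (circleMap 0 1 θ) *
        K.indicator (fun _ => L) θ ∂arc := by
    refine integral_mono ((integrable_const _).indicator hSm) i1 fun θ => ?_
    by_cases h : θ ∈ S
    · simp only [indicator_of_mem h, indicator_of_mem h.1]
      rw [div_eq_mul_one_div, mul_comm]
      refine mul_le_mul_of_nonneg_right ?_ hL
      have h2 : ‖circleMap 0 1 θ - circleMap 0 1 t‖ ≤ 1 - x := by
        have := (lipschitzWith_circleMap 0 1).dist_le_mul θ t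
        rw [dist_eq_norm] at this
        simp only [Real.nnabs_of_nonneg zero_le_one, Real.toNNReal_one, NNReal.coe_one,
          one_mul] at this
        exact this.trans h.2
      have h3 : ‖circleMap 0 1 t - x * circleMap 0 1 t‖ = 1 - x := by
        have : circleMap 0 1 t - x * circleMap 0 1 t = ((1 - x : ℝ) : ℂ) * circleMap 0 1 t := by
          push_cast
          ring
        rw [this, norm_mul, norm_e, Complex.norm_real, Real.norm_of_nonneg hd0.le, mul_one]
      have h4 : ‖circleMap 0 1 θ - x * circleMap 0 1 t‖ ≤ 2 * (1 - x) := by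
        have := norm_sub_le_norm_sub_add_norm_sub (circleMap 0 1 θ) (circleMap 0 1 t)
          (x * circleMap 0 1 t)
        linarith
      have h5 : 0 < ‖circleMap 0 1 θ - x * circleMap 0 1 t‖ :=
        norm_pos_iff.mpr (sub_ne_zero.mpr (circleMap_ne_mem_ball hz θ))
      have h6 := pow_le_pow_left₀ h5.le h4 2
      rw [poissonKernel_def, sub_zero, sub_zero, norm_e, norm_mul, norm_e, Complex.norm_real,
        Real.norm_of_nonneg hx.1.le, div_le_div_iff₀ (by positivity) (by positivity)]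
      nlinarith [hx.1, mul_pos hd0 hd0]
    · simp only [indicator_of_notMem h]
      exact mul_nonneg (hP0 θ) (indicator_nonneg (fun _ _ => hL) θ)
  refine le_trans ?_ h1
  have h7 : arc S = volume S := by
    rw [arc, Measure.restrict_apply hSm, inter_eq_left.mpr (inter_subset_left.trans hK)]
  have h8 : c * (1 - x) ≤ arc.real S := by
    rw [Measure.real, ← ENNReal.ofReal_le_iff_le_toReal (measure_ne_top _ _), h7]
    exact hd _ ⟨hd0, by linarith [hx.1]⟩
  rw [integral_indicator_const _ hSm, smul_eq_mul]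
  calc c / 4 * L = c * (1 - x) * (L / (4 * (1 - x))) := by field_simp
    _ ≤ _ := mul_le_mul_of_nonneg_right h8 (by positivity)

theorem norm_cutExp_le {s : ℂ} {l R : ℝ} (hl : l ∈ Icc 0 (2 * π)) (hR : 0 ≤ R) (hs : -R ≤ s.im) :
    ‖cutExp s l‖ ≤ 2 * Real.exp (2 * π * R) := by
  have h1 : ‖1 - Complex.exp (Complex.I * l)‖ ≤ 2 := by
    have := norm_sub_le 1 (Complex.exp (Complex.I * l))
    rw [Complex.norm_exp_I_mul_ofReal, norm_one] at this
    linarith
  rw [cutExp, norm_mul, Complex.norm_exp]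
  refine mul_le_mul h1 (Real.exp_le_exp.mpr ?_) (Real.exp_pos _).le zero_le_two
  simp only [Complex.mul_re, Complex.I_re, zero_mul, Complex.I_im, one_mul, zero_sub,
    Complex.ofReal_re, Complex.ofReal_im, mul_zero, sub_zero]
  nlinarith [hl.1, hl.2]

theorem differentiable_cut {h : ℝ → ℂ} (hh : Integrable h arc) {l : ℝ → ℝ} (hlm : Measurable l)
    (hl : ∀ θ ∈ Ioc 0 (2 * π), l θ ∈ Ioc 0 (2 * π)) :
    Differentiable ℂ fun s => ∫ θ, h θ * cutExp s (l θ) ∂arc := by
  intro s₀
  have hae : ∀ᵐ θ ∂arc, θ ∈ Ioc 0 (2 * π) := ae_restrict_mem measurableSet_Ioc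
  have hm : ∀ s : ℂ, AEStronglyMeasurable (fun θ => cutExp s (l θ)) arc := fun s =>
    ((continuous_cutExp s).measurable.comp hlm).aestronglyMeasurable
  have hb : ∀ s ∈ ball s₀ 1, ∀ θ ∈ Ioc 0 (2 * π),
      ‖cutExp s (l θ)‖ ≤ 2 * Real.exp (2 * π * (‖s₀‖ + 1)) := by
    intro s hs θ hθ
    refine norm_cutExp_le (Ioc_subset_Icc_self (hl θ hθ)) (by positivity) ?_
    have h1 := (abs_le.mp (Complex.abs_im_le_norm s)).1
    have h2 := norm_le_of_mem_closedBall (ball_subset_closedBall hs)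
    linarith
  refine (hasDerivAt_integral_of_dominated_loc_of_deriv_le (μ := arc)
    (F := fun s θ => h θ * cutExp s (l θ))
    (F' := fun s θ => h θ * (cutExp s (l θ) * (Complex.I * l θ)))
    (bound := fun θ => ‖h θ‖ * (2 * Real.exp (2 * π * (‖s₀‖ + 1)) * (2 * π)))
    (ball_mem_nhds s₀ one_pos) (Eventually.of_forall fun s => hh.1.mul (hm s))
    (hh.mul_bdd (hm s₀) (hae.mono (hb s₀ (mem_ball_self one_pos))))
    (hh.1.mul ((hm s₀).mul (Measurable.aestronglyMeasurable (by fun_prop))))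
    (hae.mono fun θ hθ s hs => ?_) (hh.norm.mul_const _)
    (Eventually.of_forall fun θ s _ => ?_)).2.differentiableAt
  · rw [norm_mul, norm_mul, norm_mul, Complex.norm_I, one_mul, Complex.norm_real,
      Real.norm_of_nonneg (hl θ hθ).1.le]
    exact mul_le_mul_of_nonneg_left
      (mul_le_mul (hb s hs θ hθ) (hl θ hθ).2 (hl θ hθ).1.le (by positivity)) (norm_nonneg _)
  · have h1 := ((((hasDerivAt_id s).const_mul Complex.I).mul_const (l θ : ℂ)).cexp.const_mul
      (1 - Complex.exp (Complex.I * l θ))).const_mul (h θ)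
    simpa only [cutExp, id, mul_one, mul_assoc] using h1

/-- Beurling's theorem, `L¹` version. -/
theorem beurling_one {h : ℝ → ℂ} (hh : Integrable h arc)
    {E : Set ℝ} (hEm : MeasurableSet E) (hE : arc E ≠ 0) (h0 : ∀ᵐ θ ∂arc, θ ∈ E → h θ = 0)
    {T : ℕ → ℝ → ℂ} (hTi : ∀ N, Integrable (T N) arc) {A : ℝ} (hA : 0 ≤ A) {M : ℕ → ℝ}
    (hM0 : ∀ N, 0 ≤ M N) (hM : ¬ Summable fun N : ℕ => M N / ((N : ℝ) + 1) ^ 2)
    (hT : ∀ N, ∫ θ, ‖T N θ‖ ∂arc ≤ A * Real.exp (-M N))
    (horth : ∀ N n : ℕ, N ≤ n → ∫ θ, (h θ - T N θ) * circleMap 0 1 θ ^ (n + 1) ∂arc = 0)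
    (n : ℕ) : ∫ θ, h θ * circleMap 0 1 θ ^ (n + 1) ∂arc = 0 := by
  classical
  have hae : ∀ᵐ θ ∂arc, θ ∈ Ioc 0 (2 * π) := ae_restrict_mem measurableSet_Ioc
  -- a compact subset and a point of density
  have hE' : 0 < volume (E ∩ Ioc 0 (2 * π)) := by
    rw [arc, Measure.restrict_apply hEm] at hE
    exact pos_iff_ne_zero.mpr hE
  obtain ⟨K, hKE, hKc, hK0⟩ := (hEm.inter measurableSet_Ioc).exists_lt_isCompact hE'
  obtain ⟨t, htK, c, hc, hdens⟩ := exists_density hK0.ne'
  have hKm : MeasurableSet K := hKc.isClosed.measurableSet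
  have ht := (hKE htK).2
  set u := circleMap 0 1 t with hu
  have hu1 : ‖u‖ = 1 := norm_e t
  have huu : u * conj u = 1 := by rw [Complex.mul_conj, Complex.normSq_eq_norm_sq, hu1]; simp
  set l : ℝ → ℝ := fun θ => if t < θ then θ - t else θ - t + 2 * π with hl
  have hlm : Measurable l := Measurable.ite measurableSet_Ioi (by fun_prop) (by fun_prop)
  have hlp : ∀ θ ∈ Ioc 0 (2 * π), l θ ∈ Ioc 0 (2 * π) ∧
      circleMap 0 1 θ = u * Complex.exp (Complex.I * l θ) := by
    intro θ hθ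
    simp only [hl, hu, circleMap, zero_add, Complex.ofReal_one, one_mul, ← Complex.exp_add]
    split_ifs with h1
    · refine ⟨⟨by linarith, by linarith [hθ.2, ht.1]⟩, ?_⟩
      congr 1
      push_cast
      ring
    · refine ⟨⟨by linarith [hθ.1, ht.2], by linarith⟩, ?_⟩
      rw [← mul_one (Complex.exp (θ * Complex.I)), ← Complex.exp_two_pi_mul_I, ← Complex.exp_add]
      congr 1
      push_cast
      ring
  have hexp : ∀ θ ∈ Ioc 0 (2 * π), ∀ k : ℕ,
      Complex.exp (Complex.I * k * l θ) = (conj u * circleMap 0 1 θ) ^ k := by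
    intro θ hθ k
    rw [(hlp θ hθ).2, ← mul_assoc (conj u), mul_comm (conj u), huu, one_mul,
      ← Complex.exp_nat_mul]
    congr 1
    ring
  have hcm : ∀ s : ℂ, AEStronglyMeasurable (fun θ => cutExp s (l θ)) arc := fun s =>
    ((continuous_cutExp s).measurable.comp hlm).aestronglyMeasurable
  have hcb : ∀ s : ℂ, 0 ≤ s.im → ∀ᵐ θ ∂arc, ‖cutExp s (l θ)‖ ≤ 2 := fun s hs =>
    hae.mono fun θ hθ => by
      simpa using norm_cutExp_le (R := 0) (Ioc_subset_Icc_self (hlp θ hθ).1) le_rfl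
        (by simpa using hs)
  have hbd : ∀ {g : ℝ → ℂ}, Integrable g arc → ∀ s : ℂ, 0 ≤ s.im →
      ‖∫ θ, g θ * cutExp s (l θ) ∂arc‖ ≤ 2 * ∫ θ, ‖g θ‖ ∂arc := by
    intro g hg s hs
    rw [← integral_const_mul]
    refine norm_integral_le_of_norm_le (hg.norm.const_mul 2) ((hcb s hs).mono fun θ hθ => ?_)
    rw [norm_mul, mul_comm]
    exact mul_le_mul_of_nonneg_right hθ (norm_nonneg _)
  set H : ℝ := ∫ θ, ‖h θ‖ ∂arc with hH
  have hH0 : 0 ≤ H := integral_nonneg fun θ => norm_nonneg _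
  set κ : ℝ := min (c / (8 * π)) 1 with hκ
  have hκ0 : 0 < κ := lt_min (by positivity) one_pos
  -- the main estimate
  have hmain : ∀ (N : ℕ) (s : ℝ), s ∈ Icc ((N : ℝ) + 1) (N + 2) →
      ‖∫ θ, h θ * cutExp s (l θ) ∂arc‖ ≤ (2 * H + 6 * A) * Real.exp (-(κ * M N)) := by
    intro N s hs
    set Φ : ℝ → ℂ := fun θ => (h θ - T N θ) * circleMap 0 1 θ ^ N with hΦ
    have hΦi : Integrable Φ arc := integrable_mul_cont (hh.sub (hTi N)) (by fun_prop)
    have hΦn : ∀ θ, ‖Φ θ‖ = ‖h θ - T N θ‖ := fun θ => by simp [hΦ]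
    have ho : ∀ k : ℕ, ∫ θ, Φ θ * circleMap 0 1 θ ^ (k + 1) ∂arc = 0 := fun k => by
      refine Eq.trans (integral_congr_ae (Eventually.of_forall fun θ => ?_))
        (horth N (N + k) (Nat.le_add_right N k))
      simp only [hΦ]
      ring
    have hTA : ∫ θ, ‖T N θ‖ ∂arc ≤ A :=
      (hT N).trans (mul_le_of_le_one_right hA (Real.exp_le_one_iff.mpr (by linarith [hM0 N])))
    have e1 : Real.exp (-M N) ≤ Real.exp (-(κ * M N)) := Real.exp_le_exp.mpr (by
      have := mul_le_mul_of_nonneg_right (min_le_right (c / (8 * π)) 1) (hM0 N)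
      linarith)
    have hray : ∀ x ∈ Ioo (0 : ℝ) 1,
        (1 - x) * ‖∫ θ, Φ θ * (1 / (1 - x * u * conj (circleMap 0 1 θ))) ∂arc‖ ≤
          (2 * H + 4 * A) * Real.exp (-(κ * M N)) := by
      intro x hx
      have hz : (x : ℂ) * u ∈ ball (0 : ℂ) 1 := by simpa [abs_of_pos hx.1, hu1] using hx.2
      have hzn : ‖(x : ℂ) * u‖ = x := by simp [abs_of_pos hx.1, hu1]
      have hd0 : 0 < 1 - x := by linarith [hx.2]
      have h1 := two_const hΦi ho (μ := K.indicator fun _ => M N)
        (measurable_const.indicator hKm) (L := M N) (indicator_nonneg fun _ _ => hM0 N)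
        (fun θ => indicator_le_self' (fun _ _ => hM0 N) θ) (fun θ _ => by
          by_cases hθ : θ ∈ K
          · exact Or.inr (indicator_of_mem hθ _)
          · refine Or.inl (continuousAt_const.congr (f := fun _ => (0 : ℝ)) ?_)
            filter_upwards [hKc.isClosed.isOpen_compl.mem_nhds hθ] with y hy
            exact (indicator_of_notMem hy _).symm) hz
      have h2 := harm_lower hKm (hKE.trans inter_subset_right) hc hdens hx (hM0 N)
      have h3 : κ * M N ≤ (2 * π)⁻¹ * ∫ θ, poissonKernel 0 (x * u) (circleMap 0 1 θ) *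
          K.indicator (fun _ => M N) θ ∂arc :=
        calc κ * M N ≤ c / (8 * π) * M N :=
              mul_le_mul_of_nonneg_right (min_le_left _ _) (hM0 N)
          _ = (2 * π)⁻¹ * (c / 4 * M N) := by field_simp; ring
          _ ≤ _ := mul_le_mul_of_nonneg_left h2 (by positivity)
      have h4 : ∫ θ, poissonKernel 0 (x * u) (circleMap 0 1 θ) *
          (‖Φ θ‖ * Real.exp (K.indicator (fun _ => M N) θ)) ∂arc ≤
          ∫ θ, 2 / (1 - x) * (‖T N θ‖ * Real.exp (M N) + (‖h θ‖ + ‖T N θ‖)) ∂arc := by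
        refine integral_mono_of_nonneg (Eventually.of_forall fun θ => mul_nonneg
          (poissonKernel_nonneg (mem_ball_zero_iff.mp hz).le θ) (by positivity))
          ((((hTi N).norm.mul_const _).add (hh.norm.add (hTi N).norm)).const_mul _)
          (h0.mono fun θ hθ => ?_)
        have h5 := poisson_le hz θ
        rw [hzn] at h5
        refine mul_le_mul h5 ?_ (by positivity) (by positivity)
        rw [hΦn]
        by_cases hθK : θ ∈ K
        · rw [indicator_of_mem hθK, hθ (hKE hθK).1, zero_sub, norm_neg]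
          exact le_add_of_nonneg_right (by positivity)
        · rw [indicator_of_notMem hθK, Real.exp_zero, mul_one]
          exact (norm_sub_le _ _).trans (le_add_of_nonneg_left (by positivity))
      have i3 : Integrable (fun θ => ‖h θ‖ + ‖T N θ‖) arc := hh.norm.add (hTi N).norm
      rw [integral_const_mul, integral_add ((hTi N).norm.mul_const _) i3,
        integral_add hh.norm (hTi N).norm, integral_mul_const] at h4
      have h6 : (∫ θ, ‖T N θ‖ ∂arc) * Real.exp (M N) ≤ A := by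
        have := mul_le_mul_of_nonneg_right (hT N) (Real.exp_pos (M N)).le
        rwa [mul_assoc, ← Real.exp_add, neg_add_cancel, Real.exp_zero, mul_one] at this
      have h7 := (mul_le_mul_of_nonneg_left (Real.exp_le_exp.mpr h3) (norm_nonneg _)).trans
        (h1.trans (h4.trans (mul_le_mul_of_nonneg_left
          (add_le_add h6 (add_le_add (le_refl H) hTA)) (by positivity))))
      rw [poisson_eq_cauchy hΦi ho hz, Real.exp_neg, ← div_eq_mul_inv,
        le_div_iff₀ (Real.exp_pos _), mul_assoc, ← le_div_iff₀' hd0]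
      refine h7.trans_eq ?_
      field_simp
      ring
    have h1 := mellin_bound hΦi ho hu1 hlm hlp (s := s - N)
      ⟨by linarith [hs.1], by linarith [hs.2]⟩ hray
    have h2 : ∫ θ, h θ * cutExp s (l θ) ∂arc =
        conj u ^ N * ∫ θ, Φ θ * cutExp (s - N : ℝ) (l θ) ∂arc +
          ∫ θ, T N θ * cutExp s (l θ) ∂arc := by
      rw [← integral_const_mul, ← integral_add
        ((hΦi.mul_bdd (hcm _) (hcb _ (by simp))).const_mul _)
        ((hTi N).mul_bdd (hcm _) (hcb _ (by simp)))]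
      refine integral_congr_ae (hae.mono fun θ hθ => ?_)
      have h3 : cutExp s (l θ) =
          cutExp (s - N : ℝ) (l θ) * (conj u * circleMap 0 1 θ) ^ N := by
        rw [← hexp θ hθ, cutExp, cutExp, mul_assoc _ (Complex.exp _), ← Complex.exp_add]
        congr 2
        push_cast
        ring
      simp only [hΦ, h3, mul_pow]
      ring
    have h4 := hbd (hTi N) s (by simp)
    have h5 := norm_add_le (conj u ^ N * ∫ θ, Φ θ * cutExp (s - N : ℝ) (l θ) ∂arc)
      (∫ θ, T N θ * cutExp s (l θ) ∂arc)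
    rw [norm_mul, norm_pow, Complex.norm_conj, hu1, one_pow, one_mul] at h5
    have h6 := mul_le_mul_of_nonneg_left e1 hA
    rw [h2]
    nlinarith [hT N]
  have hF := eq_zero_of_log_divergent (differentiable_cut hh hlm fun θ hθ => (hlp θ hθ).1)
    (A := 2 * H + 6 * A) (fun s hs => (hbd hh s hs).trans (by linarith)) (M := fun N => κ * M N)
    (fun N => mul_nonneg hκ0.le (hM0 N)) (fun hs => hM (by
      simp only [mul_div_assoc] at hs
      exact (summable_mul_left_iff hκ0.ne').mp hs)) hmain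
  -- consecutive coefficients have the same modulus
  set a : ℕ → ℝ := fun k => ‖∫ θ, h θ * circleMap 0 1 θ ^ (k + 1) ∂arc‖ with ha
  have hstep : ∀ k, a (k + 1) = a k := by
    intro k
    have h1 := hF ((k + 1 : ℕ) : ℂ)
    have h2 : ∫ θ, h θ * cutExp ((k + 1 : ℕ) : ℂ) (l θ) ∂arc =
        conj u ^ (k + 1) * ∫ θ, h θ * circleMap 0 1 θ ^ (k + 1) ∂arc -
          conj u ^ (k + 1 + 1) * ∫ θ, h θ * circleMap 0 1 θ ^ (k + 1 + 1) ∂arc := by
      rw [← integral_const_mul, ← integral_const_mul, ← integral_sub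
        ((integrable_mul_cont hh (by fun_prop)).const_mul _)
        ((integrable_mul_cont hh (by fun_prop)).const_mul _)]
      refine integral_congr_ae (hae.mono fun θ hθ => ?_)
      have h3 := hexp θ hθ 1
      simp only [Nat.cast_one, mul_one, pow_one] at h3
      simp only [cutExp, hexp θ hθ, h3, mul_pow]
      ring
    rw [h2, sub_eq_zero] at h1
    have h4 := congrArg norm h1
    simp only [norm_mul, norm_pow, Complex.norm_conj, hu1, one_pow, one_mul] at h4
    exact h4.symm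
  have hconst : ∀ k, a k = a 0 := fun k => by
    induction k with
    | zero => rfl
    | succ k ih => rw [hstep, ih]
  have hsmall : ∀ N, a N ≤ A * Real.exp (-M N) := by
    intro N
    have h1 := horth N N le_rfl
    simp only [sub_mul] at h1
    rw [integral_sub (integrable_mul_cont hh (by fun_prop))
      (integrable_mul_cont (hTi N) (by fun_prop)), sub_eq_zero] at h1
    simp only [ha, h1]
    exact (norm_integral_le_of_norm_le (hTi N).norm
      (Eventually.of_forall fun θ => by simp)).trans (hT N)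
  by_contra hne
  have ha0 : 0 < a 0 := by
    rw [← hconst n]
    exact norm_pos_iff.mpr hne
  refine hM (Summable.of_nonneg_of_le (fun N => div_nonneg (hM0 N) (by positivity)) (fun N => ?_)
    (summable_inv_sq.mul_left (A / a 0)))
  rw [mul_one_div]
  refine div_le_div_of_nonneg_right ?_ (by positivity)
  have h1 := hsmall N
  rw [hconst, Real.exp_neg, ← div_eq_mul_inv, le_div_iff₀ (Real.exp_pos _),
    ← le_div_iff₀' ha0] at h1
  linarith [Real.add_one_le_exp (M N)]

/-- Beurling's quasianalyticity theorem on the circle. -/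
theorem beurling {q : ℝ} (hq : 1 < q) {h : ℝ → ℂ} (hh : MemLp h (ENNReal.ofReal q) arc)
    {E : Set ℝ} (hEm : MeasurableSet E) (hE : arc E ≠ 0) (h0 : ∀ᵐ θ ∂arc, θ ∈ E → h θ = 0)
    {T : ℕ → ℝ → ℂ} (hTm : ∀ N, AEStronglyMeasurable (T N) arc) {A : ℝ} {M : ℕ → ℝ}
    (hM0 : ∀ N, 0 ≤ M N) (hM : ¬ Summable fun N : ℕ => M N / ((N : ℝ) + 1) ^ 2)
    (hT : ∀ N, eLpNorm (T N) (ENNReal.ofReal q) arc ≤ ENNReal.ofReal (A * Real.exp (-M N)))
    (horth : ∀ N n : ℕ, N ≤ n → ∫ θ, (h θ - T N θ) * circleMap 0 1 θ ^ (n + 1) ∂arc = 0)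
    (n : ℕ) : ∫ θ, h θ * circleMap 0 1 θ ^ (n + 1) ∂arc = 0 := by
  have hq1 : (1 : ℝ≥0∞) ≤ ENNReal.ofReal q := ENNReal.one_le_ofReal.mpr hq.le
  have hTp : ∀ N, MemLp (T N) (ENNReal.ofReal q) arc := fun N =>
    ⟨hTm N, (hT N).trans_lt ENNReal.ofReal_lt_top⟩
  have hTi : ∀ N, Integrable (T N) arc := fun N => (hTp N).integrable hq1
  set κ : ℝ≥0∞ := arc univ ^ (1 / (1 : ℝ≥0∞).toReal - 1 / (ENNReal.ofReal q).toReal) with hκ
  have hκt : κ ≠ ⊤ := by
    rw [hκ, arc_univ, ENNReal.ofReal_rpow_of_pos (by positivity)]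
    exact ENNReal.ofReal_ne_top
  refine beurling_one (hh.integrable hq1) hEm hE h0 hTi (A := |A| * κ.toReal) (by positivity) hM0
    hM (fun N => ?_) horth n
  have h1 := eLpNorm_le_eLpNorm_mul_rpow_measure_univ hq1 (hTm N)
  have h2 : ENNReal.ofReal (A * Real.exp (-M N)) ≤ ENNReal.ofReal (|A| * Real.exp (-M N)) :=
    ENNReal.ofReal_le_ofReal (mul_le_mul_of_nonneg_right (le_abs_self A) (Real.exp_pos _).le)
  have h3 := h1.trans (mul_le_mul_left ((hT N).trans h2) κ)
  rw [eLpNorm_one_eq_lintegral_enorm, ← ofReal_integral_norm_eq_lintegral_enorm (hTi N),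
    ← ENNReal.ofReal_toReal hκt, ← ENNReal.ofReal_mul (by positivity),
    ENNReal.ofReal_le_ofReal_iff (by positivity)] at h3
  linarith

end Pool.Agent.Lib.MP_3a6b94_an
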