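import Pool.Agent.Lib.MP_3a6b94_an.Tools

open MeasureTheory Set Metric Filter Topology
open scoped ENNReal NNReal Real

namespace Pool.Agent.Lib.MP_3a6b94_an

theorem integrableOn_div_sub {Ω : Set ℂ} (hΩ : MeasurableSet Ω) {g : ℂ → ℂ}
    (hg : IntegrableOn g Ω) {a : ℂ} (ha : a ∉ closure Ω) :
    IntegrableOn (fun z => g z / (z - a)) Ω := by
  obtain ⟨δ, hδ, hball⟩ := Metric.isOpen_iff.1 isClosed_closure.isOpen_compl a ha
  simp only [div_eq_mul_inv]
  refine Integrable.mul_bdd (c := δ⁻¹) hg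
    ((measurable_id.sub_const a).inv.aestronglyMeasurable) ?_
  filter_upwards [ae_restrict_mem hΩ] with z hz
  have : δ ≤ ‖z - a‖ := by
    by_contra h
    exact hball (mem_ball_iff_norm.2 (not_le.1 h)) (subset_closure hz)
  rw [norm_inv]
  exact inv_anti₀ hδ this

theorem cauchy_far {Ω : Set ℂ} (hΩ : MeasurableSet Ω) {R : ℝ} (hR : Ω ⊆ closedBall 0 R)
    (hR0 : 0 ≤ R) {g : ℂ → ℂ} (hg : IntegrableOn g Ω) (h0 : ∀ n : ℕ, ∫ z in Ω, g z * z ^ n = 0)
    {a : ℂ} (ha : R < ‖a‖) : ∫ z in Ω, g z / (z - a) = 0 := by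
  have ha0 : 0 < ‖a‖ := hR0.trans_lt ha
  have ha0' : a ≠ 0 := norm_pos_iff.1 ha0
  have hcl : a ∉ closure Ω := fun h => by
    have := mem_closedBall_zero_iff.1 (closure_minimal hR isClosed_closedBall h)
    linarith
  have hpow : ∀ n : ℕ, ∀ᵐ z ∂volume.restrict Ω, ‖(z / a) ^ n‖ ≤ (R / ‖a‖) ^ n := fun n => by
    filter_upwards [ae_restrict_mem hΩ] with z hz
    rw [norm_pow, norm_div]
    gcongr
    exact mem_closedBall_zero_iff.1 (hR hz)
  have hmeas : ∀ n : ℕ, AEStronglyMeasurable (fun z : ℂ => (z / a) ^ n) (volume.restrict Ω) :=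
    fun n => ((measurable_id.div_const a).pow_const n).aestronglyMeasurable
  have hI := integrableOn_div_sub hΩ hg hcl
  have key : ∀ n : ℕ, ∫ z in Ω, g z / (z - a) = ∫ z in Ω, g z / (z - a) * (z / a) ^ n := by
    intro n
    induction n with
    | zero => simp
    | succ n ih =>
      have h1 : ∫ z in Ω, g z / (z - a) * (z / a) ^ (n + 1) =
          ∫ z in Ω, (g z / (z - a) * (z / a) ^ n + (a ^ (n + 1))⁻¹ * (g z * z ^ n)) := by
        refine setIntegral_congr_fun hΩ fun z hz => ?_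
        have : z - a ≠ 0 := sub_ne_zero.2 fun h => hcl (subset_closure (h ▸ hz))
        simp only [div_pow]
        field_simp
        ring
      have h2 : Integrable (fun z => g z * z ^ n) (volume.restrict Ω) := by
        refine Integrable.mul_bdd (c := R ^ n) hg
          (measurable_id.pow_const n).aestronglyMeasurable ?_
        filter_upwards [ae_restrict_mem hΩ] with z hz
        rw [norm_pow]
        gcongr
        exact mem_closedBall_zero_iff.1 (hR hz)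
      rw [h1, integral_add (Integrable.mul_bdd hI (hmeas n) (hpow n)) (h2.const_mul _),
        integral_const_mul, h0, mul_zero, add_zero, ih]
  have h3 : ∀ n : ℕ, ‖∫ z in Ω, g z / (z - a)‖ ≤
      (∫ z in Ω, ‖g z / (z - a)‖) * (R / ‖a‖) ^ n := fun n => by
    rw [key n, ← integral_mul_const]
    refine norm_integral_le_of_norm_le (hI.norm.mul_const _) ?_
    filter_upwards [hpow n] with z hz
    rw [norm_mul]
    gcongr
  have h4 : Tendsto (fun n : ℕ => (∫ z in Ω, ‖g z / (z - a)‖) * (R / ‖a‖) ^ n) atTop (𝓝 0) := by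
    simpa using (tendsto_pow_atTop_nhds_zero_of_lt_one (div_nonneg hR0 ha0.le)
      ((div_lt_one ha0).2 ha)).const_mul (∫ z in Ω, ‖g z / (z - a)‖)
  exact norm_le_zero_iff.1 (ge_of_tendsto' h4 h3)

theorem cauchy_outer {Ω : Set ℂ} (hΩ : MeasurableSet Ω) (hb : Bornology.IsBounded Ω) {g : ℂ → ℂ}
    (hg : IntegrableOn g Ω) (h0 : ∀ n : ℕ, ∫ z in Ω, g z * z ^ n = 0) {a : ℂ}
    (ha : a ∈ outerComp Ω) : ∫ z in Ω, g z / (z - a) = 0 := by
  obtain ⟨R, hR0, hR⟩ := hb.subset_closedBall_lt 0 (0 : ℂ)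
  set U := connectedComponentIn (closure Ω)ᶜ a with hU
  have hUo : IsOpen U := isClosed_closure.isOpen_compl.connectedComponentIn
  have hd : DifferentiableOn ℂ (fun w => ∫ z in Ω, g z / (z - w)) (closure Ω)ᶜ :=
    differentiableOn_cauchy (μ := volume.restrict Ω) (a := fun z => z) hg aemeasurable_id
      isClosed_closure ((ae_restrict_mem hΩ).mono fun z hz => subset_closure hz)
  have han : AnalyticOnNhd ℂ (fun w => ∫ z in Ω, g z / (z - w)) U :=
    (hd.mono (connectedComponentIn_subset _ _)).analyticOnNhd hUo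
  obtain ⟨b, hbU, hbR⟩ : ∃ b ∈ U, R < ‖b‖ := by
    by_contra h
    push Not at h
    exact ha.2 (isBounded_closedBall.subset fun z hz => mem_closedBall_zero_iff.2 (h z hz))
  have hev : (fun w => ∫ z in Ω, g z / (z - w)) =ᶠ[𝓝 b] 0 := by
    filter_upwards [continuous_norm.continuousAt.eventually (lt_mem_nhds hbR)] with w hw
    exact cauchy_far hΩ hR hR0.le hg h0 hw
  exact han.eqOn_zero_of_preconnected_of_eventuallyEq_zero isPreconnected_connectedComponentIn
    hbU hev (mem_connectedComponentIn ha.1)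

theorem exists_outer_dist {Ω : Set ℂ} {a : ℂ} (ha : a ∈ closure (outerComp Ω)) {s : ℝ}
    (hs : 0 < s) : ∃ b ∈ outerComp Ω, ‖b - a‖ = s := by
  obtain ⟨b, hb, hba⟩ := Metric.mem_closure_iff.1 ha s hs
  obtain ⟨c, hc, hca⟩ : ∃ c ∈ connectedComponentIn (closure Ω)ᶜ b, s < ‖c - a‖ := by
    by_contra h
    push Not at h
    exact hb.2 (isBounded_closedBall.subset fun z hz => mem_closedBall_iff_norm.2 (h z hz))
  rw [dist_comm, dist_eq_norm] at hba
  obtain ⟨d, hd, hda⟩ := isPreconnected_connectedComponentIn.intermediate_value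
    (mem_connectedComponentIn hb.1) hc (f := fun z => ‖z - a‖) (by fun_prop) ⟨hba.le, hca.le⟩
  refine ⟨d, ⟨connectedComponentIn_subset _ _ hd, ?_⟩, hda⟩
  rw [← connectedComponentIn_eq hd]
  exact hb.2

/-- The cutoff weight near `a`. -/
noncomputable def cutW (a : ℂ) (r : ℝ) (z : ℂ) : ℝ≥0∞ := ENNReal.ofReal (min 1 (2 * r / ‖z - a‖))

theorem measurable_cutW (a : ℂ) (r : ℝ) : Measurable (cutW a r) := by
  unfold cutW
  fun_prop

theorem tendsto_cutW {μ : Measure ℂ} (a : ℂ) {H : ℂ → ℝ≥0∞} (hH : Measurable H)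
    (hfin : ∫⁻ z, H z ∂μ ≠ ⊤) :
    Tendsto (fun n : ℕ => ∫⁻ z, H z * cutW a (1 / ((n : ℝ) + 1)) z ∂μ) atTop (𝓝 0) := by
  have h := tendsto_lintegral_of_dominated_convergence (μ := μ)
    (F := fun (n : ℕ) z => H z * cutW a (1 / ((n : ℝ) + 1)) z) (f := fun _ => 0) H
    (fun n => hH.mul (measurable_cutW a _))
    (fun n => Eventually.of_forall fun z => by
      refine mul_le_of_le_one_right' ?_
      rw [cutW, ← ENNReal.ofReal_one]
      exact ENNReal.ofReal_le_ofReal (min_le_left _ _)) hfin ?_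
  · simpa using h
  · filter_upwards [ae_lt_top hH hfin] with z hz
    have h1 : Tendsto (fun n : ℕ => cutW a (1 / ((n : ℝ) + 1)) z) atTop (𝓝 0) := by
      have h2 : Tendsto (fun n : ℕ => min 1 (2 * (1 / ((n : ℝ) + 1)) / ‖z - a‖)) atTop
          (𝓝 (min 1 (2 * 0 / ‖z - a‖))) :=
        tendsto_const_nhds.min ((tendsto_one_div_add_atTop_nhds_zero_nat.const_mul 2).div_const _)
      have h3 := ENNReal.tendsto_ofReal h2
      simpa [cutW] using h3
    simpa using ENNReal.Tendsto.const_mul h1 (Or.inr hz.ne)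

theorem kernel_diff_le {a b z : ℂ} {r : ℝ} (hba : ‖b - a‖ < r) (hza : z ≠ a) (hzb : z ≠ b)
    (u : ℂ) : ‖u / (z - a) - u / (z - b)‖ₑ ≤ ‖u‖ₑ * ‖z - a‖ₑ⁻¹ * cutW a r z +
      (ball a (2 * r)).indicator (fun z => ‖u‖ₑ * ‖z - b‖ₑ⁻¹) z := by
  have h1 : 0 < ‖z - a‖ := norm_pos_iff.2 (sub_ne_zero.2 hza)
  have h2 : 0 < ‖z - b‖ := norm_pos_iff.2 (sub_ne_zero.2 hzb)
  have e : ∀ v : ℂ, v ≠ 0 → ‖u / v‖ₑ = ‖u‖ₑ * ‖v‖ₑ⁻¹ := fun v hv => by
    rw [div_eq_mul_inv, enorm_mul, enorm_inv hv]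
  by_cases hz : z ∈ ball a (2 * r)
  · rw [indicator_of_mem hz]
    have h3 : cutW a r z = 1 := by
      rw [cutW, min_eq_left ((one_le_div h1).2 (mem_ball_iff_norm.1 hz).le), ENNReal.ofReal_one]
    rw [h3, mul_one, ← e _ (sub_ne_zero.2 hza), ← e _ (sub_ne_zero.2 hzb)]
    exact enorm_sub_le
  · rw [indicator_of_notMem hz, add_zero, ← e _ (sub_ne_zero.2 hza)]
    have h3 : 2 * r ≤ ‖z - a‖ := not_lt.1 fun h => hz (mem_ball_iff_norm.2 h)
    have h4 : u / (z - a) - u / (z - b) = u / (z - a) * ((a - b) / (z - b)) := by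
      have := sub_ne_zero.2 hza
      have := sub_ne_zero.2 hzb
      field_simp
      ring
    rw [h4, enorm_mul, cutW, min_eq_right ((div_le_one h1).2 h3)]
    refine mul_le_mul' le_rfl ?_
    rw [← ofReal_norm, norm_div]
    refine ENNReal.ofReal_le_ofReal ?_
    have h5 : ‖z - a‖ ≤ ‖z - b‖ + ‖b - a‖ := norm_sub_le_norm_sub_add_norm_sub z b a
    have h6 := norm_nonneg (b - a)
    rw [norm_sub_rev a b, div_le_div_iff₀ h2 h1]
    nlinarith

theorem cauchy_closure_outer {Ω : Set ℂ} (hΩ : MeasurableSet Ω) (hb : Bornology.IsBounded Ω)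
    {q β : ℝ} (hq : 1 < q) (hβ : 0 < β) (hβq : 2 - q < β) (hβ1 : β < 1) {g : ℂ → ℂ}
    (hgm : Measurable g) (hg : ∫⁻ z in Ω, ‖g z‖ₑ ^ q ≠ ⊤)
    (h0 : ∀ n : ℕ, ∫ z in Ω, g z * z ^ n = 0) {a : ℂ} (ha : a ∈ closure (outerComp Ω))
    (hJ : ∫⁻ z in Ω, ‖g z‖ₑ ^ q * ‖z - a‖ₑ⁻¹ ^ β ≠ ⊤) : ∫ z in Ω, g z / (z - a) = 0 := by
  have hq1 : 0 < q - 1 := by linarith
  obtain ⟨K, hK, hKa⟩ := exists_area_potential (γ := (q - β) / (q - 1))
    (div_pos (by linarith) hq1) (by rw [div_lt_iff₀ hq1]; linarith) hb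
  obtain ⟨K₂, hK₂, hK₂a⟩ := exists_interval_potential hβ hβ1
  have hD : ∀ b : ℂ, Measurable fun z : ℂ => ‖z - b‖ₑ⁻¹ := fun b => by fun_prop
  have hker : ∀ (b : ℂ) (S : Set ℂ), S ⊆ Ω → ∫⁻ z in S, ‖g z‖ₑ * ‖z - b‖ₑ⁻¹ ≤
      (∫⁻ z in S, ‖g z‖ₑ ^ q * ‖z - b‖ₑ⁻¹ ^ β) ^ (1 / q) * K ^ ((q - 1) / q) := by
    intro b S hS
    have h1 := lintegral_kernel_le (volume.restrict S) hq hβ.le (by linarith)
      (G := fun z => ‖g z‖ₑ) (w := fun _ => 1) (D := fun z => ‖z - b‖ₑ⁻¹)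
      hgm.enorm.aemeasurable aemeasurable_const (hD b).aemeasurable
    simp only [mul_one, ENNReal.one_rpow, one_mul] at h1
    refine h1.trans (mul_le_mul' le_rfl (ENNReal.rpow_le_rpow ?_ (by positivity)))
    exact (lintegral_mono_set hS).trans (hKa b)
  have hKq : K ^ ((q - 1) / q) ≠ ⊤ := ENNReal.rpow_ne_top_of_nonneg (by positivity) hK
  have hfin : ∫⁻ z in Ω, ‖g z‖ₑ * ‖z - a‖ₑ⁻¹ ≠ ⊤ :=
    ne_top_of_le_ne_top (ENNReal.mul_ne_top
      (ENNReal.rpow_ne_top_of_nonneg (by positivity) hJ) hKq) (hker a Ω Subset.rfl)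
  have hne : ∀ b : ℂ, ∀ᵐ z ∂volume.restrict Ω, z ≠ b := fun b =>
    ae_restrict_of_ae (by simp [ae_iff])
  have hgi : IntegrableOn g Ω := by
    refine ⟨hgm.aestronglyMeasurable, ?_⟩
    calc ∫⁻ z in Ω, ‖g z‖ₑ ≤ ∫⁻ z in Ω, (1 + ‖g z‖ₑ ^ q) := lintegral_mono fun z => by
          rcases le_total ‖g z‖ₑ 1 with h | h
          · exact h.trans le_self_add
          · refine le_trans ?_ le_add_self
            simpa using ENNReal.rpow_le_rpow_of_exponent_le h hq.le
      _ < ⊤ := by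
          rw [lintegral_add_left measurable_const, setLIntegral_const, one_mul]
          exact ENNReal.add_lt_top.2 ⟨hb.measure_lt_top, hg.lt_top⟩
  have hai : IntegrableOn (fun z => g z / (z - a)) Ω := by
    refine ⟨(hgm.div (measurable_id.sub_const a)).aestronglyMeasurable, ?_⟩
    refine lt_of_eq_of_lt (lintegral_congr_ae ?_) hfin.lt_top
    filter_upwards [hne a] with z hz
    rw [div_eq_mul_inv, enorm_mul, enorm_inv (sub_ne_zero.2 hz)]
  have main : ∀ r : ℝ, 0 < r → ‖∫ z in Ω, g z / (z - a)‖ₑ ≤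
      (∫⁻ z in Ω, ‖g z‖ₑ * ‖z - a‖ₑ⁻¹ * cutW a r z) +
      (K₂ * 2 ^ β * ∫⁻ z in Ω, ‖g z‖ₑ ^ q * ‖z - a‖ₑ⁻¹ ^ β * cutW a r z) ^ (1 / q) *
        K ^ ((q - 1) / q) := by
    intro r hr
    set S := ball a (2 * r) ∩ Ω with hS
    have hSm : MeasurableSet S := measurableSet_ball.inter hΩ
    have hmeas : Measurable fun p : ℝ × ℂ => ‖g p.2‖ₑ ^ q * ‖‖p.2 - a‖ - p.1‖ₑ⁻¹ ^ β := by
      fun_prop
    obtain ⟨s, hs, hsle⟩ := exists_le_setLAverage (μ := volume) (s := Ioo 0 r)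
      (f := fun s => ∫⁻ z in S, ‖g z‖ₑ ^ q * ‖‖z - a‖ - s‖ₑ⁻¹ ^ β)
      (by simpa using hr) (by simp) hmeas.lintegral_prod_right'.aemeasurable
    have h1 : ∫⁻ z in S, ‖g z‖ₑ ^ q * ‖‖z - a‖ - s‖ₑ⁻¹ ^ β ≤
        K₂ * 2 ^ β * ∫⁻ z in Ω, ‖g z‖ₑ ^ q * ‖z - a‖ₑ⁻¹ ^ β * cutW a r z := by
      refine hsle.trans ?_
      rw [setLAverage_eq, Real.volume_Ioo, sub_zero,
        lintegral_lintegral_swap hmeas.aemeasurable]
      refine ENNReal.div_le_of_le_mul ?_
      calc ∫⁻ z in S, ∫⁻ s in Ioo 0 r, ‖g z‖ₑ ^ q * ‖‖z - a‖ - s‖ₑ⁻¹ ^ β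
          ≤ ∫⁻ z in S, K₂ * 2 ^ β * ENNReal.ofReal r *
              (‖g z‖ₑ ^ q * ‖z - a‖ₑ⁻¹ ^ β * cutW a r z) := by
            refine lintegral_mono_ae ?_
            filter_upwards [ae_restrict_mem hSm,
              ae_restrict_of_ae (μ := volume) (s := S) (p := fun z => z ≠ a) (by simp [ae_iff])]
              with z hz hza
            have a1 : 0 < ‖z - a‖ := norm_pos_iff.2 (sub_ne_zero.2 hza)
            have a2 : ‖z - a‖ < 2 * r := mem_ball_iff_norm.1 hz.1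
            have a3 : cutW a r z = 1 := by
              rw [cutW, min_eq_left ((one_le_div a1).2 a2.le), ENNReal.ofReal_one]
            have a4 : ENNReal.ofReal (r ^ (1 - β)) ≤
                2 ^ β * ENNReal.ofReal r * ‖z - a‖ₑ⁻¹ ^ β := by
              rw [← ofReal_norm, ← ENNReal.ofReal_inv_of_pos a1,
                ENNReal.ofReal_rpow_of_nonneg (by positivity) hβ.le, ← ENNReal.ofReal_ofNat,
                ENNReal.ofReal_rpow_of_nonneg (by positivity) hβ.le,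
                ← ENNReal.ofReal_mul (by positivity), ← ENNReal.ofReal_mul (by positivity)]
              refine ENNReal.ofReal_le_ofReal ?_
              rw [Real.rpow_sub hr, Real.rpow_one, mul_comm ((2 : ℝ) ^ β), mul_assoc,
                ← Real.mul_rpow (by positivity) (by positivity), div_eq_mul_inv,
                ← Real.inv_rpow hr.le]
              refine mul_le_mul_of_nonneg_left
                (Real.rpow_le_rpow (by positivity) ?_ hβ.le) hr.le
              rw [← div_eq_mul_inv, inv_eq_one_div, div_le_div_iff₀ hr a1]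
              linarith
            rw [lintegral_const_mul _ (by fun_prop), a3, mul_one]
            calc ‖g z‖ₑ ^ q * ∫⁻ s in Ioo 0 r, ‖‖z - a‖ - s‖ₑ⁻¹ ^ β
                ≤ ‖g z‖ₑ ^ q * (K₂ * (2 ^ β * ENNReal.ofReal r * ‖z - a‖ₑ⁻¹ ^ β)) :=
                  mul_le_mul' le_rfl ((hK₂a _ r hr).trans (mul_le_mul' le_rfl a4))
              _ = _ := by ring
        _ = K₂ * 2 ^ β * ENNReal.ofReal r *
              ∫⁻ z in S, ‖g z‖ₑ ^ q * ‖z - a‖ₑ⁻¹ ^ β * cutW a r z :=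
            lintegral_const_mul _ (((hgm.enorm.pow_const q).mul ((hD a).pow_const β)).mul
              (measurable_cutW a r))
        _ ≤ K₂ * 2 ^ β * ENNReal.ofReal r *
              ∫⁻ z in Ω, ‖g z‖ₑ ^ q * ‖z - a‖ₑ⁻¹ ^ β * cutW a r z :=
            mul_le_mul' le_rfl (lintegral_mono_set inter_subset_right)
        _ = _ := by ring
    obtain ⟨b, hbo, hba⟩ := exists_outer_dist ha hs.1
    have h2 : ∫ z in Ω, g z / (z - a) = ∫ z in Ω, (g z / (z - a) - g z / (z - b)) := by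
      rw [integral_sub hai (integrableOn_div_sub hΩ hgi hbo.1), cauchy_outer hΩ hb hgi h0 hbo,
        sub_zero]
    rw [h2]
    calc ‖∫ z in Ω, (g z / (z - a) - g z / (z - b))‖ₑ
        ≤ ∫⁻ z in Ω, ‖g z / (z - a) - g z / (z - b)‖ₑ := enorm_integral_le_lintegral_enorm _
      _ ≤ ∫⁻ z in Ω, (‖g z‖ₑ * ‖z - a‖ₑ⁻¹ * cutW a r z +
            (ball a (2 * r)).indicator (fun z => ‖g z‖ₑ * ‖z - b‖ₑ⁻¹) z) := by
          refine lintegral_mono_ae ?_
          filter_upwards [hne a, hne b] with z h3 h4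
          refine (kernel_diff_le (r := r) (by rw [hba]; exact hs.2) h3 h4 (g z)).trans
            (le_of_eq ?_)
          by_cases hz : z ∈ ball a (2 * r)
          · rw [indicator_of_mem hz, indicator_of_mem hz]
          · rw [indicator_of_notMem hz, indicator_of_notMem hz]
      _ = (∫⁻ z in Ω, ‖g z‖ₑ * ‖z - a‖ₑ⁻¹ * cutW a r z) + ∫⁻ z in S, ‖g z‖ₑ * ‖z - b‖ₑ⁻¹ := by
          rw [lintegral_add_left (f := fun z => ‖g z‖ₑ * ‖z - a‖ₑ⁻¹ * cutW a r z)
              ((hgm.enorm.mul (hD a)).mul (measurable_cutW a r)),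
            lintegral_indicator measurableSet_ball, Measure.restrict_restrict measurableSet_ball]
      _ ≤ _ := by
          refine add_le_add le_rfl ((hker b S inter_subset_right).trans
            (mul_le_mul' (ENNReal.rpow_le_rpow (le_trans (lintegral_mono fun z => ?_) h1)
              (by positivity)) le_rfl))
          refine mul_le_mul' le_rfl (ENNReal.rpow_le_rpow (ENNReal.inv_le_inv.2 ?_) hβ.le)
          rw [← ofReal_norm, ← ofReal_norm, ← hba, Real.norm_eq_abs]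
          refine ENNReal.ofReal_le_ofReal ((abs_norm_sub_norm_le _ _).trans (le_of_eq ?_))
          rw [sub_sub_sub_cancel_right]
  have t1 := tendsto_cutW (μ := volume.restrict Ω) a (hgm.enorm.mul (hD a)) hfin
  have t2 := tendsto_cutW (μ := volume.restrict Ω) a
    ((hgm.enorm.pow_const q).mul ((hD a).pow_const β)) hJ
  have t3 := ENNReal.Tendsto.const_mul (a := K₂ * 2 ^ β) t2
    (Or.inr (ENNReal.mul_ne_top hK₂ (ENNReal.rpow_ne_top_of_nonneg hβ.le (by simp))))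
  have t4 := ENNReal.Tendsto.mul_const (b := K ^ ((q - 1) / q))
    ((ENNReal.continuous_rpow_const (y := 1 / q)).continuousAt.tendsto.comp t3) (Or.inr hKq)
  have t5 := t1.add t4
  rw [mul_zero, ENNReal.zero_rpow_of_pos (by positivity), zero_mul, add_zero] at t5
  have t6 : ‖∫ z in Ω, g z / (z - a)‖ₑ ≤ 0 :=
    ge_of_tendsto' t5 fun n => main _ (by positivity)
  simpa using t6

end Pool.Agent.Lib.MP_3a6b94_an
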