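import Pool.Agent.Lib.MP_3a6b94_an.Basic

open MeasureTheory Set Metric Filter Topology
open scoped ENNReal NNReal Real

namespace Pool.Agent.Lib.MP_3a6b94_an

theorem ofReal_log_le_tsum {x : ℝ} (hx : 0 < x) :
    ENNReal.ofReal (Real.log x) ≤
      ∑' N : ℕ, if (N : ℝ) + 1 ≤ x then ENNReal.ofReal (1 / ((N : ℝ) + 1)) else 0 := by
  have h1 : Real.log x ≤ ∑ N ∈ Finset.range ⌊x⌋₊, 1 / ((N : ℝ) + 1) := by
    have h2 := log_add_one_le_harmonic ⌊x⌋₊
    have h3 : Real.log x ≤ Real.log ((⌊x⌋₊ + 1 : ℕ) : ℝ) :=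
      Real.log_le_log hx (by push_cast; exact (Nat.lt_floor_add_one x).le)
    refine (h3.trans h2).trans (le_of_eq ?_)
    simp [harmonic]
  refine (ENNReal.ofReal_le_ofReal h1).trans ?_
  rw [ENNReal.ofReal_sum_of_nonneg fun N _ => by positivity]
  refine le_trans (Finset.sum_le_sum fun N hN => ?_) (ENNReal.sum_le_tsum (Finset.range ⌊x⌋₊))
  have h4 : ((N + 1 : ℕ) : ℝ) ≤ x := (Nat.le_floor_iff hx.le).mp (Finset.mem_range.mp hN)
  rw [if_pos (by exact_mod_cast h4)]

theorem Wt.exists_majorant {W : ℝ → ℝ} (hW : Wt W)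
    (hdiv : ∃ a ∈ Ioc (0 : ℝ) 1, W a < 1 ∧
      ∫⁻ t in Ioo 0 a, ENNReal.ofReal (Real.log (Real.log (1 / W t))) = ⊤)
    {c : ℝ} (hc : 0 < c) :
    ∃ M : ℕ → ℝ, (∀ N, 0 ≤ M N) ∧ (¬ Summable fun N : ℕ => M N / ((N : ℝ) + 1) ^ 2) ∧
      ∀ N : ℕ, ∃ t ∈ Ioc (0 : ℝ) 1, M N ≤ N * t ∧ W t ^ c ≤ Real.exp (-M N) := by
  obtain ⟨a, ha, hWa, hI⟩ := hdiv
  set h : ℝ → ℝ := fun t => Real.log (1 / W t) with hh
  have hm : Measurable h := (measurable_const.div hW.meas).log
  set S : ℕ → Set ℝ := fun N => Ioo 0 a ∩ {t | (N : ℝ) ≤ h t} with hS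
  have hSm : ∀ N, MeasurableSet (S N) := fun N =>
    measurableSet_Ioo.inter (measurableSet_le measurable_const hm)
  have hκ : 0 < min 1 c := lt_min one_pos hc
  have key : ∀ N : ℕ, ∃ M : ℝ, 0 ≤ M ∧ min 1 c * N * (volume.real (S N) / 2) ≤ M ∧
      ∃ t ∈ Ioc (0 : ℝ) 1, M ≤ N * t ∧ W t ^ c ≤ Real.exp (-M) := by
    intro N
    by_cases h0 : ∃ t ∈ S N, volume.real (S N) / 2 ≤ t
    · obtain ⟨t, ⟨ht, ht'⟩, h1⟩ := h0
      have ht1 : t ∈ Ioc (0 : ℝ) 1 := ⟨ht.1, ht.2.le.trans ha.2⟩
      have hN : (0 : ℝ) ≤ N := Nat.cast_nonneg N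
      refine ⟨min 1 c * N * t, by have := ht.1; positivity,
        mul_le_mul_of_nonneg_left h1 (by positivity), t, ht1, ?_, ?_⟩
      · rw [mul_assoc]
        exact mul_le_of_le_one_left (by have := ht.1; positivity) (min_le_left _ _)
      · rw [Real.rpow_def_of_pos (hW.pos t ht1), Real.exp_le_exp]
        have e : Real.log (W t) = -h t := by simp [hh]
        have h2 : (N : ℝ) ≤ h t := ht'
        have h3 : min 1 c * N * t ≤ c * N := by
          calc min 1 c * N * t ≤ min 1 c * N * 1 := by gcongr; exact ht1.2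
            _ ≤ c * N := by rw [mul_one]; gcongr; exact min_le_right _ _
        rw [e]
        nlinarith
    · push Not at h0
      have h1 : volume.real (S N) ≤ volume.real (Ioo 0 (volume.real (S N) / 2)) :=
        measureReal_mono (fun t ht => ⟨ht.1.1, h0 t ht⟩) measure_Ioo_lt_top.ne
      have h2 : 0 ≤ volume.real (S N) := measureReal_nonneg
      rw [Real.volume_real_Ioo_of_le (by linarith)] at h1
      have h3 : volume.real (S N) = 0 := by linarith
      refine ⟨0, le_rfl, by simp [h3], a, ha, by have := ha.1; positivity, ?_⟩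
      rw [neg_zero, Real.exp_zero]
      exact Real.rpow_le_one (hW.pos a ha).le hWa.le hc.le
  choose M h0 h1 h2 using key
  refine ⟨M, h0, fun hs => ?_, h2⟩
  have hs' : Summable fun N : ℕ => 8 / min 1 c * (M (N + 1) / (((N + 1 : ℕ) : ℝ) + 1) ^ 2) :=
    ((summable_nat_add_iff 1).mpr hs).mul_left _
  have hle : ∫⁻ t in Ioo 0 a, ENNReal.ofReal (Real.log (h t)) ≤ ∑' N : ℕ,
      ENNReal.ofReal (8 / min 1 c * (M (N + 1) / (((N + 1 : ℕ) : ℝ) + 1) ^ 2)) := by
    calc ∫⁻ t in Ioo 0 a, ENNReal.ofReal (Real.log (h t))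
        ≤ ∫⁻ t in Ioo 0 a, ∑' N : ℕ,
          (S (N + 1)).indicator (fun _ => ENNReal.ofReal (1 / ((N : ℝ) + 1))) t := by
          refine setLIntegral_mono' measurableSet_Ioo fun t ht => ?_
          have ht1 : t ∈ Ioc (0 : ℝ) 1 := ⟨ht.1, ht.2.le.trans ha.2⟩
          have hp : 0 < h t := by
            have a1 := hW.pos t ht1
            have a2 := hW.mono ht1 ha ht.2.le
            exact Real.log_pos (by rw [lt_div_iff₀ a1]; linarith)
          refine (ofReal_log_le_tsum hp).trans (ENNReal.tsum_le_tsum fun N => ?_)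
          split_ifs with hN
          · rw [indicator_of_mem]
            exact ⟨ht, by simpa using hN⟩
          · exact zero_le
      _ = ∑' N : ℕ, ∫⁻ t in Ioo 0 a,
          (S (N + 1)).indicator (fun _ => ENNReal.ofReal (1 / ((N : ℝ) + 1))) t :=
          lintegral_tsum fun N => (measurable_const.indicator (hSm _)).aemeasurable
      _ ≤ _ := by
          refine ENNReal.tsum_le_tsum fun N => ?_
          refine (setLIntegral_le_lintegral _ _).trans ?_
          have hf : volume (S (N + 1)) ≠ ⊤ :=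
            ((measure_mono inter_subset_left).trans_lt measure_Ioo_lt_top).ne
          rw [lintegral_indicator_const (hSm _), ← ENNReal.ofReal_toReal hf,
            ← ENNReal.ofReal_mul (by positivity)]
          refine ENNReal.ofReal_le_ofReal ?_
          have a1 := h1 (N + 1)
          have a2 : (volume (S (N + 1))).toReal = volume.real (S (N + 1)) := rfl
          have a3 : 0 ≤ volume.real (S (N + 1)) := measureReal_nonneg
          rw [a2]
          generalize volume.real (S (N + 1)) = v at *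
          have hN : (0 : ℝ) ≤ N := Nat.cast_nonneg N
          push_cast at a1 ⊢
          calc 1 / ((N : ℝ) + 1) * v
              ≤ 8 / min 1 c * (min 1 c * (N + 1) * (v / 2) / ((N : ℝ) + 1 + 1) ^ 2) := by
                have e : 8 / min 1 c * (min 1 c * (N + 1) * (v / 2) / ((N : ℝ) + 1 + 1) ^ 2)
                    = 4 * (N + 1) / ((N : ℝ) + 1 + 1) ^ 2 * v := by field_simp; ring
                rw [e]
                refine mul_le_mul_of_nonneg_right ?_ a3
                rw [div_le_div_iff₀ (by positivity) (by positivity)]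
                nlinarith
            _ ≤ _ := by gcongr
  rw [hI, ← ENNReal.ofReal_tsum_of_nonneg (fun N => by have := h0 (N + 1); positivity) hs'] at hle
  exact absurd hle (by simp)

end Pool.Agent.Lib.MP_3a6b94_an
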