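import Pool.Agent.Lib.MP_3a6b94_an.AnnihAux
import Pool.Agent.Lib.MP_3a6b94_an.Cauchy
import Pool.Agent.Lib.MP_3a6b94_an.Beurling
import Pool.Agent.Lib.MP_3a6b94_an.Diverge

open MeasureTheory Set Metric Filter Topology
open scoped ENNReal NNReal Real

namespace Pool.Agent.Lib.MP_3a6b94_an

theorem annih {q : ℝ} (hq : 1 < q) (hq2 : q ≤ 2) : ∃ η₀ : ℝ, 0 < η₀ ∧
    ∀ {Ω : Set ℂ} {φ ψ b m : ℂ → ℂ} {u : ℕ → ℂ → ℂ} {C η : ℝ} {W : ℝ → ℝ} {ρ : ℕ → ℝ}
      {ψs ms : ℝ → ℂ} {k : ℂ → ℂ}, Conf Ω φ ψ →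
      (∀ z ∈ ball (0 : ℂ) 1, Complex.exp (b z) = deriv ψ z) → Outer b m u C η → 0 < η → η ≤ η₀ →
      Wt W → (∃ a ∈ Ioc (0 : ℝ) 1, W a < 1 ∧
        ∫⁻ t in Ioo 0 a, ENNReal.ofReal (Real.log (Real.log (1 / W t))) = ⊤) →
      Radii ρ → Bdry ρ ψ ψs → Bdry ρ m ms → arc {θ | ψs θ ∈ closure (outerComp Ω)} ≠ 0 →
      Measurable k → ∫⁻ z, ‖k z‖ₑ ^ q ∂(wMeas Ω φ W) ≠ ⊤ →
      (∀ n : ℕ, ∫ z, z ^ n * k z ∂(wMeas Ω φ W) = 0) →
      ∀ n : ℕ, ∫ z, (φ z ^ n * m (φ z) / deriv ψ (φ z)) * k z ∂(wMeas Ω φ W) = 0 := by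
  have hq0 : 0 < q := by linarith
  have hq1 : 0 < q - 1 := by linarith
  refine ⟨(q - 1) / 24, by positivity, ?_⟩
  intro Ω φ ψ b m u C η W ρ ψs ms k h hb hm hη hη₀ hW hdiv hρ hψs hms hE hk hkq hpoly
  set β : ℝ := (3 - q) / 2 with hβ
  have hβ0 : 0 < β := by rw [hβ]; linarith
  have hβ1 : β < 1 := by rw [hβ]; linarith
  have hγ : (q - β) / (q - 1) = 3 / 2 := by
    rw [hβ]
    field_simp
    ring
  have hΩ := h.isOpen.measurableSet
  set ω : ℂ → ℝ≥0∞ := fun z => ENNReal.ofReal (W (1 - ‖φ z‖)) with hω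
  have hωm : Measurable ω := (hW.meas.comp (measurable_const.sub h.measφ.norm)).ennreal_ofReal
  set g : ℂ → ℂ := fun z => ((ω z).toReal : ℂ) * k z with hg
  have hgm : Measurable g := (Complex.measurable_ofReal.comp hωm.ennreal_toReal).mul hk
  have hgn : ∀ z, ‖g z‖ₑ = ω z * ‖k z‖ₑ := by
    intro z
    rw [hg]
    simp only
    rw [enorm_mul, ← ofReal_norm, Complex.norm_real, Real.norm_eq_abs,
      abs_of_nonneg ENNReal.toReal_nonneg, ENNReal.ofReal_toReal ENNReal.ofReal_ne_top]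
  have hint : ∀ F : ℂ → ℂ, ∫ z, F z * k z ∂(wMeas Ω φ W) = ∫ z in Ω, g z * F z := by
    intro F
    rw [wMeas, integral_withDensity_eq_integral_toReal_smul hωm
      (Eventually.of_forall fun z => ENNReal.ofReal_lt_top)]
    refine integral_congr_ae (Eventually.of_forall fun z => ?_)
    simp only [hg, Complex.real_smul]
    ring
  set Kq := ∫⁻ z in Ω, ω z * ‖k z‖ₑ ^ q with hKq
  have hKqt : Kq ≠ ⊤ := by
    rwa [wMeas, lintegral_withDensity_eq_lintegral_mul _ hωm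
      (g := fun z => ‖k z‖ₑ ^ q) (hk.enorm.pow_const q)] at hkq
  have hgq : ∀ z, ‖g z‖ₑ ^ q = ω z ^ (q - 1) * (ω z * ‖k z‖ₑ ^ q) := by
    intro z
    rw [hgn, ENNReal.mul_rpow_of_nonneg _ _ hq0.le, ← mul_assoc]
    congr 1
    conv_lhs => rw [show q = (q - 1) + 1 by ring]
    rw [ENNReal.rpow_add_of_nonneg _ _ hq1.le zero_le_one, ENNReal.rpow_one]
  have hωle : ∀ z ∈ Ω, ∀ t ∈ Ioc (0 : ℝ) 1, 1 - ‖φ z‖ ≤ t → ω z ≤ ENNReal.ofReal (W t) := by
    intro z hz t ht hle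
    have := mem_ball_zero_iff.mp (h.mφ hz)
    exact ENNReal.ofReal_le_ofReal (hW.mono ⟨by linarith, hle.trans ht.2⟩ ht hle)
  set W₁ : ℝ≥0∞ := ENNReal.ofReal (W 1) ^ (q - 1) with hW₁
  have hW₁t : W₁ ≠ ⊤ := ENNReal.rpow_ne_top_of_nonneg hq1.le ENNReal.ofReal_ne_top
  have hgW : ∀ z ∈ Ω, ‖g z‖ₑ ^ q ≤ W₁ * (ω z * ‖k z‖ₑ ^ q) := fun z hz => by
    rw [hgq]
    exact mul_le_mul_left (ENNReal.rpow_le_rpow
      (hωle z hz 1 ⟨one_pos, le_rfl⟩ (by linarith [norm_nonneg (φ z)])) hq1.le) _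
  have hgfin : ∫⁻ z in Ω, ‖g z‖ₑ ^ q ≠ ⊤ := by
    refine ne_top_of_le_ne_top (ENNReal.mul_ne_top hW₁t hKqt) ?_
    rw [hKq, ← lintegral_const_mul' _ _ hW₁t]
    exact setLIntegral_mono' hΩ hgW
  have hpoly' : ∀ n : ℕ, ∫ z in Ω, g z * z ^ n = 0 := fun n => by rw [← hint, hpoly]
  -- the boundary function
  obtain ⟨K₁, hK₁, hK₁b⟩ := exists_area_potential (γ := 3 / 2) (by norm_num) (by norm_num) h.bdd
  obtain ⟨K₂, hK₂, hK₂b⟩ := makarov h hb hm hη hρ hψs hms hβ0 (q := q) (by nlinarith) hq.le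
  set F : ℝ → ℂ → ℂ := fun θ z => ms θ * (g z / (z - ψs θ)) with hF
  have hDm : Measurable (Function.uncurry fun (θ : ℝ) (z : ℂ) => ‖z - ψs θ‖ₑ⁻¹) :=
    (measurable_snd.sub (hψs.meas.comp measurable_fst)).enorm.inv
  have hFm : Measurable (Function.uncurry F) :=
    (hms.meas.comp measurable_fst).mul ((hgm.comp measurable_snd).div
      (measurable_snd.sub (hψs.meas.comp measurable_fst)))
  have henorm : ∀ x y : ℂ, ‖x / y‖ₑ ≤ ‖x‖ₑ * ‖y‖ₑ⁻¹ := fun x y => by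
    rcases eq_or_ne y 0 with rfl | hy
    · simp
    · rw [div_eq_mul_inv, enorm_mul, enorm_inv hy]
  have hS := schur (μ := volume.restrict Ω) hq hβ0.le (by linarith) (F := F)
    (G := fun z => ‖g z‖ₑ) (w := fun _ => 1) (v := fun θ => ‖ms θ‖ₑ)
    (D := fun θ z => ‖z - ψs θ‖ₑ⁻¹) hgm.enorm measurable_const hms.meas.enorm hDm
    (K₁ := K₁) (K₂ := K₂) (fun θ z => by
      rw [hF, mul_one]
      simp only
      rw [enorm_mul]
      exact mul_le_mul_right (henorm _ _) _)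
    (fun θ => by simpa only [hγ, ENNReal.one_rpow, one_mul] using hK₁b (ψs θ)) hK₂b
  have hBt : K₁ ^ (q - 1) * K₂ * ∫⁻ z in Ω, ‖g z‖ₑ ^ q ≠ ⊤ :=
    ENNReal.mul_ne_top (ENNReal.mul_ne_top (ENNReal.rpow_ne_top_of_nonneg hq1.le hK₁) hK₂) hgfin
  obtain ⟨hFi, hFq⟩ := schur_conseq hq hFm hBt hS
  have hH : MemLp (fun θ => ∫ z in Ω, F θ z) (ENNReal.ofReal q) arc :=
    ⟨hFi.integral_prod_left.aestronglyMeasurable,
      hFq.trans_lt (ENNReal.rpow_ne_top_of_nonneg (by positivity) hBt).lt_top⟩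
  have hHc : ∀ n : ℕ, ∫ θ, (∫ z in Ω, F θ z) * circleMap 0 1 θ ^ (n + 1) ∂arc =
      -((2 * π : ℝ) * ∫ z in Ω, g z * (φ z ^ n * m (φ z) / deriv ψ (φ z))) := by
    intro n
    rw [integral_mul_circle_swap hFi, ← integral_const_mul, ← integral_neg]
    refine setIntegral_congr_fun hΩ fun z hz => ?_
    have h1 := residue_bdry h hm hρ hψs hms (h.mφ hz) n
    rw [h.left z hz] at h1
    have e : ∀ θ, F θ z * circleMap 0 1 θ ^ (n + 1) =
        g z * (ms θ / (z - ψs θ) * circleMap 0 1 θ ^ (n + 1)) := fun θ => by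
      rw [hF]
      ring
    simp only [e]
    rw [integral_const_mul, h1]
    ring
  have hH0 : ∀ᵐ θ ∂arc, θ ∈ {θ | ψs θ ∈ closure (outerComp Ω)} → ∫ z in Ω, F θ z = 0 := by
    have hm1 : Measurable (Function.uncurry fun (θ : ℝ) (z : ℂ) =>
        ‖ms θ‖ₑ ^ q * (‖g z‖ₑ ^ q * ‖z - ψs θ‖ₑ⁻¹ ^ β)) :=
      ((hms.meas.comp measurable_fst).enorm.pow_const q).mul
        (((hgm.comp measurable_snd).enorm.pow_const q).mul (hDm.pow_const β))
    have hfin : ∫⁻ θ, (∫⁻ z in Ω, ‖ms θ‖ₑ ^ q * (‖g z‖ₑ ^ q * ‖z - ψs θ‖ₑ⁻¹ ^ β)) ∂arc ≠ ⊤ := by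
      rw [lintegral_lintegral_swap hm1.aemeasurable]
      refine ne_top_of_le_ne_top (ENNReal.mul_ne_top hK₂ hgfin) ?_
      rw [← lintegral_const_mul' _ _ hK₂]
      refine lintegral_mono fun z => ?_
      simp_rw [mul_left_comm _ (‖g z‖ₑ ^ q)]
      rw [lintegral_const_mul' _ _ (ENNReal.rpow_ne_top_of_nonneg hq0.le enorm_ne_top),
        mul_comm K₂]
      exact mul_le_mul_right (hK₂b z) _
    filter_upwards [ae_lt_top hm1.lintegral_prod_right hfin] with θ hθ hθE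
    rw [hF]
    simp only
    rw [integral_const_mul]
    rcases eq_or_ne (ms θ) 0 with h0 | h0
    · rw [h0, zero_mul]
    rw [lintegral_const_mul' _ _ (ENNReal.rpow_ne_top_of_nonneg hq0.le enorm_ne_top)] at hθ
    have hJ := (ENNReal.lt_top_of_mul_ne_top_right hθ.ne
      (ENNReal.rpow_pos (enorm_pos.mpr h0) enorm_ne_top).ne').ne
    rw [cauchy_closure_outer hΩ h.bdd hq hβ0 (by rw [hβ]; linarith) hβ1 hgm hgfin hpoly' hθE hJ,
      mul_zero]
  -- the tails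
  obtain ⟨M, hM0, hMs, hMt⟩ := hW.exists_majorant hdiv (c := (q - 1) / q) (by positivity)
  obtain ⟨K₃, hK₃, hK₃b⟩ := exists_tail_weight h hb hm (P := q / (q - 1))
    ((one_le_div hq1).mpr (by linarith)) (by
      have : η * (q / (q - 1)) ≤ (q - 1) / 24 * (q / (q - 1)) :=
        mul_le_mul_of_nonneg_right hη₀ (by positivity)
      have e : (q - 1) / 24 * (q / (q - 1)) = q / 24 := by field_simp
      linarith)
  obtain ⟨K₄, hK₄, hK₄b⟩ := exists_circle_potential hβ0 hβ1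
  set T : ℕ → ℝ → ℂ → ℂ := fun N θ z => -(g z * (m (φ z) / deriv ψ (φ z)) *
    ((φ z / circleMap 0 1 θ) ^ N / (circleMap 0 1 θ - φ z))) with hT
  have hcm : Measurable (circleMap 0 1) := (continuous_circleMap 0 1).measurable
  have hwm : Measurable fun z => m (φ z) / deriv ψ (φ z) :=
    (hm.meas.comp h.measφ).div ((measurable_deriv ψ).comp h.measφ)
  have hTm : ∀ N, Measurable (Function.uncurry (T N)) := fun N =>
    (((hgm.comp measurable_snd).mul (hwm.comp measurable_snd)).mul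
      ((((h.measφ.comp measurable_snd).div (hcm.comp measurable_fst)).pow_const N).div
        ((hcm.comp measurable_fst).sub (h.measφ.comp measurable_snd)))).neg
  set B₁ : ℝ≥0∞ := K₃ ^ (q - 1) * K₄ * ((W₁ + 1) * Kq) with hB₁
  have hB₁t : B₁ ≠ ⊤ := ENNReal.mul_ne_top (ENNReal.mul_ne_top
    (ENNReal.rpow_ne_top_of_nonneg hq1.le hK₃) hK₄)
    (ENNReal.mul_ne_top (ENNReal.add_ne_top.mpr ⟨hW₁t, ENNReal.one_ne_top⟩) hKqt)
  have hTS : ∀ N, ∫⁻ θ, (∫⁻ z in Ω, ‖T N θ z‖ₑ) ^ q ∂arc ≤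
      ENNReal.ofReal (Real.exp (-M N)) ^ q * B₁ := by
    intro N
    have hS := schur (μ := volume.restrict Ω) hq hβ0.le (by linarith) (F := T N)
      (G := fun z => ‖g z‖ₑ * ‖φ z‖ₑ ^ N) (w := fun z => ‖m (φ z) / deriv ψ (φ z)‖ₑ)
      (v := fun _ => 1) (D := fun θ z => ‖circleMap 0 1 θ - φ z‖ₑ⁻¹)
      (hgm.enorm.mul (h.measφ.enorm.pow_const N)) hwm.enorm measurable_const
      ((hcm.comp measurable_fst).sub (h.measφ.comp measurable_snd)).enorm.inv
      (K₁ := K₃) (K₂ := K₄) (fun θ z => by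
        rw [hT, one_mul]
        simp only
        have e : ‖φ z / circleMap 0 1 θ‖ₑ = ‖φ z‖ₑ := by
          rw [← ofReal_norm, ← ofReal_norm, norm_div, norm_circleMap_zero, abs_one, div_one]
        rw [enorm_neg, enorm_mul, enorm_mul]
        refine (mul_le_mul_right (henorm _ _) _).trans (le_of_eq ?_)
        rw [enorm_pow, e]
        ring)
      (fun θ => by simpa only [hγ] using hK₃b (circleMap 0 1 θ))
      (fun z => by simpa only [ENNReal.one_rpow, one_mul] using hK₄b (φ z))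
    refine hS.trans ?_
    rw [hB₁, mul_left_comm]
    refine mul_le_mul_right ?_ _
    have hEt : ENNReal.ofReal (Real.exp (-M N)) ^ q ≠ ⊤ :=
      ENNReal.rpow_ne_top_of_nonneg hq0.le ENNReal.ofReal_ne_top
    rw [← mul_assoc, hKq, ← lintegral_const_mul' _ _ (ENNReal.mul_ne_top hEt
      (ENNReal.add_ne_top.mpr ⟨hW₁t, ENNReal.one_ne_top⟩))]
    refine setLIntegral_mono' hΩ fun z hz => ?_
    obtain ⟨t, ht, h1, h2⟩ := hMt N
    have hz1 := mem_ball_zero_iff.mp (h.mφ hz)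
    rw [ENNReal.mul_rpow_of_nonneg _ _ hq0.le, mul_add, add_mul]
    rcases le_total (1 - ‖φ z‖) t with h3 | h3
    · refine le_add_left ?_
      rw [mul_one]
      have h4 : (‖φ z‖ₑ ^ N) ^ q ≤ 1 := by
        refine ENNReal.rpow_le_one (pow_le_one' ?_ N) hq0.le
        rw [← ofReal_norm]
        exact ENNReal.ofReal_le_one.mpr hz1.le
      refine (mul_le_of_le_one_right' h4).trans ?_
      rw [hgq]
      refine mul_le_mul_left ((ENNReal.rpow_le_rpow (hωle z hz t ht h3) hq1.le).trans ?_) _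
      have h5 := ENNReal.rpow_le_rpow (ENNReal.ofReal_le_ofReal h2) hq0.le
      rwa [← ENNReal.ofReal_rpow_of_pos (hW.pos t ht), ← ENNReal.rpow_mul,
        div_mul_cancel₀ _ hq0.ne'] at h5
    · refine le_add_right ?_
      rw [mul_comm, mul_assoc]
      refine mul_le_mul' (ENNReal.rpow_le_rpow ?_ hq0.le) (hgW z hz)
      rw [← ofReal_norm, ← ENNReal.ofReal_pow (norm_nonneg _)]
      refine ENNReal.ofReal_le_ofReal ?_
      calc ‖φ z‖ ^ N ≤ Real.exp (-t) ^ N :=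
            pow_le_pow_left₀ (norm_nonneg _) (by linarith [Real.add_one_le_exp (-t)]) N
        _ = Real.exp (-(N * t)) := by rw [← Real.exp_nat_mul, mul_neg]
        _ ≤ _ := Real.exp_le_exp.mpr (by linarith)
  have hTc := fun N => schur_conseq hq (hTm N) (ENNReal.mul_ne_top
    (ENNReal.rpow_ne_top_of_nonneg hq0.le ENNReal.ofReal_ne_top) hB₁t) (hTS N)
  have hmain := beurling hq hH (E := {θ | ψs θ ∈ closure (outerComp Ω)})
    (hψs.meas isClosed_closure.measurableSet) hE hH0 (T := fun N θ => ∫ z in Ω, T N θ z)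
    (fun N => (hTc N).1.integral_prod_left.aestronglyMeasurable)
    (A := (B₁ ^ (1 / q)).toReal) hM0 hMs (fun N => by
      refine (hTc N).2.trans (le_of_eq ?_)
      rw [ENNReal.mul_rpow_of_nonneg _ _ (by positivity), ← ENNReal.rpow_mul,
        mul_one_div_cancel hq0.ne', ENNReal.rpow_one, ENNReal.ofReal_mul ENNReal.toReal_nonneg,
        ENNReal.ofReal_toReal (ENNReal.rpow_ne_top_of_nonneg (by positivity) hB₁t), mul_comm])
    (fun N n hN => by
      have hb1 : ∀ {f : ℝ → ℂ}, Integrable f arc →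
          Integrable (fun θ => f θ * circleMap 0 1 θ ^ (n + 1)) arc := fun hf =>
        hf.mul_bdd (c := 1) (hcm.pow_const _).aestronglyMeasurable
          (Eventually.of_forall fun θ => by simp)
      simp_rw [sub_mul]
      rw [integral_sub (hb1 (f := fun θ => ∫ z in Ω, F θ z) hFi.integral_prod_left)
        (hb1 (f := fun θ => ∫ z in Ω, T N θ z) (hTc N).1.integral_prod_left), hHc,
        integral_mul_circle_swap (hTc N).1, sub_eq_zero, ← integral_const_mul, ← integral_neg]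
      refine setIntegral_congr_fun hΩ fun z hz => ?_
      have e : ∀ θ, T N θ z * circleMap 0 1 θ ^ (n + 1) = -(g z * (m (φ z) / deriv ψ (φ z))) *
          ((φ z / circleMap 0 1 θ) ^ N / (circleMap 0 1 θ - φ z) *
            circleMap 0 1 θ ^ (n + 1)) := fun θ => by
        rw [hT]
        ring
      simp only [e]
      rw [integral_const_mul, residue_tail (h.mφ hz) hN]
      ring)
  intro n
  have h1 := hmain n
  rw [hHc, neg_eq_zero, mul_eq_zero] at h1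
  rw [hint]
  exact h1.resolve_left (Complex.ofReal_ne_zero.mpr (by positivity))

end Pool.Agent.Lib.MP_3a6b94_an
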