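import Pool.Agent.Lib.MP_3a6b94_an.Makarov

open MeasureTheory Set Metric Filter Topology
open scoped ENNReal NNReal Real

namespace Pool.Agent.Lib.MP_3a6b94_an

/-- Schur test. -/
theorem schur {μ : Measure ℂ} [SFinite μ] {q β : ℝ} (hq : 1 < q) (hβ : 0 ≤ β) (hβq : β ≤ q)
    {F : ℝ → ℂ → ℂ} {G w : ℂ → ℝ≥0∞} {v : ℝ → ℝ≥0∞} {D : ℝ → ℂ → ℝ≥0∞} (hG : Measurable G)
    (hw : Measurable w) (hv : Measurable v) (hD : Measurable (Function.uncurry D))
    {K₁ K₂ : ℝ≥0∞} (hF : ∀ θ z, ‖F θ z‖ₑ ≤ v θ * (G z * w z * D θ z))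
    (h₁ : ∀ θ, ∫⁻ z, w z ^ (q / (q - 1)) * D θ z ^ ((q - β) / (q - 1)) ∂μ ≤ K₁)
    (h₂ : ∀ z, ∫⁻ θ, v θ ^ q * D θ z ^ β ∂arc ≤ K₂) :
    ∫⁻ θ, (∫⁻ z, ‖F θ z‖ₑ ∂μ) ^ q ∂arc ≤ K₁ ^ (q - 1) * K₂ * ∫⁻ z, G z ^ q ∂μ := by
  have hq0 : 0 < q := by linarith
  have hDθ : ∀ θ, Measurable (D θ) := fun θ => hD.of_uncurry_left
  have hDz : ∀ z, Measurable fun θ => D θ z := fun z => hD.of_uncurry_right
  have hpt : ∀ θ, (∫⁻ z, ‖F θ z‖ₑ ∂μ) ^ q ≤
      K₁ ^ (q - 1) * ∫⁻ z, G z ^ q * (v θ ^ q * D θ z ^ β) ∂μ := by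
    intro θ
    have e1 : ∫⁻ z, ‖F θ z‖ₑ ∂μ ≤
        v θ * ((∫⁻ z, G z ^ q * D θ z ^ β ∂μ) ^ (1 / q) * K₁ ^ ((q - 1) / q)) := by
      refine (lintegral_mono (hF θ)).trans ?_
      rw [lintegral_const_mul _ ((hG.fun_mul hw).fun_mul (hDθ θ))]
      refine mul_le_mul_right ((lintegral_kernel_le μ hq hβ hβq hG.aemeasurable hw.aemeasurable
        (hDθ θ).aemeasurable).trans (mul_le_mul_right (ENNReal.rpow_le_rpow (h₁ θ)
          (div_nonneg (by linarith) hq0.le)) _)) _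
    refine (ENNReal.rpow_le_rpow e1 hq0.le).trans (le_of_eq ?_)
    rw [ENNReal.mul_rpow_of_nonneg _ _ hq0.le, ENNReal.mul_rpow_of_nonneg _ _ hq0.le,
      ← ENNReal.rpow_mul, ← ENNReal.rpow_mul, one_div_mul_cancel hq0.ne', ENNReal.rpow_one,
      div_mul_cancel₀ _ hq0.ne']
    simp_rw [mul_left_comm (G _ ^ q)]
    rw [lintegral_const_mul _ ((hG.pow_const q).fun_mul ((hDθ θ).pow_const β))]
    ring
  have hm : Measurable (Function.uncurry fun θ z => G z ^ q * (v θ ^ q * D θ z ^ β)) :=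
    ((hG.comp measurable_snd).pow_const q).mul
      (((hv.comp measurable_fst).pow_const q).mul (hD.pow_const β))
  refine (lintegral_mono hpt).trans ?_
  rw [lintegral_const_mul _ hm.lintegral_prod_right, lintegral_lintegral_swap hm.aemeasurable,
    mul_assoc, ← lintegral_const_mul _ (hG.pow_const q)]
  refine mul_le_mul_right (lintegral_mono fun z => ?_) _
  rw [lintegral_const_mul _ ((hv.pow_const q).fun_mul ((hDz z).pow_const β)), mul_comm K₂]
  exact mul_le_mul_right (h₂ z) _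

theorem schur_conseq {μ : Measure ℂ} [SFinite μ] {q : ℝ} (hq : 1 < q) {F : ℝ → ℂ → ℂ}
    (hF : Measurable (Function.uncurry F)) {B : ℝ≥0∞} (hB : B ≠ ⊤)
    (h : ∫⁻ θ, (∫⁻ z, ‖F θ z‖ₑ ∂μ) ^ q ∂arc ≤ B) :
    Integrable (Function.uncurry F) (arc.prod μ) ∧
      eLpNorm (fun θ => ∫ z, F θ z ∂μ) (ENNReal.ofReal q) arc ≤ B ^ (1 / q) := by
  have hq0 : 0 < q := by linarith
  constructor
  · refine ⟨hF.aestronglyMeasurable, ?_⟩
    rw [hasFiniteIntegral_iff_enorm, lintegral_prod _ hF.enorm.aemeasurable]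
    calc ∫⁻ θ, ∫⁻ z, ‖F θ z‖ₑ ∂μ ∂arc ≤ ∫⁻ θ, (1 + (∫⁻ z, ‖F θ z‖ₑ ∂μ) ^ q) ∂arc := by
          refine lintegral_mono fun θ => ?_
          rcases le_total (∫⁻ z, ‖F θ z‖ₑ ∂μ) 1 with h1 | h1
          · exact le_add_right h1
          · exact le_add_left (ENNReal.le_rpow_self_of_one_le h1 hq.le)
      _ ≤ arc univ + B := by
          rw [lintegral_add_left measurable_const, lintegral_one]
          exact add_le_add_right h _
      _ < ⊤ := ENNReal.add_lt_top.mpr ⟨measure_lt_top _ _, hB.lt_top⟩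
  · rw [eLpNorm_eq_lintegral_rpow_enorm_toReal (by simpa using hq0) ENNReal.ofReal_ne_top,
      ENNReal.toReal_ofReal hq0.le]
    refine ENNReal.rpow_le_rpow (le_trans (lintegral_mono fun θ => ?_) h) (by positivity)
    exact ENNReal.rpow_le_rpow (enorm_integral_le_lintegral_enorm _) hq0.le

theorem integral_mul_circle_swap {μ : Measure ℂ} [SFinite μ] {F : ℝ → ℂ → ℂ}
    (hF : Integrable (Function.uncurry F) (arc.prod μ)) (n : ℕ) :
    ∫ θ, (∫ z, F θ z ∂μ) * circleMap 0 1 θ ^ n ∂arc =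
      ∫ z, (∫ θ, F θ z * circleMap 0 1 θ ^ n ∂arc) ∂μ := by
  simp_rw [← integral_mul_const]
  refine integral_integral_swap (f := fun θ z => F θ z * circleMap 0 1 θ ^ n)
    (hF.mul_bdd (c := 1) (((continuous_circleMap 0 1).comp
      continuous_fst).pow n).aestronglyMeasurable (Eventually.of_forall fun p => ?_))
  simp

theorem integral_cauchy_circle {Q : ℂ → ℂ} {R : ℝ} (hR : 0 < R)
    (hQ : DifferentiableOn ℂ Q (closedBall 0 R)) {y : ℂ} (hy : ‖y‖ < R) :
    ∫ θ, circleMap 0 R θ / (circleMap 0 R θ - y) * Q (circleMap 0 R θ) ∂arc =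
      (2 * π : ℝ) * Q y := by
  have hd : DiffContOnCl ℂ Q (ball 0 |R|) := by
    rw [abs_of_pos hR]
    exact DifferentiableOn.diffContOnCl (by rwa [closure_ball _ hR.ne'])
  have h := hd.circleAverage_smul_div (w := y) (by simpa [abs_of_pos hR] using hy)
  rw [circleAverage_eq_arc] at h
  simp only [sub_zero, smul_eq_mul] at h
  rw [← h, Complex.real_smul, ← mul_assoc, ← Complex.ofReal_mul,
    mul_inv_cancel₀ (by positivity), Complex.ofReal_one, one_mul]

/-- The residue computation on the boundary. -/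
theorem residue_bdry {Ω : Set ℂ} {φ ψ b m : ℂ → ℂ} {u : ℕ → ℂ → ℂ} {C η : ℝ} (h : Conf Ω φ ψ)
    (hm : Outer b m u C η) {ρ : ℕ → ℝ} (hρ : Radii ρ) {ψs ms : ℝ → ℂ} (hψs : Bdry ρ ψ ψs)
    (hms : Bdry ρ m ms) {y : ℂ} (hy : y ∈ ball (0 : ℂ) 1) (n : ℕ) :
    ∫ θ, ms θ / (ψ y - ψs θ) * circleMap 0 1 θ ^ (n + 1) ∂arc =
      -((2 * π : ℝ) * (y ^ n * m y / deriv ψ y)) := by
  have hy1 := mem_ball_zero_iff.mp hy
  have hds : DifferentiableOn ℂ (dslope ψ y) (ball 0 1) :=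
    (Complex.differentiableOn_dslope (isOpen_ball.mem_nhds hy)).mpr h.dψ
  have hne : ∀ ζ ∈ ball (0 : ℂ) 1, ζ ≠ y → ψ ζ - ψ y ≠ 0 := fun ζ hζ e e' =>
    e (h.univ.inj hζ hy (sub_eq_zero.mp e'))
  have hds0 : ∀ ζ ∈ ball (0 : ℂ) 1, dslope ψ y ζ ≠ 0 := by
    intro ζ hζ
    rcases eq_or_ne ζ y with rfl | e
    · rw [dslope_same]
      exact h.deriv_ne hζ
    · rw [dslope_of_ne _ e, slope_def_field]
      exact div_ne_zero (hne ζ hζ e) (sub_ne_zero.mpr e)
  have hQ : DifferentiableOn ℂ (fun ζ => -(ζ ^ n * m ζ / dslope ψ y ζ)) (ball 0 1) :=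
    ((((differentiableOn_id.pow n)).mul hm.diff).div hds hds0).neg
  obtain ⟨c, hc, hcl⟩ : ∃ c > 0, ∀ w, dist w (ψ y) < c → ‖φ w‖ < (1 + ‖y‖) / 2 := by
    have h1 := (h.dφ.continuousOn.continuousAt (h.isOpen.mem_nhds (h.mψ hy))).norm
    have h2 := h1.eventually (gt_mem_nhds (a := (1 + ‖y‖) / 2) (by
      simp only [h.right y hy]
      linarith))
    obtain ⟨c, hc, h3⟩ := Metric.eventually_nhds_iff.mp h2
    exact ⟨c, hc, fun w hw => h3 hw⟩
  have hev : ∀ᶠ i in atTop, (1 + ‖y‖) / 2 < ρ i :=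
    hρ.tendsto.eventually (lt_mem_nhds (by linarith))
  have hlim := tendsto_integral_filter_of_dominated_convergence (μ := arc) (l := atTop)
    (F := fun i θ => m (circleMap 0 (ρ i) θ) / (ψ y - ψ (circleMap 0 (ρ i) θ)) *
      circleMap 0 (ρ i) θ ^ (n + 1))
    (f := fun θ => ms θ / (ψ y - ψs θ) * circleMap 0 1 θ ^ (n + 1)) (fun _ => 1 / c)
    (Eventually.of_forall fun i => by
      have hc := (continuous_circleMap 0 (ρ i)).measurable
      exact (((hm.meas.comp hc).div (measurable_const.sub (h.measψ.comp hc))).mul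
        (hc.pow_const _)).aestronglyMeasurable)
    (by
      filter_upwards [hev] with i hi
      refine Eventually.of_forall fun θ => ?_
      have hmem := hρ.mem_ball i θ
      have h1 : c ≤ ‖ψ y - ψ (circleMap 0 (ρ i) θ)‖ := by
        by_contra hn
        have := hcl (ψ (circleMap 0 (ρ i) θ)) (by
          rw [dist_comm, dist_eq_norm]
          exact not_le.mp hn)
        rw [h.right _ hmem, norm_circleMap_zero, abs_of_pos (hρ.mem i).1] at this
        linarith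
      rw [norm_mul, norm_div, norm_pow]
      refine (mul_le_of_le_one_right (by positivity)
        (pow_le_one₀ (norm_nonneg _) (mem_ball_zero_iff.mp hmem).le)).trans ?_
      exact div_le_div₀ zero_le_one (hm.le_one _ hmem) hc h1)
    (integrable_const _)
    (by
      filter_upwards [hψs.tendsto, hms.tendsto, h.bdry_mem hρ hψs] with θ h1 h2 h3
      have ht : Tendsto (fun i => circleMap 0 (ρ i) θ) atTop (𝓝 (circleMap 0 1 θ)) := by
        have := ((Complex.continuous_ofReal.tendsto 1).comp hρ.tendsto).mul_const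
          (Complex.exp (θ * Complex.I))
        simpa [circleMap] using this
      refine (h2.div (h1.const_sub _) (sub_ne_zero.mpr fun e => h3.2 ?_)).mul (ht.pow _)
      rw [← e]
      exact h.mψ hy)
  refine tendsto_nhds_unique hlim (tendsto_const_nhds.congr' ?_)
  filter_upwards [hev] with i hi
  have h1 := integral_cauchy_circle (hρ.mem i).1 (hQ.mono (closedBall_subset_ball (hρ.mem i).2))
    (y := y) (by linarith)
  rw [dslope_same, mul_neg] at h1
  rw [← h1]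
  refine integral_congr_ae (Eventually.of_forall fun θ => ?_)
  have hmem := hρ.mem_ball i θ
  have e : circleMap 0 (ρ i) θ ≠ y := by
    intro e
    have := congrArg norm e
    rw [norm_circleMap_zero, abs_of_pos (hρ.mem i).1] at this
    linarith
  have h2 := hne _ hmem e
  have h3 : ψ y - ψ (circleMap 0 (ρ i) θ) ≠ 0 := fun e' => h2 (by linear_combination -e')
  have h4 := sub_ne_zero.mpr e
  simp only
  rw [dslope_of_ne _ e, slope_def_field]
  field_simp
  ring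

theorem residue_tail {y : ℂ} (hy : y ∈ ball (0 : ℂ) 1) {N n : ℕ} (hN : N ≤ n) :
    ∫ θ, (y / circleMap 0 1 θ) ^ N / (circleMap 0 1 θ - y) * circleMap 0 1 θ ^ (n + 1) ∂arc =
      (2 * π : ℝ) * y ^ n := by
  obtain ⟨j, rfl⟩ := Nat.exists_eq_add_of_le hN
  have h := integral_cauchy_circle (Q := fun ζ => y ^ N * ζ ^ j) one_pos (by fun_prop)
    (mem_ball_zero_iff.mp hy)
  rw [pow_add y, ← h]
  refine integral_congr_ae (Eventually.of_forall fun θ => ?_)
  have h1 : circleMap 0 1 θ ≠ 0 := circleMap_ne_center one_ne_zero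
  simp only [div_pow]
  field_simp
  ring

/-- The weight bound for the tail kernel. -/
theorem exists_tail_weight {Ω : Set ℂ} {φ ψ b m : ℂ → ℂ} {u : ℕ → ℂ → ℂ} {C η P : ℝ}
    (h : Conf Ω φ ψ) (hb : ∀ z ∈ ball (0 : ℂ) 1, Complex.exp (b z) = deriv ψ z)
    (hm : Outer b m u C η) (hP : 1 ≤ P) (hηP : 6 * (η * P) < 1) :
    ∃ K : ℝ≥0∞, K ≠ ⊤ ∧ ∀ ζ : ℂ,
      ∫⁻ z in Ω, ‖m (φ z) / deriv ψ (φ z)‖ₑ ^ P * ‖ζ - φ z‖ₑ⁻¹ ^ (3 / 2 : ℝ) ≤ K := by
  obtain ⟨K, hK, hpot⟩ := exists_area_potential (γ := 9 / 5) (by norm_num) (by norm_num)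
    (isBounded_ball (x := (0 : ℂ)) (r := 1))
  have hfin := lintegral_one_sub_norm_ne_top hηP
  have hC := hm.const_nonneg
  refine ⟨ENNReal.ofReal (C ^ P) *
    ((∫⁻ y in ball (0 : ℂ) 1, ENNReal.ofReal ((1 - ‖y‖) ^ (-(6 * (η * P))))) ^ (1 / 6 : ℝ) *
      K ^ (1 / (6 / 5) : ℝ)), ENNReal.mul_ne_top ENNReal.ofReal_ne_top (ENNReal.mul_ne_top
      (ENNReal.rpow_ne_top_of_nonneg (by norm_num) hfin)
      (ENNReal.rpow_ne_top_of_nonneg (by norm_num) hK)), fun ζ => ?_⟩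
  rw [← h.image, h.univ.lintegral_image]
  have hm1 : Measurable fun y : ℂ => ENNReal.ofReal ((1 - ‖y‖) ^ (-(η * P))) := by fun_prop
  have hm2 : Measurable fun y : ℂ => ‖y - ζ‖ₑ⁻¹ ^ (3 / 2 : ℝ) := by fun_prop
  have hH := ENNReal.lintegral_mul_le_Lp_mul_Lq (volume.restrict (ball (0 : ℂ) 1))
    (p := 6) (q := 6 / 5) ⟨by norm_num, by norm_num, by norm_num⟩ hm1.aemeasurable hm2.aemeasurable
  calc _ ≤ ∫⁻ y in ball (0 : ℂ) 1, ENNReal.ofReal (C ^ P) *
        (ENNReal.ofReal ((1 - ‖y‖) ^ (-(η * P))) * ‖y - ζ‖ₑ⁻¹ ^ (3 / 2 : ℝ)) := by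
        refine setLIntegral_mono' measurableSet_ball fun y hy => ?_
        have hy1 : 0 < 1 - ‖y‖ := by linarith [mem_ball_zero_iff.mp hy]
        rw [h.right y hy, enorm_sub_rev ζ, ← mul_assoc, ← mul_assoc]
        refine mul_le_mul_left ?_ _
        rw [← ofReal_norm, ← ofReal_norm, ← ENNReal.ofReal_pow (norm_nonneg _),
          ENNReal.ofReal_rpow_of_nonneg (norm_nonneg _) (by linarith),
          ← ENNReal.ofReal_mul (by positivity), ← ENNReal.ofReal_mul (by positivity)]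
        refine ENNReal.ofReal_le_ofReal ?_
        have h1 := hm.bound y hy 1 ⟨zero_le_one, le_rfl⟩
        rw [Complex.ofReal_one, one_mul, one_mul] at h1
        have h2 := Real.rpow_le_rpow (by positivity) h1 (by linarith : 0 ≤ P)
        rw [Real.mul_rpow hC (by positivity), ← Real.rpow_mul hy1.le, neg_mul] at h2
        refine le_trans ?_ h2
        rw [norm_div, ← hb y hy, Complex.norm_exp, div_eq_mul_inv, ← Real.exp_neg,
          Real.mul_rpow (norm_nonneg _) (Real.exp_pos _).le,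
          Real.mul_rpow (norm_nonneg _) (Real.exp_pos _).le, mul_left_comm, ← Real.exp_mul,
          ← Real.exp_mul, ← Real.exp_nat_mul, ← Real.exp_add]
        refine mul_le_mul_of_nonneg_left (Real.exp_le_exp.mpr ?_) (by positivity)
        have h3 := abs_le.mp (Complex.abs_re_le_norm (b y))
        push_cast
        nlinarith [norm_nonneg (b y), mul_nonneg (by linarith : 0 ≤ P - 1)
          (by linarith : 0 ≤ ‖b y‖ + (b y).re)]
    _ ≤ _ := by
        rw [lintegral_const_mul' _ _ ENNReal.ofReal_ne_top]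
        refine mul_le_mul_right (hH.trans (mul_le_mul' (le_of_eq ?_)
          (ENNReal.rpow_le_rpow (le_trans (le_of_eq ?_) (hpot ζ)) (by norm_num)))) _
        · congr 1
          refine setLIntegral_congr_fun measurableSet_ball fun y hy => ?_
          have hy1 : 0 < 1 - ‖y‖ := by linarith [mem_ball_zero_iff.mp hy]
          rw [ENNReal.ofReal_rpow_of_pos (by positivity), ← Real.rpow_mul hy1.le]
          congr 2
          ring
        · refine lintegral_congr fun y => ?_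
          rw [← ENNReal.rpow_mul]
          norm_num

end Pool.Agent.Lib.MP_3a6b94_an
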