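import Pool.Agent.Lib.MP_3a6b94_an.Defs

open MeasureTheory Set Metric Filter Topology
open scoped ENNReal NNReal Real

namespace Pool.Agent.Lib.MP_3a6b94_an

/-- Arc length on the circle, parametrised by the angle. -/
noncomputable def arc : Measure ℝ := volume.restrict (Ioc 0 (2 * π))

theorem arc_univ : arc univ = ENNReal.ofReal (2 * π) := by simp [arc]

instance : IsFiniteMeasure arc := ⟨by rw [arc_univ]; exact ENNReal.ofReal_lt_top⟩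

theorem integral_arc {E : Type} [NormedAddCommGroup E] [NormedSpace ℝ E] (F : ℝ → E) :
    ∫ θ, F θ ∂arc = ∫ θ in (0 : ℝ)..(2 * π), F θ := by
  rw [intervalIntegral.integral_of_le (by positivity), arc]

theorem circleAverage_eq_arc {E : Type} [NormedAddCommGroup E] [NormedSpace ℝ E] (F : ℂ → E)
    (r : ℝ) : Real.circleAverage F 0 r = (2 * π)⁻¹ • ∫ θ, F (circleMap 0 r θ) ∂arc := by
  rw [integral_arc, Real.circleAverage_def]

/-- Univalent functions on the unit disc. -/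
structure Univ (ψ : ℂ → ℂ) : Prop where
  diff : DifferentiableOn ℂ ψ (ball 0 1)
  inj : InjOn ψ (ball 0 1)
  meas : Measurable ψ

/-- `φ` is a conformal map of the bounded open set `Ω` onto the disc with inverse `ψ`. -/
structure Conf (Ω : Set ℂ) (φ ψ : ℂ → ℂ) : Prop where
  isOpen : IsOpen Ω
  bdd : Bornology.IsBounded Ω
  dφ : DifferentiableOn ℂ φ Ω
  dψ : DifferentiableOn ℂ ψ (ball 0 1)
  mφ : MapsTo φ Ω (ball 0 1)
  mψ : MapsTo ψ (ball 0 1) Ω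
  left : ∀ z ∈ Ω, ψ (φ z) = z
  right : ∀ y ∈ ball (0 : ℂ) 1, φ (ψ y) = y
  measφ : Measurable φ
  measψ : Measurable ψ

theorem Conf.univ {Ω : Set ℂ} {φ ψ : ℂ → ℂ} (h : Conf Ω φ ψ) : Univ ψ :=
  ⟨h.dψ, fun y hy y' hy' e => by rw [← h.right y hy, e, h.right y' hy'], h.measψ⟩

theorem Conf.image {Ω : Set ℂ} {φ ψ : ℂ → ℂ} (h : Conf Ω φ ψ) : ψ '' ball 0 1 = Ω :=
  subset_antisymm h.mψ.image_subset fun z hz => ⟨φ z, h.mφ hz, h.left z hz⟩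

theorem Conf.deriv_mul {Ω : Set ℂ} {φ ψ : ℂ → ℂ} (h : Conf Ω φ ψ) {y : ℂ}
    (hy : y ∈ ball (0 : ℂ) 1) : deriv φ (ψ y) * deriv ψ y = 1 := by
  have h1 := (h.dψ.differentiableAt (isOpen_ball.mem_nhds hy)).hasDerivAt
  have h2 := (h.dφ.differentiableAt (h.isOpen.mem_nhds (h.mψ hy))).hasDerivAt
  have h3 := h2.comp y h1
  have h4 : (φ ∘ ψ) =ᶠ[𝓝 y] id := by
    filter_upwards [isOpen_ball.mem_nhds hy] with w hw using h.right w hw
  exact (h3.congr_of_eventuallyEq h4.symm).unique (hasDerivAt_id y)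

theorem Conf.deriv_ne {Ω : Set ℂ} {φ ψ : ℂ → ℂ} (h : Conf Ω φ ψ) {y : ℂ}
    (hy : y ∈ ball (0 : ℂ) 1) : deriv ψ y ≠ 0 :=
  right_ne_zero_of_mul_eq_one (h.deriv_mul hy)

/-- `b` is holomorphic on the disc with Bloch constant `B`. -/
structure Bloch (b : ℂ → ℂ) (B : ℝ) : Prop where
  diff : DifferentiableOn ℂ b (ball 0 1)
  bound : ∀ z ∈ ball (0 : ℂ) 1, ‖deriv b z‖ ≤ B / (1 - ‖z‖)

/-- Admissible weights. -/
structure Wt (W : ℝ → ℝ) : Prop where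
  pos : ∀ t ∈ Ioc (0 : ℝ) 1, 0 < W t
  mono : MonotoneOn W (Ioc 0 1)
  meas : Measurable W

theorem isFiniteMeasure_wMeas {Ω : Set ℂ} {φ ψ : ℂ → ℂ} (h : Conf Ω φ ψ) {W : ℝ → ℝ}
    (hW : Wt W) : IsFiniteMeasure (wMeas Ω φ W) := by
  refine ⟨?_⟩
  rw [wMeas, withDensity_apply _ MeasurableSet.univ, Measure.restrict_univ]
  calc ∫⁻ z in Ω, ENNReal.ofReal (W (1 - ‖φ z‖)) ≤ ∫⁻ _ in Ω, ENNReal.ofReal (W 1) := by
        refine setLIntegral_mono' h.isOpen.measurableSet fun z hz => ENNReal.ofReal_le_ofReal ?_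
        have := mem_ball_zero_iff.mp (h.mφ hz)
        have h0 := norm_nonneg (φ z)
        exact hW.mono ⟨by linarith, by linarith⟩ ⟨one_pos, le_rfl⟩ (by linarith)
    _ < ⊤ := by
        rw [setLIntegral_const]
        exact ENNReal.mul_lt_top ENNReal.ofReal_lt_top h.bdd.measure_lt_top

/-- The properties of the outer function `m` used in the proof. -/
structure Outer (b m : ℂ → ℂ) (u : ℕ → ℂ → ℂ) (C η : ℝ) : Prop where
  diff : DifferentiableOn ℂ m (ball 0 1)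
  meas : Measurable m
  le_one : ∀ z ∈ ball (0 : ℂ) 1, ‖m z‖ ≤ 1
  bound : ∀ y ∈ ball (0 : ℂ) 1, ∀ s ∈ Icc (0 : ℝ) 1,
    ‖m y‖ * Real.exp (2 * ‖b (s * y)‖) ≤ C * (1 - s * ‖y‖) ^ (-η)
  diffu : ∀ n, DifferentiableOn ℂ (u n) (ball 0 1)
  bddu : ∀ n, ∃ M : ℝ, ∀ z ∈ ball (0 : ℂ) 1, ‖u n z‖ ≤ M
  mul_le : ∀ n, ∀ z ∈ ball (0 : ℂ) 1, ‖m z * u n z‖ ≤ 1
  tendsto : ∀ z ∈ ball (0 : ℂ) 1, Tendsto (fun n => m z * u n z) atTop (𝓝 1)

/-- A sequence of radii tending to one. -/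
structure Radii (ρ : ℕ → ℝ) : Prop where
  mem : ∀ i, ρ i ∈ Ioo (0 : ℝ) 1
  tendsto : Tendsto ρ atTop (𝓝 1)

/-- `g` is the almost everywhere limit of `f` along the circles of radii `ρ i`. -/
structure Bdry (ρ : ℕ → ℝ) (f : ℂ → ℂ) (g : ℝ → ℂ) : Prop where
  meas : Measurable g
  tendsto : ∀ᵐ θ ∂arc, Tendsto (fun i => f (circleMap 0 (ρ i) θ)) atTop (𝓝 (g θ))

theorem Radii.comp {ρ : ℕ → ℝ} (h : Radii ρ) {κ : ℕ → ℕ} (hκ : StrictMono κ) : Radii (ρ ∘ κ) :=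
  ⟨fun i => h.mem (κ i), h.tendsto.comp hκ.tendsto_atTop⟩

theorem Bdry.comp {ρ : ℕ → ℝ} {f : ℂ → ℂ} {g : ℝ → ℂ} (h : Bdry ρ f g) {κ : ℕ → ℕ}
    (hκ : StrictMono κ) : Bdry (ρ ∘ κ) f g :=
  ⟨h.meas, h.tendsto.mono fun _ hθ => hθ.comp hκ.tendsto_atTop⟩

theorem circleMap_mem_ball {r : ℝ} (hr : |r| < 1) (θ : ℝ) : circleMap 0 r θ ∈ ball (0 : ℂ) 1 := by
  simpa using hr

/-- The boundary values of the conformal map lie on the boundary. -/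
theorem Conf.bdry_mem {Ω : Set ℂ} {φ ψ : ℂ → ℂ} (h : Conf Ω φ ψ) {ρ : ℕ → ℝ} (hρ : Radii ρ)
    {ψs : ℝ → ℂ} (hψ : Bdry ρ ψ ψs) : ∀ᵐ θ ∂arc, ψs θ ∈ closure Ω ∧ ψs θ ∉ Ω := by
  filter_upwards [hψ.tendsto] with θ hθ
  have hm : ∀ i, circleMap 0 (ρ i) θ ∈ ball (0 : ℂ) 1 := fun i =>
    circleMap_mem_ball (by rw [abs_of_pos (hρ.mem i).1]; exact (hρ.mem i).2) θ
  refine ⟨mem_closure_of_tendsto hθ (Eventually.of_forall fun i => h.mψ (hm i)), fun hin => ?_⟩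
  have h1 := ((h.dφ.continuousOn.continuousAt (h.isOpen.mem_nhds hin)).tendsto.comp hθ).norm
  have h2 : (fun i => ‖(φ ∘ fun i => ψ (circleMap 0 (ρ i) θ)) i‖) = ρ := by
    funext i
    simp [h.right _ (hm i), abs_of_pos (hρ.mem i).1]
  rw [h2] at h1
  have h3 := tendsto_nhds_unique h1 hρ.tendsto
  have h4 := mem_ball_zero_iff.mp (h.mφ hin)
  linarith

end Pool.Agent.Lib.MP_3a6b94_an
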