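import Pool.Agent.Lib.MP_3a6b94_an.Hardy

open MeasureTheory Set Metric Filter Topology
open scoped ENNReal NNReal Real ComplexConjugate

namespace Pool.Agent.Lib.MP_3a6b94_an

theorem norm_e (θ : ℝ) : ‖circleMap 0 1 θ‖ = 1 := by simp

theorem orth_holo {Φ : ℝ → ℂ} (hΦ : Integrable Φ arc)
    (ho : ∀ n : ℕ, ∫ θ, Φ θ * circleMap 0 1 θ ^ (n + 1) ∂arc = 0) {Y : ℂ → ℂ} {R : ℝ}
    (hR : 1 < R) (hY : DifferentiableOn ℂ Y (ball 0 R)) :
    ∫ θ, Φ θ * (circleMap 0 1 θ * Y (circleMap 0 1 θ)) ∂arc = 0 := by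
  have hG : Integrable (fun θ => Φ θ * circleMap 0 1 θ) arc :=
    hΦ.mul_bdd (c := 1) (continuous_circleMap 0 1).aestronglyMeasurable
      (Eventually.of_forall fun θ => (norm_e θ).le)
  have h := hasSum_integral_series (summable_taylor hY zero_le_one hR)
    (hasSum_taylor_circle hY zero_le_one hR) hG
  have e0 : ∀ n : ℕ, ∫ θ, circleMap 0 1 θ ^ n * (Φ θ * circleMap 0 1 θ) ∂arc = 0 := by
    intro n
    refine Eq.trans (integral_congr_ae (Eventually.of_forall fun θ => ?_)) (ho n)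
    simp only [pow_succ]
    ring
  simp only [e0, mul_zero] at h
  refine Eq.trans (integral_congr_ae (Eventually.of_forall fun θ => ?_)) (h.unique hasSum_zero)
  simp only
  ring

theorem exists_radius {z : ℂ} (hz : z ∈ ball (0 : ℂ) 1) :
    ∃ R : ℝ, 1 < R ∧ ∀ ζ ∈ ball (0 : ℂ) R, 1 - conj z * ζ ≠ 0 := by
  have h1 := mem_ball_zero_iff.mp hz
  have h0 := norm_nonneg z
  refine ⟨2 / (1 + ‖z‖), by rw [lt_div_iff₀ (by linarith)]; linarith, fun ζ hζ e => ?_⟩
  have h2 := mem_ball_zero_iff.mp hζ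
  rw [lt_div_iff₀ (by linarith)] at h2
  have h3 : ‖conj z * ζ‖ = 1 := by rw [← sub_eq_zero.mp e]; simp
  rw [norm_mul, Complex.norm_conj] at h3
  nlinarith [norm_nonneg ζ]

theorem poisson_eq {z ζ : ℂ} (hz : z ∈ ball (0 : ℂ) 1) (hζ : ‖ζ‖ = 1) :
    (poissonKernel 0 z ζ : ℂ) = 1 / (1 - z * conj ζ) + ζ * (conj z / (1 - conj z * ζ)) := by
  have h1 : ζ * conj ζ = 1 := by rw [Complex.mul_conj, Complex.normSq_eq_norm_sq, hζ]; simp
  have hz1 := mem_ball_zero_iff.mp hz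
  have h2 : 1 - conj z * ζ ≠ 0 := by
    intro e
    have h3 : ‖conj z * ζ‖ = 1 := by rw [← sub_eq_zero.mp e]; simp
    rw [norm_mul, Complex.norm_conj, hζ] at h3
    linarith
  have h3 : 1 - z * conj ζ ≠ 0 := by
    intro e
    apply h2
    have := congrArg conj e
    simpa using this
  have h4 : ((‖ζ - z‖ ^ 2 : ℝ) : ℂ) = (1 - z * conj ζ) * (1 - conj z * ζ) := by
    rw [← Complex.normSq_eq_norm_sq, ← Complex.mul_conj, map_sub]
    linear_combination (1 - z * conj z) * h1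
  have h5 : ((‖z‖ ^ 2 : ℝ) : ℂ) = z * conj z := by
    rw [← Complex.normSq_eq_norm_sq, ← Complex.mul_conj]
  rw [poissonKernel_def, sub_zero, sub_zero, hζ, Complex.ofReal_div, Complex.ofReal_sub, h4, h5]
  field_simp
  simp only [Complex.ofReal_one]
  linear_combination (z * conj z) * h1

theorem integrable_mul_cont {Φ G : ℝ → ℂ} (hΦ : Integrable Φ arc) (hG : Continuous G) :
    Integrable (fun θ => Φ θ * G θ) arc := by
  obtain ⟨C, hC⟩ := isCompact_Icc.exists_bound_of_continuousOn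
    (hG.continuousOn (s := Icc 0 (2 * π)))
  refine hΦ.mul_bdd (c := C) hG.aestronglyMeasurable ?_
  rw [arc]
  filter_upwards [ae_restrict_mem measurableSet_Ioc] with θ hθ
  exact hC θ (Ioc_subset_Icc_self hθ)

theorem continuous_comp_e {Y : ℂ → ℂ} {R : ℝ} (hR : 1 < R)
    (hY : DifferentiableOn ℂ Y (ball 0 R)) : Continuous fun θ => Y (circleMap 0 1 θ) :=
  continuous_comp_circleMap hY.continuousOn zero_le_one hR

/-- The Poisson integral of a function of analytic type is its Cauchy integral. -/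
theorem poisson_eq_cauchy {Φ : ℝ → ℂ} (hΦ : Integrable Φ arc)
    (ho : ∀ n : ℕ, ∫ θ, Φ θ * circleMap 0 1 θ ^ (n + 1) ∂arc = 0) {z : ℂ}
    (hz : z ∈ ball (0 : ℂ) 1) :
    ∫ θ, Φ θ * (1 / (1 - z * conj (circleMap 0 1 θ))) ∂arc =
      ∫ θ, Φ θ * poissonKernel 0 z (circleMap 0 1 θ) ∂arc := by
  obtain ⟨R, hR, hne⟩ := exists_radius hz
  have hY : DifferentiableOn ℂ (fun ζ => conj z / (1 - conj z * ζ)) (ball 0 R) :=
    DifferentiableOn.div (by fun_prop) (by fun_prop) hne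
  have h1 := orth_holo hΦ ho hR hY
  have hP : Continuous fun θ => (poissonKernel 0 z (circleMap 0 1 θ) : ℂ) :=
    Complex.continuous_ofReal.comp (continuous_poissonKernel hz)
  have i1 := integrable_mul_cont hΦ hP
  have i2 := integrable_mul_cont hΦ ((continuous_circleMap 0 1).mul (continuous_comp_e hR hY))
  have h2 := integral_sub i1 i2
  simp only [Pi.mul_apply, h1, sub_zero] at h2
  rw [← h2]
  refine integral_congr_ae (Eventually.of_forall fun θ => ?_)
  simp only [poisson_eq hz (norm_e θ)]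
  ring

/-- Multiplicativity of the Poisson integral. -/
theorem poisson_mul {Φ : ℝ → ℂ} (hΦ : Integrable Φ arc)
    (ho : ∀ n : ℕ, ∫ θ, Φ θ * circleMap 0 1 θ ^ (n + 1) ∂arc = 0) {z : ℂ}
    (hz : z ∈ ball (0 : ℂ) 1) {X : ℂ → ℂ} {R : ℝ} (hR : 1 < R)
    (hX : DifferentiableOn ℂ X (ball 0 R)) :
    (∫ θ, Φ θ * poissonKernel 0 z (circleMap 0 1 θ) ∂arc) * X z =
      ∫ θ, Φ θ * (poissonKernel 0 z (circleMap 0 1 θ) * X (circleMap 0 1 θ)) ∂arc := by
  obtain ⟨R', hR', hne⟩ := exists_radius hz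
  have hz1 := mem_ball_zero_iff.mp hz
  have hm : 1 < min R R' := lt_min hR hR'
  have hX' := hX.mono (ball_subset_ball (min_le_left R R'))
  have hzb : ball (0 : ℂ) (min R R') ∈ 𝓝 z :=
    isOpen_ball.mem_nhds (mem_ball_zero_iff.mpr (hz1.trans hm))
  have hY : DifferentiableOn ℂ
      (fun ζ => dslope X z ζ + (X ζ - X z) * (conj z / (1 - conj z * ζ))) (ball 0 (min R R')) := by
    refine ((Complex.differentiableOn_dslope hzb).mpr hX').add
      ((hX'.sub_const _).mul (DifferentiableOn.div (by fun_prop) (by fun_prop) ?_))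
    exact fun ζ hζ => hne ζ (ball_subset_ball (min_le_right R R') hζ)
  have h1 := orth_holo hΦ ho hm hY
  have hP : Continuous fun θ => (poissonKernel 0 z (circleMap 0 1 θ) : ℂ) :=
    Complex.continuous_ofReal.comp (continuous_poissonKernel hz)
  have i1 := integrable_mul_cont hΦ (hP.mul (continuous_comp_e hR hX))
  have i2 := integrable_mul_cont hΦ ((continuous_circleMap 0 1).mul (continuous_comp_e hm hY))
  have h0 := integral_sub i1 i2
  simp only [Pi.mul_apply, h1, sub_zero] at h0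
  rw [← h0, ← integral_mul_const]
  refine integral_congr_ae (Eventually.of_forall fun θ => ?_)
  beta_reduce
  set ζ := circleMap 0 1 θ with hζ
  have hn : ‖ζ‖ = 1 := norm_e θ
  have hne' : ζ ≠ z := fun e => by rw [e] at hn; linarith
  have h2 : ζ * conj ζ = 1 := by rw [Complex.mul_conj, Complex.normSq_eq_norm_sq, hn]; simp
  have h3 : 1 / (1 - z * conj ζ) = ζ / (ζ - z) := by
    have h4 : ζ - z = ζ * (1 - z * conj ζ) := by linear_combination z * h2
    have h5 : ζ ≠ 0 := fun e => by rw [e] at hn; simp at hn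
    rw [h4, div_mul_eq_div_div, div_self h5]
  have h6 := sub_ne_zero.mpr hne'
  simp only [poisson_eq hz hn, h3, dslope_of_ne X hne', slope_def_field]
  field_simp
  ring

/-- The Herglotz integral of a bounded density. -/
theorem exists_herglotz {μ : ℝ → ℝ} (hμ : Integrable μ arc) :
    ∃ H : ℂ → ℂ, DifferentiableOn ℂ H (ball 0 1) ∧ ∀ w ∈ ball (0 : ℂ) 1,
      (H w).re = (2 * π)⁻¹ * ∫ θ, poissonKernel 0 w (circleMap 0 1 θ) * μ θ ∂arc := by
  have hμc : Integrable (fun θ => (μ θ : ℂ)) arc := hμ.ofReal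
  have hu : Integrable (fun θ => (μ θ : ℂ) * (2 * circleMap 0 1 θ)) arc :=
    integrable_mul_cont hμc (by fun_prop)
  have hd := differentiableOn_cauchy hu (continuous_circleMap 0 1).aemeasurable
    (isClosed_sphere (x := (0 : ℂ)) (ε := 1))
    (Eventually.of_forall fun θ => circleMap_mem_sphere 0 zero_le_one θ)
  have hsub : ball (0 : ℂ) 1 ⊆ (sphere (0 : ℂ) 1)ᶜ := fun w hw hs => by
    have := mem_ball_zero_iff.mp hw
    simp only [mem_sphere_iff_norm, sub_zero] at hs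
    linarith
  refine ⟨fun w => ((2 * π)⁻¹ : ℝ) *
    (∫ θ, (μ θ : ℂ) * (2 * circleMap 0 1 θ) / (circleMap 0 1 θ - w) ∂arc - ∫ θ, (μ θ : ℂ) ∂arc),
    ((hd.mono hsub).sub_const _).const_mul _, fun w hw => ?_⟩
  have hne : ∀ θ, circleMap 0 1 θ - w ≠ 0 := fun θ => sub_ne_zero.mpr (circleMap_ne_mem_ball hw θ)
  have hk : Continuous fun θ => 2 * circleMap 0 1 θ / (circleMap 0 1 θ - w) :=
    Continuous.div (by fun_prop) (by fun_prop) hne
  have i1 : Integrable (fun θ => (μ θ : ℂ) * (2 * circleMap 0 1 θ) / (circleMap 0 1 θ - w)) arc := by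
    simpa only [mul_div_assoc] using integrable_mul_cont hμc hk
  rw [Complex.re_ofReal_mul, ← integral_sub i1 hμc]
  congr 1
  have h1 := Complex.reCLM.integral_comp_comm (i1.sub hμc)
  simp only [Complex.reCLM_apply, Pi.sub_apply] at h1
  rw [← h1]
  refine integral_congr_ae (Eventually.of_forall fun θ => ?_)
  have h2 : (μ θ : ℂ) * (2 * circleMap 0 1 θ) / (circleMap 0 1 θ - w) - μ θ =
      μ θ * herglotzRieszKernel 0 w (circleMap 0 1 θ) := by
    have := hne θ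
    rw [herglotzRieszKernel_def, sub_zero, sub_zero]
    field_simp
    ring
  simp only [h2, Complex.re_ofReal_mul, poissonKernel_eq_re_herglotzRieszKernel,
    Function.comp_apply, mul_comm]

theorem poisson_avg_le {μ : ℝ → ℝ} (hμ : Integrable μ arc) {L : ℝ} (hL : ∀ θ, μ θ ≤ L) {w : ℂ}
    (hw : w ∈ ball (0 : ℂ) 1) :
    (2 * π)⁻¹ * ∫ θ, poissonKernel 0 w (circleMap 0 1 θ) * μ θ ∂arc ≤ L := by
  have hP := continuous_poissonKernel hw
  have hPi := integrable_arc_of_continuous hP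
  obtain ⟨C, hC⟩ := isCompact_Icc.exists_bound_of_continuousOn
    (hP.continuousOn (s := Icc 0 (2 * π)))
  have i1 : Integrable (fun θ => poissonKernel 0 w (circleMap 0 1 θ) * μ θ) arc := by
    refine hμ.bdd_mul (c := C) hP.aestronglyMeasurable ?_
    rw [arc]
    filter_upwards [ae_restrict_mem measurableSet_Ioc] with θ hθ
    exact hC θ (Ioc_subset_Icc_self hθ)
  have h1 := integral_mono i1 (hPi.mul_const L) fun θ =>
    mul_le_mul_of_nonneg_left (hL θ) (poissonKernel_nonneg (mem_ball_zero_iff.mp hw).le θ)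
  rw [integral_mul_const, integral_poissonKernel hw] at h1
  rw [inv_mul_le_iff₀ (by positivity)]
  exact h1

/-- Two-constants inequality. -/
theorem two_const {Φ : ℝ → ℂ} (hΦ : Integrable Φ arc)
    (ho : ∀ n : ℕ, ∫ θ, Φ θ * circleMap 0 1 θ ^ (n + 1) ∂arc = 0) {μ : ℝ → ℝ}
    (hμ : Measurable μ) {L : ℝ} (h0 : ∀ θ, 0 ≤ μ θ) (hL : ∀ θ, μ θ ≤ L)
    (hc : ∀ θ ∈ Ioo 0 (2 * π), ContinuousAt μ θ ∨ μ θ = L) {z : ℂ} (hz : z ∈ ball (0 : ℂ) 1) :
    ‖∫ θ, Φ θ * poissonKernel 0 z (circleMap 0 1 θ) ∂arc‖ *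
        Real.exp ((2 * π)⁻¹ * ∫ θ, poissonKernel 0 z (circleMap 0 1 θ) * μ θ ∂arc) ≤
      ∫ θ, poissonKernel 0 z (circleMap 0 1 θ) * (‖Φ θ‖ * Real.exp (μ θ)) ∂arc := by
  classical
  have hμb : ∀ θ, ‖μ θ‖ ≤ L := fun θ => by rw [Real.norm_of_nonneg (h0 θ)]; exact hL θ
  have hμi : Integrable μ arc :=
    (integrable_const L).mono' hμ.aestronglyMeasurable (Eventually.of_forall hμb)
  obtain ⟨H, hH, hre⟩ := exists_herglotz hμi
  have hz1 := mem_ball_zero_iff.mp hz
  have hP := continuous_poissonKernel hz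
  have hP0 := poissonKernel_nonneg hz1.le
  obtain ⟨C, hC⟩ := isCompact_Icc.exists_bound_of_continuousOn
    (hP.continuousOn (s := Icc 0 (2 * π)))
  have hev : ∀ᶠ ρ : ℝ in 𝓝[<] 1, ρ ∈ Ioo (0 : ℝ) 1 := Ioo_mem_nhdsLT one_pos
  set Y : ℝ → ℝ → ℝ := fun ρ θ =>
    if μ θ = L then Real.exp L else Real.exp (H (circleMap 0 ρ θ)).re with hY
  have hmem : ∀ ρ ∈ Ioo (0 : ℝ) 1, ∀ θ, circleMap 0 ρ θ ∈ ball (0 : ℂ) 1 := fun ρ hρ θ =>
    circleMap_mem_ball (by rw [abs_of_pos hρ.1]; exact hρ.2) θ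
  have hHL : ∀ w ∈ ball (0 : ℂ) 1, (H w).re ≤ L := fun w hw => by
    rw [hre w hw]
    exact poisson_avg_le hμi hL hw
  have hYm : ∀ ρ ∈ Ioo (0 : ℝ) 1, Measurable (Y ρ) := fun ρ hρ =>
    Measurable.ite (hμ (measurableSet_singleton L)) measurable_const
      (Complex.continuous_re.comp
        (continuous_comp_circleMap hH.continuousOn hρ.1.le hρ.2)).rexp.measurable
  have hYb : ∀ ρ ∈ Ioo (0 : ℝ) 1, ∀ θ, Real.exp (H (circleMap 0 ρ θ)).re ≤ Y ρ θ ∧
      Y ρ θ ≤ Real.exp L := fun ρ hρ θ => by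
    have := Real.exp_le_exp.mpr (hHL _ (hmem ρ hρ θ))
    simp only [hY]
    split_ifs
    · exact ⟨this, le_rfl⟩
    · exact ⟨le_rfl, this⟩
  have hbd : ∀ ρ ∈ Ioo (0 : ℝ) 1, ∀ᵐ θ ∂arc,
      ‖poissonKernel 0 z (circleMap 0 1 θ) * (‖Φ θ‖ * Y ρ θ)‖ ≤ C * (‖Φ θ‖ * Real.exp L) := by
    intro ρ hρ
    rw [arc]
    filter_upwards [ae_restrict_mem measurableSet_Ioc] with θ hθ
    have h1 := hC θ (Ioc_subset_Icc_self hθ)
    have h2 := hYb ρ hρ θ
    have h3 : 0 ≤ Y ρ θ := (Real.exp_pos _).le.trans h2.1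
    rw [norm_mul, norm_mul, norm_norm, Real.norm_of_nonneg h3]
    exact mul_le_mul h1 (mul_le_mul_of_nonneg_left h2.2 (norm_nonneg _)) (by positivity)
      ((norm_nonneg _).trans h1)
  have hms : ∀ ρ ∈ Ioo (0 : ℝ) 1, AEStronglyMeasurable
      (fun θ => poissonKernel 0 z (circleMap 0 1 θ) * (‖Φ θ‖ * Y ρ θ)) arc := fun ρ hρ =>
    hP.aestronglyMeasurable.mul (hΦ.norm.aestronglyMeasurable.mul (hYm ρ hρ).aestronglyMeasurable)
  have hdom : Integrable (fun θ => C * (‖Φ θ‖ * Real.exp L)) arc :=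
    (hΦ.norm.mul_const _).const_mul _
  have t1 : Tendsto (fun ρ : ℝ => ∫ θ, poissonKernel 0 z (circleMap 0 1 θ) *
      (‖Φ θ‖ * Y ρ θ) ∂arc) (𝓝[<] 1)
      (𝓝 (∫ θ, poissonKernel 0 z (circleMap 0 1 θ) * (‖Φ θ‖ * Real.exp (μ θ)) ∂arc)) := by
    refine tendsto_integral_filter_of_dominated_convergence _ (hev.mono hms) (hev.mono hbd) hdom ?_
    rw [arc, ← restrict_Ioo_eq_restrict_Ioc]
    filter_upwards [ae_restrict_mem measurableSet_Ioo] with θ hθ
    refine Tendsto.const_mul _ (Tendsto.const_mul _ ?_)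
    by_cases hθL : μ θ = L
    · simp only [hY, hθL, if_true]
      exact tendsto_const_nhds
    · simp only [hY, hθL, if_false]
      have hcθ := (hc θ hθ).resolve_right hθL
      have h1 := tendsto_poisson (v := fun t => (μ t : ℂ)) (M := L)
        (Complex.measurable_ofReal.comp hμ) (fun t => by simpa using hμb t) hθ
        (Complex.continuous_ofReal.continuousAt.comp hcθ)
      have h2 := (Complex.continuous_re.tendsto _).comp h1
      refine (Real.continuous_exp.tendsto _).comp (h2.congr' ?_)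
      filter_upwards [hev] with ρ hρ
      simp only [Function.comp_apply, hre _ (hmem ρ hρ θ), Complex.real_smul,
        ← Complex.ofReal_mul, integral_complex_ofReal, Complex.ofReal_re]
  have t2 : Tendsto (fun ρ : ℝ => ‖∫ θ, Φ θ * poissonKernel 0 z (circleMap 0 1 θ) ∂arc‖ *
      Real.exp (H (ρ * z)).re) (𝓝[<] 1)
      (𝓝 (‖∫ θ, Φ θ * poissonKernel 0 z (circleMap 0 1 θ) ∂arc‖ * Real.exp (H z).re)) := by
    refine Tendsto.const_mul _ ((Real.continuous_exp.tendsto _).comp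
      ((Complex.continuous_re.tendsto _).comp ?_))
    refine (hH.continuousOn.continuousAt (isOpen_ball.mem_nhds hz)).tendsto.comp ?_
    have : Continuous fun ρ : ℝ => (ρ : ℂ) * z := by fun_prop
    simpa using (this.tendsto 1).mono_left nhdsWithin_le_nhds
  rw [← hre z hz]
  refine le_of_tendsto_of_tendsto t2 t1 ?_
  filter_upwards [hev] with ρ hρ
  have hR : 1 < ρ⁻¹ := (one_lt_inv₀ hρ.1).mpr hρ.2
  have hX : DifferentiableOn ℂ (fun ζ => Complex.exp (H (ρ * ζ))) (ball 0 ρ⁻¹) := by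
    refine DifferentiableOn.cexp (hH.comp (by fun_prop) fun ζ hζ => ?_)
    have := mem_ball_zero_iff.mp hζ
    rw [mem_ball_zero_iff, norm_mul, Complex.norm_real, Real.norm_of_nonneg hρ.1.le]
    rwa [← lt_inv_mul_iff₀ hρ.1, mul_one]
  have h1 := poisson_mul hΦ ho hz hR hX
  rw [← Complex.norm_exp, ← norm_mul, h1]
  refine norm_integral_le_of_norm_le (hdom.mono' (hms ρ hρ) (hbd ρ hρ))
    (Eventually.of_forall fun θ => ?_)
  have h2 : (ρ : ℂ) * circleMap 0 1 θ = circleMap 0 ρ θ := by simp [circleMap]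
  rw [norm_mul, norm_mul, Complex.norm_real, Real.norm_of_nonneg (hP0 θ), Complex.norm_exp, h2,
    mul_left_comm]
  exact mul_le_mul_of_nonneg_left
    (mul_le_mul_of_nonneg_left (hYb ρ hρ θ).1 (norm_nonneg _)) (hP0 θ)

end Pool.Agent.Lib.MP_3a6b94_an
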