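import Pool.Agent.Lib.MP_3a6b94_an.BeurlingMellin

open MeasureTheory Set Metric Filter Topology
open scoped ENNReal NNReal Real ComplexConjugate

namespace Pool.Agent.Lib.MP_3a6b94_an

theorem exists_imag_ne_zero {F : ℂ → ℂ} (hF : Differentiable ℂ F) {s : ℂ} (hs : F s ≠ 0) :
    ∃ b ∈ Icc (1 : ℝ) 2, F (b * Complex.I) ≠ 0 := by
  by_contra hcon
  push Not at hcon
  have ht : Tendsto (fun n : ℕ => ((1 + 1 / ((n : ℝ) + 1) : ℝ) : ℂ) * Complex.I) atTop
      (𝓝[≠] Complex.I) := by
    refine tendsto_nhdsWithin_iff.mpr ⟨?_, Eventually.of_forall fun n => ?_⟩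
    · have h1 := (tendsto_one_div_add_atTop_nhds_zero_nat (𝕜 := ℝ)).const_add 1
      have h2 := ((Complex.continuous_ofReal.tendsto _).comp h1).mul_const Complex.I
      simpa [Function.comp_def] using h2
    · intro e
      have h1 := congrArg Complex.im (mem_singleton_iff.mp e)
      simp only [Complex.mul_im, Complex.ofReal_re, Complex.I_im, mul_one, Complex.ofReal_im,
        Complex.I_re, mul_zero, add_zero] at h1
      have : (0 : ℝ) < 1 / ((n : ℝ) + 1) := by positivity
      linarith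
  have hfr : ∃ᶠ z in 𝓝[≠] Complex.I, F z = 0 := by
    refine ht.frequently (Frequently.of_forall fun n => hcon _ ⟨?_, ?_⟩)
    · have : (0 : ℝ) < 1 / ((n : ℝ) + 1) := by positivity
      linarith
    · have : 1 / ((n : ℝ) + 1) ≤ 1 := by
        rw [div_le_one (by positivity)]
        linarith [n.cast_nonneg (α := ℝ)]
      linarith
  exact hs ((hF.differentiableOn.analyticOnNhd isOpen_univ).eqOn_zero_of_preconnected_of_frequently_eq_zero
    isPreconnected_univ (mem_univ _) hfr (mem_univ s))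

theorem e_ne_one {θ : ℝ} (hθ : θ ∈ Ioo 0 (2 * π)) : circleMap 0 1 θ ≠ 1 := by
  intro e
  have h1 : circleMap 0 1 θ = circleMap 0 1 0 := by rw [e]; simp [circleMap]
  have h2 := eq_of_circleMap_eq one_ne_zero
    (abs_lt.mpr ⟨by linarith [hθ.1, Real.pi_pos], by linarith [hθ.2]⟩) h1
  exact hθ.1.ne' h2

/-- Boundary moments of a bounded holomorphic function continuous up to the boundary off `1`. -/
theorem integral_bdry_pow {G : ℂ → ℂ} (hG : DifferentiableOn ℂ G {w | w ≠ 1}) (hm : Measurable G)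
    {A : ℝ} (hA : ∀ w : ℂ, ‖w‖ ≤ 1 → ‖G w‖ ≤ A) (n : ℕ) :
    ∫ θ, G (circleMap 0 1 θ) * circleMap 0 1 θ ^ n ∂arc = (2 * π : ℝ) * (G 0 * 0 ^ n) := by
  have hev : ∀ᶠ ρ : ℝ in 𝓝[<] 1, ρ ∈ Ioo (0 : ℝ) 1 := Ioo_mem_nhdsLT one_pos
  have t1 : Tendsto (fun ρ : ℝ => ∫ θ, G (circleMap 0 ρ θ) * circleMap 0 ρ θ ^ n ∂arc) (𝓝[<] 1)
      (𝓝 (∫ θ, G (circleMap 0 1 θ) * circleMap 0 1 θ ^ n ∂arc)) := by
    refine tendsto_integral_filter_of_dominated_convergence (fun _ => A)
      (Eventually.of_forall fun ρ => ?_) (hev.mono fun ρ hρ => Eventually.of_forall fun θ => ?_)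
      (integrable_const A) ?_
    · have := (continuous_circleMap 0 ρ).measurable
      exact ((hm.comp this).mul (this.pow_const n)).aestronglyMeasurable
    · have h1 : ‖circleMap 0 ρ θ‖ ≤ 1 := by simpa [abs_of_pos hρ.1] using hρ.2.le
      rw [norm_mul, norm_pow]
      exact (mul_le_of_le_one_right (norm_nonneg _) (pow_le_one₀ (norm_nonneg _) h1)).trans
        (hA _ h1)
    · rw [arc, ← restrict_Ioo_eq_restrict_Ioc]
      filter_upwards [ae_restrict_mem measurableSet_Ioo] with θ hθ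
      have hc : Continuous fun ρ : ℝ => circleMap 0 ρ θ := by
        unfold circleMap
        fun_prop
      have h1 := (hc.tendsto 1).mono_left (nhdsWithin_le_nhds (s := Iio 1))
      have h2 : ContinuousAt G (circleMap 0 1 θ) :=
        hG.continuousOn.continuousAt (isOpen_ne.mem_nhds (e_ne_one hθ))
      exact (h2.tendsto.comp h1).mul (h1.pow n)
  refine tendsto_nhds_unique t1 (tendsto_const_nhds.congr' (hev.mono fun ρ hρ => ?_))
  have hd : DifferentiableOn ℂ (fun w => G w * w ^ n) (closure (ball 0 |ρ|)) := by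
    refine (hG.mono fun w hw e => ?_).mul (by fun_prop)
    have := closure_ball_subset_closedBall hw
    rw [e, mem_closedBall_zero_iff, norm_one, abs_of_pos hρ.1] at this
    linarith [hρ.2]
  have h3 := hd.diffContOnCl.circleAverage
  rw [circleAverage_eq_arc] at h3
  beta_reduce
  rw [← h3, Complex.real_smul, ← mul_assoc, ← Complex.ofReal_mul,
    mul_inv_cancel₀ (by positivity), Complex.ofReal_one, one_mul]

theorem cayley_arctan {b : ℝ} (hb : 0 < b) (x : ℝ) :
    b * Complex.I * ((1 + circleMap 0 1 (π + 2 * Real.arctan (x / b))) /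
      (1 - circleMap 0 1 (π + 2 * Real.arctan (x / b)))) = x := by
  set α := Real.arctan (x / b) with hα
  have hc : 0 < Real.cos α := Real.cos_arctan_pos _
  have hsin : Real.sin α = x / b * Real.cos α := by
    rw [← Real.tan_mul_cos hc.ne', hα, Real.tan_arctan]
  have h1 : circleMap 0 1 (π + 2 * α) = -(Real.cos α + Real.sin α * Complex.I) ^ 2 := by
    simp only [circleMap, zero_add, Complex.ofReal_one, one_mul, Complex.ofReal_cos,
      Complex.ofReal_sin, ← Complex.exp_mul_I, ← Complex.exp_nat_mul]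
    push_cast
    rw [add_mul, Complex.exp_add, Complex.exp_pi_mul_I]
    ring_nf
  have h2 : ((Real.cos α : ℝ) : ℂ) ^ 2 + ((Real.sin α : ℝ) : ℂ) ^ 2 = 1 := by
    exact_mod_cast Real.cos_sq_add_sin_sq α
  have hI := Complex.I_mul_I
  set c : ℂ := ((Real.cos α : ℝ) : ℂ) with hcd
  set d : ℂ := ((Real.sin α : ℝ) : ℂ) with hdd
  have hc' : c ≠ 0 := by rw [hcd]; exact_mod_cast hc.ne'
  have hcd' : c + d * Complex.I ≠ 0 := by
    intro e
    have := congrArg Complex.re e
    simp only [hcd, hdd, Complex.add_re, Complex.ofReal_re, Complex.mul_re, Complex.I_re, mul_zero,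
      Complex.ofReal_im, Complex.I_im, mul_one, sub_self, add_zero, Complex.zero_re] at this
    exact hc.ne' this
  have h3 : 1 - -(c + d * Complex.I) ^ 2 = 2 * c * (c + d * Complex.I) := by
    linear_combination (-1 : ℂ) * h2 + d ^ 2 * hI
  have h4 : 1 + -(c + d * Complex.I) ^ 2 = -2 * d * Complex.I * (c + d * Complex.I) := by
    linear_combination (-1 : ℂ) * h2 + d ^ 2 * hI
  have h5 : (b : ℂ) * d = x * c := by
    rw [hcd, hdd, hsin]
    have : (b : ℂ) ≠ 0 := by exact_mod_cast hb.ne'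
    push_cast
    field_simp
  rw [h1, h3, h4, mul_div_mul_right _ _ hcd', ← mul_div_assoc,
    div_eq_iff (mul_ne_zero two_ne_zero hc')]
  linear_combination 2 * h5 - 2 * b * d * hI

theorem sum_le_lintegral_cayley {b : ℝ} (hb : b ∈ Icc (1 : ℝ) 2) {g : ℝ → ℝ≥0∞} {M : ℕ → ℝ}
    (hM0 : ∀ N, 0 ≤ M N) (N₁ : ℕ)
    (hg : ∀ N < N₁, ∀ x ∈ Ico ((N : ℝ) + 1) (N + 2),
      ENNReal.ofReal (M N) ≤ g (π + 2 * Real.arctan (x / b))) :
    ENNReal.ofReal (∑ N ∈ Finset.range N₁, M N / ((N : ℝ) + 1) ^ 2 / 4) ≤ ∫⁻ θ, g θ ∂arc := by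
  have hb0 : 0 < b := by linarith [hb.1]
  have hd : ∀ x ∈ (univ : Set ℝ), HasDerivWithinAt (fun x => π + 2 * Real.arctan (x / b))
      (2 * (1 / (1 + (x / b) ^ 2) * (1 / b))) univ x := fun x _ =>
    ((((hasDerivAt_id x).div_const b).arctan.const_mul 2).const_add π).hasDerivWithinAt
  have hinj : InjOn (fun x => π + 2 * Real.arctan (x / b)) univ := by
    intro x _ y _ e
    have h1 : Real.arctan (x / b) = Real.arctan (y / b) := by simpa using e
    exact (div_left_inj' hb0.ne').mp (Real.arctan_injective h1)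
  have h1 := lintegral_image_eq_lintegral_abs_deriv_mul MeasurableSet.univ hd hinj g
  have hsub : (fun x => π + 2 * Real.arctan (x / b)) '' univ ⊆ Ioc 0 (2 * π) := by
    rintro _ ⟨x, -, rfl⟩
    constructor <;> linarith [Real.neg_pi_div_two_lt_arctan (x / b),
      Real.arctan_lt_pi_div_two (x / b)]
  refine le_trans ?_ (lintegral_mono_set hsub)
  rw [h1, Measure.restrict_univ, ENNReal.ofReal_sum_of_nonneg fun N _ => by
    have := hM0 N
    positivity]
  have h2 : ∀ N : ℕ, ENNReal.ofReal (M N / ((N : ℝ) + 1) ^ 2 / 4) =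
      ∫⁻ x, (Ico ((N : ℝ) + 1) (N + 2)).indicator
        (fun _ => ENNReal.ofReal (M N / ((N : ℝ) + 1) ^ 2 / 4)) x := by
    intro N
    rw [lintegral_indicator_const measurableSet_Ico, Real.volume_Ico]
    norm_num
  rw [Finset.sum_congr rfl fun N _ => h2 N, ← lintegral_finsetSum _ fun N _ =>
    measurable_const.indicator measurableSet_Ico]
  refine lintegral_mono fun x => ?_
  by_cases hx : ∃ N ∈ Finset.range N₁, x ∈ Ico ((N : ℝ) + 1) (N + 2)
  · obtain ⟨N, hN, hxN⟩ := hx
    rw [Finset.sum_eq_single_of_mem N hN fun K _ hK => ?_, indicator_of_mem hxN]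
    · refine le_trans ?_ (mul_le_mul_right (hg N (Finset.mem_range.mp hN) x hxN) _)
      rw [← ENNReal.ofReal_mul (abs_nonneg _)]
      refine ENNReal.ofReal_le_ofReal ?_
      have hN0 : (0 : ℝ) ≤ N := N.cast_nonneg
      have h3 : 2 * (1 / (1 + (x / b) ^ 2) * (1 / b)) = 2 * b / (b ^ 2 + x ^ 2) := by
        field_simp
      have h4 : 1 / ((N : ℝ) + 1) ^ 2 / 4 ≤ 2 * b / (b ^ 2 + x ^ 2) := by
        rw [div_div, div_le_div_iff₀ (by positivity) (by positivity)]
        have h5 : x ^ 2 ≤ (N + 2) ^ 2 := pow_le_pow_left₀ (by linarith [hxN.1]) hxN.2.le 2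
        nlinarith [hb.1, hb.2]
      rw [h3, abs_of_nonneg (by positivity)]
      calc M N / ((N : ℝ) + 1) ^ 2 / 4 = 1 / ((N : ℝ) + 1) ^ 2 / 4 * M N := by ring
        _ ≤ _ := mul_le_mul_of_nonneg_right h4 (hM0 N)
    · refine indicator_of_notMem (fun hxK => hK ?_) _
      have a1 : (K : ℝ) < N + 1 := by linarith [hxK.1, hxN.2]
      have a2 : (N : ℝ) < K + 1 := by linarith [hxK.2, hxN.1]
      have a3 : K < N + 1 := by exact_mod_cast a1
      have a4 : N < K + 1 := by exact_mod_cast a2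
      omega
  · push Not at hx
    rw [Finset.sum_eq_zero fun N hN => indicator_of_notMem (hx N hN) _]
    exact zero_le

theorem eq_zero_of_log_divergent_aux {F : ℂ → ℂ} (hF : Differentiable ℂ F) {A : ℝ}
    (hA : ∀ s : ℂ, 0 ≤ s.im → ‖F s‖ ≤ A) {M : ℕ → ℝ} (hM0 : ∀ N, 0 ≤ M N)
    (hM : ¬ Summable fun N : ℕ => M N / ((N : ℝ) + 1) ^ 2)
    (hFM : ∀ (N : ℕ) (s : ℝ), s ∈ Icc ((N : ℝ) + 1) (N + 2) → ‖F s‖ ≤ A * Real.exp (-M N))
    (s : ℂ) : F s = 0 := by
  by_contra hs
  obtain ⟨b, hb, hFb⟩ := exists_imag_ne_zero hF hs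
  have hb0 : 0 < b := by linarith [hb.1]
  have hF0 : 0 < ‖F (b * Complex.I)‖ := norm_pos_iff.mpr hFb
  have hA0 : 0 < A := hF0.trans_le (hA _ (by simpa using hb0.le))
  set G : ℂ → ℂ := fun w => F (b * Complex.I * ((1 + w) / (1 - w))) with hG
  have hGd : DifferentiableOn ℂ G {w | w ≠ 1} :=
    hF.comp_differentiableOn (DifferentiableOn.const_mul
      (DifferentiableOn.div (by fun_prop) (by fun_prop) fun w hw => sub_ne_zero.mpr (Ne.symm hw)) _)
  have hGm : Measurable G := hF.continuous.measurable.comp (by fun_prop)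
  have hGb : ∀ w : ℂ, ‖w‖ ≤ 1 → ‖G w‖ ≤ A := by
    intro w hw
    refine hA _ ?_
    have h1 := poissonKernel_nonneg hw 0
    rw [poissonKernel_eq_re_herglotzRieszKernel, Function.comp_apply, herglotzRieszKernel_def] at h1
    have h2 : circleMap 0 1 0 = 1 := by simp [circleMap]
    rw [h2, sub_zero, sub_zero] at h1
    rw [mul_assoc, Complex.im_ofReal_mul, Complex.I_mul_im]
    exact mul_nonneg hb0.le h1
  have hΦm : Measurable fun θ => G (circleMap 0 1 θ) :=
    hGm.comp (continuous_circleMap 0 1).measurable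
  have hΦ : Integrable (fun θ => G (circleMap 0 1 θ)) arc :=
    (integrable_const A).mono' hΦm.aestronglyMeasurable
      (Eventually.of_forall fun θ => hGb _ (norm_e θ).le)
  have ho : ∀ n : ℕ, ∫ θ, G (circleMap 0 1 θ) * circleMap 0 1 θ ^ (n + 1) ∂arc = 0 := fun n => by
    rw [integral_bdry_pow hGd hGm hGb]
    simp
  have hP : ∀ θ, poissonKernel 0 0 (circleMap 0 1 θ) = 1 := fun θ => by simp [poissonKernel_def]
  apply hM
  refine summable_of_sum_range_le (c := 4 * (2 * π * Real.log (A / ‖F (b * Complex.I)‖)))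
    (fun N => div_nonneg (hM0 N) (by positivity)) fun N₁ => ?_
  set L : ℝ := ∑ N ∈ Finset.range N₁, M N with hL
  have hL0 : 0 ≤ L := Finset.sum_nonneg fun N _ => hM0 N
  set μ : ℝ → ℝ := fun θ => -Real.log (max (‖G (circleMap 0 1 θ)‖ / A) (Real.exp (-L))) with hμ
  have hpos : ∀ θ, 0 < max (‖G (circleMap 0 1 θ)‖ / A) (Real.exp (-L)) := fun θ =>
    lt_max_of_lt_right (Real.exp_pos _)
  have hμm : Measurable μ := ((hΦm.norm.div_const A).max measurable_const).log.neg
  have hμ0 : ∀ θ, 0 ≤ μ θ := fun θ => neg_nonneg.mpr (Real.log_nonpos (hpos θ).le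
    (max_le ((div_le_one hA0).mpr (hGb _ (norm_e θ).le)) (Real.exp_le_one_iff.mpr (by linarith))))
  have hμL : ∀ θ, μ θ ≤ L := fun θ => by
    have := (Real.le_log_iff_exp_le (hpos θ)).mpr (le_max_right _ _)
    simp only [hμ]
    linarith
  have hμc : ∀ θ ∈ Ioo 0 (2 * π), ContinuousAt μ θ ∨ μ θ = L := fun θ hθ => by
    have h2 : ContinuousAt G (circleMap 0 1 θ) :=
      hGd.continuousOn.continuousAt (isOpen_ne.mem_nhds (e_ne_one hθ))
    have h3 : ContinuousAt (fun θ => G (circleMap 0 1 θ)) θ :=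
      ContinuousAt.comp (f := circleMap 0 1) h2 (continuous_circleMap 0 1).continuousAt
    exact Or.inl ((((h3.norm.div_const A).max continuousAt_const).log (hpos θ).ne').neg)
  have h1 := two_const hΦ ho hμm hμ0 hμL hμc (mem_ball_self one_pos)
  have h2 := integral_bdry_pow hGd hGm hGb 0
  simp only [pow_zero, mul_one] at h2
  simp only [hP, Complex.ofReal_one, mul_one, one_mul, h2] at h1
  have hG0 : G 0 = F (b * Complex.I) := by simp [hG]
  have h3 : ∫ θ, ‖G (circleMap 0 1 θ)‖ * Real.exp (μ θ) ∂arc ≤ ∫ _, A ∂arc := by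
    refine integral_mono_of_nonneg (Eventually.of_forall fun θ => by positivity)
      (integrable_const A) (Eventually.of_forall fun θ => ?_)
    simp only [hμ]
    rw [Real.exp_neg (Real.log _), Real.exp_log (hpos θ), mul_inv_le_iff₀ (hpos θ),
      ← div_le_iff₀' hA0]
    exact le_max_left _ _
  rw [integral_const, Measure.real, arc_univ, ENNReal.toReal_ofReal (by positivity),
    smul_eq_mul] at h3
  rw [norm_mul, Complex.norm_real, Real.norm_of_nonneg (by positivity), hG0, mul_assoc] at h1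
  have h4 := le_of_mul_le_mul_left (h1.trans h3) (by positivity)
  rw [← le_div_iff₀' hF0, ← Real.le_log_iff_exp_le (by positivity),
    inv_mul_le_iff₀ (by positivity)] at h4
  have hμi : Integrable μ arc := (integrable_const L).mono' hμm.aestronglyMeasurable
    (Eventually.of_forall fun θ => by rw [Real.norm_of_nonneg (hμ0 θ)]; exact hμL θ)
  have h5 := sum_le_lintegral_cayley hb (g := fun θ => ENNReal.ofReal (μ θ)) hM0 N₁
    fun N hN x hx => by
      refine ENNReal.ofReal_le_ofReal ?_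
      have h6 : M N ≤ L := Finset.single_le_sum (fun K _ => hM0 K) (Finset.mem_range.mpr hN)
      have h7 := hFM N x (Ico_subset_Icc_self hx)
      have h8 := (Real.log_le_iff_le_exp (hpos (π + 2 * Real.arctan (x / b)))).mpr
        (max_le (c := Real.exp (-M N)) (by
          rw [div_le_iff₀' hA0]
          simp only [hG, cayley_arctan hb0]
          exact h7) (Real.exp_le_exp.mpr (by linarith)))
      simp only [hμ]
      linarith
  rw [← ofReal_integral_eq_lintegral_ofReal hμi (Eventually.of_forall hμ0),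
    ENNReal.ofReal_le_ofReal_iff (integral_nonneg hμ0), ← Finset.sum_div] at h5
  linarith

end Pool.Agent.Lib.MP_3a6b94_an
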