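import Pool.Agent.Lib.MP_3a6b94_an.BeurlingAux

open MeasureTheory Set Metric Filter Topology
open scoped ENNReal NNReal Real ComplexConjugate

namespace Pool.Agent.Lib.MP_3a6b94_an

/-- The cut exponential. -/
noncomputable def cutExp (s : ℂ) (l : ℝ) : ℂ :=
  (1 - Complex.exp (Complex.I * l)) * Complex.exp (Complex.I * s * l)

theorem continuous_cutExp (s : ℂ) : Continuous (cutExp s) := by
  unfold cutExp
  fun_prop

/-- Fourier coefficients of the cut exponential. -/
noncomputable def cutCoef (s : ℝ) (k : ℤ) : ℂ :=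
  ((1 / (2 * π) : ℝ) : ℂ) * ∫ l in (0 : ℝ)..(2 * π), Complex.exp (-(Complex.I * k * l)) * cutExp s l

theorem integral_exp_I {α : ℝ} (hα : α ≠ 0) :
    ∫ l in (0 : ℝ)..(2 * π), Complex.exp (Complex.I * α * l) =
      (Complex.exp (Complex.I * α * (2 * π)) - 1) / (Complex.I * α) := by
  have h := integral_exp_mul_complex (a := 0) (b := 2 * π) (c := Complex.I * α)
    (mul_ne_zero Complex.I_ne_zero (by exact_mod_cast hα))
  simpa using h

theorem cutCoef_eq {s : ℝ} {k : ℤ} (h1 : s - k ≠ 0) (h2 : s + 1 - k ≠ 0) :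
    cutCoef s k = (Complex.exp (Complex.I * s * (2 * π)) - 1) / (2 * π * Complex.I) *
      ((1 / ((s - k) * (s + 1 - k)) : ℝ) : ℂ) := by
  have e1 : ∀ l : ℝ, Complex.exp (-(Complex.I * k * l)) * cutExp s l =
      Complex.exp (Complex.I * (s - k : ℝ) * l) - Complex.exp (Complex.I * (s + 1 - k : ℝ) * l) := by
    intro l
    simp only [cutExp, sub_mul, mul_sub, one_mul, ← Complex.exp_add]
    push_cast
    congr 2 <;> ring
  have e2 : ∀ (α : ℝ) (j : ℤ), Complex.exp (Complex.I * (α + j : ℝ) * (2 * π)) =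
      Complex.exp (Complex.I * α * (2 * π)) := by
    intro α j
    rw [← mul_one (Complex.exp (Complex.I * α * (2 * π))), ← Complex.exp_int_mul_two_pi_mul_I j,
      ← Complex.exp_add]
    push_cast
    congr 1
    ring
  have e3 := e2 s (-k)
  have e4 := e2 s (1 - k)
  have e5 : s + ((-k : ℤ) : ℝ) = s - k := by push_cast; ring
  have e6 : s + ((1 - k : ℤ) : ℝ) = s + 1 - k := by push_cast; ring
  rw [e5] at e3
  rw [e6] at e4
  simp only [cutCoef, e1]
  rw [intervalIntegral.integral_sub (Continuous.intervalIntegrable (by fun_prop) _ _)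
    (Continuous.intervalIntegrable (by fun_prop) _ _), integral_exp_I h1, integral_exp_I h2, e3, e4]
  have h1' : ((s - k : ℝ) : ℂ) ≠ 0 := by exact_mod_cast h1
  have h2' : ((s + 1 - k : ℝ) : ℂ) ≠ 0 := by exact_mod_cast h2
  have hπ : (π : ℂ) ≠ 0 := by exact_mod_cast Real.pi_ne_zero
  have hI := Complex.I_ne_zero
  push_cast at h1' h2' ⊢
  field_simp
  ring

theorem norm_beta_le (s : ℝ) :
    ‖(Complex.exp (Complex.I * s * (2 * π)) - 1) / (2 * π * Complex.I)‖ ≤ 1 := by
  have h1 : ‖Complex.exp (Complex.I * s * (2 * π))‖ = 1 := by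
    rw [Complex.norm_exp]
    simp
  have h2 := norm_sub_le (Complex.exp (Complex.I * s * (2 * π))) 1
  rw [norm_div, div_le_one (by simp [Real.pi_pos.ne'])]
  simp only [norm_mul, Complex.norm_I, Complex.norm_ofNat, Complex.norm_real,
    Real.norm_of_nonneg Real.pi_pos.le, norm_one, h1] at h2 ⊢
  linarith [Real.pi_gt_three]

theorem summable_inv_sq : Summable fun n : ℕ => 1 / ((n : ℝ) + 1) ^ 2 := by
  have := (summable_nat_add_iff 1).mpr (Real.summable_one_div_nat_pow.mpr one_lt_two)
  simpa using this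

theorem summable_cutCoef {s : ℝ} (hs : s ∈ Icc (1 : ℝ) 2) : Summable (cutCoef s) := by
  refine Summable.of_nat_of_neg ?_ ?_
  · rw [← summable_nat_add_iff 4]
    refine Summable.of_norm_bounded summable_inv_sq fun n => ?_
    have h0 : (0 : ℝ) ≤ n := n.cast_nonneg
    have a1 : s - ((n + 4 : ℕ) : ℤ) ≤ -(n + 1) := by push_cast; linarith [hs.2]
    have a2 : s + 1 - ((n + 4 : ℕ) : ℤ) ≤ -(n + 1) := by push_cast; linarith [hs.2]
    have a3 : ((n : ℝ) + 1) ^ 2 ≤ (s - ((n + 4 : ℕ) : ℤ)) * (s + 1 - ((n + 4 : ℕ) : ℤ)) := by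
      nlinarith
    rw [cutCoef_eq (by linarith) (by linarith), norm_mul, Complex.norm_real,
      Real.norm_of_nonneg (by
        have : (0 : ℝ) < (n + 1) ^ 2 := by positivity
        exact one_div_nonneg.mpr (by linarith))]
    exact (mul_le_of_le_one_left (one_div_nonneg.mpr (le_trans (by positivity) a3))
      (norm_beta_le s)).trans (one_div_le_one_div_of_le (by positivity) a3)
  · refine Summable.of_norm_bounded summable_inv_sq fun n => ?_
    have h0 : (0 : ℝ) ≤ n := n.cast_nonneg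
    have a1 : (n : ℝ) + 1 ≤ s - ((-n : ℤ) : ℝ) := by push_cast; linarith [hs.1]
    have a2 : (n : ℝ) + 1 ≤ s + 1 - ((-n : ℤ) : ℝ) := by push_cast; linarith [hs.1]
    have a3 : ((n : ℝ) + 1) ^ 2 ≤ (s - ((-n : ℤ) : ℝ)) * (s + 1 - ((-n : ℤ) : ℝ)) := by
      nlinarith
    rw [cutCoef_eq (by linarith) (by linarith), norm_mul, Complex.norm_real,
      Real.norm_of_nonneg (one_div_nonneg.mpr (le_trans (by positivity) a3))]
    exact (mul_le_of_le_one_left (one_div_nonneg.mpr (le_trans (by positivity) a3))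
      (norm_beta_le s)).trans (one_div_le_one_div_of_le (by positivity) a3)

theorem hasSum_cutExp {s : ℝ} (hs : s ∈ Icc (1 : ℝ) 2) {l : ℝ} (hl : l ∈ Ioc 0 (2 * π)) :
    HasSum (fun k : ℤ => cutCoef s k * Complex.exp (Complex.I * k * l)) (cutExp s l) := by
  have : Fact (0 < 2 * π) := ⟨by positivity⟩
  have hπ : (π : ℂ) ≠ 0 := by exact_mod_cast Real.pi_ne_zero
  have h0 : cutExp s 0 = cutExp s (0 + 2 * π) := by
    have : Complex.exp (Complex.I * ((0 + 2 * π : ℝ) : ℂ)) = 1 := by
      rw [← Complex.exp_two_pi_mul_I]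
      push_cast
      congr 1
      ring
    simp only [cutExp, this]
    simp
  let f : C(AddCircle (2 * π), ℂ) :=
    ⟨AddCircle.liftIoc (2 * π) 0 (cutExp s),
      AddCircle.liftIoc_continuous h0 (continuous_cutExp s).continuousOn⟩
  have hf : ∀ k : ℤ, fourierCoeff f k = cutCoef s k := by
    intro k
    have h1 : fourierCoeff f k = fourierCoeff (AddCircle.liftIoc (2 * π) 0 (cutExp s)) k := rfl
    rw [h1, fourierCoeff_liftIoc_eq, fourierCoeffOn_eq_integral, cutCoef]
    simp only [zero_add, sub_zero, Complex.real_smul, smul_eq_mul, fourier_coe_apply]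
    congr 1
    refine intervalIntegral.integral_congr fun x _ => ?_
    congr 2
    push_cast
    field_simp
  have h2 := has_pointwise_sum_fourier_series_of_summable (f := f)
    (by rw [funext hf]; exact summable_cutCoef hs) (l : AddCircle (2 * π))
  have h3 : f (l : AddCircle (2 * π)) = cutExp s l :=
    AddCircle.liftIoc_zero_coe_apply (f := cutExp s) hl
  rw [h3] at h2
  have h4 : (fun k : ℤ => cutCoef s k * Complex.exp (Complex.I * k * l)) =
      fun k : ℤ => fourierCoeff f k • fourier k (l : AddCircle (2 * π)) := by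
    funext k
    rw [hf, smul_eq_mul, fourier_coe_apply]
    congr 2
    push_cast
    field_simp
  rw [h4]
  exact h2

theorem integral_beta {s : ℝ} (hs : s ∈ Icc (1 : ℝ) 2) (j : ℕ) :
    IntegrableOn (fun x : ℝ => x ^ (s - 1) * (1 - x) * x ^ j) (Ioo 0 1) ∧
      ∫ x in Ioo (0 : ℝ) 1, x ^ (s - 1) * (1 - x) * x ^ j = 1 / ((s + j) * (s + 1 + j)) := by
  have hj : (0 : ℝ) ≤ j := j.cast_nonneg
  have hc : Continuous fun x : ℝ => x ^ (s - 1) * (1 - x) * x ^ j :=
    ((Real.continuous_rpow_const (by linarith [hs.1])).mul (by fun_prop)).mul (by fun_prop)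
  refine ⟨(hc.integrableOn_Icc (a := 0) (b := 1)).mono_set Ioo_subset_Icc_self, ?_⟩
  have e : ∀ x ∈ Ioo (0 : ℝ) 1,
      x ^ (s - 1) * (1 - x) * x ^ j = x ^ (s - 1 + j) - x ^ (s + j) := by
    intro x hx
    have h1 : x ^ (s + j) = x ^ (s - 1 + j) * x := by
      rw [← Real.rpow_add_one hx.1.ne']
      congr 1
      ring
    rw [h1, Real.rpow_add hx.1, Real.rpow_natCast]
    ring
  have a1 : -1 < s - 1 + j := by linarith [hs.1]
  have a2 : -1 < s + j := by linarith [hs.1]
  rw [setIntegral_congr_fun measurableSet_Ioo e, ← integral_Ioc_eq_integral_Ioo,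
    ← intervalIntegral.integral_of_le zero_le_one,
    intervalIntegral.integral_sub (intervalIntegral.intervalIntegrable_rpow' a1)
      (intervalIntegral.intervalIntegrable_rpow' a2), integral_rpow (Or.inl a1),
    integral_rpow (Or.inl a2), Real.one_rpow, Real.one_rpow, Real.zero_rpow (by linarith),
    Real.zero_rpow (by linarith)]
  have b1 : s - 1 + j + 1 ≠ 0 := by linarith
  have b2 : s + j + 1 ≠ 0 := by linarith
  have b3 : s + j ≠ 0 := by linarith [hs.1]
  have b4 : s + 1 + j ≠ 0 := by linarith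
  have b5 : s - 1 + j + 1 = s + j := by ring
  rw [b5]
  field_simp
  ring

theorem mellin_bound {Φ : ℝ → ℂ} (hΦ : Integrable Φ arc)
    (ho : ∀ n : ℕ, ∫ θ, Φ θ * circleMap 0 1 θ ^ (n + 1) ∂arc = 0) {u : ℂ} (hu : ‖u‖ = 1)
    {l : ℝ → ℝ} (hlm : Measurable l)
    (hl : ∀ θ ∈ Ioc 0 (2 * π), l θ ∈ Ioc 0 (2 * π) ∧
      circleMap 0 1 θ = u * Complex.exp (Complex.I * l θ))
    {s : ℝ} (hs : s ∈ Icc (1 : ℝ) 2) {D : ℝ}
    (hD : ∀ x ∈ Ioo (0 : ℝ) 1,
      (1 - x) * ‖∫ θ, Φ θ * (1 / (1 - x * u * conj (circleMap 0 1 θ))) ∂arc‖ ≤ D) :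
    ‖∫ θ, Φ θ * cutExp s (l θ) ∂arc‖ ≤ D := by
  have hae : ∀ᵐ θ ∂arc, θ ∈ Ioc 0 (2 * π) := ae_restrict_mem measurableSet_Ioc
  have huu : u * conj u = 1 := by rw [Complex.mul_conj, Complex.normSq_eq_norm_sq, hu]; simp
  set b : ℕ → ℂ := fun j => ∫ θ, Φ θ * (u * conj (circleMap 0 1 θ)) ^ j ∂arc with hb
  have hbn : ∀ j, ‖b j‖ ≤ ∫ θ, ‖Φ θ‖ ∂arc := fun j =>
    norm_integral_le_of_norm_le hΦ.norm (Eventually.of_forall fun θ => by simp [hu])
  -- Fourier expansion of the cut exponential
  have S1 : HasSum (fun j : ℕ => cutCoef s (-j) * b j) (∫ θ, Φ θ * cutExp s (l θ) ∂arc) := by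
    have hn : ∀ (k : ℤ) (θ : ℝ), ‖Complex.exp (Complex.I * k * l θ)‖ = 1 := fun k θ => by
      rw [Complex.norm_exp]
      simp
    have hint : ∀ k : ℤ, Integrable
        (fun θ => Φ θ * (cutCoef s k * Complex.exp (Complex.I * k * l θ))) arc := fun k =>
      hΦ.mul_bdd (c := ‖cutCoef s k‖) (Measurable.aestronglyMeasurable (by fun_prop))
        (Eventually.of_forall fun θ => by rw [norm_mul, hn, mul_one])
    have h1 := hasSum_integral_of_summable_integral_norm hint (by
      simp only [norm_mul, hn, mul_one, integral_mul_const]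
      exact (summable_norm_iff.mpr (summable_cutCoef hs)).mul_left _)
    have h2 : ∫ θ, ∑' k : ℤ, Φ θ * (cutCoef s k * Complex.exp (Complex.I * k * l θ)) ∂arc =
        ∫ θ, Φ θ * cutExp s (l θ) ∂arc := by
      refine integral_congr_ae (hae.mono fun θ hθ => ?_)
      exact ((hasSum_cutExp hs (hl θ hθ).1).mul_left _).tsum_eq
    rw [h2] at h1
    have hinj : Function.Injective fun j : ℕ => -(j : ℤ) := fun a c h => by simpa using h
    have h3 := (hinj.hasSum_iff (fun k hk => ?_)).mpr h1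
    · refine h3.congr_fun fun j => ?_
      simp only [Function.comp_apply, hb]
      rw [← integral_const_mul]
      refine integral_congr_ae (hae.mono fun θ hθ => ?_)
      have h4 : u * conj (circleMap 0 1 θ) = Complex.exp (-(Complex.I * l θ)) := by
        rw [(hl θ hθ).2, map_mul, ← mul_assoc, huu, one_mul, ← Complex.exp_conj]
        simp
      simp only [h4, ← Complex.exp_nat_mul]
      rw [mul_left_comm]
      congr 3
      push_cast
      ring
    · obtain ⟨n, rfl⟩ : ∃ n : ℕ, k = n + 1 := by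
        refine ⟨(k - 1).toNat, ?_⟩
        by_contra hne
        exact hk ⟨(-k).toNat, by simp only; omega⟩
      have h5 := congrArg (fun w => cutCoef s (n + 1) * conj u ^ (n + 1) * w) (ho n)
      simp only [mul_zero] at h5
      rw [← integral_const_mul] at h5
      refine Eq.trans (integral_congr_ae (hae.mono fun θ hθ => ?_)) h5
      have h4 : Complex.exp (Complex.I * l θ) = conj u * circleMap 0 1 θ := by
        rw [(hl θ hθ).2, ← mul_assoc, mul_comm (conj u), huu, one_mul]
      have h6 : Complex.exp (Complex.I * ((n : ℤ) + 1 : ℤ) * l θ) =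
          (conj u * circleMap 0 1 θ) ^ (n + 1) := by
        rw [← h4, ← Complex.exp_nat_mul]
        congr 1
        push_cast
        ring
      simp only [h6, mul_pow]
      ring
  -- geometric expansion of the Cauchy integral
  have S2 : ∀ x ∈ Ioo (0 : ℝ) 1, HasSum (fun j : ℕ => (x : ℂ) ^ j * b j)
      (∫ θ, Φ θ * (1 / (1 - x * u * conj (circleMap 0 1 θ))) ∂arc) := by
    intro x hx
    have hn : ∀ θ, ‖(x : ℂ) * u * conj (circleMap 0 1 θ)‖ = x := fun θ => by
      simp [hu, abs_of_pos hx.1]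
    have hint : ∀ j : ℕ, Integrable
        (fun θ => Φ θ * ((x : ℂ) * u * conj (circleMap 0 1 θ)) ^ j) arc := fun j =>
      integrable_mul_cont hΦ (by fun_prop)
    have h1 := hasSum_integral_of_summable_integral_norm hint (by
      simp only [norm_mul (Φ _), norm_pow, hn, integral_mul_const]
      exact (summable_geometric_of_lt_one hx.1.le hx.2).mul_left _)
    have h2 : ∫ θ, ∑' j : ℕ, Φ θ * ((x : ℂ) * u * conj (circleMap 0 1 θ)) ^ j ∂arc =
        ∫ θ, Φ θ * (1 / (1 - x * u * conj (circleMap 0 1 θ))) ∂arc := by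
      refine integral_congr_ae (Eventually.of_forall fun θ => ?_)
      have := (hasSum_geometric_of_norm_lt_one (ξ := (x : ℂ) * u * conj (circleMap 0 1 θ))
        (by rw [hn]; exact hx.2)).mul_left (Φ θ)
      simp only [one_div]
      exact this.tsum_eq
    rw [h2] at h1
    refine h1.congr_fun fun j => ?_
    simp only [hb]
    rw [← integral_const_mul]
    refine integral_congr_ae (Eventually.of_forall fun θ => ?_)
    simp only [mul_pow]
    ring
  -- Mellin transform
  have hw : ∀ (j : ℕ), ∀ x ∈ Ioo (0 : ℝ) 1, 0 ≤ x ^ (s - 1) * (1 - x) * x ^ j := fun j x hx =>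
    mul_nonneg (mul_nonneg (Real.rpow_nonneg hx.1.le _) (by linarith [hx.2])) (pow_nonneg hx.1.le _)
  have hint : ∀ j : ℕ, Integrable (fun x : ℝ => ((x ^ (s - 1) * (1 - x) * x ^ j : ℝ) : ℂ) * b j)
      (volume.restrict (Ioo 0 1)) := fun j => (integral_beta hs j).1.ofReal.mul_const _
  have S3 := hasSum_integral_of_summable_integral_norm hint (by
    refine Summable.of_nonneg_of_le (fun j => integral_nonneg fun x => norm_nonneg _)
      (fun j => ?_) (summable_inv_sq.mul_right (∫ θ, ‖Φ θ‖ ∂arc))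
    have h1 : ∫ x in Ioo (0 : ℝ) 1, ‖((x ^ (s - 1) * (1 - x) * x ^ j : ℝ) : ℂ) * b j‖ =
        1 / ((s + j) * (s + 1 + j)) * ‖b j‖ := by
      rw [← (integral_beta hs j).2, ← integral_mul_const]
      refine setIntegral_congr_fun measurableSet_Ioo fun x hx => ?_
      simp only [norm_mul _ (b j), Complex.norm_real, Real.norm_of_nonneg (hw j x hx)]
    have hj : (0 : ℝ) ≤ j := j.cast_nonneg
    rw [h1]
    refine mul_le_mul (one_div_le_one_div_of_le (by positivity) ?_) (hbn j) (norm_nonneg _)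
      (by positivity)
    nlinarith [hs.1])
  simp only [integral_mul_const, integral_complex_ofReal, (integral_beta hs _).2] at S3
  have S4 := S3.mul_left ((Complex.exp (Complex.I * s * (2 * π)) - 1) / (2 * π * Complex.I))
  have S5 : ∀ j : ℕ, cutCoef s (-j) * b j =
      (Complex.exp (Complex.I * s * (2 * π)) - 1) / (2 * π * Complex.I) *
        (((1 / ((s + j) * (s + 1 + j)) : ℝ) : ℂ) * b j) := by
    intro j
    have hj : (0 : ℝ) ≤ j := j.cast_nonneg
    rw [cutCoef_eq (by push_cast; linarith [hs.1]) (by push_cast; linarith [hs.1]), mul_assoc]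
    congr 4
    push_cast
    ring
  simp only [S5] at S1
  rw [S1.unique S4, norm_mul]
  refine (mul_le_of_le_one_left (norm_nonneg _) (norm_beta_le s)).trans ?_
  have h7 := norm_setIntegral_le_of_norm_le_const (μ := volume) (s := Ioo (0 : ℝ) 1) (C := D)
    (f := fun x : ℝ => ∑' j : ℕ, ((x ^ (s - 1) * (1 - x) * x ^ j : ℝ) : ℂ) * b j) (by simp)
    (fun x hx => by
      have h8 := ((S2 x hx).mul_left ((x ^ (s - 1) * (1 - x) : ℝ) : ℂ)).tsum_eq
      have h9 : ∀ j : ℕ, ((x ^ (s - 1) * (1 - x) * x ^ j : ℝ) : ℂ) * b j =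
          ((x ^ (s - 1) * (1 - x) : ℝ) : ℂ) * ((x : ℂ) ^ j * b j) := fun j => by
        push_cast
        ring
      have h10 : x ^ (s - 1) ≤ 1 := Real.rpow_le_one hx.1.le hx.2.le (by linarith [hs.1])
      have h11 : 0 ≤ 1 - x := by linarith [hx.2]
      simp only [h9]
      rw [h8, norm_mul, Complex.norm_real,
        Real.norm_of_nonneg (mul_nonneg (Real.rpow_nonneg hx.1.le _) h11), mul_assoc]
      exact (mul_le_of_le_one_left (mul_nonneg h11 (norm_nonneg _)) h10).trans (hD x hx))
  simpa using h7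

end Pool.Agent.Lib.MP_3a6b94_an
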