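import Pool.Agent.Lib.MP_3a6b94_an.Tools

open MeasureTheory Set Metric Filter Topology
open scoped ENNReal NNReal Real

namespace Pool.Agent.Lib.MP_3a6b94_an

/-- The area mean value inequality, with a crude constant. -/
theorem area_mean_le {g : ℂ → ℂ} {w : ℂ} {r : ℝ} (hr : 0 < r)
    (hg : DifferentiableOn ℂ g (ball w r)) :
    ENNReal.ofReal (r / 2 * (2 * π) * (r / 2)) * ‖g w‖ₑ ≤ ∫⁻ z in ball w r, ‖g z‖ₑ := by
  classical
  set G : ℂ → ℂ := (ball w r).piecewise g 0 with hG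
  have hGm : Measurable G :=
    hg.continuousOn.measurable_piecewise continuousOn_const measurableSet_ball
  have h1 : ∫⁻ z in ball w r, ‖g z‖ₑ = ∫⁻ z, ‖G (w + z)‖ₑ := by
    rw [lintegral_add_left_eq_self (fun z => ‖G z‖ₑ) w, ← lintegral_indicator measurableSet_ball]
    refine lintegral_congr fun z => ?_
    by_cases hz : z ∈ ball w r
    · simp [hG, hz]
    · simp [hG, hz]
  have h2 : ∀ s ∈ Ioo (r / 2) r, ENNReal.ofReal (2 * π) * ‖g w‖ₑ ≤
      ∫⁻ θ, ‖G (w + circleMap 0 s θ)‖ₑ ∂arc := by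
    intro s hs
    have hs0 : 0 < s := lt_trans (by positivity) hs.1
    have hsub : closedBall w |s| ⊆ ball w r := by
      rw [abs_of_pos hs0]; exact closedBall_subset_ball hs.2
    have hd : DiffContOnCl ℂ g (ball w |s|) := by
      refine DifferentiableOn.diffContOnCl ?_
      rw [closure_ball w (abs_pos.2 hs0.ne').ne']
      exact hg.mono hsub
    have h3 := hd.circleAverage
    rw [Real.circleAverage_def, ← integral_arc] at h3
    have h4 : ∀ θ, G (w + circleMap 0 s θ) = g (circleMap w s θ) := fun θ => by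
      have e : w + circleMap 0 s θ = circleMap w s θ := by simp [circleMap]
      have : circleMap w s θ ∈ ball w r := hsub (sphere_subset_closedBall (circleMap_mem_sphere' w s θ))
      rw [e, hG, piecewise_eq_of_mem _ _ _ this]
    simp only [h4]
    refine le_trans (le_of_eq ?_) (enorm_integral_le_lintegral_enorm _)
    have h5 : ∫ θ, g (circleMap w s θ) ∂arc = (2 * π) • g w := by
      rw [← h3, smul_smul, mul_inv_cancel₀ (by positivity), one_smul]
    rw [h5, enorm_smul, Real.enorm_eq_ofReal (by positivity)]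
  rw [h1, lintegral_polar' (F := fun z => ‖G (w + z)‖ₑ) (hGm.comp (measurable_const_add w)).enorm]
  calc ENNReal.ofReal (r / 2 * (2 * π) * (r / 2)) * ‖g w‖ₑ
      = ∫⁻ _ in Ioo (r / 2) r, ENNReal.ofReal (r / 2) * (ENNReal.ofReal (2 * π) * ‖g w‖ₑ) := by
        rw [setLIntegral_const, Real.volume_Ioo, ENNReal.ofReal_mul (by positivity),
          ENNReal.ofReal_mul (by positivity), show r - r / 2 = r / 2 by ring]
        ring
    _ ≤ ∫⁻ s in Ioo (r / 2) r, ENNReal.ofReal s * ∫⁻ θ, ‖G (w + circleMap 0 s θ)‖ₑ ∂arc :=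
        setLIntegral_mono' measurableSet_Ioo fun s hs =>
          mul_le_mul' (ENNReal.ofReal_le_ofReal hs.1.le) (h2 s hs)
    _ ≤ _ := lintegral_mono_set fun s hs => lt_trans (by positivity) hs.1

/-- Local bound of holomorphic functions by the norm of the weighted space. -/
theorem local_bound {Ω : Set ℂ} {φ ψ : ℂ → ℂ} (h : Conf Ω φ ψ) {W : ℝ → ℝ} (hW : Wt W)
    (p : ℝ≥0∞) [Fact (1 ≤ p)] {z₀ : ℂ} (hz₀ : z₀ ∈ Ω) :
    ∃ r > 0, ∃ C : ℝ, ball z₀ r ⊆ Ω ∧ ∀ (F : Lp ℂ p (wMeas Ω φ W)) (f : ℂ → ℂ),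
      DifferentiableOn ℂ f Ω → F =ᵐ[wMeas Ω φ W] f → ∀ w ∈ ball z₀ r, ‖f w‖ ≤ C * ‖F‖ := by
  have := isFiniteMeasure_wMeas h hW
  have hφ0 := mem_ball_zero_iff.mp (h.mφ hz₀)
  set δ := (1 - ‖φ z₀‖) / 2 with hδ
  have hδ0 : 0 < δ := by rw [hδ]; linarith
  have hδ1 : δ ≤ 1 := by have := norm_nonneg (φ z₀); rw [hδ]; linarith
  have hc : ContinuousAt (fun z => ‖φ z‖) z₀ :=
    (h.dφ.continuousOn.continuousAt (h.isOpen.mem_nhds hz₀)).norm
  have hev : ∀ᶠ z in 𝓝 z₀, z ∈ Ω ∧ ‖φ z‖ < 1 - δ :=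
    (h.isOpen.eventually_mem hz₀).and
      (hc.eventually (gt_mem_nhds (by rw [hδ]; linarith)))
  obtain ⟨R, hR, hball⟩ := Metric.eventually_nhds_iff_ball.1 hev
  set r := R / 2 with hr
  have hr0 : 0 < r := by positivity
  set c : ℝ≥0∞ := ENNReal.ofReal (W δ) * ENNReal.ofReal (r / 2 * (2 * π) * (r / 2)) with hc'
  have hWδ := hW.pos δ ⟨hδ0, hδ1⟩
  have hc0 : c ≠ 0 := mul_ne_zero (by simpa using hWδ) (by
    rw [Ne, ENNReal.ofReal_eq_zero, not_le]; positivity)
  have hct : c ≠ ⊤ := ENNReal.mul_ne_top ENNReal.ofReal_ne_top ENNReal.ofReal_ne_top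
  set M : ℝ≥0∞ := wMeas Ω φ W univ ^ (1 / (1 : ℝ≥0∞).toReal - 1 / p.toReal) with hM
  have hMt : M ≠ ⊤ := by
    refine ENNReal.rpow_ne_top_of_nonneg ?_ (measure_ne_top _ _)
    rw [ENNReal.toReal_one, div_one, sub_nonneg]
    rcases eq_or_ne p ⊤ with rfl | hp
    · simp
    · refine div_le_one_of_le₀ ?_ ENNReal.toReal_nonneg
      simpa using ENNReal.toReal_mono hp (Fact.out : 1 ≤ p)
  refine ⟨r, hr0, (c⁻¹ * M).toReal, fun z hz => (hball z (ball_subset_ball (by linarith) hz)).1,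
    fun F f hf hF w hw => ?_⟩
  have hsub : ball w r ⊆ ball z₀ R := ball_subset_ball' (by
    have := mem_ball.1 hw; linarith)
  have hsubΩ : ball w r ⊆ Ω := fun z hz => (hball z (hsub hz)).1
  have h1 := area_mean_le hr0 (hf.mono hsubΩ)
  have h2 : ENNReal.ofReal (W δ) • volume.restrict (ball w r) ≤ wMeas Ω φ W := by
    have e : ENNReal.ofReal (W δ) • volume.restrict (ball w r) =
        (volume.restrict Ω).withDensity ((ball w r).indicator fun _ => ENNReal.ofReal (W δ)) := by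
      rw [withDensity_indicator measurableSet_ball, withDensity_const,
        Measure.restrict_restrict measurableSet_ball, inter_eq_left.2 hsubΩ]
    rw [e, wMeas]
    refine withDensity_mono (Eventually.of_forall fun z => ?_)
    by_cases hz : z ∈ ball w r
    · rw [indicator_of_mem hz]
      have a1 := (hball z (hsub hz)).2
      have a2 := norm_nonneg (φ z)
      exact ENNReal.ofReal_le_ofReal (hW.mono ⟨hδ0, hδ1⟩ ⟨by linarith, by linarith⟩ (by linarith))
    · rw [indicator_of_notMem hz]; exact zero_le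
  have h3 : ENNReal.ofReal (W δ) * ∫⁻ z in ball w r, ‖f z‖ₑ ≤ ‖F‖ₑ * M := by
    calc ENNReal.ofReal (W δ) * ∫⁻ z in ball w r, ‖f z‖ₑ
        = ∫⁻ z, ‖f z‖ₑ ∂(ENNReal.ofReal (W δ) • volume.restrict (ball w r)) := by
          rw [lintegral_smul_measure, smul_eq_mul]
      _ ≤ ∫⁻ z, ‖f z‖ₑ ∂(wMeas Ω φ W) := lintegral_mono' h2 le_rfl
      _ = eLpNorm F 1 (wMeas Ω φ W) := by
          rw [eLpNorm_congr_ae hF, eLpNorm_one_eq_lintegral_enorm]
      _ ≤ ‖F‖ₑ * M := by
          rw [Lp.enorm_def]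
          exact eLpNorm_le_eLpNorm_mul_rpow_measure_univ Fact.out (Lp.aestronglyMeasurable F)
  have h4 : ‖f w‖ₑ ≤ c⁻¹ * M * ‖F‖ₑ := by
    have : c * ‖f w‖ₑ ≤ ‖F‖ₑ * M := by
      rw [hc', mul_assoc]
      exact (mul_le_mul' le_rfl h1).trans h3
    calc ‖f w‖ₑ = c⁻¹ * (c * ‖f w‖ₑ) := by
          rw [← mul_assoc, ENNReal.inv_mul_cancel hc0 hct, one_mul]
      _ ≤ c⁻¹ * (‖F‖ₑ * M) := mul_le_mul' le_rfl this
      _ = c⁻¹ * M * ‖F‖ₑ := by ring
  have h5 := ENNReal.toReal_mono (ENNReal.mul_ne_top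
    (ENNReal.mul_ne_top (ENNReal.inv_ne_top.2 hc0) hMt) enorm_ne_top) h4
  rwa [ENNReal.toReal_mul, toReal_enorm, toReal_enorm] at h5

theorem isClosed_bergman {Ω : Set ℂ} {φ ψ : ℂ → ℂ} (h : Conf Ω φ ψ) {W : ℝ → ℝ} (hW : Wt W)
    (p : ℝ≥0∞) [Fact (1 ≤ p)] :
    IsClosed {F : Lp ℂ p (wMeas Ω φ W) |
      ∃ f : ℂ → ℂ, DifferentiableOn ℂ f Ω ∧ F =ᵐ[wMeas Ω φ W] f} := by
  refine IsSeqClosed.isClosed fun F G hF hFG => ?_
  choose f hf hFf using hF
  have hcau : ∀ z₀ ∈ Ω, ∃ r > 0, ball z₀ r ⊆ Ω ∧ UniformCauchySeqOn f atTop (ball z₀ r) := by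
    intro z₀ hz₀
    obtain ⟨r, hr, C, hsub, hC⟩ := local_bound h hW p hz₀
    refine ⟨r, hr, hsub, Metric.uniformCauchySeqOn_iff.2 fun ε hε => ?_⟩
    obtain ⟨N, hN⟩ := Metric.cauchySeq_iff.1 hFG.cauchySeq (ε / (|C| + 1)) (by positivity)
    refine ⟨N, fun m hm n hn w hw => ?_⟩
    have h1 := hC (F m - F n) (f m - f n) ((hf m).sub (hf n))
      ((Lp.coeFn_sub _ _).trans ((hFf m).sub (hFf n))) w hw
    have h2 := hN m hm n hn
    rw [dist_eq_norm] at h2 ⊢
    rw [lt_div_iff₀ (by positivity)] at h2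
    have h3 : C * ‖F m - F n‖ ≤ |C| * ‖F m - F n‖ :=
      mul_le_mul_of_nonneg_right (le_abs_self C) (norm_nonneg _)
    have h4 := norm_nonneg (F m - F n)
    simp only [Pi.sub_apply] at h1
    nlinarith
  have hlim : ∀ z ∈ Ω, Tendsto (fun n => f n z) atTop (𝓝 (limUnder atTop fun n => f n z)) := by
    intro z hz
    obtain ⟨r, hr, -, hc⟩ := hcau z hz
    exact (hc.cauchySeq (mem_ball_self hr)).tendsto_limUnder
  refine ⟨fun z => limUnder atTop fun n => f n z, fun z hz => ?_, ?_⟩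
  · obtain ⟨r, hr, hsub, hc⟩ := hcau z hz
    have h1 := (hc.tendstoUniformlyOn_of_tendsto fun w hw => hlim w (hsub hw)).tendstoLocallyUniformlyOn
    exact ((h1.differentiableOn (Eventually.of_forall fun n => (hf n).mono hsub)
      isOpen_ball).differentiableAt (ball_mem_nhds z hr)).differentiableWithinAt
  · obtain ⟨ns, hns, hae⟩ := (tendstoInMeasure_of_tendsto_Lp hFG).exists_seq_tendsto_ae
    have hΩ : ∀ᵐ z ∂wMeas Ω φ W, z ∈ Ω :=
      (withDensity_absolutelyContinuous _ _).ae_le (ae_restrict_mem h.isOpen.measurableSet)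
    filter_upwards [hae, hΩ, ae_all_iff.2 hFf] with z h1 h2 h3
    simp only [h3] at h1
    exact tendsto_nhds_unique h1 ((hlim z h2).comp hns.tendsto_atTop)

/-- A bijective holomorphic map onto the disc has a holomorphic inverse; measurable versions. -/
theorem exists_conf {Ω : Set ℂ} (hΩ : IsOpen Ω) (hb : Bornology.IsBounded Ω) {φ : ℂ → ℂ}
    (hφ : DifferentiableOn ℂ φ Ω) (hbij : BijOn φ Ω (ball 0 1)) :
    ∃ φ' ψ : ℂ → ℂ, Conf Ω φ' ψ ∧ EqOn φ' φ Ω := by
  classical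
  set χ := Function.invFunOn φ Ω with hχ
  have hinv := hbij.invOn_invFunOn
  have hmap : MapsTo χ (ball 0 1) Ω := hbij.surjOn.mapsTo_invFunOn
  have han : ∀ z ∈ Ω, AnalyticAt ℂ φ z := fun z hz => hφ.analyticAt (hΩ.mem_nhds hz)
  have hnc : ∀ z ∈ Ω, ¬ ∀ᶠ w in 𝓝 z, φ w = φ z := by
    intro z hz hc
    have h1 : ∀ᶠ w in 𝓝[≠] z, w = z := by
      filter_upwards [nhdsWithin_le_nhds hc, nhdsWithin_le_nhds (hΩ.mem_nhds hz)] with w h1 h2
      exact hbij.injOn h2 hz h1
    obtain ⟨w, h2, h3⟩ := (h1.and self_mem_nhdsWithin).exists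
    exact h3 h2
  have hcont : ∀ y ∈ ball (0 : ℂ) 1, ContinuousAt χ y := by
    intro y hy
    have h1 := (han _ (hmap hy)).eventually_constant_or_nhds_le_map_nhds.resolve_left
      (hnc _ (hmap hy))
    rw [hinv.2 hy] at h1
    refine Tendsto.mono_left ?_ h1
    rw [tendsto_map'_iff]
    refine tendsto_id.congr' ?_
    filter_upwards [hΩ.mem_nhds (hmap hy)] with w hw
    exact (hinv.1 hw).symm
  have hdiff : DifferentiableOn ℂ χ (ball 0 1) := by
    intro y hy
    refine (Complex.analyticAt_of_differentiable_on_punctured_nhds_of_continuousAt ?_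
      (hcont y hy)).differentiableAt.differentiableWithinAt
    have h1 : ∀ᶠ w in 𝓝[≠] (χ y), deriv φ w ≠ 0 := by
      refine (han _ (hmap hy)).deriv.eventually_eq_zero_or_eventually_ne_zero.resolve_left
        fun h0 => hnc _ (hmap hy) ?_
      obtain ⟨r, hr, hball⟩ := Metric.eventually_nhds_iff_ball.1
        (h0.and (hΩ.mem_nhds (hmap hy) : ∀ᶠ w in 𝓝 (χ y), w ∈ Ω))
      filter_upwards [ball_mem_nhds (χ y) hr] with w hw
      exact isOpen_ball.is_const_of_deriv_eq_zero (convex_ball _ _).isPreconnected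
        (hφ.mono fun u hu => (hball u hu).2) (fun u hu => (hball u hu).1) hw (mem_ball_self hr)
    have h2 : Tendsto χ (𝓝[≠] y) (𝓝[≠] (χ y)) := by
      refine tendsto_nhdsWithin_iff.2 ⟨(hcont y hy).tendsto.mono_left nhdsWithin_le_nhds, ?_⟩
      filter_upwards [self_mem_nhdsWithin, nhdsWithin_le_nhds (isOpen_ball.mem_nhds hy)]
        with v hv hv' e
      refine hv ?_
      rw [mem_singleton_iff] at e ⊢
      rw [← hinv.2 hv', ← hinv.2 hy]
      exact congrArg φ e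
    filter_upwards [h2.eventually h1, nhdsWithin_le_nhds (isOpen_ball.mem_nhds hy)] with v hv hv'
    refine (HasDerivAt.of_local_left_inverse (hcont v hv')
      (han _ (hmap hv')).differentiableAt.hasDerivAt hv ?_).differentiableAt
    filter_upwards [isOpen_ball.mem_nhds hv'] with u hu using hinv.2 hu
  have e1 : EqOn (Ω.piecewise φ 0) φ Ω := fun z hz => piecewise_eq_of_mem _ _ _ hz
  have e2 : EqOn ((ball (0 : ℂ) 1).piecewise χ 0) χ (ball 0 1) := fun z hz =>
    piecewise_eq_of_mem _ _ _ hz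
  refine ⟨Ω.piecewise φ 0, (ball 0 1).piecewise χ 0, ⟨hΩ, hb, hφ.congr e1, hdiff.congr e2,
    fun z hz => by rw [e1 hz]; exact hbij.mapsTo hz, fun y hy => by rw [e2 hy]; exact hmap hy,
    fun z hz => ?_, fun y hy => ?_,
    hφ.continuousOn.measurable_piecewise continuousOn_const hΩ.measurableSet,
    hdiff.continuousOn.measurable_piecewise continuousOn_const measurableSet_ball⟩, e1⟩
  · rw [e1 hz, e2 (hbij.mapsTo hz)]; exact hinv.1 hz
  · rw [e2 hy, e1 (hmap hy)]; exact hinv.2 hy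

end Pool.Agent.Lib.MP_3a6b94_an
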