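import Pool.Agent.Lib.MP_3a6b94_an.Hardy

open MeasureTheory Set Metric Filter Topology
open scoped ENNReal NNReal Real

namespace Pool.Agent.Lib.MP_3a6b94_an

/-- A form of the dominated convergence theorem with varying majorants. -/
theorem pratt {X : Type} [MeasurableSpace X] {μ : Measure X} {a d : ℕ → X → ℝ≥0∞}
    {c : X → ℝ≥0∞} (ha : ∀ j, AEMeasurable (a j) μ) (hd : ∀ j, AEMeasurable (d j) μ)
    (had : ∀ j, ∀ᵐ x ∂μ, a j x ≤ d j x)
    (ha0 : ∀ᵐ x ∂μ, Tendsto (fun j => a j x) atTop (𝓝 0))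
    (hdc : ∀ᵐ x ∂μ, Tendsto (fun j => d j x) atTop (𝓝 (c x))) (hc : ∫⁻ x, c x ∂μ ≠ ⊤)
    {B : ℕ → ℝ≥0∞} (hB : ∀ j, ∫⁻ x, d j x ∂μ ≤ B j) (hBc : Tendsto B atTop (𝓝 (∫⁻ x, c x ∂μ))) :
    Tendsto (fun j => ∫⁻ x, a j x ∂μ) atTop (𝓝 0) := by
  set I := ∫⁻ x, c x ∂μ with hI
  have h1 : I ≤ liminf (fun j => ∫⁻ x, (d j x - a j x) ∂μ) atTop := by
    refine le_trans (le_of_eq (lintegral_congr_ae ?_))
      (lintegral_liminf_le' fun j => (hd j).sub (ha j))
    filter_upwards [ha0, hdc] with x h1 h2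
    have h3 := ENNReal.Tendsto.sub h2 h1 (Or.inr ENNReal.zero_ne_top)
    rw [tsub_zero] at h3
    exact h3.liminf_eq.symm
  have h2 : ∀ j, ∫⁻ x, (d j x - a j x) ∂μ + ∫⁻ x, a j x ∂μ ≤ B j := by
    intro j
    rw [← lintegral_add_right' _ (ha j)]
    refine le_trans (le_of_eq (lintegral_congr_ae ?_)) (hB j)
    filter_upwards [had j] with x hx
    exact tsub_add_cancel_of_le hx
  rw [ENNReal.tendsto_nhds_zero]
  intro ε hε
  by_cases hεt : ε = ⊤
  · exact Eventually.of_forall fun j => hεt ▸ le_top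
  have hε2 : ε / 2 ≠ 0 := (ENNReal.half_pos hε.ne').ne'
  have hε3 : ε / 2 ≠ ⊤ := ENNReal.div_ne_top hεt two_ne_zero
  have h3 : ∀ᶠ j in atTop, B j < I + ε / 2 :=
    hBc.eventually (gt_mem_nhds (ENNReal.lt_add_right hc hε2))
  have h4 : ∀ᶠ j in atTop, I ≤ ∫⁻ x, (d j x - a j x) ∂μ + ε / 2 := by
    by_cases hI0 : I = 0
    · exact Eventually.of_forall fun j => hI0 ▸ zero_le
    filter_upwards [eventually_lt_of_lt_liminf ((ENNReal.sub_lt_self hc hI0 hε2).trans_le h1)]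
      with j hj
    exact tsub_le_iff_right.mp hj.le
  filter_upwards [h3, h4] with j h5 h6
  have h7 : ∫⁻ x, (d j x - a j x) ∂μ ≠ ⊤ :=
    ne_top_of_le_ne_top (ENNReal.add_ne_top.mpr ⟨hc, hε3⟩)
      (le_self_add.trans ((h2 j).trans h5.le))
  refine ENNReal.le_of_add_le_add_left h7 (((h2 j).trans h5.le).trans ?_)
  calc I + ε / 2 ≤ ∫⁻ x, (d j x - a j x) ∂μ + ε / 2 + ε / 2 := by gcongr
    _ = _ := by rw [add_assoc, ENNReal.add_halves]

theorem exists_radii : ∃ ρ, Radii ρ := by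
  obtain ⟨u, -, hu, ht⟩ := exists_seq_strictMono_tendsto' (show (0 : ℝ) < 1 from one_pos)
  exact ⟨u, hu, ht⟩

theorem Radii.mul_mem {ρ : ℕ → ℝ} (hρ : Radii ρ) (j : ℕ) {y : ℂ} (hy : y ∈ ball (0 : ℂ) 1) :
    (ρ j : ℂ) * y ∈ closedBall (0 : ℂ) (ρ j) := by
  rw [mem_closedBall_zero_iff, norm_mul, Complex.norm_real, Real.norm_of_nonneg (hρ.mem j).1.le]
  exact mul_le_of_le_one_right (hρ.mem j).1.le (mem_ball_zero_iff.mp hy).le

theorem Radii.mul_mem_ball {ρ : ℕ → ℝ} (hρ : Radii ρ) (j : ℕ) {y : ℂ}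
    (hy : y ∈ ball (0 : ℂ) 1) : (ρ j : ℂ) * y ∈ ball (0 : ℂ) 1 :=
  closedBall_subset_ball (hρ.mem j).2 (hρ.mul_mem j hy)

theorem Radii.diff_comp {ρ : ℕ → ℝ} (hρ : Radii ρ) (j : ℕ) {Q : ℂ → ℂ}
    (hQ : DifferentiableOn ℂ Q (ball 0 1)) :
    DifferentiableOn ℂ (fun y => Q (ρ j * y)) (ball 0 1) :=
  hQ.comp (by fun_prop) fun _ hy => hρ.mul_mem_ball j hy

theorem Radii.bdd_comp {ρ : ℕ → ℝ} (hρ : Radii ρ) (j : ℕ) {Q : ℂ → ℂ}
    (hQ : ContinuousOn Q (ball 0 1)) : ∃ M, ∀ y ∈ ball (0 : ℂ) 1, ‖Q (ρ j * y)‖ ≤ M := by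
  obtain ⟨M, hM⟩ := (isCompact_closedBall (0 : ℂ) (ρ j)).exists_bound_of_continuousOn
    (hQ.mono (closedBall_subset_ball (hρ.mem j).2))
  exact ⟨M, fun y hy => hM _ (hρ.mul_mem j hy)⟩

theorem Radii.tendsto_comp {ρ : ℕ → ℝ} (hρ : Radii ρ) {Q : ℂ → ℂ}
    (hQ : ContinuousOn Q (ball 0 1)) {y : ℂ} (hy : y ∈ ball (0 : ℂ) 1) :
    Tendsto (fun j => Q (ρ j * y)) atTop (𝓝 (Q y)) := by
  refine (hQ.continuousAt (isOpen_ball.mem_nhds hy)).tendsto.comp ?_
  have := ((Complex.continuous_ofReal.tendsto 1).comp hρ.tendsto).mul_const y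
  rwa [Complex.ofReal_one, one_mul] at this

/-- Dilations converge in the weighted norm. -/
theorem tendsto_dilate {W : ℝ → ℝ} (hW : Wt W) {P : ℝ} (hP : 1 ≤ P) {G : ℂ → ℂ}
    (hG : ContinuousOn G (ball 0 1))
    (hN : ∫⁻ y in ball (0 : ℂ) 1, ENNReal.ofReal (W (1 - ‖y‖)) * ‖G y‖ₑ ^ P ≠ ⊤)
    {ρ : ℕ → ℝ} (hρ : Radii ρ) :
    Tendsto (fun j => ∫⁻ y in ball (0 : ℂ) 1,
      ENNReal.ofReal (W (1 - ‖y‖)) * ‖G (ρ j * y) - G y‖ₑ ^ P) atTop (𝓝 0) := by
  have hP0 : 0 < P := by linarith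
  set N := ∫⁻ y in ball (0 : ℂ) 1, ENNReal.ofReal (W (1 - ‖y‖)) * ‖G y‖ₑ ^ P with hNdef
  set K : ℝ≥0∞ := 2 ^ (P - 1) with hK
  have hKt : K ≠ ⊤ := ENNReal.rpow_ne_top_of_nonneg (by linarith) ENNReal.ofNat_ne_top
  have hw : Measurable fun y : ℂ => ENNReal.ofReal (W (1 - ‖y‖)) :=
    (hW.meas.comp (measurable_const.sub measurable_norm)).ennreal_ofReal
  have hm : ∀ Q : ℂ → ℂ, ContinuousOn Q (ball 0 1) → AEMeasurable
      (fun y => ENNReal.ofReal (W (1 - ‖y‖)) * ‖Q y‖ₑ ^ P) (volume.restrict (ball 0 1)) :=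
    fun Q hQ => hw.aemeasurable.mul
      ((hQ.aestronglyMeasurable measurableSet_ball).enorm.pow_const P)
  have hGj : ∀ j, ContinuousOn (fun y => G (ρ j * y)) (ball 0 1) := fun j =>
    hG.comp (by fun_prop) fun _ hy => hρ.mul_mem_ball j hy
  have hlim : ∀ {f : ℕ → ℂ} {z : ℂ} (y : ℂ), Tendsto f atTop (𝓝 z) →
      Tendsto (fun j => ENNReal.ofReal (W (1 - ‖y‖)) * ‖f j‖ₑ ^ P) atTop
        (𝓝 (ENNReal.ofReal (W (1 - ‖y‖)) * ‖z‖ₑ ^ P)) := fun y hf =>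
    ENNReal.Tendsto.const_mul ((ENNReal.continuous_rpow_const.tendsto _).comp hf.enorm)
      (Or.inr ENNReal.ofReal_ne_top)
  have hint : ∫⁻ y in ball (0 : ℂ) 1, K * (ENNReal.ofReal (W (1 - ‖y‖)) * ‖G y‖ₑ ^ P +
      ENNReal.ofReal (W (1 - ‖y‖)) * ‖G y‖ₑ ^ P) = K * (N + N) := by
    rw [lintegral_const_mul' _ _ hKt, lintegral_add_left' (hm G hG)]
  refine pratt (d := fun j y => K * (ENNReal.ofReal (W (1 - ‖y‖)) * ‖G (ρ j * y)‖ₑ ^ P +
      ENNReal.ofReal (W (1 - ‖y‖)) * ‖G y‖ₑ ^ P))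
    (c := fun y => K * (ENNReal.ofReal (W (1 - ‖y‖)) * ‖G y‖ₑ ^ P +
      ENNReal.ofReal (W (1 - ‖y‖)) * ‖G y‖ₑ ^ P))
    (B := fun j => K * (ENNReal.ofReal ((ρ j ^ 2)⁻¹) * N + N))
    (fun j => hm _ ((hGj j).sub hG)) (fun j => ((hm _ (hGj j)).add (hm G hG)).const_mul K)
    (fun j => Eventually.of_forall fun y => ?_) ?_ ?_ ?_ (fun j => ?_) ?_
  · rw [← mul_add, mul_left_comm]
    refine mul_le_mul_right (le_trans (ENNReal.rpow_le_rpow (enorm_sub_le) hP0.le) ?_) _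
    exact ENNReal.rpow_add_le_mul_rpow_add_rpow _ _ hP
  · filter_upwards [ae_restrict_mem measurableSet_ball] with y hy
    have h1 := hlim y ((hρ.tendsto_comp hG hy).sub_const (G y))
    rwa [sub_self, enorm_zero, ENNReal.zero_rpow_of_pos hP0, mul_zero] at h1
  · filter_upwards [ae_restrict_mem measurableSet_ball] with y hy
    exact ENNReal.Tendsto.const_mul ((hlim y (hρ.tendsto_comp hG hy)).add tendsto_const_nhds)
      (Or.inr hKt)
  · rw [hint]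
    exact ENNReal.mul_ne_top hKt (ENNReal.add_ne_top.mpr ⟨hN, hN⟩)
  · rw [lintegral_const_mul' _ _ hKt, lintegral_add_right' _ (hm G hG)]
    refine mul_le_mul_right (add_le_add_left ?_ _) _
    set f : ℂ → ℝ≥0∞ := (ball (0 : ℂ) 1).indicator
      fun y => ENNReal.ofReal (W (1 - ‖y‖)) * ‖G y‖ₑ ^ P with hf
    have hr := hρ.mem j
    have e1 : ∫⁻ y, f (ρ j • y) = ENNReal.ofReal ((ρ j ^ 2)⁻¹) * N := by
      have e2 := lintegral_map_equiv (μ := (volume : Measure ℂ)) f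
        (MeasurableEquiv.smul₀ (ρ j) hr.1.ne')
      have e3 := Measure.map_addHaar_smul (volume : Measure ℂ) hr.1.ne'
      rw [Complex.finrank_real_complex, abs_of_pos (by have := hr.1; positivity)] at e3
      rw [MeasurableEquiv.coe_smul₀, e3, lintegral_smul_measure, hf,
        lintegral_indicator measurableSet_ball] at e2
      exact e2.symm
    rw [← e1]
    refine le_trans (setLIntegral_mono' measurableSet_ball fun y hy => ?_)
      (setLIntegral_le_lintegral _ _)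
    have hy' := hρ.mul_mem_ball j hy
    rw [Complex.real_smul, hf, indicator_of_mem hy']
    refine mul_le_mul_left (ENNReal.ofReal_le_ofReal ?_) _
    have h1 := mem_ball_zero_iff.mp hy
    have h2 := norm_nonneg ((ρ j : ℂ) * y)
    have h3 : ‖(ρ j : ℂ) * y‖ ≤ ‖y‖ := by
      rw [norm_mul, Complex.norm_real, Real.norm_of_nonneg hr.1.le]
      exact mul_le_of_le_one_left (norm_nonneg _) hr.2.le
    have h4 := norm_nonneg y
    exact hW.mono ⟨by linarith, by linarith⟩ ⟨by linarith, by linarith⟩ (by linarith)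
  · rw [hint]
    refine ENNReal.Tendsto.const_mul (Tendsto.add ?_ tendsto_const_nhds) (Or.inr hKt)
    have h1 : Tendsto (fun j => ENNReal.ofReal ((ρ j ^ 2)⁻¹)) atTop (𝓝 1) := by
      have := ENNReal.tendsto_ofReal ((hρ.tendsto.pow 2).inv₀ (by norm_num))
      simpa using this
    have h2 := ENNReal.Tendsto.mul_const (b := N) h1 (Or.inr hN)
    rwa [one_mul] at h2

/-- Transplantation of a function on the disc to `Ω`, isometric for the weighted norms. -/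
noncomputable def lift (φ b : ℂ → ℂ) (P : ℝ) (Q : ℂ → ℂ) : ℂ → ℂ :=
  fun z => Q (φ z) * Complex.exp (-(((2 / P : ℝ) : ℂ) * b (φ z)))

/-- The standing hypotheses. -/
structure Ctx (Ω : Set ℂ) (φ ψ b : ℂ → ℂ) (W : ℝ → ℝ) (p : ℝ≥0∞) (k : ℂ → ℂ) : Prop where
  conf : Conf Ω φ ψ
  diffb : DifferentiableOn ℂ b (ball 0 1)
  expb : ∀ z ∈ ball (0 : ℂ) 1, Complex.exp (b z) = deriv ψ z
  wt : Wt W
  one_le : 1 ≤ p
  ne_top : p ≠ ⊤
  meask : Measurable k
  bound : ∀ F : ℂ → ℂ, AEStronglyMeasurable F (wMeas Ω φ W) →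
    ∫⁻ x, ‖F x * k x‖ₑ ∂(wMeas Ω φ W) ≤ eLpNorm F p (wMeas Ω φ W)

section

variable {Ω : Set ℂ} {φ ψ b : ℂ → ℂ} {W : ℝ → ℝ} {p : ℝ≥0∞} {k : ℂ → ℂ}

theorem Ctx.one_le_toReal (h : Ctx Ω φ ψ b W p k) : 1 ≤ p.toReal := by
  simpa using ENNReal.toReal_mono h.ne_top h.one_le

theorem Ctx.ae_mem (h : Ctx Ω φ ψ b W p k) : ∀ᵐ z ∂(wMeas Ω φ W), z ∈ Ω :=
  (withDensity_absolutelyContinuous _ _).ae_le (ae_restrict_mem h.conf.isOpen.measurableSet)

theorem Ctx.aesm (h : Ctx Ω φ ψ b W p k) {Q : ℂ → ℂ} (hQ : ContinuousOn Q (ball 0 1)) :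
    AEStronglyMeasurable (lift φ b p.toReal Q) (wMeas Ω φ W) := by
  refine AEStronglyMeasurable.mono_ac (withDensity_absolutelyContinuous _ _)
    (ContinuousOn.aestronglyMeasurable ?_ h.conf.isOpen.measurableSet)
  have h1 := hQ.comp h.conf.dφ.continuousOn h.conf.mφ
  have h2 := h.diffb.continuousOn.comp h.conf.dφ.continuousOn h.conf.mφ
  exact h1.mul (Complex.continuous_exp.comp_continuousOn (continuousOn_const.mul h2).neg)

theorem Ctx.eLpNorm_lift (h : Ctx Ω φ ψ b W p k) (Q : ℂ → ℂ) :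
    eLpNorm (lift φ b p.toReal Q) p (wMeas Ω φ W) =
      (∫⁻ y in ball (0 : ℂ) 1, ENNReal.ofReal (W (1 - ‖y‖)) * ‖Q y‖ₑ ^ p.toReal) ^
        (1 / p.toReal) := by
  have hP := h.one_le_toReal
  have hP0 : 0 < p.toReal := by linarith
  have hw : Measurable fun z => ENNReal.ofReal (W (1 - ‖φ z‖)) :=
    (h.wt.meas.comp (measurable_const.sub h.conf.measφ.norm)).ennreal_ofReal
  rw [eLpNorm_eq_lintegral_rpow_enorm_toReal (zero_lt_one.trans_le h.one_le).ne' h.ne_top, wMeas,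
    lintegral_withDensity_eq_lintegral_mul_non_measurable _ hw
      (Eventually.of_forall fun _ => ENNReal.ofReal_lt_top)]
  congr 1
  conv_lhs => rw [← h.conf.image]
  rw [h.conf.univ.lintegral_image]
  refine setLIntegral_congr_fun measurableSet_ball fun y hy => ?_
  have e : ‖deriv ψ y‖ₑ ^ 2 *
      ‖Complex.exp (-(((2 / p.toReal : ℝ) : ℂ) * b y))‖ₑ ^ p.toReal = 1 := by
    rw [← h.expb y hy, ← ofReal_norm, ← ofReal_norm, Complex.norm_exp, Complex.norm_exp,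
      ENNReal.ofReal_rpow_of_pos (Real.exp_pos _), ← ENNReal.ofReal_pow (Real.exp_pos _).le,
      ← ENNReal.ofReal_mul (by positivity), ← Real.exp_mul, ← Real.exp_nat_mul, ← Real.exp_add,
      Complex.neg_re, Complex.re_ofReal_mul]
    have : ((2 : ℕ) : ℝ) * (b y).re + -(2 / p.toReal * (b y).re) * p.toReal = 0 := by
      field_simp; push_cast; ring
    rw [this, Real.exp_zero, ENNReal.ofReal_one]
  simp only [Pi.mul_apply, lift, h.conf.right y hy, enorm_mul,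
    ENNReal.mul_rpow_of_nonneg _ _ hP0.le]
  calc _ = (‖deriv ψ y‖ₑ ^ 2 *
      ‖Complex.exp (-(((2 / p.toReal : ℝ) : ℂ) * b y))‖ₑ ^ p.toReal) *
        (ENNReal.ofReal (W (1 - ‖y‖)) * ‖Q y‖ₑ ^ p.toReal) := by ring
    _ = _ := by rw [e, one_mul]

theorem Ctx.integrable (h : Ctx Ω φ ψ b W p k) {Q : ℂ → ℂ} (hQ : ContinuousOn Q (ball 0 1))
    (hN : ∫⁻ y in ball (0 : ℂ) 1, ENNReal.ofReal (W (1 - ‖y‖)) * ‖Q y‖ₑ ^ p.toReal ≠ ⊤) :
    Integrable (fun z => lift φ b p.toReal Q z * k z) (wMeas Ω φ W) := by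
  refine ⟨(h.aesm hQ).mul h.meask.aestronglyMeasurable, (h.bound _ (h.aesm hQ)).trans_lt ?_⟩
  rw [h.eLpNorm_lift]
  exact ENNReal.rpow_lt_top_of_nonneg (by positivity) hN

theorem Ctx.norm_ne_top (h : Ctx Ω φ ψ b W p k) {Q : ℂ → ℂ} {M η : ℝ} (hη : η * p.toReal < 1)
    (hQ : ∀ y ∈ ball (0 : ℂ) 1, ‖Q y‖ ≤ M * (1 - ‖y‖) ^ (-η)) :
    ∫⁻ y in ball (0 : ℂ) 1, ENNReal.ofReal (W (1 - ‖y‖)) * ‖Q y‖ₑ ^ p.toReal ≠ ⊤ := by
  have hP := h.one_le_toReal
  have hP0 : 0 < p.toReal := by linarith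
  have hM : 0 ≤ M := by
    have := hQ 0 (mem_ball_self one_pos)
    rw [norm_zero, sub_zero, Real.one_rpow, mul_one] at this
    exact (norm_nonneg _).trans this
  have hc : ENNReal.ofReal (W 1) * ENNReal.ofReal (M ^ p.toReal) ≠ ⊤ :=
    ENNReal.mul_ne_top ENNReal.ofReal_ne_top ENNReal.ofReal_ne_top
  refine ne_top_of_le_ne_top (ENNReal.mul_ne_top hc (lintegral_one_sub_norm_ne_top hη)) ?_
  rw [← lintegral_const_mul' _ _ hc]
  refine setLIntegral_mono' measurableSet_ball fun y hy => ?_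
  have h1 := mem_ball_zero_iff.mp hy
  have h2 := norm_nonneg y
  have h3 : 0 < 1 - ‖y‖ := by linarith
  rw [mul_assoc]
  refine mul_le_mul' (ENNReal.ofReal_le_ofReal
    (h.wt.mono ⟨h3, by linarith⟩ ⟨one_pos, le_rfl⟩ (by linarith))) ?_
  rw [← ofReal_norm, ENNReal.ofReal_rpow_of_nonneg (norm_nonneg _) hP0.le,
    ← ENNReal.ofReal_mul (by positivity)]
  refine ENNReal.ofReal_le_ofReal ((Real.rpow_le_rpow (norm_nonneg _) (hQ y hy) hP0.le).trans_eq ?_)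
  rw [Real.mul_rpow hM (by positivity), ← Real.rpow_mul h3.le, neg_mul]

/-- Dominated convergence for the pairing. -/
theorem Ctx.limit (h : Ctx Ω φ ψ b W p k) {Qs : ℕ → ℂ → ℂ} {Q : ℂ → ℂ} {M η : ℝ}
    (hη : η * p.toReal < 1) (hc : ∀ j, ContinuousOn (Qs j) (ball 0 1))
    (hb : ∀ j, ∀ y ∈ ball (0 : ℂ) 1, ‖Qs j y‖ ≤ M * (1 - ‖y‖) ^ (-η))
    (hl : ∀ y ∈ ball (0 : ℂ) 1, Tendsto (fun j => Qs j y) atTop (𝓝 (Q y)))
    (h0 : ∀ j, ∫ z, lift φ b p.toReal (Qs j) z * k z ∂(wMeas Ω φ W) = 0) :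
    ∫ z, lift φ b p.toReal Q z * k z ∂(wMeas Ω φ W) = 0 := by
  set H : ℂ → ℂ := fun y => ((M * (1 - ‖y‖) ^ (-η) : ℝ) : ℂ) with hH
  have hHn : ∀ y ∈ ball (0 : ℂ) 1, ‖H y‖ = M * (1 - ‖y‖) ^ (-η) := fun y hy => by
    rw [hH, Complex.norm_real, Real.norm_of_nonneg ((norm_nonneg _).trans (hb 0 y hy))]
  have hHc : ContinuousOn H (ball 0 1) := by
    refine Complex.continuous_ofReal.comp_continuousOn (continuousOn_const.mul
      (ContinuousOn.rpow_const (by fun_prop) fun y hy => Or.inl ?_))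
    have := mem_ball_zero_iff.mp hy
    linarith
  have hHi := (h.integrable hHc (h.norm_ne_top hη fun y hy => (hHn y hy).le)).norm
  have h1 := tendsto_integral_of_dominated_convergence
    (F := fun j z => lift φ b p.toReal (Qs j) z * k z) (f := fun z => lift φ b p.toReal Q z * k z)
    _ (fun j => (h.aesm (hc j)).mul h.meask.aestronglyMeasurable) hHi (fun j => ?_) ?_
  · simp only [h0] at h1
    exact (tendsto_nhds_unique tendsto_const_nhds h1).symm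
  · filter_upwards [h.ae_mem] with z hz
    simp only [lift, norm_mul]
    rw [hHn _ (h.conf.mφ hz)]
    gcongr
    exact hb j _ (h.conf.mφ hz)
  · filter_upwards [h.ae_mem] with z hz
    exact ((hl _ (h.conf.mφ hz)).mul_const _).mul_const _

theorem one_le_weight {η : ℝ} (hη : 0 < η) {y : ℂ} (hy : y ∈ ball (0 : ℂ) 1) :
    1 ≤ (1 - ‖y‖) ^ (-η) := by
  have h1 := mem_ball_zero_iff.mp hy
  have h2 := norm_nonneg y
  exact Real.one_le_rpow_of_pos_of_le_one_of_nonpos (by linarith) (by linarith) (by linarith)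

/-- From powers to bounded holomorphic functions. -/
theorem Ctx.of_pow (h : Ctx Ω φ ψ b W p k) {g : ℂ → ℂ} {C η : ℝ} (hη : η * p.toReal < 1)
    (hg : ContinuousOn g (ball 0 1))
    (hgb : ∀ y ∈ ball (0 : ℂ) 1, ‖g y‖ ≤ C * (1 - ‖y‖) ^ (-η))
    (h0 : ∀ n : ℕ, ∫ z, lift φ b p.toReal (fun y => y ^ n * g y) z * k z ∂(wMeas Ω φ W) = 0)
    {Q : ℂ → ℂ} (hQ : DifferentiableOn ℂ Q (ball 0 1)) {M : ℝ}
    (hM : ∀ y ∈ ball (0 : ℂ) 1, ‖Q y‖ ≤ M) :
    ∫ z, lift φ b p.toReal (fun y => Q y * g y) z * k z ∂(wMeas Ω φ W) = 0 := by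
  obtain ⟨ρ, hρ⟩ := exists_radii
  have hM0 : 0 ≤ M := (norm_nonneg _).trans (hM 0 (mem_ball_self one_pos))
  have hpow : ∀ (n : ℕ), ∀ y ∈ ball (0 : ℂ) 1, ‖y ^ n‖ ≤ 1 := fun n y hy => by
    rw [norm_pow]
    exact pow_le_one₀ (norm_nonneg _) (mem_ball_zero_iff.mp hy).le
  refine h.limit (Qs := fun j y => Q (ρ j * y) * g y) (M := M * C) hη
    (fun j => (hρ.diff_comp j hQ).continuousOn.mul hg) (fun j y hy => ?_)
    (fun y hy => (hρ.tendsto_comp hQ.continuousOn hy).mul_const _) fun j => ?_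
  · rw [norm_mul, mul_assoc]
    exact mul_le_mul (hM _ (hρ.mul_mem_ball j hy)) (hgb y hy) (norm_nonneg _) hM0
  set c : ℕ → ℂ := fun n => iteratedDeriv n Q 0 / n.factorial * (ρ j : ℂ) ^ n with hc
  have hs : Summable fun n => ‖c n‖ := summable_taylor hQ (hρ.mem j).1.le (hρ.mem j).2
  refine h.limit (Qs := fun N y => (∑ n ∈ Finset.range N, c n * y ^ n) * g y)
    (M := (∑' n, ‖c n‖) * C) hη (fun N => ContinuousOn.mul (by fun_prop) hg)
    (fun N y hy => ?_) (fun y hy => Tendsto.mul_const _ ?_) fun N => ?_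
  · rw [norm_mul, mul_assoc]
    refine mul_le_mul ?_ (hgb y hy) (norm_nonneg _) (tsum_nonneg fun _ => norm_nonneg _)
    refine (norm_sum_le _ _).trans (le_trans (Finset.sum_le_sum fun n _ => ?_)
      (hs.sum_le_tsum (Finset.range N) fun _ _ => norm_nonneg _))
    rw [norm_mul]
    exact mul_le_of_le_one_right (norm_nonneg _) (hpow n y hy)
  · have h1 := Complex.hasSum_taylorSeries_on_ball hQ (hρ.mul_mem_ball j hy)
    refine h1.tendsto_sum_nat.congr fun N => Finset.sum_congr rfl fun n _ => ?_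
    rw [hc, sub_zero, mul_pow, smul_eq_mul, smul_eq_mul]
    ring
  · have e : (fun z => lift φ b p.toReal (fun y => (∑ n ∈ Finset.range N, c n * y ^ n) * g y) z *
        k z) = fun z => ∑ n ∈ Finset.range N,
          c n * (lift φ b p.toReal (fun y => y ^ n * g y) z * k z) := by
      funext z
      simp only [lift, Finset.sum_mul]
      exact Finset.sum_congr rfl fun n _ => by ring
    rw [e, integral_finsetSum]
    · exact Finset.sum_eq_zero fun n _ => by rw [integral_const_mul, h0, mul_zero]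
    · refine fun n _ => Integrable.const_mul (h.integrable (ContinuousOn.mul (by fun_prop) hg)
        (h.norm_ne_top (M := C) hη fun y hy => ?_)) _
      rw [Pi.mul_apply, norm_mul]
      exact (mul_le_of_le_one_left (norm_nonneg _) (hpow n y hy)).trans (hgb y hy)

end

theorem Outer.bound₂ {b m : ℂ → ℂ} {u : ℕ → ℂ → ℂ} {C η : ℝ} (hm : Outer b m u C η) (hη : 0 < η)
    {y : ℂ} (hy : y ∈ ball (0 : ℂ) 1) {s : ℝ} (hs : s ∈ Icc (0 : ℝ) 1) :
    ‖m y‖ * (Real.exp ‖b (s * y)‖ * Real.exp ‖b y‖) ≤ C * (1 - ‖y‖) ^ (-η) := by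
  have hC : 0 ≤ C := by
    have := hm.bound 0 (mem_ball_self one_pos) 0 ⟨le_rfl, zero_le_one⟩
    rw [zero_mul, sub_zero, Real.one_rpow, mul_one] at this
    exact le_trans (by positivity) this
  have h1 := hm.bound y hy s hs
  have h2 := hm.bound y hy 1 ⟨zero_le_one, le_rfl⟩
  rw [Complex.ofReal_one, one_mul, one_mul] at h2
  have h3 := mem_ball_zero_iff.mp hy
  have h4 : (1 - s * ‖y‖) ^ (-η) ≤ (1 - ‖y‖) ^ (-η) := by
    refine Real.rpow_le_rpow_of_nonpos (by linarith) ?_ (by linarith)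
    nlinarith [norm_nonneg y, hs.1, hs.2]
  have h5 := h1.trans (mul_le_mul_of_nonneg_left h4 hC)
  rw [two_mul, Real.exp_add] at h2 h5
  have h6 : Real.exp ‖b (s * y)‖ * Real.exp ‖b y‖ ≤
      (Real.exp ‖b (s * y)‖ * Real.exp ‖b (s * y)‖ + Real.exp ‖b y‖ * Real.exp ‖b y‖) / 2 := by
    nlinarith [sq_nonneg (Real.exp ‖b (s * y)‖ - Real.exp ‖b y‖)]
  have h7 := mul_le_mul_of_nonneg_left h6 (norm_nonneg (m y))
  nlinarith

theorem norm_exp_mul_le {a : ℝ} (ha : |a| ≤ 1) (z : ℂ) :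
    ‖Complex.exp (a * z)‖ ≤ Real.exp ‖z‖ := by
  refine (Complex.norm_exp_le_exp_norm _).trans (Real.exp_le_exp.mpr ?_)
  rw [norm_mul, Complex.norm_real, Real.norm_eq_abs]
  exact mul_le_of_le_one_left (norm_nonneg _) ha

/-- The functions `φ ^ n * m / ψ'` span a dense subspace of the weighted Bergman space. -/
theorem cyclic {Ω : Set ℂ} {φ ψ b m : ℂ → ℂ} {u : ℕ → ℂ → ℂ} {B C η : ℝ} {W : ℝ → ℝ}
    (h : Conf Ω φ ψ) (hb : Bloch b B)
    (hbψ : ∀ z ∈ ball (0 : ℂ) 1, Complex.exp (b z) = deriv ψ z) (hm : Outer b m u C η)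
    (hη : 0 < η) (hW : Wt W) {p : ℝ≥0∞} (hp1 : 1 ≤ p) (hp : p ≠ ⊤) (hηp : η * p.toReal < 1)
    {k : ℂ → ℂ} (hk : Measurable k)
    (hkb : ∀ F : ℂ → ℂ, AEStronglyMeasurable F (wMeas Ω φ W) →
      ∫⁻ x, ‖F x * k x‖ₑ ∂(wMeas Ω φ W) ≤ eLpNorm F p (wMeas Ω φ W))
    (h0 : ∀ n : ℕ, ∫ z, (φ z ^ n * m (φ z) / deriv ψ (φ z)) * k z ∂(wMeas Ω φ W) = 0)
    {G : ℂ → ℂ} (hG : DifferentiableOn ℂ G Ω) (hGp : MemLp G p (wMeas Ω φ W)) :
    ∫ z, G z * k z ∂(wMeas Ω φ W) = 0 := by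
  have hx : Ctx Ω φ ψ b W p k := ⟨h, hb.diff, hbψ, hW, hp1, hp, hk, hkb⟩
  obtain ⟨ρ, hρ⟩ := exists_radii
  have hP := hx.one_le_toReal
  have hP0 : 0 < p.toReal := by linarith
  set a : ℝ := 2 / p.toReal - 1 with ha
  have ha1 : |a| ≤ 1 := by
    have h1 : 0 ≤ 2 / p.toReal := by positivity
    have h2 : 2 / p.toReal ≤ 2 := by rw [div_le_iff₀ hP0]; linarith
    rw [abs_le]; constructor <;> linarith
  have ha2 : |(-a)| ≤ 1 := by rwa [abs_neg]
  have hbc := hb.diff.continuousOn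
  have hmc := hm.diff.continuousOn
  have hgc : ContinuousOn (fun y => m y * Complex.exp (a * b y)) (ball 0 1) :=
    hmc.mul (Complex.continuous_exp.comp_continuousOn (continuousOn_const.mul hbc))
  -- step 0
  have s0 : ∀ Q : ℂ → ℂ, DifferentiableOn ℂ Q (ball 0 1) → ∀ M : ℝ,
      (∀ y ∈ ball (0 : ℂ) 1, ‖Q y‖ ≤ M) →
      ∫ z, lift φ b p.toReal (fun y => Q y * (m y * Complex.exp (a * b y))) z * k z
        ∂(wMeas Ω φ W) = 0 := by
    intro Q hQ M hM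
    refine hx.of_pow (C := C) hηp hgc (fun y hy => ?_) (fun n => ?_) hQ hM
    · refine le_trans ?_ (hm.bound₂ hη hy ⟨zero_le_one, le_rfl⟩)
      rw [norm_mul]
      refine mul_le_mul_of_nonneg_left ((norm_exp_mul_le ha1 _).trans ?_) (norm_nonneg _)
      exact le_mul_of_one_le_left (Real.exp_pos _).le (Real.one_le_exp (norm_nonneg _))
    · rw [← h0 n]
      refine integral_congr_ae ?_
      filter_upwards [hx.ae_mem] with z hz
      congr 1
      rw [lift, ← hbψ _ (h.mφ hz), div_eq_mul_inv (φ z ^ n * m (φ z)), ← Complex.exp_neg, mul_assoc, mul_assoc,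
        mul_assoc, ← Complex.exp_add]
      congr 3
      rw [ha]; push_cast; ring
  -- step 1
  have s1 : ∀ Q : ℂ → ℂ, DifferentiableOn ℂ Q (ball 0 1) → ∀ M : ℝ,
      (∀ y ∈ ball (0 : ℂ) 1, ‖Q y‖ ≤ M) →
      ∫ z, lift φ b p.toReal (fun y => Q y * m y) z * k z ∂(wMeas Ω φ W) = 0 := by
    intro Q hQ M hM
    have hM0 : 0 ≤ M := (norm_nonneg _).trans (hM 0 (mem_ball_self one_pos))
    have hd : ∀ j, DifferentiableOn ℂ
        (fun y => Q y * Complex.exp (((-a : ℝ) : ℂ) * b (ρ j * y))) (ball 0 1) := fun j =>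
      hQ.mul ((hρ.diff_comp j hb.diff).const_mul _).cexp
    refine hx.limit (Qs := fun j y => Q y * Complex.exp (((-a : ℝ) : ℂ) * b (ρ j * y)) *
      (m y * Complex.exp (a * b y))) (M := M * C) hηp (fun j => (hd j).continuousOn.mul hgc)
      (fun j y hy => ?_) (fun y hy => ?_) fun j => ?_
    · have h1 := hm.bound₂ hη hy ⟨(hρ.mem j).1.le, (hρ.mem j).2.le⟩
      rw [mul_assoc M, mul_assoc, norm_mul]
      refine mul_le_mul (hM y hy) (le_trans ?_ h1) (norm_nonneg _) hM0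
      rw [mul_left_comm, norm_mul, norm_mul]
      exact mul_le_mul_of_nonneg_left (mul_le_mul (norm_exp_mul_le ha2 _) (norm_exp_mul_le ha1 _)
        (norm_nonneg _) (Real.exp_pos _).le) (norm_nonneg _)
    · have h1 := (((Complex.continuous_exp.tendsto _).comp
        ((hρ.tendsto_comp hbc hy).const_mul ((-a : ℝ) : ℂ))).const_mul (Q y)).mul_const
        (m y * Complex.exp (a * b y))
      have e : Q y * Complex.exp (((-a : ℝ) : ℂ) * b y) * (m y * Complex.exp (a * b y)) =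
          Q y * m y := by
        rw [Complex.ofReal_neg, neg_mul, Complex.exp_neg]
        have := Complex.exp_ne_zero (a * b y)
        field_simp
      rw [e] at h1
      exact h1
    · obtain ⟨M', hM'⟩ := hρ.bdd_comp j hbc
      refine s0 _ (hd j) (M * Real.exp M') fun y hy => ?_
      rw [norm_mul]
      exact mul_le_mul (hM y hy) ((norm_exp_mul_le ha2 _).trans (Real.exp_le_exp.mpr (hM' y hy)))
        (norm_nonneg _) hM0
  -- step 2
  have s2 : ∀ Q : ℂ → ℂ, DifferentiableOn ℂ Q (ball 0 1) → ∀ M : ℝ,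
      (∀ y ∈ ball (0 : ℂ) 1, ‖Q y‖ ≤ M) →
      ∫ z, lift φ b p.toReal Q z * k z ∂(wMeas Ω φ W) = 0 := by
    intro Q hQ M hM
    have hM0 : 0 ≤ M := (norm_nonneg _).trans (hM 0 (mem_ball_self one_pos))
    refine hx.limit (Qs := fun n y => Q y * u n y * m y) (M := M) hηp
      (fun n => (hQ.mul (hm.diffu n)).continuousOn.mul hmc) (fun n y hy => ?_) (fun y hy => ?_)
      fun n => ?_
    · rw [mul_assoc, mul_comm (u n y), norm_mul]
      exact mul_le_mul (hM y hy) ((hm.mul_le n y hy).trans (one_le_weight hη hy)) (norm_nonneg _)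
        hM0
    · have h1 := (hm.tendsto y hy).const_mul (Q y)
      rw [mul_one] at h1
      exact h1.congr fun n => by ring
    · obtain ⟨M', hM'⟩ := hm.bddu n
      refine s1 _ (hQ.mul (hm.diffu n)) (M * M') fun y hy => ?_
      rw [norm_mul]
      exact mul_le_mul (hM y hy) (hM' y hy) (norm_nonneg _) hM0
  -- step 3
  set Gt : ℂ → ℂ := fun y => G (ψ y) * Complex.exp (((2 / p.toReal : ℝ) : ℂ) * b y) with hGt
  have hGtd : DifferentiableOn ℂ Gt (ball 0 1) :=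
    (hG.comp h.dψ h.mψ).mul (hb.diff.const_mul _).cexp
  have hGe : lift φ b p.toReal Gt =ᵐ[wMeas Ω φ W] G := by
    filter_upwards [hx.ae_mem] with z hz
    rw [lift, hGt]
    simp only [h.left z hz]
    rw [mul_assoc, ← Complex.exp_add, add_neg_cancel, Complex.exp_zero, mul_one]
  have hN : ∫⁻ y in ball (0 : ℂ) 1, ENNReal.ofReal (W (1 - ‖y‖)) * ‖Gt y‖ₑ ^ p.toReal ≠ ⊤ := by
    intro htop
    have h1 := hx.eLpNorm_lift Gt
    rw [eLpNorm_congr_ae hGe, htop, ENNReal.top_rpow_of_pos (by positivity)] at h1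
    exact hGp.2.ne h1
  have h1 := tendsto_dilate hW hP hGtd.continuousOn hN hρ
  have h2 : Tendsto (fun j => (∫⁻ y in ball (0 : ℂ) 1, ENNReal.ofReal (W (1 - ‖y‖)) *
      ‖Gt (ρ j * y) - Gt y‖ₑ ^ p.toReal) ^ (1 / p.toReal)) atTop (𝓝 0) := by
    have := (ENNReal.continuous_rpow_const (y := 1 / p.toReal)).tendsto 0 |>.comp h1
    rwa [ENNReal.zero_rpow_of_pos (by positivity)] at this
  have h3 : ∀ j, ‖∫ z, lift φ b p.toReal Gt z * k z ∂(wMeas Ω φ W)‖ₑ ≤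
      (∫⁻ y in ball (0 : ℂ) 1, ENNReal.ofReal (W (1 - ‖y‖)) *
        ‖Gt (ρ j * y) - Gt y‖ₑ ^ p.toReal) ^ (1 / p.toReal) := by
    intro j
    obtain ⟨M, hM⟩ := hρ.bdd_comp j hGtd.continuousOn
    have hM0 : 0 ≤ M := (norm_nonneg _).trans (hM 0 (mem_ball_self one_pos))
    have hd := hρ.diff_comp j hGtd
    have i1 := hx.integrable hd.continuousOn (hx.norm_ne_top (M := M) hηp fun y hy =>
      (hM y hy).trans (le_mul_of_one_le_right hM0 (one_le_weight hη hy)))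
    have i2 := hx.integrable hGtd.continuousOn hN
    have h4 := integral_sub i1 i2
    rw [s2 _ hd M hM, zero_sub] at h4
    rw [← enorm_neg, ← h4, ← hx.eLpNorm_lift fun y => Gt (ρ j * y) - Gt y]
    refine (enorm_integral_le_lintegral_enorm _).trans (le_trans (le_of_eq ?_)
      (hkb _ (hx.aesm (hd.continuousOn.sub hGtd.continuousOn))))
    refine lintegral_congr fun z => ?_
    simp only [lift]
    congr 1
    ring
  have h4 := ge_of_tendsto' h2 h3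
  rw [nonpos_iff_eq_zero, enorm_eq_zero] at h4
  rw [← h4]
  refine integral_congr_ae ?_
  filter_upwards [hGe] with z hz
  rw [hz]

end Pool.Agent.Lib.MP_3a6b94_an
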