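import Mathlib

open MeasureTheory Set

namespace Pool.Agent.Lib.MP_3a6b94_an

/-- The unbounded component of the complement of the closure of `Ω`. -/
def outerComp (Ω : Set ℂ) : Set ℂ :=
  {z | z ∈ (closure Ω)ᶜ ∧ ¬ Bornology.IsBounded (connectedComponentIn (closure Ω)ᶜ z)}

/-- `ω` is the harmonic measure of `Ω` at the point `a`: a Borel probability measure carried by
the boundary which represents the value at `a` of every function continuous on the closure and
harmonic inside. -/
def IsHarmonicMeasure (Ω : Set ℂ) (a : ℂ) (ω : Measure ℂ) : Prop :=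
  IsProbabilityMeasure ω ∧ ω (frontier Ω)ᶜ = 0 ∧
    ∀ u : ℂ → ℝ, ContinuousOn u (closure Ω) → InnerProductSpace.HarmonicOnNhd u Ω →
      ∫ z, u z ∂ω = u a

/-- The measure `W (1 - |φ z|) dx dy` on `Ω`. -/
noncomputable def wMeas (Ω : Set ℂ) (φ : ℂ → ℂ) (W : ℝ → ℝ) : Measure ℂ :=
  (volume.restrict Ω).withDensity fun z => ENNReal.ofReal (W (1 - ‖φ z‖))

end Pool.Agent.Lib.MP_3a6b94_an
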