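import Pool.Agent.Lib.MP_3a6b94_an.Basic

open MeasureTheory Set Metric Filter Topology
open scoped ENNReal NNReal Real symmDiff

namespace Pool.Agent.Lib.MP_3a6b94_an

section

variable {X : Type} [MeasurableSpace X] {μ : Measure X} [IsFiniteMeasure μ]
  {p : ℝ≥0∞} [Fact (1 ≤ p)]

open Classical in
/-- The indicator of a set as an element of `Lp`. -/
noncomputable def indLp (μ : Measure X) [IsFiniteMeasure μ] (p : ℝ≥0∞) (A : Set X) : Lp ℂ p μ :=
  if h : MeasurableSet A then indicatorConstLp p h (measure_ne_top μ A) (1 : ℂ) else 0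

omit [Fact (1 ≤ p)] in
theorem indLp_eq {A : Set X} (h : MeasurableSet A) :
    indLp μ p A = indicatorConstLp p h (measure_ne_top μ A) (1 : ℂ) := by
  rw [indLp, dif_pos h]

omit [Fact (1 ≤ p)] in
theorem indLp_sum {f : ℕ → Set X} (hf : ∀ i, MeasurableSet (f i))
    (hd : Pairwise (Function.onFun Disjoint f)) (t : Finset ℕ) :
    ∑ i ∈ t, indLp μ p (f i) = indLp μ p (⋃ i ∈ t, f i) := by
  induction t using Finset.induction_on with
  | empty =>
    have : (⋃ i ∈ (∅ : Finset ℕ), f i) = ∅ := by simp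
    rw [this, Finset.sum_empty, indLp_eq MeasurableSet.empty, indicatorConstLp_empty]
  | insert a t ha ih =>
    have hm : MeasurableSet (⋃ i ∈ t, f i) := Finset.measurableSet_biUnion t fun i _ => hf i
    have hdis : Disjoint (f a) (⋃ i ∈ t, f i) := by
      rw [Set.disjoint_iUnion₂_right]
      exact fun i hi => hd fun h => ha (h ▸ hi)
    rw [Finset.sum_insert ha, ih, Finset.set_biUnion_insert, indLp_eq (hf a), indLp_eq hm,
      indLp_eq ((hf a).union hm), indicatorConstLp_disjoint_union _ _ _ _ hdis]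

/-- The indicator map as a vector measure. -/
noncomputable def indVM (μ : Measure X) [IsFiniteMeasure μ] (p : ℝ≥0∞) [Fact (1 ≤ p)]
    (hp : p ≠ ⊤) : VectorMeasure X (Lp ℂ p μ) where
  measureOf' := indLp μ p
  empty' := by rw [indLp_eq MeasurableSet.empty, indicatorConstLp_empty]
  not_measurable' i hi := by rw [indLp, dif_neg hi]
  m_iUnion' f hf hd := by
    have hU : MeasurableSet (⋃ i, f i) := MeasurableSet.iUnion hf
    have hm : ∀ t : Finset ℕ, MeasurableSet (⋃ i ∈ t, f i) := fun t =>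
      Finset.measurableSet_biUnion t fun i _ => hf i
    have h1 : Tendsto (fun t : Finset ℕ => μ ((⋃ i ∈ t, f i) ∆ (⋃ i, f i))) atTop (𝓝 0) := by
      have h2 : ∑' i, μ (f i) ≠ ⊤ := by
        rw [← measure_iUnion hd hf]; exact measure_ne_top _ _
      refine tendsto_of_tendsto_of_tendsto_of_le_of_le tendsto_const_nhds
        (ENNReal.tendsto_tsum_compl_atTop_zero h2) (fun _ => zero_le) fun t => ?_
      refine le_trans (measure_mono ?_) (measure_iUnion_le fun b : {x // x ∉ t} => f b)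
      rintro x (⟨hx, hx'⟩ | ⟨hx, hx'⟩)
      · simp only [mem_iUnion] at hx hx'
        obtain ⟨i, _, hi⟩ := hx
        exact absurd ⟨i, hi⟩ hx'
      · simp only [mem_iUnion] at hx hx' ⊢
        obtain ⟨i, hi⟩ := hx
        exact ⟨⟨i, fun h => hx' ⟨i, h, hi⟩⟩, hi⟩
    have h3 := tendsto_indicatorConstLp_set (hs := hU) (hμs := measure_ne_top μ _) (c := (1 : ℂ))
      (ht := hm) (hμt := fun t => measure_ne_top μ _) hp h1
    rw [HasSum, SummationFilter.unconditional_filter, indLp_eq hU]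
    refine h3.congr fun t => ?_
    rw [indLp_sum hf hd, indLp_eq (hm t)]

theorem exists_rnDensity (hp : p ≠ ⊤) (L : Lp ℂ p μ →L[ℂ] ℂ) :
    ∃ k : X → ℂ, Measurable k ∧ Integrable k μ ∧
      ∀ A, MeasurableSet A → L (indLp μ p A) = ∫ x in A, k x ∂μ := by
  have key : ∀ T : ℂ →L[ℝ] ℝ, ∃ g : X → ℝ, Measurable g ∧ Integrable g μ ∧
      ∀ A, MeasurableSet A → T (L (indLp μ p A)) = ∫ x in A, g x ∂μ := by
    intro T
    let s : SignedMeasure X := (indVM μ p hp).mapRange
      (T.comp (L.restrictScalars ℝ)).toLinearMap.toAddMonoidHom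
      (T.comp (L.restrictScalars ℝ)).continuous
    have hs : ∀ A, s A = T (L (indLp μ p A)) := fun A => rfl
    have hac : s ≪ᵥ μ.toENNRealVectorMeasure := by
      refine VectorMeasure.AbsolutelyContinuous.mk fun A hA h0 => ?_
      rw [Measure.toENNRealVectorMeasure_apply_measurable hA] at h0
      have : indLp μ p A = 0 := by
        rw [indLp_eq hA, ← indicatorConstLp_empty (c := (1 : ℂ)),
          indicatorConstLp_inj _ _ _ _ one_ne_zero]
        exact ae_eq_empty.mpr h0
      rw [hs, this, map_zero, map_zero]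
    refine ⟨s.rnDeriv μ, SignedMeasure.measurable_rnDeriv _ _,
      SignedMeasure.integrable_rnDeriv _ _, fun A hA => ?_⟩
    rw [← hs, ← withDensityᵥ_apply (SignedMeasure.integrable_rnDeriv _ _) hA,
      SignedMeasure.withDensityᵥ_rnDeriv_eq s μ hac]
  obtain ⟨g₁, m₁, i₁, h₁⟩ := key Complex.reCLM
  obtain ⟨g₂, m₂, i₂, h₂⟩ := key Complex.imCLM
  refine ⟨fun x => (g₁ x : ℂ) + (g₂ x : ℂ) * Complex.I, by fun_prop,
    i₁.ofReal.add (i₂.ofReal.mul_const _), fun A hA => ?_⟩
  have j₁ : Integrable (fun x => (g₁ x : ℂ)) (μ.restrict A) := i₁.ofReal.integrableOn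
  have j₂ : Integrable (fun x => (g₂ x : ℂ) * Complex.I) (μ.restrict A) :=
    (i₂.ofReal.mul_const _).integrableOn
  rw [integral_add j₁ j₂,
    integral_mul_const, integral_complex_ofReal, integral_complex_ofReal, ← h₁ A hA, ← h₂ A hA]
  exact (Complex.re_add_im _).symm

omit [IsFiniteMeasure μ] [Fact (1 ≤ p)] in
theorem integrable_mul_of_bound {k : X → ℂ} (hk : Measurable k) {C : ℝ≥0∞} (hC : C ≠ ⊤)
    (hb : ∀ F : X → ℂ, AEStronglyMeasurable F μ → ∫⁻ x, ‖F x * k x‖ₑ ∂μ ≤ C * eLpNorm F p μ)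
    {F : X → ℂ} (hF : MemLp F p μ) : Integrable (fun x => F x * k x) μ :=
  ⟨hF.1.mul hk.aestronglyMeasurable,
    (hb F hF.1).trans_lt (ENNReal.mul_lt_top hC.lt_top hF.2)⟩

theorem eq_integral_of_ind (hp : p ≠ ⊤) {k : X → ℂ} (hk : Measurable k) {C : ℝ≥0∞} (hC : C ≠ ⊤)
    (hb : ∀ F : X → ℂ, AEStronglyMeasurable F μ → ∫⁻ x, ‖F x * k x‖ₑ ∂μ ≤ C * eLpNorm F p μ)
    (L : Lp ℂ p μ →L[ℂ] ℂ)
    (hL : ∀ A, MeasurableSet A → L (indLp μ p A) = ∫ x in A, k x ∂μ) (F : Lp ℂ p μ) :
    L F = ∫ x, F x * k x ∂μ := by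
  have hint : ∀ G : Lp ℂ p μ, Integrable (fun x => G x * k x) μ := fun G =>
    integrable_mul_of_bound hk hC hb (Lp.memLp G)
  let J : Lp ℂ p μ →ₗ[ℂ] ℂ :=
    { toFun := fun G => ∫ x, G x * k x ∂μ
      map_add' := fun G H => by
        rw [← integral_add (hint G) (hint H)]
        refine integral_congr_ae ?_
        filter_upwards [Lp.coeFn_add G H] with x hx
        rw [hx, Pi.add_apply, add_mul]
      map_smul' := fun c G => by
        rw [RingHom.id_apply, smul_eq_mul, ← integral_const_mul]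
        refine integral_congr_ae ?_
        filter_upwards [Lp.coeFn_smul c G] with x hx
        rw [hx, Pi.smul_apply, smul_eq_mul, mul_assoc] }
  have hJ : ∀ G, ‖J G‖ ≤ C.toReal * ‖G‖ := fun G => by
    refine (norm_integral_le_lintegral_norm _).trans ?_
    rw [Lp.norm_def, ← ENNReal.toReal_mul]
    refine ENNReal.toReal_mono (ENNReal.mul_ne_top hC (Lp.eLpNorm_ne_top G)) ?_
    simp only [ofReal_norm]
    exact hb G (Lp.aestronglyMeasurable G)
  have hJc : Continuous J := (J.mkContinuous _ hJ).continuous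
  change L F = J F
  refine Lp.induction hp (fun G => L G = J G) (fun c A hA hμA => ?_)
    (fun f g hf hg _ h1 h2 => ?_) (isClosed_eq L.continuous hJc) F
  · have e : ((Lp.simpleFunc.indicatorConst p hA hμA.ne c : Lp.simpleFunc ℂ p μ) : Lp ℂ p μ) =
        c • indLp μ p A := by
      rw [Lp.simpleFunc.coe_indicatorConst, indLp_eq hA]
      ext1
      filter_upwards [indicatorConstLp_coeFn (p := p) (hs := hA) (hμs := hμA.ne) (c := c),
        Lp.coeFn_smul c (indicatorConstLp p hA (measure_ne_top μ A) (1 : ℂ)),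
        indicatorConstLp_coeFn (p := p) (hs := hA) (hμs := measure_ne_top μ A) (c := (1 : ℂ))]
        with x h1 h2 h3
      rw [h1, h2, Pi.smul_apply, h3]
      by_cases hx : x ∈ A <;> simp [hx]
    show L _ = J _
    rw [e, map_smul, map_smul, hL A hA]
    congr 1
    show _ = ∫ x, indLp μ p A x * k x ∂μ
    rw [← integral_indicator hA, indLp_eq hA]
    refine integral_congr_ae ?_
    filter_upwards [indicatorConstLp_coeFn (p := p) (hs := hA) (hμs := measure_ne_top μ A)
      (c := (1 : ℂ))] with x h3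
    rw [h3]
    by_cases hx : x ∈ A <;> simp [hx]
  · show L _ = J _
    rw [map_add, map_add, h1, h2]

/-- The complex conjugate of the sign. -/
noncomputable def csgn (z : ℂ) : ℂ := (‖z‖ : ℂ) / z

theorem measurable_csgn : Measurable csgn := by
  unfold csgn; fun_prop

theorem norm_csgn_le (z : ℂ) : ‖csgn z‖ ≤ 1 := by
  rw [csgn, norm_div, Complex.norm_real, norm_norm]
  exact div_self_le_one _

theorem csgn_mul (z : ℂ) : csgn z * z = ‖z‖ := by
  by_cases hz : z = 0
  · simp [hz]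
  · rw [csgn, div_mul_cancel₀ _ hz]

theorem exists_rep (hp : p ≠ ⊤) (L : Lp ℂ p μ →L[ℂ] ℂ) (hL : ‖L‖ ≤ 1) :
    ∃ k : X → ℂ, Measurable k ∧
      (∀ F : X → ℂ, AEStronglyMeasurable F μ → ∫⁻ x, ‖F x * k x‖ₑ ∂μ ≤ eLpNorm F p μ) ∧
      ∀ F : Lp ℂ p μ, L F = ∫ x, F x * k x ∂μ := by
  obtain ⟨k, hk, hki, hkL⟩ := exists_rnDensity hp L
  have hp1 : 1 ≤ p := Fact.out
  set A : ℕ → Set X := fun n => {x | ‖k x‖ ≤ n} with hAdef
  have hA : ∀ n, MeasurableSet (A n) := fun n => measurableSet_le hk.norm measurable_const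
  let T : ℕ → Lp ℂ p μ →L[ℂ] Lp ℂ p μ := fun n =>
    (ContinuousLinearMap.mul ℂ ℂ).holderL μ ⊤ p p (indLp μ ⊤ (A n))
  have hT : ∀ n (F : Lp ℂ p μ), T n F =ᵐ[μ] (A n).indicator F := by
    intro n F
    have h1 := (ContinuousLinearMap.mul ℂ ℂ).coeFn_holder (r := p) (indLp μ ⊤ (A n)) F
    rw [indLp_eq (hA n)] at h1
    have e : T n F = (ContinuousLinearMap.mul ℂ ℂ).holder p
        (indicatorConstLp ⊤ (hA n) (measure_ne_top μ _) (1 : ℂ)) F := by
      rw [← indLp_eq (hA n)]; rfl
    rw [e]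
    filter_upwards [h1, indicatorConstLp_coeFn (p := ⊤) (hs := hA n)
      (hμs := measure_ne_top μ (A n)) (c := (1 : ℂ))] with x h2 h3
    rw [h2, h3]
    by_cases hx : x ∈ A n <;> simp [hx]
  have hn : ∀ n (F : Lp ℂ p μ), L (T n F) = ∫ x, F x * (A n).indicator k x ∂μ := by
    intro n
    refine eq_integral_of_ind hp (hk.indicator (hA n))
      (C := (n : ℝ≥0∞) * μ univ ^ (1 / (1 : ℝ≥0∞).toReal - 1 / p.toReal))
      (ENNReal.mul_ne_top (ENNReal.natCast_ne_top n) ?_) (fun F hF => ?_) (L.comp (T n))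
      fun B hB => ?_
    · refine ENNReal.rpow_ne_top_of_nonneg ?_ (measure_ne_top _ _)
      have : 1 ≤ p.toReal := by
        simpa using ENNReal.toReal_mono hp hp1
      have h2 : 1 / p.toReal ≤ 1 := by
        rw [div_le_one (by linarith)]; exact this
      simpa using h2
    · have h1 := eLpNorm_le_eLpNorm_mul_rpow_measure_univ hp1 hF
      rw [eLpNorm_one_eq_lintegral_enorm] at h1
      calc ∫⁻ x, ‖F x * (A n).indicator k x‖ₑ ∂μ ≤ ∫⁻ x, (n : ℝ≥0∞) * ‖F x‖ₑ ∂μ := by
            refine lintegral_mono fun x => ?_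
            rw [enorm_mul, mul_comm]
            refine mul_le_mul_left ?_ _
            by_cases hx : x ∈ A n
            · rw [indicator_of_mem hx, ← ofReal_norm, ← ENNReal.ofReal_natCast]
              exact ENNReal.ofReal_le_ofReal hx
            · simp [hx]
        _ = (n : ℝ≥0∞) * ∫⁻ x, ‖F x‖ₑ ∂μ := lintegral_const_mul' _ _ (ENNReal.natCast_ne_top n)
        _ ≤ _ := by
            rw [mul_assoc, mul_comm (μ univ ^ _)]
            exact mul_le_mul_right h1 _
    · have e : T n (indLp μ p B) = indLp μ p (A n ∩ B) := by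
        ext1
        have h1 := hT n (indLp μ p B)
        rw [indLp_eq ((hA n).inter hB)]
        rw [indLp_eq hB] at h1 ⊢
        filter_upwards [h1, indicatorConstLp_coeFn (p := p) (hs := hB)
          (hμs := measure_ne_top μ B) (c := (1 : ℂ)), indicatorConstLp_coeFn (p := p)
          (hs := (hA n).inter hB) (hμs := measure_ne_top μ _) (c := (1 : ℂ))] with x h2 h3 h4
        rw [h2, h4]
        by_cases hx : x ∈ A n
        · rw [indicator_of_mem hx, h3]
          by_cases hx' : x ∈ B <;> simp [hx, hx']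
        · simp [hx]
      rw [ContinuousLinearMap.comp_apply, e, hkL _ ((hA n).inter hB), setIntegral_indicator (hA n),
        inter_comm]
  have hbound : ∀ F : X → ℂ, AEStronglyMeasurable F μ →
      ∫⁻ x, ‖F x * k x‖ₑ ∂μ ≤ eLpNorm F p μ := by
    intro F hF
    by_cases htop : eLpNorm F p μ = ⊤
    · rw [htop]; exact le_top
    have hFp : MemLp F p μ := ⟨hF, lt_top_iff_ne_top.mpr htop⟩
    set G : X → ℂ := fun x => (‖F x‖ : ℂ) * csgn (k x) with hG
    have hGm : AEStronglyMeasurable G μ :=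
      (Complex.continuous_ofReal.comp_aestronglyMeasurable hF.norm).mul
        (measurable_csgn.comp hk).aestronglyMeasurable
    have hGle : ∀ x, ‖G x‖ ≤ ‖F x‖ := fun x => by
      rw [hG, norm_mul, Complex.norm_real, norm_norm]
      exact mul_le_of_le_one_right (norm_nonneg _) (norm_csgn_le _)
    have hGp : MemLp G p μ := hFp.of_le hGm (Eventually.of_forall hGle)
    have hstep : ∀ n, ∫⁻ x, (A n).indicator (fun x => ‖F x * k x‖ₑ) x ∂μ ≤ eLpNorm F p μ := by
      intro n
      have h1 : ‖L (T n (hGp.toLp G))‖ ≤ (eLpNorm F p μ).toReal := by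
        refine (L.le_of_opNorm_le hL _).trans ?_
        rw [one_mul, Lp.norm_def]
        refine ENNReal.toReal_mono htop (eLpNorm_mono_ae ?_)
        filter_upwards [hT n (hGp.toLp G), hGp.coeFn_toLp] with x h2 h3
        rw [h2]
        refine (norm_indicator_le_norm_self _ _).trans ?_
        rw [h3]; exact hGle x
      have h2 : ∫ x, (hGp.toLp G) x * (A n).indicator k x ∂μ =
          ((∫ x, (A n).indicator (fun x => ‖F x * k x‖) x ∂μ : ℝ) : ℂ) := by
        rw [← integral_complex_ofReal]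
        refine integral_congr_ae ?_
        filter_upwards [hGp.coeFn_toLp] with x h3
        rw [h3]
        by_cases hx : x ∈ A n
        · rw [indicator_of_mem hx, indicator_of_mem hx, hG, mul_assoc, csgn_mul, norm_mul,
            Complex.ofReal_mul]
        · simp [hx]
      have h3 : Integrable (fun x => (A n).indicator (fun x => ‖F x * k x‖) x) μ := by
        refine ((hFp.integrable hp1).norm.mul_const (n : ℝ)).mono'
          ((hF.mul hk.aestronglyMeasurable).norm.indicator (hA n)) (Eventually.of_forall fun x => ?_)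
        by_cases hx : x ∈ A n
        · rw [indicator_of_mem hx, norm_norm, norm_mul]
          exact mul_le_mul_of_nonneg_left hx (norm_nonneg _)
        · rw [indicator_of_notMem hx, norm_zero]; positivity
      have h4 : ∀ x, 0 ≤ (A n).indicator (fun x => ‖F x * k x‖) x := fun x =>
        indicator_nonneg (fun _ _ => norm_nonneg _) x
      rw [hn, h2, Complex.norm_real, Real.norm_of_nonneg (integral_nonneg h4)] at h1
      have h5 := ofReal_integral_eq_lintegral_ofReal h3 (Eventually.of_forall h4)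
      calc _ = ∫⁻ x, ENNReal.ofReal ((A n).indicator (fun x => ‖F x * k x‖) x) ∂μ := by
            refine lintegral_congr fun x => ?_
            by_cases hx : x ∈ A n
            · rw [indicator_of_mem hx, indicator_of_mem hx, ofReal_norm]
            · simp [hx]
        _ ≤ _ := by
            rw [← h5]
            exact ENNReal.ofReal_le_of_le_toReal h1
    have hsup : ∀ x, ‖F x * k x‖ₑ = ⨆ n, (A n).indicator (fun x => ‖F x * k x‖ₑ) x := by
      intro x
      refine le_antisymm ?_ (iSup_le fun n => indicator_le_self _ _ x)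
      obtain ⟨n, hn⟩ := exists_nat_ge ‖k x‖
      refine le_iSup_of_le n ?_
      rw [indicator_of_mem (show x ∈ A n from hn)]
    have hme : AEMeasurable (fun x => ‖F x * k x‖ₑ) μ := (hF.mul hk.aestronglyMeasurable).enorm
    rw [lintegral_congr hsup, lintegral_iSup' (fun n => hme.indicator (hA n))]
    · exact iSup_le hstep
    · refine Eventually.of_forall fun x m n hmn => ?_
      refine indicator_le_indicator_of_subset (fun y hy => ?_) (fun _ => zero_le) x
      exact le_trans (show ‖k y‖ ≤ m from hy) (Nat.cast_le.mpr hmn)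
  exact ⟨k, hk, hbound, eq_integral_of_ind hp hk ENNReal.one_ne_top
    (fun F hF => by rw [one_mul]; exact hbound F hF) L hkL⟩

end

theorem exists_annihilator {X : Type} [MeasurableSpace X] {μ : Measure X} [IsFiniteMeasure μ]
    {p : ℝ≥0∞} [Fact (1 ≤ p)] (hp : p ≠ ⊤) (S : Submodule ℂ (Lp ℂ p μ)) (f : Lp ℂ p μ)
    (hf : f ∉ closure (S : Set (Lp ℂ p μ))) :
    ∃ k : X → ℂ, Measurable k ∧
      (∀ F : X → ℂ, AEStronglyMeasurable F μ → ∫⁻ x, ‖F x * k x‖ₑ ∂μ ≤ eLpNorm F p μ) ∧
      (∀ F ∈ S, ∫ x, F x * k x ∂μ = 0) ∧ ∫ x, f x * k x ∂μ ≠ 0 := by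
  set S' := S.topologicalClosure with hS'
  have : IsClosed (S' : Set (Lp ℂ p μ)) := S.isClosed_topologicalClosure
  have hne : S'.mkQ f ≠ 0 := by
    rw [Submodule.mkQ_apply, Ne, Submodule.Quotient.mk_eq_zero]
    exact hf
  obtain ⟨g, hg1, hg2⟩ := exists_dual_vector ℂ (S'.mkQ f) (norm_ne_zero_iff.mpr hne)
  let Q : Lp ℂ p μ →L[ℂ] (Lp ℂ p μ ⧸ S') :=
    S'.mkQ.mkContinuous 1 fun x => by
      rw [one_mul]; exact Submodule.Quotient.norm_mk_le S' x
  have hQ : ‖Q‖ ≤ 1 := LinearMap.mkContinuous_norm_le _ zero_le_one _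
  have hL : ‖g.comp Q‖ ≤ 1 := by
    refine (ContinuousLinearMap.opNorm_comp_le _ _).trans ?_
    rw [hg1, one_mul]; exact hQ
  obtain ⟨k, hk, hb, hrep⟩ := exists_rep hp (g.comp Q) hL
  refine ⟨k, hk, hb, fun F hF => ?_, ?_⟩
  · rw [← hrep]
    have : S'.mkQ F = 0 := by
      rw [Submodule.mkQ_apply, Submodule.Quotient.mk_eq_zero]
      exact S.le_topologicalClosure hF
    show g (S'.mkQ F) = 0
    rw [this, map_zero]
  · rw [← hrep]
    show g (S'.mkQ f) ≠ 0
    rw [hg2]
    exact RCLike.ofReal_ne_zero.mpr (norm_ne_zero_iff.mpr hne)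

theorem exists_exponent {X : Type} [MeasurableSpace X] {μ : Measure X} [IsFiniteMeasure μ]
    {p : ℝ≥0∞} (hp1 : 1 ≤ p) (hp : p ≠ ⊤) {k : X → ℂ} (hk : Measurable k)
    (hb : ∀ F : X → ℂ, AEStronglyMeasurable F μ → ∫⁻ x, ‖F x * k x‖ₑ ∂μ ≤ eLpNorm F p μ) :
    ∃ q : ℝ, 1 < q ∧ q ≤ 2 ∧ ∫⁻ x, ‖k x‖ₑ ^ q ∂μ ≠ ⊤ := by
  set P : ℝ := max p.toReal 2 with hP
  have hP2 : 2 ≤ P := le_max_right _ _
  have hP0 : 0 < P := by linarith
  have hP1 : 0 < P - 1 := by linarith
  set q : ℝ := P / (P - 1) with hq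
  have hq1 : 1 < q := by rw [hq, lt_div_iff₀ hP1]; linarith
  have hq2 : q ≤ 2 := by rw [hq, div_le_iff₀ hP1]; linarith
  have hq0 : 0 < q := by linarith
  have hqP : (q - 1) * P = q := by rw [hq]; field_simp; ring
  have hsum : 1 / P + 1 / q = 1 := by rw [hq]; field_simp; ring
  have hpP : p ≤ ENNReal.ofReal P := by
    rw [← ENNReal.ofReal_toReal hp]
    exact ENNReal.ofReal_le_ofReal (le_max_left _ _)
  have hp0 : 0 < p.toReal := ENNReal.toReal_pos (by rintro rfl; simp at hp1) hp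
  set C : ℝ≥0∞ := μ univ ^ (1 / p.toReal - 1 / (ENNReal.ofReal P).toReal) with hC
  have hCt : C ≠ ⊤ := by
    refine ENNReal.rpow_ne_top_of_nonneg ?_ (measure_ne_top _ _)
    rw [ENNReal.toReal_ofReal hP0.le, sub_nonneg]
    exact one_div_le_one_div_of_le hp0 (le_max_left _ _)
  refine ⟨q, hq1, hq2, ?_⟩
  set A : ℕ → Set X := fun n => {x | ‖k x‖ ≤ n} with hAdef
  have hA : ∀ n, MeasurableSet (A n) := fun n => measurableSet_le hk.norm measurable_const
  have hstep : ∀ n, ∫⁻ x, (A n).indicator (fun x => ‖k x‖ₑ ^ q) x ∂μ ≤ C ^ q := by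
    intro n
    set I := ∫⁻ x, (A n).indicator (fun x => ‖k x‖ₑ ^ q) x ∂μ with hI
    have hIt : I ≠ ⊤ := by
      refine ne_top_of_le_ne_top (b := ∫⁻ _, (n : ℝ≥0∞) ^ q ∂μ) ?_ (lintegral_mono fun x => ?_)
      · rw [lintegral_const]
        exact ENNReal.mul_ne_top (ENNReal.rpow_ne_top_of_nonneg hq0.le (ENNReal.natCast_ne_top n))
          (measure_ne_top _ _)
      · by_cases hx : x ∈ A n
        · rw [indicator_of_mem hx]
          refine ENNReal.rpow_le_rpow ?_ hq0.le
          rw [← ofReal_norm, ← ENNReal.ofReal_natCast]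
          exact ENNReal.ofReal_le_ofReal hx
        · simp [hx]
    set F : X → ℂ := (A n).indicator fun x => ((‖k x‖ ^ (q - 1) : ℝ) : ℂ) with hF
    have hFm : Measurable F := Measurable.indicator (by fun_prop) (hA n)
    have hFn : ∀ x ∈ A n, ‖F x‖ₑ = ‖k x‖ₑ ^ (q - 1) := fun x hx => by
      rw [hF, indicator_of_mem hx, ← ofReal_norm, ← ofReal_norm, Complex.norm_real,
        Real.norm_of_nonneg (by positivity),
        ENNReal.ofReal_rpow_of_nonneg (norm_nonneg _) (by linarith)]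
    have h1 : ∫⁻ x, ‖F x * k x‖ₑ ∂μ = I := by
      refine lintegral_congr fun x => ?_
      by_cases hx : x ∈ A n
      · rw [indicator_of_mem hx, enorm_mul, hFn x hx]
        conv_rhs => rw [show q = (q - 1) + 1 by ring,
          ENNReal.rpow_add_of_nonneg _ _ (by linarith) zero_le_one, ENNReal.rpow_one]
      · simp [hF, hx]
    have h2 : eLpNorm F (ENNReal.ofReal P) μ = I ^ (1 / P) := by
      rw [eLpNorm_eq_lintegral_rpow_enorm_toReal (by simpa using hP0) ENNReal.ofReal_ne_top,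
        ENNReal.toReal_ofReal hP0.le]
      congr 1
      refine lintegral_congr fun x => ?_
      by_cases hx : x ∈ A n
      · rw [indicator_of_mem hx, hFn x hx, ← ENNReal.rpow_mul, hqP]
      · simp [hF, hx, hP0]
    have h3 := (hb F hFm.aestronglyMeasurable).trans
      (eLpNorm_le_eLpNorm_mul_rpow_measure_univ hpP hFm.aestronglyMeasurable)
    rw [h1, h2, ← hC] at h3
    by_cases hI0 : I = 0
    · rw [hI0]; exact zero_le
    have h4 : I ^ (1 / P) * I ^ (1 / q) ≤ I ^ (1 / P) * C := by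
      rwa [← ENNReal.rpow_add_of_nonneg _ _ (by positivity) (by positivity), hsum,
        ENNReal.rpow_one]
    have h5 : I ^ (1 / q) ≤ C :=
      (ENNReal.mul_le_mul_iff_right (ENNReal.rpow_pos (pos_iff_ne_zero.mpr hI0) hIt).ne'
        (ENNReal.rpow_ne_top_of_nonneg (by positivity) hIt)).mp h4
    have h6 := ENNReal.rpow_le_rpow h5 hq0.le
    rwa [← ENNReal.rpow_mul, one_div_mul_cancel hq0.ne', ENNReal.rpow_one] at h6
  have hsup : ∀ x, ‖k x‖ₑ ^ q = ⨆ n, (A n).indicator (fun x => ‖k x‖ₑ ^ q) x := by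
    intro x
    refine le_antisymm ?_ (iSup_le fun n => indicator_le_self _ _ x)
    obtain ⟨n, hn⟩ := exists_nat_ge ‖k x‖
    refine le_iSup_of_le n ?_
    rw [indicator_of_mem (show x ∈ A n from hn)]
  refine ne_top_of_le_ne_top (ENNReal.rpow_ne_top_of_nonneg hq0.le hCt) ?_
  rw [lintegral_congr hsup, lintegral_iSup (fun n => (hk.enorm.pow_const q).indicator (hA n))]
  · exact iSup_le hstep
  · intro m n hmn x
    refine indicator_le_indicator_of_subset (fun y hy => ?_) (fun _ => zero_le) x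
    exact le_trans (show ‖k y‖ ≤ m from hy) (Nat.cast_le.mpr hmn)

end Pool.Agent.Lib.MP_3a6b94_an
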