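import Pool.Agent.Lib.MP_3a6b94_an.Tools

open MeasureTheory Set Metric Filter Topology
open scoped ENNReal NNReal Real

namespace Pool.Agent.Lib.MP_3a6b94_an

/-- The logarithmic length element of the annulus `R₁ ≤ |w - ξ| ≤ R₂` pulled back by `ψ`. -/
noncomputable def lak (ψ : ℂ → ℂ) (ξ : ℂ) (R₁ R₂ : ℝ) (z : ℂ) : ℝ≥0∞ :=
  {z | R₁ ≤ ‖ψ z - ξ‖ ∧ ‖ψ z - ξ‖ ≤ R₂}.indicator (fun z => ‖deriv ψ z‖ₑ * ‖ψ z - ξ‖ₑ⁻¹) z

/-- The radial energy. -/
noncomputable def radE (ψ : ℂ → ℂ) (ξ : ℂ) (R₁ R₂ : ℝ) (θ : ℝ) : ℝ≥0∞ :=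
  ∫⁻ s in Ioo (1 / 2 : ℝ) 1, lak ψ ξ R₁ R₂ (circleMap 0 s θ) ^ 2

theorem cross_le {γ γ' : ℝ → ℂ} {ξ : ℂ} {a b : ℝ} (hγ : ∀ t ∈ Icc a b, HasDerivAt γ (γ' t) t)
    {R₁ R₂ : ℝ} (h₁ : 0 < R₁) (h₂ : R₁ ≤ R₂) {t₁ t₂ : ℝ} (ht₁ : t₁ ∈ Icc a b)
    (ht₂ : t₂ ∈ Icc a b) (e₁ : ‖γ t₁ - ξ‖ ≤ R₁) (e₂ : R₂ ≤ ‖γ t₂ - ξ‖) :
    ENNReal.ofReal (Real.log (R₂ / R₁)) ≤
      ∫⁻ t in Icc a b ∩ {t | R₁ ≤ ‖γ t - ξ‖ ∧ ‖γ t - ξ‖ ≤ R₂}, ‖γ' t‖ₑ * ‖γ t - ξ‖ₑ⁻¹ := by
  have hc : ContinuousOn (fun t => ‖γ t - ξ‖) (Icc a b) := fun t ht =>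
    ((hγ t ht).continuousAt.sub continuousAt_const).norm.continuousWithinAt
  set S := Icc a b ∩ {t | R₁ ≤ ‖γ t - ξ‖ ∧ ‖γ t - ξ‖ ≤ R₂} with hS
  have hSm : MeasurableSet S :=
    (hc.preimage_isClosed_of_isClosed isClosed_Icc (isClosed_Icc (a := R₁) (b := R₂))).measurableSet
  set u : ℝ → ℝ := fun t => Real.log (‖γ t - ξ‖ ^ 2) / 2 with hu
  set u' : ℝ → ℝ := fun t => 2 * inner ℝ (γ t - ξ) (γ' t) / ‖γ t - ξ‖ ^ 2 / 2 with hu'
  have hd : ∀ t ∈ S, HasDerivAt u (u' t) t := fun t ht =>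
    ((((hγ t ht.1).sub_const ξ).norm_sq).log (pow_pos (h₁.trans_le ht.2.1) 2).ne').div_const 2
  have h := addHaar_image_le_lintegral_abs_det_fderiv volume hSm
    (f' := fun t => ContinuousLinearMap.toSpanSingleton ℝ (u' t))
    fun t ht => (hd t ht).hasFDerivAt.hasFDerivWithinAt
  have hsub : Icc (Real.log R₁) (Real.log R₂) ⊆ u '' S := by
    intro x hx
    have hx1 : R₁ ≤ Real.exp x := (Real.log_le_iff_le_exp h₁).mp hx.1
    have hx2 : Real.exp x ≤ R₂ := (Real.le_log_iff_exp_le (h₁.trans_le h₂)).mp hx.2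
    obtain ⟨t, ht, e⟩ := isPreconnected_Icc.intermediate_value ht₁ ht₂ hc
      ⟨e₁.trans hx1, hx2.trans e₂⟩
    simp only at e
    refine ⟨t, ⟨ht, by rw [mem_ofPred_eq, e]; exact ⟨hx1, hx2⟩⟩, ?_⟩
    simp [hu, e]
  calc ENNReal.ofReal (Real.log (R₂ / R₁)) = volume (Icc (Real.log R₁) (Real.log R₂)) := by
        rw [Real.volume_Icc, Real.log_div (h₁.trans_le h₂).ne' h₁.ne']
    _ ≤ volume (u '' S) := measure_mono hsub
    _ ≤ _ := h
    _ ≤ _ := by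
        refine setLIntegral_mono' hSm fun t ht => ?_
        have hp : 0 < ‖γ t - ξ‖ := h₁.trans_le ht.2.1
        rw [ContinuousLinearMap.det_toSpanSingleton, ← ofReal_norm, ← ofReal_norm,
          ← ENNReal.ofReal_inv_of_pos hp, ← ENNReal.ofReal_mul (norm_nonneg _)]
        refine ENNReal.ofReal_le_ofReal ?_
        have h3 := abs_real_inner_le_norm (γ t - ξ) (γ' t)
        have e : u' t = inner ℝ (γ t - ξ) (γ' t) / ‖γ t - ξ‖ ^ 2 := by
          rw [hu']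
          ring
        rw [e, abs_div, abs_of_pos (pow_pos hp 2), div_le_iff₀ (pow_pos hp 2)]
        refine h3.trans (le_of_eq ?_)
        field_simp

theorem sq_lintegral_le {X : Type} [MeasurableSpace X] (μ : Measure X) {f : X → ℝ≥0∞}
    (hf : AEMeasurable f μ) : (∫⁻ x, f x ∂μ) ^ 2 ≤ μ univ * ∫⁻ x, f x ^ 2 ∂μ := by
  have h := ENNReal.lintegral_mul_le_Lp_mul_Lq μ Real.HolderConjugate.two_two
    (f := fun _ => 1) (g := f) aemeasurable_const hf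
  simp only [Pi.mul_apply, one_mul, one_pow, lintegral_const, ENNReal.rpow_two] at h
  refine (pow_le_pow_left' h 2).trans (le_of_eq ?_)
  have e : ∀ x : ℝ≥0∞, (x ^ (1 / 2 : ℝ)) ^ 2 = x := fun x => by
    rw [← ENNReal.rpow_two, ← ENNReal.rpow_mul]
    norm_num
  rw [mul_pow, e, e]

theorem Univ.measurable_lak {ψ : ℂ → ℂ} (hψ : Univ ψ) (ξ : ℂ) (R₁ R₂ : ℝ) :
    Measurable (lak ψ ξ R₁ R₂) := by
  have h1 : Measurable fun z => ‖ψ z - ξ‖ := (hψ.meas.sub_const ξ).norm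
  exact ((measurable_deriv ψ).enorm.mul (hψ.meas.sub_const ξ).enorm.inv).indicator
    ((measurableSet_le measurable_const h1).inter (measurableSet_le h1 measurable_const))

theorem Univ.area_log {ψ : ℂ → ℂ} (hψ : Univ ψ) (ξ : ℂ) {R₁ R₂ : ℝ} (h₁ : 0 < R₁)
    (h₂ : R₁ ≤ R₂) :
    ∫⁻ z in ball (0 : ℂ) 1, lak ψ ξ R₁ R₂ z ^ 2 ≤
      ENNReal.ofReal (2 * π * Real.log (R₂ / R₁)) := by
  set G : ℝ → ℝ≥0∞ := (Icc R₁ R₂).indicator fun r => (ENNReal.ofReal r)⁻¹ ^ 2 with hG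
  have hGm : Measurable G :=
    (measurable_id.ennreal_ofReal.inv.pow_const 2).indicator measurableSet_Icc
  have e1 : ∀ z, lak ψ ξ R₁ R₂ z ^ 2 = ‖deriv ψ z‖ₑ ^ 2 * G ‖ψ z - ξ‖ := by
    intro z
    by_cases hz : R₁ ≤ ‖ψ z - ξ‖ ∧ ‖ψ z - ξ‖ ≤ R₂
    · rw [lak, hG, indicator_of_mem (by exact hz), indicator_of_mem (by exact hz), mul_pow,
        ofReal_norm]
    · rw [lak, hG, indicator_of_notMem (by exact hz), indicator_of_notMem (by exact hz)]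
      simp
  simp_rw [e1]
  rw [← hψ.lintegral_image fun w => G ‖w - ξ‖]
  refine (setLIntegral_le_lintegral _ _).trans (le_of_eq ?_)
  rw [lintegral_sub_right_eq_self (fun w : ℂ => G ‖w‖) ξ,
    lintegral_polar' (F := fun w : ℂ => G ‖w‖) (hGm.comp measurable_norm)]
  have e2 : ∀ r ∈ Ioi (0 : ℝ), ENNReal.ofReal r * ∫⁻ θ, G ‖circleMap 0 r θ‖ ∂arc =
      (Icc R₁ R₂).indicator (fun r => ENNReal.ofReal (2 * π * r⁻¹)) r := by
    intro r hr
    have hr' : 0 < r := hr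
    simp only [norm_circleMap_zero, abs_of_pos hr', lintegral_const, arc_univ]
    by_cases h : r ∈ Icc R₁ R₂
    · rw [hG, indicator_of_mem h, indicator_of_mem h, ← ENNReal.ofReal_inv_of_pos hr',
        ← ENNReal.ofReal_pow (by positivity), ← ENNReal.ofReal_mul (by positivity),
        ← ENNReal.ofReal_mul hr'.le]
      congr 1
      field_simp
    · rw [hG, indicator_of_notMem h, indicator_of_notMem h]
      simp
  have hci : ContinuousOn (fun r : ℝ => 2 * π * r⁻¹) (Icc R₁ R₂) :=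
    continuousOn_const.mul (continuousOn_inv₀.mono fun r hr => (h₁.trans_le hr.1).ne')
  have hss : Icc R₁ R₂ ⊆ Ioi 0 := fun r hr => h₁.trans_le hr.1
  rw [setLIntegral_congr_fun measurableSet_Ioi e2, lintegral_indicator measurableSet_Icc,
    Measure.restrict_restrict measurableSet_Icc,
    inter_eq_left.mpr hss,
    ← ofReal_integral_eq_lintegral_ofReal (hci.integrableOn_Icc) (by
      filter_upwards [ae_restrict_mem measurableSet_Icc] with r hr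
      have := h₁.trans_le hr.1
      positivity), integral_Icc_eq_integral_Ioc, ← intervalIntegral.integral_of_le h₂,
    intervalIntegral.integral_const_mul, integral_inv_of_pos h₁ (h₁.trans_le h₂)]

theorem Univ.measurable_radE {ψ : ℂ → ℂ} (hψ : Univ ψ) (ξ : ℂ) (R₁ R₂ : ℝ) :
    Measurable (radE ψ ξ R₁ R₂) :=
  Measurable.lintegral_prod_left' (f := fun p : ℝ × ℝ => lak ψ ξ R₁ R₂ (circleMap 0 p.1 p.2) ^ 2)
    (((hψ.measurable_lak ξ R₁ R₂).comp measurable_circleMap_pair).pow_const 2)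

theorem Univ.lintegral_radE_le {ψ : ℂ → ℂ} (hψ : Univ ψ) (ξ : ℂ) {R₁ R₂ : ℝ} (h₁ : 0 < R₁)
    (h₂ : R₁ ≤ R₂) :
    ∫⁻ θ, radE ψ ξ R₁ R₂ θ ∂arc ≤ ENNReal.ofReal (4 * π * Real.log (R₂ / R₁)) := by
  have h := hψ.area_log ξ h₁ h₂
  have hm := (hψ.measurable_lak ξ R₁ R₂).pow_const 2
  rw [← lintegral_indicator measurableSet_ball,
    lintegral_polar (hm.indicator measurableSet_ball)] at h
  have e : ENNReal.ofReal (4 * π * Real.log (R₂ / R₁)) =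
      2 * ENNReal.ofReal (2 * π * Real.log (R₂ / R₁)) := by
    rw [← ENNReal.ofReal_ofNat 2, ← ENNReal.ofReal_mul zero_le_two]
    congr 1
    ring
  rw [e]
  refine le_trans ?_ (mul_le_mul_right h 2)
  rw [← lintegral_const_mul' _ _ (by simp)]
  refine lintegral_mono fun θ => ?_
  rw [← lintegral_const_mul' _ _ (by simp), radE]
  refine le_trans (setLIntegral_mono' measurableSet_Ioo fun s hs => ?_)
    (lintegral_mono_set (fun s hs => lt_trans (by norm_num) hs.1 : Ioo (1 / 2 : ℝ) 1 ⊆ Ioi 0))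
  rw [indicator_of_mem (circleMap_mem_ball (by rw [abs_of_pos (by linarith [hs.1])]; exact hs.2) θ),
    ← mul_assoc]
  refine le_mul_of_one_le_left' ?_
  rw [← ENNReal.ofReal_ofNat 2, ← ENNReal.ofReal_mul zero_le_two]
  exact ENNReal.one_le_ofReal.mpr (by linarith [hs.1])

theorem Univ.radE_cross {ψ : ℂ → ℂ} (hψ : Univ ψ) (ξ : ℂ) {R₁ R₂ : ℝ} (h₁ : 0 < R₁)
    (h₂ : R₁ ≤ R₂) {θ s₁ s₂ : ℝ} (hs₁ : s₁ ∈ Ico (1 / 2 : ℝ) 1) (hs₂ : s₂ ∈ Ico (1 / 2 : ℝ) 1)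
    (e₁ : ‖ψ (circleMap 0 s₁ θ) - ξ‖ ≤ R₁) (e₂ : R₂ ≤ ‖ψ (circleMap 0 s₂ θ) - ξ‖) :
    ENNReal.ofReal (Real.log (R₂ / R₁)) ^ 2 ≤
      volume {s ∈ Ioo (1 / 2 : ℝ) 1 | ‖ψ (circleMap 0 s θ) - ξ‖ ≤ R₂} * radE ψ ξ R₁ R₂ θ := by
  have hb : max s₁ s₂ < 1 := max_lt hs₁.2 hs₂.2
  have hcm : Measurable fun s : ℝ => circleMap 0 s θ :=
    measurable_circleMap_pair.comp (measurable_id.prodMk measurable_const)
  have h := cross_le (γ := fun s => ψ (circleMap 0 s θ))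
    (γ' := fun s => deriv ψ (circleMap 0 s θ) * circleMap 0 1 θ) (ξ := ξ) (a := 1 / 2)
    (b := max s₁ s₂) (fun s hs => by
      have hm : circleMap 0 s θ ∈ ball (0 : ℂ) 1 :=
        circleMap_mem_ball (by rw [abs_of_pos (by linarith [hs.1])]; linarith [hs.2]) θ
      have h1 : HasDerivAt (fun s : ℝ => circleMap 0 s θ) (circleMap 0 1 θ) s := by
        simpa [circleMap] using (Complex.ofRealCLM.hasDerivAt (x := s)).mul_const
          (Complex.exp (θ * Complex.I))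
      exact (hψ.diff.differentiableAt (isOpen_ball.mem_nhds hm)).hasDerivAt.comp_of_eq s h1 rfl)
    h₁ h₂ ⟨hs₁.1, le_max_left _ _⟩ ⟨hs₂.1, le_max_right _ _⟩ e₁ e₂
  set T := {s ∈ Ioo (1 / 2 : ℝ) 1 | ‖ψ (circleMap 0 s θ) - ξ‖ ≤ R₂} with hT
  have hn : Measurable fun s : ℝ => ‖ψ (circleMap 0 s θ) - ξ‖ :=
    ((hψ.meas.comp hcm).sub_const ξ).norm
  have hl : Measurable fun s : ℝ => lak ψ ξ R₁ R₂ (circleMap 0 s θ) :=
    (hψ.measurable_lak ξ R₁ R₂).comp hcm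
  have h2 : ENNReal.ofReal (Real.log (R₂ / R₁)) ≤ ∫⁻ s in T, lak ψ ξ R₁ R₂ (circleMap 0 s θ) := by
    refine h.trans ((setLIntegral_mono' (measurableSet_Icc.inter
      ((measurableSet_le measurable_const hn).inter (measurableSet_le hn measurable_const)))
      fun s hs => le_of_eq ?_).trans (lintegral_mono_set' ?_))
    · rw [lak, indicator_of_mem (by exact hs.2), enorm_mul, ← ofReal_norm (circleMap 0 1 θ)]
      simp
    · filter_upwards [Measure.ae_ne volume (1 / 2 : ℝ)] with s hs hs'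
      exact ⟨⟨lt_of_le_of_ne hs'.1.1 (Ne.symm hs), hs'.1.2.trans_lt hb⟩, hs'.2.2⟩
  refine (pow_le_pow_left' h2 2).trans ((sq_lintegral_le _ hl.aemeasurable).trans ?_)
  rw [Measure.restrict_apply_univ]
  exact mul_le_mul_right (lintegral_mono_set fun s hs => hs.1) _

theorem exists_angle {z : ℂ} {s : ℝ} (hz : z ∈ sphere (0 : ℂ) s) :
    ∃ θ ∈ Icc 0 (2 * π), circleMap 0 s θ = z := by
  have hs : 0 ≤ s := by
    rw [← mem_sphere_zero_iff_norm.mp hz]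
    exact norm_nonneg z
  rw [← abs_of_nonneg hs, ← image_circleMap_Ioc] at hz
  obtain ⟨θ, hθ, e⟩ := hz
  exact ⟨θ, Ioc_subset_Icc_self hθ, e⟩

/-- Distortion of the distance to an omitted value. -/
theorem exists_osc : ∃ K : ℝ, 1 ≤ K ∧ ∀ (f : ℂ → ℂ) (ξ : ℂ), Univ f → ξ ∉ f '' ball 0 1 →
    ∀ y₁ ∈ closedBall (0 : ℂ) (1 / 2), ∀ y₂ ∈ closedBall (0 : ℂ) (1 / 2),
      ‖f y₂ - ξ‖ ≤ K * ‖f y₁ - ξ‖ := by
  refine ⟨Real.exp (16 * π ^ 2), Real.one_le_exp (by positivity), ?_⟩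
  intro f ξ hf hξ y₁ hy₁ y₂ hy₂
  have hne : ∀ z ∈ ball (0 : ℂ) 1, f z - ξ ≠ 0 := fun z hz e => hξ ⟨z, hz, sub_eq_zero.mp e⟩
  have hsub : closedBall (0 : ℂ) (1 / 2) ⊆ ball 0 1 := closedBall_subset_ball (by norm_num)
  set R₁ := ‖f y₁ - ξ‖ with hR₁
  set R₂ := ‖f y₂ - ξ‖ with hR₂
  have h₁ : 0 < R₁ := norm_pos_iff.mpr (hne _ (hsub hy₁))
  rcases le_total R₂ R₁ with h₂ | h₂
  · exact h₂.trans (le_mul_of_one_le_left h₁.le (Real.one_le_exp (by positivity)))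
  have hL0 : 0 ≤ Real.log (R₂ / R₁) := Real.log_nonneg ((one_le_div h₁).mpr h₂)
  have key : ∀ s ∈ Ioo (1 / 2 : ℝ) 1, ENNReal.ofReal (Real.log (R₂ / R₁)) ^ 2 ≤
      ENNReal.ofReal (2 * π) * ∫⁻ θ, lak f ξ R₁ R₂ (circleMap 0 s θ) ^ 2 ∂arc := by
    intro s hs
    have hs0 : 0 < s := by linarith [hs.1]
    have hcl : closure (ball (0 : ℂ) s) ⊆ ball 0 1 := by
      rw [closure_ball _ hs0.ne']
      exact closedBall_subset_ball hs.2
    have hin : closedBall (0 : ℂ) (1 / 2) ⊆ closure (ball (0 : ℂ) s) :=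
      (closedBall_subset_ball hs.1).trans subset_closure
    have hd : DifferentiableOn ℂ (fun z => f z - ξ) (closure (ball (0 : ℂ) s)) :=
      (hf.diff.sub_const ξ).mono hcl
    obtain ⟨z₂, hz₂, hmax₂⟩ := Complex.exists_mem_frontier_isMaxOn_norm isBounded_ball
      (nonempty_ball.mpr hs0) hd.diffContOnCl
    obtain ⟨z₁, hz₁, hmax₁⟩ := Complex.exists_mem_frontier_isMaxOn_norm isBounded_ball
      (nonempty_ball.mpr hs0) (hd.inv fun z hz => hne z (hcl hz)).diffContOnCl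
    have hz₁' := hcl (frontier_subset_closure hz₁)
    rw [frontier_ball _ hs0.ne'] at hz₁ hz₂
    obtain ⟨θ₁, hθ₁, rfl⟩ := exists_angle hz₁
    obtain ⟨θ₂, hθ₂, rfl⟩ := exists_angle hz₂
    have e₂ : R₂ ≤ ‖f (circleMap 0 s θ₂) - ξ‖ := hmax₂ (hin hy₂)
    have e₁ : ‖f (circleMap 0 s θ₁) - ξ‖ ≤ R₁ := by
      have h3 : ‖(f y₁ - ξ)⁻¹‖ ≤ ‖(f (circleMap 0 s θ₁) - ξ)⁻¹‖ := hmax₁ (hin hy₁)
      rwa [norm_inv, norm_inv, inv_le_inv₀ h₁ (norm_pos_iff.mpr (hne _ hz₁'))] at h3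
    have hm : ∀ θ, circleMap 0 s θ ∈ ball (0 : ℂ) 1 := fun θ =>
      circleMap_mem_ball (by rw [abs_of_pos hs0]; exact hs.2) θ
    have h := cross_le (γ := fun θ => f (circleMap 0 s θ))
      (γ' := fun θ => deriv f (circleMap 0 s θ) * (circleMap 0 s θ * Complex.I)) (ξ := ξ)
      (fun θ _ => (hf.diff.differentiableAt
        (isOpen_ball.mem_nhds (hm θ))).hasDerivAt.comp_of_eq θ (hasDerivAt_circleMap 0 s θ) rfl)
      h₁ h₂ hθ₁ hθ₂ e₁ e₂
    have hcm : Measurable (circleMap 0 s) := (continuous_circleMap 0 s).measurable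
    have hn : Measurable fun θ : ℝ => ‖f (circleMap 0 s θ) - ξ‖ :=
      ((hf.meas.comp hcm).sub_const ξ).norm
    have hl : Measurable fun θ : ℝ => lak f ξ R₁ R₂ (circleMap 0 s θ) :=
      (hf.measurable_lak ξ R₁ R₂).comp hcm
    have h2 : ENNReal.ofReal (Real.log (R₂ / R₁)) ≤
        ∫⁻ θ, lak f ξ R₁ R₂ (circleMap 0 s θ) ∂arc := by
      rw [arc, restrict_Ioc_eq_restrict_Icc]
      refine h.trans ((setLIntegral_mono' (measurableSet_Icc.inter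
        ((measurableSet_le measurable_const hn).inter (measurableSet_le hn measurable_const)))
        fun θ hθ => ?_).trans (lintegral_mono_set inter_subset_left))
      rw [lak, indicator_of_mem (by exact hθ.2), enorm_mul]
      refine mul_le_mul_left (mul_le_of_le_one_right' ?_) _
      rw [← ofReal_norm]
      simpa [abs_of_pos hs0] using hs.2.le
    rw [← arc_univ]
    exact (pow_le_pow_left' h2 2).trans (sq_lintegral_le _ hl.aemeasurable)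
  have h3 := setLIntegral_mono' (μ := volume) measurableSet_Ioo key
  rw [setLIntegral_const, lintegral_const_mul' _ _ ENNReal.ofReal_ne_top,
    lintegral_lintegral_swap (((hf.measurable_lak ξ R₁ R₂).comp
      measurable_circleMap_pair).pow_const 2).aemeasurable] at h3
  have h4 := h3.trans (mul_le_mul_right (hf.lintegral_radE_le ξ h₁ h₂) _)
  rw [Real.volume_Ioo, ← ENNReal.ofReal_pow hL0, ← ENNReal.ofReal_mul (by positivity),
    ← ENNReal.ofReal_mul (by positivity), ENNReal.ofReal_le_ofReal_iff (by positivity)] at h4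
  have h5 : Real.log (R₂ / R₁) ≤ 16 * π ^ 2 := by
    rcases hL0.eq_or_lt with h0 | h0
    · rw [← h0]
      positivity
    · nlinarith
  rwa [Real.log_le_iff_le_exp (div_pos (h₁.trans_le h₂) h₁), div_le_iff₀ h₁] at h5

theorem Univ.affine {ψ : ℂ → ℂ} (hψ : Univ ψ) {y : ℂ} (hy : y ∈ ball (0 : ℂ) 1) :
    MapsTo (fun w : ℂ => y + ((1 - ‖y‖ : ℝ) : ℂ) * w) (ball 0 1) (ball y (1 - ‖y‖)) ∧
    ball y (1 - ‖y‖) ⊆ ball 0 1 ∧ Univ fun w => ψ (y + ((1 - ‖y‖ : ℝ) : ℂ) * w) := by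
  have hr : 0 < 1 - ‖y‖ := by linarith [mem_ball_zero_iff.mp hy]
  have h1 : MapsTo (fun w : ℂ => y + ((1 - ‖y‖ : ℝ) : ℂ) * w) (ball 0 1) (ball y (1 - ‖y‖)) := by
    intro w hw
    rw [mem_ball, dist_eq_norm, add_sub_cancel_left, norm_mul, Complex.norm_real,
      Real.norm_eq_abs, abs_of_pos hr]
    exact mul_lt_of_lt_one_right hr (mem_ball_zero_iff.mp hw)
  have h2 : ball y (1 - ‖y‖) ⊆ ball 0 1 := ball_subset_ball' (by simp)
  refine ⟨h1, h2, hψ.diff.comp (by fun_prop) (h1.mono_right h2), fun w hw w' hw' e => ?_,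
    hψ.meas.comp (by fun_prop)⟩
  have h3 := hψ.inj (h2 (h1 hw)) (h2 (h1 hw')) e
  simp only [add_right_inj] at h3
  exact mul_left_cancel₀ (Complex.ofReal_ne_zero.mpr hr.ne') h3

theorem exists_osc_local : ∃ K : ℝ, 1 ≤ K ∧ ∀ (ψ : ℂ → ℂ) (ξ : ℂ), Univ ψ →
    ∀ y ∈ ball (0 : ℂ) 1, ξ ∉ ψ '' ball y (1 - ‖y‖) →
      ∀ w ∈ closedBall y ((1 - ‖y‖) / 2), ‖ψ w - ξ‖ ≤ K * ‖ψ y - ξ‖ := by
  obtain ⟨K, hK, h⟩ := exists_osc
  refine ⟨K, hK, fun ψ ξ hψ y hy hξ w hw => ?_⟩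
  have hr : 0 < 1 - ‖y‖ := by linarith [mem_ball_zero_iff.mp hy]
  have hr' : ((1 - ‖y‖ : ℝ) : ℂ) ≠ 0 := Complex.ofReal_ne_zero.mpr hr.ne'
  obtain ⟨h1, _, h3⟩ := hψ.affine hy
  have h4 := h _ ξ h3 (fun ⟨v, hv, e⟩ => hξ ⟨_, h1 hv, e⟩) 0 (by simp)
    ((w - y) / ((1 - ‖y‖ : ℝ) : ℂ)) (by
      rw [mem_closedBall_zero_iff, norm_div, Complex.norm_real, Real.norm_eq_abs, abs_of_pos hr,
        div_le_iff₀ hr]
      rw [mem_closedBall, dist_eq_norm] at hw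
      linarith)
  rwa [mul_div_cancel₀ _ hr', add_sub_cancel, mul_zero, add_zero] at h4

theorem Univ.diffContOnCl_half {ψ : ℂ → ℂ} (hψ : Univ ψ) {y : ℂ} (hy : y ∈ ball (0 : ℂ) 1)
    (ξ : ℂ) : DiffContOnCl ℂ (fun w => ψ w - ξ) (ball y ((1 - ‖y‖) / 2)) := by
  have hr : 0 < 1 - ‖y‖ := by linarith [mem_ball_zero_iff.mp hy]
  refine DifferentiableOn.diffContOnCl ((hψ.diff.sub_const ξ).mono ?_)
  rw [closure_ball _ (half_pos hr).ne']
  exact (closedBall_subset_ball (half_lt_self hr)).trans (hψ.affine hy).2.1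

/-- Koebe theorem with a crude constant. -/
theorem exists_koebe : ∃ K : ℝ, 0 < K ∧ ∀ (ψ : ℂ → ℂ) (ξ : ℂ), Univ ψ → ξ ∉ ψ '' ball 0 1 →
    ∀ y ∈ ball (0 : ℂ) 1, (1 - ‖y‖) * ‖deriv ψ y‖ ≤ K * ‖ψ y - ξ‖ := by
  obtain ⟨K, hK, h⟩ := exists_osc_local
  refine ⟨2 * K, by linarith, fun ψ ξ hψ hξ y hy => ?_⟩
  have hr : 0 < 1 - ‖y‖ := by linarith [mem_ball_zero_iff.mp hy]
  have h1 := Complex.norm_deriv_le_of_forall_mem_sphere_norm_le (half_pos hr)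
    (hψ.diffContOnCl_half hy ξ) fun w hw => h ψ ξ hψ y hy
      (fun hm => hξ (image_mono (hψ.affine hy).2.1 hm)) w (sphere_subset_closedBall hw)
  rw [deriv_sub_const, le_div_iff₀ (half_pos hr)] at h1
  linarith

/-- The logarithm of the derivative of a conformal map is a Bloch function. -/
theorem Conf.exists_bloch {Ω : Set ℂ} {φ ψ : ℂ → ℂ} (h : Conf Ω φ ψ) :
    ∃ (b : ℂ → ℂ) (B : ℝ), Bloch b B ∧ ∀ z ∈ ball (0 : ℂ) 1, Complex.exp (b z) = deriv ψ z := by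
  obtain ⟨K, hK, hosc⟩ := exists_osc_local
  have hd1 : DifferentiableOn ℂ (deriv ψ) (ball 0 1) := h.dψ.deriv isOpen_ball
  have hd2 : DifferentiableOn ℂ (deriv (deriv ψ)) (ball 0 1) := hd1.deriv isOpen_ball
  have hbound : ∀ y ∈ ball (0 : ℂ) 1,
      ‖deriv (deriv ψ) y / deriv ψ y‖ ≤ 16 * K / (1 - ‖y‖) := by
    intro y hy
    have hr : 0 < 1 - ‖y‖ := by linarith [mem_ball_zero_iff.mp hy]
    have hp : 0 < ‖deriv ψ y‖ := norm_pos_iff.mpr (h.deriv_ne hy)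
    have hsub := (h.univ.affine hy).2.1
    obtain ⟨ξ, hξ1, hξ2⟩ : ∃ ξ ∈ ball (ψ y) (2 * (1 - ‖y‖) * ‖deriv ψ y‖),
        ξ ∉ ψ '' ball y (1 - ‖y‖) := by
      by_contra hn
      push Not at hn
      have h1 := Complex.norm_deriv_le_div_of_mapsTo_ball (f := φ) (c := ψ y)
        (R₁ := 2 * (1 - ‖y‖) * ‖deriv ψ y‖) (R₂ := 1 - ‖y‖)
        (h.dφ.mono fun w hw => by
          obtain ⟨v, hv, rfl⟩ := hn w hw
          exact h.mψ (hsub hv))
        (fun w hw => by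
          obtain ⟨v, hv, rfl⟩ := hn w hw
          rw [h.right v (hsub hv), h.right y hy]
          exact ball_subset_closedBall hv) (by positivity)
      have h2 := congrArg norm (h.deriv_mul hy)
      rw [norm_mul, norm_one] at h2
      rw [le_div_iff₀ (by positivity)] at h1
      nlinarith
    have h3 := Complex.norm_iteratedDeriv_le_of_forall_mem_sphere_norm_le 2 (half_pos hr)
      (h.univ.diffContOnCl_half hy ξ) fun w hw =>
        hosc ψ ξ h.univ y hy hξ2 w (sphere_subset_closedBall hw)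
    have e : iteratedDeriv 2 (fun w => ψ w - ξ) y = deriv (deriv ψ) y := by
      have : deriv (fun w => ψ w - ξ) = deriv ψ := funext fun w => deriv_sub_const ξ
      rw [iteratedDeriv_succ, iteratedDeriv_one, this]
    rw [e, le_div_iff₀ (by positivity)] at h3
    rw [mem_ball, dist_comm, dist_eq_norm] at hξ1
    rw [norm_div, div_le_div_iff₀ hp hr]
    have h4 := mul_le_mul_of_nonneg_left hξ1.le (by linarith : 0 ≤ K)
    norm_num [Nat.factorial] at h3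
    have h5 : (1 - ‖y‖) * (‖deriv (deriv ψ) y‖ * (1 - ‖y‖)) ≤
        (1 - ‖y‖) * (16 * K * ‖deriv ψ y‖) := by nlinarith
    exact le_of_mul_le_mul_left h5 hr
  obtain ⟨b₀, hb₀⟩ := (hd2.div hd1 fun y hy => h.deriv_ne hy).isExactOn_ball
  have h0 : (0 : ℂ) ∈ ball (0 : ℂ) 1 := mem_ball_self one_pos
  have hb : ∀ y ∈ ball (0 : ℂ) 1, HasDerivAt (fun z => b₀ z + (Complex.log (deriv ψ 0) - b₀ 0))
      (deriv (deriv ψ) y / deriv ψ y) y := fun y hy => (hb₀ y hy).add_const _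
  refine ⟨fun z => b₀ z + (Complex.log (deriv ψ 0) - b₀ 0), 16 * K,
    ⟨fun y hy => (hb y hy).differentiableAt.differentiableWithinAt, fun y hy => ?_⟩, fun y hy => ?_⟩
  · rw [(hb y hy).deriv]
    exact hbound y hy
  · have hq : ∀ z ∈ ball (0 : ℂ) 1, HasDerivAt (fun z => deriv ψ z *
        Complex.exp (-(b₀ z + (Complex.log (deriv ψ 0) - b₀ 0)))) 0 z := by
      intro z hz
      have h1 := ((hd1.differentiableAt (isOpen_ball.mem_nhds hz)).hasDerivAt).fun_mul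
        (hb z hz).fun_neg.cexp
      refine h1.congr_deriv ?_
      have := h.deriv_ne hz
      field_simp
      ring
    have h2 := isOpen_ball.is_const_of_deriv_eq_zero (convex_ball (0 : ℂ) 1).isPreconnected
      (fun z hz => (hq z hz).differentiableAt.differentiableWithinAt)
      (fun z hz => (hq z hz).deriv) hy h0
    simp only [add_sub_cancel, Complex.exp_neg, Complex.exp_log (h.deriv_ne h0),
      mul_inv_cancel₀ (h.deriv_ne h0)] at h2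
    exact ((mul_inv_eq_one₀ (Complex.exp_ne_zero _)).mp h2).symm

end Pool.Agent.Lib.MP_3a6b94_an
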