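import Pool.Agent.Lib.MP_3a6b94_an.Hardy

open MeasureTheory Set Metric Filter Topology
open scoped ENNReal NNReal Real

namespace Pool.Agent.Lib.MP_3a6b94_an

theorem integrable_arc_circle {G : ℂ → ℝ} (hG : ContinuousOn G (ball 0 1)) {s : ℝ}
    (hs : |s| < 1) : Integrable (fun θ => G (circleMap 0 s θ)) arc :=
  (hG.comp_continuous (continuous_circleMap 0 s) (circleMap_mem_ball hs)).integrableOn_Ioc

theorem Bloch.nonneg {b : ℂ → ℂ} {B : ℝ} (hb : Bloch b B) : 0 ≤ B := by
  have := (norm_nonneg _).trans (hb.bound 0 (mem_ball_self one_pos))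
  simpa using this

theorem Bloch.moment_aux {b : ℂ → ℂ} {B : ℝ} (hb : Bloch b B) (k : ℕ) :
    ∃ C : ℝ, 0 ≤ C ∧ ∀ r ∈ Ico (0 : ℝ) 1,
      ∫ θ, ‖b (circleMap 0 r θ)‖ ^ (2 * k) ∂arc ≤ C * (1 - Real.log (1 - r)) ^ k := by
  induction k with
  | zero =>
    refine ⟨2 * π, by positivity, fun r _ => ?_⟩
    simp [Measure.real, arc_univ, ENNReal.toReal_ofReal Real.pi_pos.le]
  | succ k ih =>
    obtain ⟨C, hC, ih⟩ := ih
    have hB := hb.nonneg
    refine ⟨2 * π * ‖b 0 ^ (k + 1)‖ ^ 2 + 4 * ((k + 1) ^ 2 * B ^ 2 * C), by positivity,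
      fun r hr => ?_⟩
    have hL : ∀ s ∈ Ico (0 : ℝ) 1, 0 ≤ -Real.log (1 - s) := fun s hs =>
      neg_nonneg.mpr (Real.log_nonpos (by linarith [hs.2]) (by linarith [hs.1]))
    have h1 := mean_sq_le (F := fun z => b z ^ (k + 1)) (hb.diff.pow _)
      (A := (k + 1) ^ 2 * B ^ 2 * C * (1 - Real.log (1 - r)) ^ k) hr.1 hr.2 fun s hs => by
        have hs1 : s ∈ Ico (0 : ℝ) 1 := ⟨hs.1, hs.2.trans_lt hr.2⟩
        have hs2 : |s| < 1 := by rw [abs_of_nonneg hs.1]; exact hs1.2
        have hp : 0 < 1 - s := by linarith [hs1.2]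
        have a1 : ∀ θ, ‖deriv (fun z => b z ^ (k + 1)) (circleMap 0 s θ)‖ ^ 2
            ≤ (k + 1) ^ 2 * B ^ 2 / (1 - s) ^ 2 * ‖b (circleMap 0 s θ)‖ ^ (2 * k) := by
          intro θ
          have hm := circleMap_mem_ball hs2 θ
          have hd := (hb.diff.differentiableAt (isOpen_ball.mem_nhds hm)).hasDerivAt.fun_pow (k + 1)
          have hb' := hb.bound _ hm
          rw [norm_circleMap_zero, abs_of_nonneg hs.1] at hb'
          rw [hd.deriv, norm_mul, norm_mul, norm_pow, Complex.norm_natCast, Nat.add_sub_cancel]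
          calc _ ≤ (((k + 1 : ℕ) : ℝ) * ‖b (circleMap 0 s θ)‖ ^ k * (B / (1 - s))) ^ 2 := by gcongr
            _ = _ := by push_cast; field_simp; ring
        have a2 := integral_mono_of_nonneg (μ := arc) (Eventually.of_forall fun θ => by positivity)
          ((integrable_arc_circle (G := fun z => ‖b z‖ ^ (2 * k))
            (hb.diff.continuousOn.norm.pow _) hs2).const_mul _) (Eventually.of_forall a1)
        rw [integral_const_mul] at a2
        have a3 : (1 - Real.log (1 - s)) ^ k ≤ (1 - Real.log (1 - r)) ^ k := by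
          have := hL s hs1
          have := Real.log_le_log (by linarith [hr.2] : 0 < 1 - r) (by linarith [hs.2] : 1 - r ≤ 1 - s)
          exact pow_le_pow_left₀ (by linarith) (by linarith) _
        calc _ ≤ _ := a2
          _ ≤ (k + 1) ^ 2 * B ^ 2 / (1 - s) ^ 2 * (C * (1 - Real.log (1 - r)) ^ k) :=
            mul_le_mul_of_nonneg_left ((ih s hs1).trans (mul_le_mul_of_nonneg_left a3 hC))
              (by positivity)
          _ = _ := by ring
    have e : ∀ θ, ‖b (circleMap 0 r θ) ^ (k + 1)‖ ^ 2 = ‖b (circleMap 0 r θ)‖ ^ (2 * (k + 1)) :=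
      fun θ => by rw [norm_pow]; ring
    simp only [e] at h1
    refine h1.trans ?_
    have a1 := hL r hr
    have a2 : 1 ≤ (1 - Real.log (1 - r)) ^ (k + 1) := one_le_pow₀ (by linarith)
    have a3 : (1 - Real.log (1 - r)) ^ k * (-Real.log (1 - r))
        ≤ (1 - Real.log (1 - r)) ^ (k + 1) := by
      rw [pow_succ]
      exact mul_le_mul_of_nonneg_left (by linarith) (pow_nonneg (by linarith) _)
    have a4 := mul_le_mul_of_nonneg_left a2 (by positivity : 0 ≤ 2 * π * ‖b 0 ^ (k + 1)‖ ^ 2)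
    have a5 := mul_le_mul_of_nonneg_left a3 (by positivity : 0 ≤ 4 * ((k + 1) ^ 2 * B ^ 2 * C))
    linarith

theorem Bloch.moment {b : ℂ → ℂ} {B : ℝ} (hb : Bloch b B) (k : ℕ) :
    ∃ C : ℝ, ∀ r ∈ Ico (0 : ℝ) 1,
      ∫ θ, ‖b (circleMap 0 r θ)‖ ^ (2 * k) ∂arc ≤ C * (1 - Real.log (1 - r)) ^ k :=
  (hb.moment_aux k).imp fun _ h => h.2

/-- The Herglotz integral of a real function on the unit circle. -/
noncomputable def herg (g : ℂ → ℝ) (w : ℂ) : ℂ :=
  Real.circleAverage (fun ζ => herglotzRieszKernel 0 w ζ • (g ζ : ℂ)) 0 1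

theorem herg_diff {g : ℂ → ℝ} (hg : ContinuousOn g (sphere 0 1)) :
    DifferentiableOn ℂ (herg g) (ball 0 1) :=
  differentiableOn_circleAverage_herglotzRieszKernel_smul (f := fun ζ => (g ζ : ℂ))
    (ContinuousOn.circleIntegrable zero_le_one (Complex.continuous_ofReal.comp_continuousOn hg))

theorem contOn_kernel {w : ℂ} (hw : w ∈ ball (0 : ℂ) 1) :
    ContinuousOn (herglotzRieszKernel 0 w) (sphere 0 1) := by
  simpa using continuousOn_herglotzRieszKernel_sphere hw

theorem re_kernel_nonneg {w z : ℂ} (hw : w ∈ ball (0 : ℂ) 1) (hz : z ∈ sphere (0 : ℂ) 1) :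
    0 ≤ (herglotzRieszKernel 0 w z).re := by
  refine le_trans ?_ (le_re_herglotzRieszKernel hz hw)
  have := mem_ball_zero_iff.mp hw
  simp only [sub_zero]
  exact div_nonneg (by linarith) (by positivity)

theorem herg_re {g : ℂ → ℝ} (hg : ContinuousOn g (sphere 0 1)) {w : ℂ}
    (hw : w ∈ ball (0 : ℂ) 1) :
    (herg g w).re = Real.circleAverage (fun ζ => (herglotzRieszKernel 0 w ζ).re * g ζ) 0 1 :=
  re_circleAverage_herglotzRieszKernel_smul (hg.circleIntegrable zero_le_one) hw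

theorem norm_circleAverage_le {f : ℂ → ℂ} {g : ℂ → ℝ} (hg : ContinuousOn g (sphere 0 1))
    (h : ∀ z ∈ sphere (0 : ℂ) 1, ‖f z‖ ≤ g z) :
    ‖Real.circleAverage f 0 1‖ ≤ Real.circleAverage g 0 1 := by
  rw [circleAverage_eq_arc, circleAverage_eq_arc, norm_smul, smul_eq_mul,
    Real.norm_of_nonneg (by positivity)]
  refine mul_le_mul_of_nonneg_left (norm_integral_le_of_norm_le ?_
    (Eventually.of_forall fun θ => h _ (circleMap_mem_sphere 0 zero_le_one θ))) (by positivity)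
  exact (hg.comp_continuous (continuous_circleMap 0 1)
    (circleMap_mem_sphere 0 zero_le_one)).integrableOn_Ioc

theorem herg_norm_le {g : ℂ → ℝ} (hg : ContinuousOn g (sphere 0 1))
    (h0 : ∀ z ∈ sphere (0 : ℂ) 1, 0 ≤ g z) {w : ℂ} {ρ : ℝ} (hw : ‖w‖ ≤ ρ) (hρ : ρ < 1) :
    ‖herg g w‖ ≤ 2 / (1 - ρ) * Real.circleAverage g 0 1 := by
  have := norm_circleAverage_le (f := fun ζ => herglotzRieszKernel 0 w ζ • (g ζ : ℂ))
    (g := fun ζ => (2 / (1 - ρ)) • g ζ) (hg.const_smul (2 / (1 - ρ))) fun z hz => by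
      have hz' : ‖z‖ = 1 := by simpa using hz
      rw [norm_smul, Complex.norm_real, Real.norm_of_nonneg (h0 z hz), smul_eq_mul]
      refine mul_le_mul_of_nonneg_right ?_ (h0 z hz)
      simp only [herglotzRieszKernel_def, sub_zero, norm_div]
      have a1 := norm_add_le z w
      have a2 := norm_sub_norm_le z w
      exact div_le_div₀ zero_le_two (by linarith) (by linarith) (by linarith)
  rwa [Real.circleAverage_fun_smul] at this

theorem norm_le_herg_re {f : ℂ → ℂ} (hf : DiffContOnCl ℂ f (ball 0 1)) {w : ℂ}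
    (hw : w ∈ ball (0 : ℂ) 1) : ‖f w‖ ≤ (herg (fun z => ‖f z‖) w).re := by
  have hc : ContinuousOn (fun z => ‖f z‖) (sphere 0 1) :=
    (hf.continuousOn_ball.mono sphere_subset_closedBall).norm
  rw [herg_re hc hw, ← hf.circleAverage_re_herglotzRieszKernel_smul hw]
  refine norm_circleAverage_le
    ((Complex.continuous_re.comp_continuousOn (contOn_kernel hw)).mul hc) fun z hz => ?_
  have := re_kernel_nonneg hw hz
  simp [abs_of_nonneg this]

theorem herg_re_le {g : ℂ → ℝ} (hg : ContinuousOn g (sphere 0 1)) :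
    ∃ M : ℝ, ∀ w ∈ ball (0 : ℂ) 1, (herg g w).re ≤ M := by
  obtain ⟨M, hM⟩ := (isCompact_sphere (0 : ℂ) 1).exists_bound_of_continuousOn hg
  refine ⟨M, fun w hw => ?_⟩
  have hk := Complex.continuous_re.comp_continuousOn (contOn_kernel hw)
  have h1 : Real.circleAverage (fun ζ => (herglotzRieszKernel 0 w ζ).re * M) 0 1 = M := by
    have a2 := (diffContOnCl_const (c := (M : ℂ)) (s := ball (0 : ℂ) 1)
      (𝕜 := ℂ)).circleAverage_re_herglotzRieszKernel_smul hw
    have a3 := Complex.reCLM.circleAverage_comp_comm (c := 0) (R := 1)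
      (f := (Complex.re ∘ herglotzRieszKernel 0 w) • fun _ : ℂ => (M : ℂ))
      ((hk.smul continuousOn_const).circleIntegrable zero_le_one)
    rw [a2] at a3
    refine Eq.trans ?_ a3
    congr 1
    funext z
    simp
  rw [herg_re hg hw, ← h1]
  refine Real.circleAverage_mono ((hk.mul hg).circleIntegrable zero_le_one)
    ((hk.mul continuousOn_const).circleIntegrable zero_le_one) fun z hz => ?_
  have hz' : z ∈ sphere (0 : ℂ) 1 := by simpa using hz
  exact mul_le_mul_of_nonneg_left ((le_abs_self _).trans (hM z hz')) (re_kernel_nonneg hw hz')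

theorem sub_le_pow_div {β δ : ℝ} (hβ : 0 ≤ β) (hδ : 0 < δ) : β - δ ≤ β ^ 6 / δ ^ 5 := by
  rcases le_total β δ with h | h
  · exact (sub_nonpos.mpr h).trans (by positivity)
  · rw [le_div_iff₀ (by positivity)]
    calc (β - δ) * δ ^ 5 ≤ β * β ^ 5 := by gcongr; linarith
      _ = β ^ 6 := by ring

theorem Bloch.exists_outer {b : ℂ → ℂ} {B : ℝ} (hb : Bloch b B) {η : ℝ} (hη : 0 < η) :
    ∃ (m : ℂ → ℂ) (u : ℕ → ℂ → ℂ) (C : ℝ), Outer b m u C η := by
  classical
  obtain ⟨C, hC, hmom⟩ := hb.moment_aux 3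
  have hB := hb.nonneg
  have hl2 : 0 < Real.log 2 := Real.log_pos one_lt_two
  set ε : ℝ := η * Real.log 2 / 2 with hε
  have hε0 : 0 < ε := by positivity
  set r : ℕ → ℝ := fun j => 1 - (1 / 2) ^ j with hr
  have hr0 : ∀ j, r j ∈ Ico (0 : ℝ) 1 := fun j =>
    ⟨sub_nonneg.mpr (pow_le_one₀ (by norm_num) (by norm_num)), sub_lt_self _ (by positivity)⟩
  set f : ℕ → ℂ → ℂ := fun j z => b (r j * z) ^ 6 / ((ε * (j + 1) : ℝ) : ℂ) ^ 5 with hf
  have hfn : ∀ j z, ‖f j z‖ = ‖b (r j * z)‖ ^ 6 / (ε * (j + 1)) ^ 5 := fun j z => by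
    rw [hf]
    simp only [norm_div, norm_pow, Complex.norm_real]
    rw [Real.norm_of_nonneg (by positivity)]
  have hfd : ∀ j, DiffContOnCl ℂ (f j) (ball 0 1) := fun j => by
    refine DifferentiableOn.diffContOnCl ?_
    rw [closure_ball _ one_ne_zero]
    refine ((hb.diff.comp (f := fun z => (r j : ℂ) * z) (by fun_prop) fun z hz => ?_).pow
      6).div_const _
    rw [mem_ball_zero_iff, norm_mul, Complex.norm_real, Real.norm_of_nonneg (hr0 j).1]
    exact (mul_le_of_le_one_right (hr0 j).1 (mem_closedBall_zero_iff.mp hz)).trans_lt (hr0 j).2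
  have hfc : ∀ j, ContinuousOn (fun z => ‖f j z‖) (sphere 0 1) := fun j =>
    ((hfd j).continuousOn_ball.mono sphere_subset_closedBall).norm
  have havg : ∀ j : ℕ, Real.circleAverage (fun z => ‖f j z‖) 0 1
      ≤ (2 * π)⁻¹ * C / ε ^ 5 * (1 / ((j : ℝ) + 1) ^ 2) := fun j => by
    have e : ∀ θ, (r j : ℂ) * circleMap 0 1 θ = circleMap 0 (r j) θ := fun θ => by
      simp [circleMap]
    have h1 := hmom (r j) (hr0 j)
    have h2 : 1 - Real.log (1 - r j) = 1 + j * Real.log 2 := by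
      simp [hr]
    have h3 : (1 + j * Real.log 2) ^ 3 ≤ ((j : ℝ) + 1) ^ 3 := by
      have : (j : ℝ) * Real.log 2 ≤ j :=
        mul_le_of_le_one_right (Nat.cast_nonneg j) (by linarith [Real.log_two_lt_d9])
      exact pow_le_pow_left₀ (by positivity) (by linarith) _
    rw [h2] at h1
    simp only [circleAverage_eq_arc, hfn, e, integral_div, smul_eq_mul]
    calc _ ≤ (2 * π)⁻¹ * (C * ((j : ℝ) + 1) ^ 3 / (ε * (j + 1)) ^ 5) := by
          gcongr
          exact h1.trans (mul_le_mul_of_nonneg_left h3 hC)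
      _ = _ := by field_simp
  have hsum0 : Summable fun j : ℕ => (2 * π)⁻¹ * C / ε ^ 5 * (1 / ((j : ℝ) + 1) ^ 2) := by
    have := (summable_nat_add_iff 1).mpr (Real.summable_one_div_nat_pow.mpr one_lt_two)
    exact (by simpa using this : Summable fun j : ℕ => 1 / ((j : ℝ) + 1) ^ 2).mul_left _
  set H : ℕ → ℂ → ℂ := fun j => herg fun z => ‖f j z‖ with hH
  have hHd : ∀ j, DifferentiableOn ℂ (H j) (ball 0 1) := fun j => herg_diff (hfc j)
  have hHn : ∀ j (w : ℂ) (ρ : ℝ), ‖w‖ ≤ ρ → ρ < 1 →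
      ‖H j w‖ ≤ 2 / (1 - ρ) * ((2 * π)⁻¹ * C / ε ^ 5 * (1 / ((j : ℝ) + 1) ^ 2)) :=
    fun j w ρ h1 h2 => (herg_norm_le (hfc j) (fun _ _ => norm_nonneg _) h1 h2).trans
      (mul_le_mul_of_nonneg_left (havg j) (div_nonneg zero_le_two (by linarith)))
  have hHs : ∀ w ∈ ball (0 : ℂ) 1, Summable fun j => H j w := fun w hw =>
    Summable.of_norm_bounded (hsum0.mul_left _) fun j =>
      hHn j w ‖w‖ le_rfl (mem_ball_zero_iff.mp hw)
  have hHre : ∀ j, ∀ w ∈ ball (0 : ℂ) 1, ‖f j w‖ ≤ (H j w).re := fun j w hw =>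
    norm_le_herg_re (hfd j) hw
  have hHre0 : ∀ j, ∀ w ∈ ball (0 : ℂ) 1, 0 ≤ (H j w).re := fun j w hw =>
    (norm_nonneg _).trans (hHre j w hw)
  set S : ℂ → ℂ := fun w => ∑' j, H j w with hS
  have hSd : DifferentiableOn ℂ S (ball 0 1) := by
    intro w hw
    have h1 := mem_ball_zero_iff.mp hw
    have h2 : (1 + ‖w‖) / 2 < 1 := by linarith
    have h3 := Complex.differentiableOn_tsum_of_summable_norm (U := ball (0 : ℂ) ((1 + ‖w‖) / 2))
      (hsum0.mul_left (2 / (1 - (1 + ‖w‖) / 2))) (fun j => (hHd j).mono (ball_subset_ball h2.le))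
      isOpen_ball fun j z hz => hHn j z _ (mem_ball_zero_iff.mp hz).le h2
    exact (h3.differentiableAt (isOpen_ball.mem_nhds
      (mem_ball_zero_iff.mpr (by linarith)))).differentiableWithinAt
  have hSre : ∀ w ∈ ball (0 : ℂ) 1, ∀ s : Finset ℕ, ∑ j ∈ s, (H j w).re ≤ (S w).re := by
    intro w hw s
    exact sum_le_hasSum s (fun j _ => hHre0 j w hw) (Complex.hasSum_re (hHs w hw).hasSum)
  have hmd : DifferentiableOn ℂ (fun w => Complex.exp (-2 * S w)) (ball 0 1) :=
    (hSd.const_mul _).cexp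
  refine ⟨(ball 0 1).piecewise (fun w => Complex.exp (-2 * S w)) 0,
    fun n w => Complex.exp (2 * ∑ j ∈ Finset.range n, H j w), Real.exp (4 * B + η * Real.log 2),
    hmd.congr fun w hw => piecewise_eq_of_mem _ _ _ hw,
    hmd.continuousOn.measurable_piecewise continuousOn_const measurableSet_ball,
    fun w hw => ?_, fun y hy s hs => ?_,
    fun n => ((DifferentiableOn.fun_sum fun j _ => hHd j).const_mul _).cexp, fun n => ?_,
    fun n w hw => ?_, fun w hw => ?_⟩
  · have := hSre w hw ∅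
    rw [piecewise_eq_of_mem _ _ _ hw, Complex.norm_exp, Real.exp_le_one_iff]
    simp at this ⊢
    linarith
  · have hy1 := mem_ball_zero_iff.mp hy
    have hx0 : 0 ≤ s * ‖y‖ := mul_nonneg hs.1 (norm_nonneg _)
    have hx1 : s * ‖y‖ ≤ ‖y‖ := mul_le_of_le_one_left (norm_nonneg _) hs.2
    have hp : 0 < 1 - s * ‖y‖ := by linarith
    obtain ⟨j, hj1, hj2⟩ := exists_nat_pow_near_of_lt_one hp (by linarith)
      (by norm_num : (0 : ℝ) < 1 / 2) (by norm_num)
    have hrj : r j ≤ s * ‖y‖ := by simp only [hr]; linarith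
    have hry : r j * ‖y‖ ≤ s * ‖y‖ := (mul_le_of_le_one_right (hr0 j).1 hy1.le).trans hrj
    have hsub : closedBall (0 : ℂ) (s * ‖y‖) ⊆ ball 0 1 := closedBall_subset_ball (by linarith)
    have n1 : ‖(s : ℂ) * y‖ = s * ‖y‖ := by
      rw [norm_mul, Complex.norm_real, Real.norm_of_nonneg hs.1]
    have n2 : ‖(r j : ℂ) * y‖ = r j * ‖y‖ := by
      rw [norm_mul, Complex.norm_real, Real.norm_of_nonneg (hr0 j).1]
    have h1 := (convex_closedBall (0 : ℂ) (s * ‖y‖)).norm_image_sub_le_of_norm_deriv_le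
      (f := b) (C := B / (1 - s * ‖y‖))
      (fun z hz => hb.diff.differentiableAt (isOpen_ball.mem_nhds (hsub hz)))
      (fun z hz => (hb.bound z (hsub hz)).trans (by
        have := mem_closedBall_zero_iff.mp hz
        gcongr))
      (x := (r j : ℂ) * y) (y := (s : ℂ) * y) (mem_closedBall_zero_iff.mpr (n2.trans_le hry))
      (mem_closedBall_zero_iff.mpr n1.le)
    have h2 : ‖(s : ℂ) * y - (r j : ℂ) * y‖ ≤ 2 * (1 - s * ‖y‖) := by
      have a1 : ‖(s : ℂ) * y - (r j : ℂ) * y‖ = s * ‖y‖ - r j * ‖y‖ := by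
        rw [← sub_mul, ← Complex.ofReal_sub, norm_mul, Complex.norm_real, Real.norm_eq_abs,
          ← abs_of_nonneg (norm_nonneg y), ← abs_mul, abs_of_nonneg (norm_nonneg y), sub_mul,
          abs_of_nonneg (by linarith)]
      have a2 : r j * (s * ‖y‖) ≤ r j * ‖y‖ := mul_le_mul_of_nonneg_left hx1 (hr0 j).1
      have a3 : (1 - r j) * (s * ‖y‖) ≤ 1 - r j :=
        mul_le_of_le_one_right (by linarith [(hr0 j).2]) (by linarith)
      have a4 : 1 - r j = (1 / 2) ^ j := by simp [hr]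
      rw [pow_succ] at hj1
      rw [a1]
      linarith
    have h3 : ‖b (s * y)‖ ≤ ‖b (r j * y)‖ + 2 * B := by
      have a1 := norm_sub_norm_le (b (s * y)) (b (r j * y))
      have a2 : B / (1 - s * ‖y‖) * ‖(s : ℂ) * y - (r j : ℂ) * y‖ ≤ 2 * B := by
        calc _ ≤ B / (1 - s * ‖y‖) * (2 * (1 - s * ‖y‖)) := by gcongr
          _ = _ := by field_simp
      linarith
    have h4 := hSre y hy {j}
    have h5 := hHre j y hy
    have h6 := sub_le_pow_div (norm_nonneg (b (r j * y))) (by positivity : 0 < ε * (j + 1))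
    have h7 : Real.log (1 - s * ‖y‖) ≤ -(j * Real.log 2) := by
      refine (Real.log_le_log hp hj2).trans (le_of_eq ?_)
      simp
    have h8 := mul_le_mul_of_nonneg_left h7 hη.le
    rw [Finset.sum_singleton] at h4
    rw [hfn] at h5
    rw [piecewise_eq_of_mem _ _ _ hy, Complex.norm_exp, Real.rpow_def_of_pos hp, ← Real.exp_add,
      ← Real.exp_add, Real.exp_le_exp]
    have e : (-2 * S y).re = -2 * (S y).re := by simp
    rw [e]
    rw [hε] at h5 h6
    nlinarith
  · choose M hM using fun j => herg_re_le (hfc j)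
    refine ⟨Real.exp (2 * ∑ j ∈ Finset.range n, M j), fun w hw => ?_⟩
    rw [Complex.norm_exp, Real.exp_le_exp]
    have := Finset.sum_le_sum (s := Finset.range n) fun j _ => hM j w hw
    simpa [Complex.re_sum] using this
  · have := hSre w hw (Finset.range n)
    rw [piecewise_eq_of_mem _ _ _ hw, ← Complex.exp_add, Complex.norm_exp, Real.exp_le_one_iff]
    simp [Complex.re_sum]
    linarith
  · have h1 := ((hHs w hw).hasSum.tendsto_sum_nat.const_mul 2).const_add (-2 * S w)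
    have h2 := (Complex.continuous_exp.tendsto _).comp h1
    have e : Complex.exp (-2 * S w + 2 * ∑' j, H j w) = 1 := by simp [hS]
    rw [e] at h2
    refine h2.congr fun n => ?_
    rw [piecewise_eq_of_mem _ _ _ hw, ← Complex.exp_add]
    rfl

end Pool.Agent.Lib.MP_3a6b94_an
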