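import Pool.Agent.Lib.MP_3a6b94_an.LengthArea

open MeasureTheory Set Metric Filter Topology
open scoped ENNReal NNReal Real

namespace Pool.Agent.Lib.MP_3a6b94_an

/-- The disc automorphism sending `0` to `a`. -/
noncomputable def moeb (a z : ℂ) : ℂ := (z + a) / (1 + (starRingEnd ℂ) a * z)

theorem moeb_den_ne {a z : ℂ} (ha : ‖a‖ < 1) (hz : ‖z‖ ≤ 1) :
    1 + (starRingEnd ℂ) a * z ≠ 0 := by
  intro h
  have h1 : (starRingEnd ℂ) a * z = -1 := by linear_combination h
  have h2 := congrArg norm h1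
  rw [norm_mul, Complex.norm_conj, norm_neg, norm_one] at h2
  nlinarith [norm_nonneg a, norm_nonneg z]

theorem moeb_normSq (a z : ℂ) :
    ‖1 + (starRingEnd ℂ) a * z‖ ^ 2 - ‖z + a‖ ^ 2 = (1 - ‖a‖ ^ 2) * (1 - ‖z‖ ^ 2) := by
  simp only [← Complex.normSq_eq_norm_sq, Complex.normSq_apply, Complex.add_re, Complex.add_im,
    Complex.mul_re, Complex.mul_im, Complex.conj_re, Complex.conj_im, Complex.one_re,
    Complex.one_im]
  ring

theorem norm_moeb_le {a z : ℂ} (ha : ‖a‖ < 1) (hz : ‖z‖ ≤ 1) : ‖moeb a z‖ ≤ 1 := by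
  have hd := norm_pos_iff.mpr (moeb_den_ne ha hz)
  rw [moeb, norm_div, div_le_one hd]
  have h := moeb_normSq a z
  have h1 : 0 ≤ (1 - ‖a‖ ^ 2) * (1 - ‖z‖ ^ 2) := by
    apply mul_nonneg <;> nlinarith [norm_nonneg a, norm_nonneg z]
  exact abs_le_of_sq_le_sq' (by linarith) hd.le |>.2

theorem norm_moeb_eq {a z : ℂ} (ha : ‖a‖ < 1) (hz : ‖z‖ = 1) : ‖moeb a z‖ = 1 := by
  have hd := norm_pos_iff.mpr (moeb_den_ne ha hz.le)
  rw [moeb, norm_div, div_eq_one_iff_eq hd.ne']
  have h := moeb_normSq a z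
  rw [hz] at h
  exact (pow_left_inj₀ (norm_nonneg _) hd.le two_ne_zero).mp (by linarith)

theorem moeb_moeb_neg {a z : ℂ} (ha : ‖a‖ < 1) (hz : ‖z‖ ≤ 1) : moeb a (moeb (-a) z) = z := by
  have h1 := moeb_den_ne (a := -a) (by simpa using ha) hz
  have h2 := moeb_den_ne ha (norm_moeb_le (a := -a) (by simpa using ha) hz)
  rw [moeb, div_eq_iff h2]
  have h3 : moeb (-a) z * (1 + (starRingEnd ℂ) (-a) * z) = z + -a := div_mul_cancel₀ _ h1
  apply mul_right_cancel₀ h1
  simp only [map_neg] at h3 ⊢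
  linear_combination (1 - (starRingEnd ℂ) a * z) * h3

theorem moeb_neg_moeb {a z : ℂ} (ha : ‖a‖ < 1) (hz : ‖z‖ ≤ 1) : moeb (-a) (moeb a z) = z := by
  simpa using moeb_moeb_neg (a := -a) (by simpa using ha) hz

theorem moeb_zero (a : ℂ) : moeb a 0 = a := by simp [moeb]

theorem differentiableAt_moeb {a z : ℂ} (ha : ‖a‖ < 1) (hz : ‖z‖ ≤ 1) :
    DifferentiableAt ℂ (moeb a) z := by
  have h := moeb_den_ne ha hz
  unfold moeb
  fun_prop (disch := exact h)

theorem measurable_moeb (a : ℂ) : Measurable (moeb a) := by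
  unfold moeb
  fun_prop

theorem poissonKernel_circle {a z : ℂ} (hz : ‖z‖ = 1) :
    poissonKernel 0 a z = (1 - ‖a‖ ^ 2) / ‖z - a‖ ^ 2 := by
  simp [poissonKernel_def, hz]

/-- The angle function of the disc automorphism. -/
noncomputable def moebArg (a : ℂ) (t : ℝ) : ℝ :=
  t + 2 * (Complex.log (1 - a * Complex.exp (-(t * Complex.I)))).im

theorem moebArg_slit {a : ℂ} (ha : ‖a‖ < 1) (t : ℝ) :
    1 - a * Complex.exp (-(t * Complex.I)) ∈ Complex.slitPlane := by
  have h : ‖-(a * Complex.exp (-(t * Complex.I)))‖ < 1 := by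
    rw [norm_neg, norm_mul, Complex.norm_exp]
    simpa using ha
  simpa [sub_eq_add_neg] using Complex.mem_slitPlane_of_norm_lt_one h

theorem exp_neg_mul_circleMap (t : ℝ) :
    Complex.exp (-(t * Complex.I)) * circleMap 0 1 t = 1 := by
  simp [circleMap, ← Complex.exp_add]

theorem conj_circleMap (t : ℝ) :
    (starRingEnd ℂ) (circleMap 0 1 t) = Complex.exp (-(t * Complex.I)) := by
  simp [circleMap, ← Complex.exp_conj]

theorem circleMap_moebArg {a : ℂ} (ha : ‖a‖ < 1) (t : ℝ) :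
    circleMap 0 1 (moebArg a t) = moeb (-a) (circleMap 0 1 t) := by
  set w := 1 - a * Complex.exp (-(t * Complex.I)) with hw
  have hw0 : w ≠ 0 := Complex.slitPlane_ne_zero (moebArg_slit ha t)
  have hexp : Complex.exp (Complex.log w) = w := Complex.exp_log hw0
  have hconj : Complex.exp ((starRingEnd ℂ) (Complex.log w)) = (starRingEnd ℂ) w := by
    rw [Complex.exp_conj, hexp]
  have hcw : (starRingEnd ℂ) w = 1 + (starRingEnd ℂ) (-a) * circleMap 0 1 t := by
    rw [hw, ← conj_circleMap]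
    simp [sub_eq_add_neg]
  have hne : 1 + (starRingEnd ℂ) (-a) * circleMap 0 1 t ≠ 0 := by
    rw [← hcw]; simpa using hw0
  have h1 : ((moebArg a t : ℝ) : ℂ) * Complex.I =
      t * Complex.I + (Complex.log w - (starRingEnd ℂ) (Complex.log w)) := by
    rw [Complex.sub_conj, moebArg]
    push_cast
    ring
  have h2 : circleMap 0 1 (moebArg a t) = circleMap 0 1 t * (w / (starRingEnd ℂ) w) := by
    simp only [circleMap, zero_add, Complex.ofReal_one, one_mul]
    rw [h1, Complex.exp_add, Complex.exp_sub, hexp, hconj]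
  rw [h2, hcw, moeb, hw, ← mul_div_assoc]
  congr 1
  linear_combination (-a) * exp_neg_mul_circleMap t

theorem hasDerivAt_moebArg {a : ℂ} (ha : ‖a‖ < 1) (t : ℝ) :
    HasDerivAt (moebArg a) (poissonKernel 0 a (circleMap 0 1 t)) t := by
  have h1 : HasDerivAt (fun s : ℂ => 1 - a * Complex.exp (-(s * Complex.I)))
      (-(a * (Complex.exp (-(t * Complex.I)) * (-Complex.I)))) t := by
    have := (((hasDerivAt_id (t : ℂ)).mul_const Complex.I).neg.cexp.const_mul a).const_sub 1
    simpa using this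
  have h2 := (h1.clog (moebArg_slit ha t)).comp_ofReal
  have h3 := Complex.imCLM.hasFDerivAt.comp_hasDerivAt t h2
  have h4 := (hasDerivAt_id t).add (h3.const_mul 2)
  have hne : (1 - a * Complex.exp (-(t * Complex.I))) ≠ 0 :=
    Complex.slitPlane_ne_zero (moebArg_slit ha t)
  have key : poissonKernel 0 a (circleMap 0 1 t) = 1 + 2 * Complex.imCLM
      (-(a * (Complex.exp (-(t * Complex.I)) * (-Complex.I))) /
        (1 - a * Complex.exp (-(t * Complex.I)))) := by
    rw [poissonKernel_eq_re_herglotzRieszKernel, Function.comp_apply, herglotzRieszKernel_def]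
    have e1 : (circleMap 0 1 t - 0 + (a - 0)) / (circleMap 0 1 t - 0 - (a - 0)) =
        1 + 2 * (a * Complex.exp (-(t * Complex.I)) /
          (1 - a * Complex.exp (-(t * Complex.I)))) := by
      have e2 : circleMap 0 1 t - 0 - (a - 0) =
          circleMap 0 1 t * (1 - a * Complex.exp (-(t * Complex.I))) := by
        linear_combination a * exp_neg_mul_circleMap t
      have e3 : circleMap 0 1 t ≠ 0 := circleMap_ne_center one_ne_zero
      rw [e2]
      field_simp
      linear_combination (-a) * exp_neg_mul_circleMap t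
    have e4 : -(a * (Complex.exp (-(t * Complex.I)) * (-Complex.I))) /
        (1 - a * Complex.exp (-(t * Complex.I))) = Complex.I *
          (a * Complex.exp (-(t * Complex.I)) / (1 - a * Complex.exp (-(t * Complex.I)))) := by
      ring
    rw [e1, e4]
    simp
  rw [key]
  exact h4

theorem continuous_poissonKernel_circle {a : ℂ} (ha : ‖a‖ < 1) :
    Continuous fun t => poissonKernel 0 a (circleMap 0 1 t) := by
  simp only [poissonKernel_def]
  refine Continuous.div (by fun_prop) (by fun_prop) fun t => ?_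
  refine pow_ne_zero _ (norm_ne_zero_iff.mpr fun h => ?_)
  have : circleMap 0 1 t = a := by linear_combination h
  have h2 := congrArg norm this
  simp at h2
  linarith

/-- Change of variables on the circle by a Moebius transformation. -/
theorem integral_arc_moebius {G : ℂ → ℝ} (hG : ContinuousOn G (sphere 0 1)) {a : ℂ}
    (ha : a ∈ ball (0 : ℂ) 1) :
    ∫ θ, G ((circleMap 0 1 θ + a) / (1 + (starRingEnd ℂ) a * circleMap 0 1 θ)) ∂arc =
      ∫ θ, poissonKernel 0 a (circleMap 0 1 θ) * G (circleMap 0 1 θ) ∂arc := by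
  have ha' : ‖a‖ < 1 := mem_ball_zero_iff.mp ha
  set F : ℝ → ℝ := fun s => G (moeb a (circleMap 0 1 s)) with hF
  have hFc : Continuous F := by
    refine hG.comp_continuous ?_ fun s => ?_
    · refine continuous_iff_continuousAt.mpr fun s => ?_
      exact (differentiableAt_moeb ha' (by simp)).continuousAt.comp
        (continuous_circleMap 0 1).continuousAt
    · exact mem_sphere_zero_iff_norm.mpr (norm_moeb_eq ha' (by simp))
  have hFp : Function.Periodic F (2 * π) := fun s => by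
    simp only [hF, periodic_circleMap 0 1 s]
  have h1 := intervalIntegral.integral_comp_mul_deriv (a := 0) (b := 2 * π)
    (fun t _ => hasDerivAt_moebArg ha' t) (continuous_poissonKernel_circle ha').continuousOn hFc
  have h2 : moebArg a (2 * π) = moebArg a 0 + 2 * π := by
    have : Complex.exp (-(((2 * π : ℝ) : ℂ) * Complex.I)) = 1 := by
      rw [Complex.exp_neg]; push_cast; rw [Complex.exp_two_pi_mul_I]; simp
    simp only [moebArg, this]
    simp
    ring
  rw [h2, hFp.intervalIntegral_add_eq _ 0, zero_add] at h1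
  rw [integral_arc, integral_arc]
  refine h1.symm.trans (intervalIntegral.integral_congr fun t _ => ?_)
  simp only [Function.comp_apply, hF]
  rw [circleMap_moebArg ha', moeb_moeb_neg ha' (by simp), mul_comm]

theorem integral_poissonKernel_arc {a : ℂ} (ha : a ∈ ball (0 : ℂ) 1) :
    ∫ θ, poissonKernel 0 a (circleMap 0 1 θ) ∂arc = 2 * π := by
  have h := integral_arc_moebius (G := fun _ => (1 : ℝ)) continuousOn_const ha
  simp only [mul_one, integral_const, smul_eq_mul, measureReal_def, arc_univ] at h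
  rw [← h, ENNReal.toReal_ofReal (by positivity)]

theorem poissonKernel_circle_bound {a : ℂ} (ha : ‖a‖ < 1) :
    ∃ M : ℝ, ∀ t, |poissonKernel 0 a (circleMap 0 1 t)| ≤ M := by
  refine ⟨(1 - ‖a‖ ^ 2) / (1 - ‖a‖) ^ 2, fun t => ?_⟩
  have h0 : 0 ≤ 1 - ‖a‖ ^ 2 := by nlinarith [norm_nonneg a]
  rw [poissonKernel_circle (by simp), abs_of_nonneg (by positivity)]
  have h1 : 1 - ‖a‖ ≤ ‖circleMap 0 1 t - a‖ := by
    simpa using norm_sub_norm_le (circleMap 0 1 t) a
  have h2 : 0 < 1 - ‖a‖ := by linarith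
  gcongr

/-- The rescaled and recentred conformal map. -/
noncomputable def recent (ψ : ℂ → ℂ) (r : ℝ) (a y : ℂ) : ℂ := ψ (r * moeb a y)

theorem smul_moeb_mem {r : ℝ} (hr : r ∈ Ioo (0 : ℝ) 1) {a y : ℂ} (ha : ‖a‖ < 1) (hy : ‖y‖ ≤ 1) :
    (r : ℂ) * moeb a y ∈ ball (0 : ℂ) 1 := by
  rw [mem_ball_zero_iff, norm_mul, Complex.norm_real, Real.norm_of_nonneg hr.1.le]
  nlinarith [norm_moeb_le ha hy, hr.1, hr.2, norm_nonneg (moeb a y)]

theorem differentiableAt_recent {ψ : ℂ → ℂ} (hψ : Univ ψ) {r : ℝ} (hr : r ∈ Ioo (0 : ℝ) 1)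
    {a y : ℂ} (ha : ‖a‖ < 1) (hy : ‖y‖ ≤ 1) : DifferentiableAt ℂ (recent ψ r a) y :=
  (hψ.diff.differentiableAt (isOpen_ball.mem_nhds (smul_moeb_mem hr ha hy))).comp y
    ((differentiableAt_moeb ha hy).const_mul _)

theorem univ_recent {ψ : ℂ → ℂ} (hψ : Univ ψ) {r : ℝ} (hr : r ∈ Ioo (0 : ℝ) 1) {a : ℂ}
    (ha : ‖a‖ < 1) : Univ (recent ψ r a) := by
  refine ⟨fun y hy => (differentiableAt_recent hψ hr ha
    (mem_ball_zero_iff.mp hy).le).differentiableWithinAt, fun y hy y' hy' e => ?_,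
    hψ.meas.comp ((measurable_moeb a).const_mul _)⟩
  have hy1 := (mem_ball_zero_iff.mp hy).le
  have hy2 := (mem_ball_zero_iff.mp hy').le
  have h1 := hψ.inj (smul_moeb_mem hr ha hy1) (smul_moeb_mem hr ha hy2) e
  have h2 := mul_left_cancel₀ (by exact_mod_cast hr.1.ne') h1
  rw [← moeb_neg_moeb ha hy1, h2, moeb_neg_moeb ha hy2]

/-- Few radii escape far from an omitted value close to the centre. -/
theorem arc_bad_le {f : ℂ → ℂ} (hf : Univ f)
    (hc : ∀ y : ℂ, ‖y‖ ≤ 1 → ContinuousAt f y) {ξ : ℂ} {d L : ℝ} (hd : 0 < d) (hL : 0 < L)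
    (h₁ : ∀ y ∈ closedBall (0 : ℂ) (1 / 2), ‖f y - ξ‖ ≤ d / 2 * Real.exp (-L)) :
    arc.real {θ | d ≤ ‖f (circleMap 0 1 θ) - ξ‖} ≤ 4 * π / L := by
  set R₁ := d / 2 * Real.exp (-L) with hR₁
  have hR₁0 : 0 < R₁ := by positivity
  have hle : R₁ ≤ d / 2 := by
    have : Real.exp (-L) ≤ 1 := Real.exp_le_one_iff.mpr (by linarith)
    nlinarith
  have hlog : Real.log (d / 2 / R₁) = L := by
    rw [hR₁, div_mul_cancel_left₀ (by positivity), ← Real.exp_neg, Real.log_exp, neg_neg]
  have hsub : {θ | d ≤ ‖f (circleMap 0 1 θ) - ξ‖} ⊆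
      {θ | ENNReal.ofReal L ^ 2 ≤ radE f ξ R₁ (d / 2) θ} := by
    intro θ hθ
    have hθ' : d ≤ ‖f (circleMap 0 1 θ) - ξ‖ := hθ
    have hcs : ContinuousAt (fun s : ℝ => ‖f (circleMap 0 s θ) - ξ‖) 1 := by
      have h1 : ContinuousAt (fun s : ℝ => circleMap 0 s θ) 1 := by
        unfold circleMap; fun_prop
      exact ((ContinuousAt.comp (f := fun s : ℝ => circleMap 0 s θ) (hc _ (by simp)) h1).sub
        continuousAt_const).norm
    have hev : ∀ᶠ s in 𝓝[<] (1 : ℝ), d / 2 < ‖f (circleMap 0 s θ) - ξ‖ :=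
      nhdsWithin_le_nhds (hcs.eventually (lt_mem_nhds (by linarith)))
    obtain ⟨s, hs1, hs2⟩ := (hev.and (Ico_mem_nhdsLT (show (1 / 2 : ℝ) < 1 by norm_num))).exists
    have hx := hf.radE_cross ξ hR₁0 hle (θ := θ) (s₁ := 1 / 2) (s₂ := s)
      ⟨le_rfl, by norm_num⟩ hs2 (h₁ _ (by simp)) hs1.le
    rw [hlog] at hx
    refine hx.trans ?_
    have hv : volume {s ∈ Ioo (1 / 2 : ℝ) 1 | ‖f (circleMap 0 s θ) - ξ‖ ≤ d / 2} ≤ 1 := by
      refine (measure_mono (sep_subset _ _)).trans ?_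
      rw [Real.volume_Ioo]
      exact ENNReal.ofReal_le_one.mpr (by norm_num)
    calc _ ≤ 1 * radE f ξ R₁ (d / 2) θ := by gcongr
      _ = _ := one_mul _
  have hm := mul_meas_ge_le_lintegral₀ (μ := arc)
    (hf.measurable_radE ξ R₁ (d / 2)).aemeasurable (ENNReal.ofReal L ^ 2)
  have hb := hf.lintegral_radE_le ξ hR₁0 hle
  rw [hlog] at hb
  have h3 : ENNReal.ofReal L ^ 2 * arc {θ | d ≤ ‖f (circleMap 0 1 θ) - ξ‖} ≤
      ENNReal.ofReal (4 * π * L) := (mul_le_mul_right (measure_mono hsub) _).trans (hm.trans hb)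
  have h4 := ENNReal.toReal_mono ENNReal.ofReal_ne_top h3
  rw [ENNReal.toReal_mul, ENNReal.toReal_pow, ENNReal.toReal_ofReal hL.le,
    ENNReal.toReal_ofReal (by positivity)] at h4
  rw [le_div_iff₀ hL, measureReal_def]
  nlinarith

/-- The Poisson extension of `g ∘ ψs`. -/
noncomputable def poisExt (g : ℂ → ℝ) (ψs : ℝ → ℂ) (w : ℂ) : ℝ :=
  (2 * π)⁻¹ * ∫ θ, poissonKernel 0 w (circleMap 0 1 θ) * g (ψs θ) ∂arc

theorem tendsto_poisExt {ψ : ℂ → ℂ} (hψ : Univ ψ) {ρ : ℕ → ℝ} (hρ : Radii ρ) {ψs : ℝ → ℂ}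
    (hψs : Bdry ρ ψ ψs) {g : ℂ → ℝ} (hg : Continuous g) (hg1 : ∀ z, |g z| ≤ 1) {a : ℂ}
    (ha : ‖a‖ < 1) :
    Tendsto (fun i => (2 * π)⁻¹ * ∫ θ, g (recent ψ (ρ i) a (circleMap 0 1 θ)) ∂arc) atTop
      (𝓝 (poisExt g ψs a)) := by
  have hmem : ∀ i, ∀ z ∈ sphere (0 : ℂ) 1, (ρ i : ℂ) * z ∈ ball (0 : ℂ) 1 := fun i z hz => by
    rw [mem_ball_zero_iff, norm_mul, Complex.norm_real, Real.norm_of_nonneg (hρ.mem i).1.le,
      mem_sphere_zero_iff_norm.mp hz, mul_one]
    exact (hρ.mem i).2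
  have hcont : ∀ i, ContinuousOn (fun z : ℂ => g (ψ (ρ i * z))) (sphere 0 1) := fun i =>
    hg.comp_continuousOn (hψ.diff.continuousOn.comp (by fun_prop) (hmem i))
  have h1 : ∀ i, ∫ θ, g (recent ψ (ρ i) a (circleMap 0 1 θ)) ∂arc =
      ∫ θ, poissonKernel 0 a (circleMap 0 1 θ) * g (ψ (ρ i * circleMap 0 1 θ)) ∂arc := fun i =>
    integral_arc_moebius (hcont i) (mem_ball_zero_iff.mpr ha)
  simp only [h1]
  refine Tendsto.const_mul _ ?_
  obtain ⟨M, hM⟩ := poissonKernel_circle_bound ha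
  refine tendsto_integral_of_dominated_convergence (fun _ => M) (fun i => ?_)
    (integrable_const M) (fun i => Eventually.of_forall fun θ => ?_) ?_
  · refine Continuous.aestronglyMeasurable ((continuous_poissonKernel_circle ha).mul ?_)
    exact (hcont i).comp_continuous (continuous_circleMap 0 1) fun t => by simp
  · rw [Real.norm_eq_abs, abs_mul]
    nlinarith [hM θ, hg1 (ψ (ρ i * circleMap 0 1 θ)), abs_nonneg (g (ψ (ρ i * circleMap 0 1 θ))),
      abs_nonneg (poissonKernel 0 a (circleMap 0 1 θ))]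
  · filter_upwards [hψs.tendsto] with θ hθ
    refine Tendsto.const_mul _ ((hg.tendsto _).comp ?_)
    refine hθ.congr fun i => ?_
    simp [circleMap]

theorem analyticOnNhd_herglotz {u : ℝ → ℝ} (hu : Measurable u) (hu1 : ∀ t, |u t| ≤ 1) :
    ∃ H : ℂ → ℂ, DifferentiableOn ℂ H (ball 0 1) ∧ ∀ w ∈ ball (0 : ℂ) 1,
      (H w).re = (2 * π)⁻¹ * ∫ θ, poissonKernel 0 w (circleMap 0 1 θ) * u θ ∂arc := by
  have hi0 : Integrable u arc := Integrable.of_bound hu.aestronglyMeasurable 1
    (Eventually.of_forall hu1)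
  have hi1 : Integrable (fun t => 2 * circleMap 0 1 t * (u t : ℂ)) arc := by
    refine Integrable.of_bound (Measurable.aestronglyMeasurable (by fun_prop)) 2
      (Eventually.of_forall fun t => ?_)
    simp only [norm_mul, Complex.norm_ofNat, norm_circleMap_zero, abs_one, mul_one,
      Complex.norm_real, Real.norm_eq_abs]
    linarith [hu1 t]
  have hd := differentiableOn_cauchy hi1 (a := circleMap 0 1)
    (continuous_circleMap 0 1).aemeasurable (K := sphere 0 1) isClosed_sphere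
    (Eventually.of_forall fun t => by simp)
  refine ⟨fun w => ((2 * π)⁻¹ : ℝ) * ((∫ t, 2 * circleMap 0 1 t * (u t : ℂ) /
    (circleMap 0 1 t - w) ∂arc) - ∫ t, (u t : ℂ) ∂arc), ?_, fun w hw => ?_⟩
  · refine ((hd.mono fun w hw => ?_).sub_const _).const_mul _
    have := mem_ball_zero_iff.mp hw
    simp only [mem_compl_iff, mem_sphere_zero_iff_norm]
    exact this.ne
  · have hw' := mem_ball_zero_iff.mp hw
    have hne : ∀ t, circleMap 0 1 t - w ≠ 0 := fun t =>
      sub_ne_zero.2 (circleMap_ne_mem_ball hw t)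
    have hi2 : Integrable (fun t => 2 * circleMap 0 1 t * (u t : ℂ) / (circleMap 0 1 t - w))
        arc := by
      refine Integrable.of_bound (Measurable.aestronglyMeasurable (by fun_prop)) (2 / (1 - ‖w‖))
        (Eventually.of_forall fun t => ?_)
      have h1 : 1 - ‖w‖ ≤ ‖circleMap 0 1 t - w‖ := by
        simpa using norm_sub_norm_le (circleMap 0 1 t) w
      have h2 : 0 < 1 - ‖w‖ := by linarith
      simp only [norm_div, norm_mul, Complex.norm_ofNat, norm_circleMap_zero, abs_one, mul_one,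
        Complex.norm_real, Real.norm_eq_abs]
      calc 2 * |u t| / ‖circleMap 0 1 t - w‖ ≤ 2 * 1 / (1 - ‖w‖) := by gcongr; exact hu1 t
        _ = _ := by rw [mul_one]
    have hi3 : Integrable (fun t => (u t : ℂ)) arc := hi0.ofReal
    rw [Complex.re_ofReal_mul, ← integral_sub hi2 hi3]
    congr 1
    have := (Complex.reCLM.integral_comp_comm (hi2.sub hi3)).symm
    refine this.trans (integral_congr_ae (Eventually.of_forall fun t => ?_))
    have e : 2 * circleMap 0 1 t * (u t : ℂ) / (circleMap 0 1 t - w) - (u t : ℂ) =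
        herglotzRieszKernel 0 w (circleMap 0 1 t) * (u t : ℂ) := by
      rw [herglotzRieszKernel_def, sub_zero, sub_zero]
      have := hne t
      field_simp
      ring
    simp only [Pi.sub_apply, e, poissonKernel_eq_re_herglotzRieszKernel, Function.comp_apply,
      Complex.reCLM_apply, Complex.re_mul_ofReal]

/-- Every boundary point is regular. -/
theorem tendsto_poisExt_bdry {Ω : Set ℂ} {φ ψ : ℂ → ℂ} (h : Conf Ω φ ψ) {ρ : ℕ → ℝ}
    (hρ : Radii ρ) {ψs : ℝ → ℂ} (hψs : Bdry ρ ψ ψs) {g : ℂ → ℝ} (hg : Continuous g)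
    (hg0 : ∀ z, 0 ≤ g z) (hg1 : ∀ z, g z ≤ 1) {ξ : ℂ} (hξ : ξ ∉ Ω) :
    Tendsto (fun z => poisExt g ψs (φ z)) (𝓝[Ω] ξ) (𝓝 (g ξ)) := by
  obtain ⟨K, hK1, hK⟩ := exists_osc
  have habs : ∀ z, |g z| ≤ 1 := fun z => abs_le.mpr ⟨by linarith [hg0 z], hg1 z⟩
  rw [Metric.tendsto_nhdsWithin_nhds]
  intro ε hε
  obtain ⟨d, hd, hgd⟩ := Metric.continuous_iff.mp hg ξ (ε / 3) (by positivity)
  set L := 6 / ε with hL
  have hL0 : 0 < L := by positivity
  refine ⟨d / 2 * Real.exp (-L) / K, by positivity, fun z hz hzξ => ?_⟩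
  have ha : ‖φ z‖ < 1 := mem_ball_zero_iff.mp (h.mφ hz)
  have hlim := tendsto_poisExt h.univ hρ hψs hg habs ha
  have h0 : Tendsto (fun i => ‖recent ψ (ρ i) (φ z) 0 - ξ‖) atTop (𝓝 ‖z - ξ‖) := by
    have h1 : Tendsto (fun i => (ρ i : ℂ) * φ z) atTop (𝓝 (φ z)) := by
      simpa using ((Complex.continuous_ofReal.tendsto 1).comp hρ.tendsto).mul_const (φ z)
    have h2 := (h.dψ.continuousOn.continuousAt (isOpen_ball.mem_nhds (h.mφ hz))).tendsto.comp h1
    rw [h.left z hz] at h2
    simpa [recent, moeb_zero, Function.comp_def] using (h2.sub_const ξ).norm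
  rw [dist_eq_norm] at hzξ
  have hev := h0.eventually (gt_mem_nhds hzξ)
  have hle : dist (poisExt g ψs (φ z)) (g ξ) ≤ 2 * ε / 3 := by
    refine le_of_tendsto (hlim.dist tendsto_const_nhds) (hev.mono fun i hi => ?_)
    set f := recent ψ (ρ i) (φ z) with hf
    have hU : Univ f := univ_recent h.univ (hρ.mem i) ha
    have hc : ∀ y : ℂ, ‖y‖ ≤ 1 → ContinuousAt f y := fun y hy =>
      (differentiableAt_recent h.univ (hρ.mem i) ha hy).continuousAt
    have hom : ξ ∉ f '' ball 0 1 := by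
      rintro ⟨y, hy, e⟩
      exact hξ (e ▸ h.mψ (smul_moeb_mem (hρ.mem i) ha (mem_ball_zero_iff.mp hy).le))
    have hb := arc_bad_le hU hc hd hL0 (ξ := ξ) fun y hy => by
      refine (hK f ξ hU hom 0 (by simp) y hy).trans ?_
      rw [lt_div_iff₀ (by linarith)] at hi
      linarith
    set B := {θ | d ≤ ‖f (circleMap 0 1 θ) - ξ‖} with hB
    have hfc : Continuous fun θ => f (circleMap 0 1 θ) :=
      continuous_iff_continuousAt.mpr fun θ =>
        ContinuousAt.comp (f := circleMap 0 1) (hc _ (by simp))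
          (continuous_circleMap 0 1).continuousAt
    have hBm : MeasurableSet B :=
      (isClosed_le continuous_const (hfc.sub continuous_const).norm).measurableSet
    have hi1 : Integrable (fun θ => g (f (circleMap 0 1 θ))) arc :=
      Integrable.of_bound (hg.comp hfc).aestronglyMeasurable 1
        (Eventually.of_forall fun θ => habs _)
    have hpi : (0 : ℝ) < 2 * π := by positivity
    have harc : arc.real univ = 2 * π := by
      rw [measureReal_def, arc_univ, ENNReal.toReal_ofReal hpi.le]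
    have e1 : (2 * π)⁻¹ * ∫ θ, g (f (circleMap 0 1 θ)) ∂arc - g ξ =
        (2 * π)⁻¹ * ∫ θ, (g (f (circleMap 0 1 θ)) - g ξ) ∂arc := by
      rw [integral_sub hi1 (integrable_const _), integral_const, harc, smul_eq_mul]
      field_simp
    have e2 : ‖∫ θ, (g (f (circleMap 0 1 θ)) - g ξ) ∂arc‖ ≤
        ∫ θ, (ε / 3 + B.indicator (fun _ => (1 : ℝ)) θ) ∂arc := by
      refine norm_integral_le_of_norm_le ((integrable_const _).add
        ((integrable_const _).indicator hBm)) (Eventually.of_forall fun θ => ?_)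
      by_cases hθ : θ ∈ B
      · rw [indicator_of_mem hθ, Real.norm_eq_abs, abs_le]
        constructor <;> linarith [hg0 ξ, hg1 ξ, hg0 (f (circleMap 0 1 θ)),
          hg1 (f (circleMap 0 1 θ))]
      · rw [indicator_of_notMem hθ, add_zero, ← dist_eq_norm]
        refine (hgd _ ?_).le
        rw [dist_eq_norm]
        exact not_le.mp hθ
    rw [integral_add (integrable_const _) ((integrable_const _).indicator hBm), integral_const,
      harc, integral_indicator_const _ hBm, smul_eq_mul, smul_eq_mul, mul_one] at e2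
    rw [dist_eq_norm, e1, norm_mul, Real.norm_of_nonneg (by positivity), inv_mul_le_iff₀ hpi]
    have e3 : 4 * π / L = 2 * π * (ε / 3) := by rw [hL]; field_simp; ring
    linarith
  linarith

theorem integral_eq_poisExt {Ω : Set ℂ} {φ ψ : ℂ → ℂ} (h : Conf Ω φ ψ) {ρ : ℕ → ℝ}
    (hρ : Radii ρ) {ψs : ℝ → ℂ} (hψs : Bdry ρ ψ ψs) {a : ℂ} (ha : a ∈ Ω) {ω : Measure ℂ}
    (hω : IsHarmonicMeasure Ω a ω) {g : ℂ → ℝ} (hg : Continuous g)
    (hg0 : ∀ z, 0 ≤ g z) (hg1 : ∀ z, g z ≤ 1) : ∫ z, g z ∂ω = poisExt g ψs (φ a) := by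
  classical
  have habs : ∀ z, |g z| ≤ 1 := fun z => abs_le.mpr ⟨by linarith [hg0 z], hg1 z⟩
  obtain ⟨H, hH, hre⟩ := analyticOnNhd_herglotz (u := fun t => g (ψs t))
    (hg.measurable.comp hψs.meas) fun t => habs _
  set v : ℂ → ℝ := fun z => if z ∈ Ω then poisExt g ψs (φ z) else g z with hv
  have hvΩ : ∀ z ∈ Ω, v =ᶠ[𝓝 z] fun z => (H (φ z)).re := fun z hz => by
    filter_upwards [h.isOpen.mem_nhds hz] with y hy
    simp only [hv, if_pos hy, hre _ (h.mφ hy), poisExt]
  have han : AnalyticOnNhd ℂ (fun z => H (φ z)) Ω :=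
    (hH.comp h.dφ h.mφ).analyticOnNhd h.isOpen
  have hharm : InnerProductSpace.HarmonicOnNhd v Ω := fun z hz =>
    (InnerProductSpace.harmonicAt_congr_nhds (hvΩ z hz)).mpr (han z hz).harmonicAt_re
  have hcont : ContinuousOn v (closure Ω) := by
    intro ξ _
    by_cases hξ : ξ ∈ Ω
    · exact ((Complex.continuous_re.continuousAt.comp
        (han ξ hξ).continuousAt).congr (hvΩ ξ hξ).symm).continuousWithinAt
    · refine ContinuousAt.continuousWithinAt ?_
      have e : v ξ = g ξ := if_neg hξ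
      rw [ContinuousAt, e, ← nhdsWithin_univ, ← union_compl_self Ω, nhdsWithin_union, tendsto_sup]
      constructor
      · refine (tendsto_poisExt_bdry h hρ hψs hg hg0 hg1 hξ).congr' ?_
        filter_upwards [self_mem_nhdsWithin] with z hz using (if_pos hz).symm
      · refine ((hg.tendsto ξ).mono_left nhdsWithin_le_nhds).congr' ?_
        filter_upwards [self_mem_nhdsWithin] with z hz using (if_neg hz).symm
  have h1 := hω.2.2 v hcont hharm
  have h2 : ∫ z, g z ∂ω = ∫ z, v z ∂ω := by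
    refine integral_congr_ae ?_
    have : ∀ᵐ z ∂ω, z ∈ frontier Ω := hω.2.1
    filter_upwards [this] with z hz
    rw [h.isOpen.frontier_eq] at hz
    exact (if_neg hz.2).symm
  rw [h2, h1]
  exact if_pos ha

/-- A closed set of positive harmonic measure is hit by the boundary values on a set of angles
of positive measure. -/
theorem arc_ne_zero_of_harmonicMeasure {Ω : Set ℂ} {φ ψ : ℂ → ℂ} (h : Conf Ω φ ψ) {ρ : ℕ → ℝ}
    (hρ : Radii ρ) {ψs : ℝ → ℂ} (hψs : Bdry ρ ψ ψs) {a : ℂ} (ha : a ∈ Ω) {ω : Measure ℂ}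
    (hω : IsHarmonicMeasure Ω a ω) {S : Set ℂ} (hS : IsClosed S) (hpos : 0 < ω S) :
    arc {θ | ψs θ ∈ S} ≠ 0 := by
  intro h0
  have := hω.1
  have hδ : ∀ n : ℕ, (0 : ℝ) < 1 / ((n : ℝ) + 1) := fun n => by positivity
  set g : ℕ → ℂ → ℝ := fun n z => thickenedIndicator (hδ n) S z with hg
  have hgc : ∀ n, Continuous (g n) := fun n =>
    NNReal.continuous_coe.comp (thickenedIndicator (hδ n) S).continuous
  have hg0 : ∀ n z, 0 ≤ g n z := fun n z => NNReal.coe_nonneg _
  have hg1 : ∀ n z, g n z ≤ 1 := fun n z =>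
    NNReal.coe_le_one.mpr (thickenedIndicator_le_one (hδ n) S z)
  have ha' : ‖φ a‖ < 1 := mem_ball_zero_iff.mp (h.mφ ha)
  have hlow : ∀ n, ω.real S ≤ poisExt (g n) ψs (φ a) := fun n => by
    rw [← integral_eq_poisExt h hρ hψs ha hω (hgc n) (hg0 n) (hg1 n),
      ← integral_indicator_one hS.measurableSet]
    refine integral_mono ((integrable_const _).indicator hS.measurableSet)
      (Integrable.of_bound (hgc n).aestronglyMeasurable 1 (Eventually.of_forall fun z => ?_))
      fun z => ?_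
    · rw [Real.norm_of_nonneg (hg0 n z)]; exact hg1 n z
    · by_cases hz : z ∈ S
      · rw [indicator_of_mem hz]
        exact (NNReal.coe_eq_one.mpr (thickenedIndicator_one (hδ n) S hz)).ge
      · rw [indicator_of_notMem hz]; exact hg0 n z
  have hlim : Tendsto (fun n => poisExt (g n) ψs (φ a)) atTop (𝓝 0) := by
    obtain ⟨M, hM⟩ := poissonKernel_circle_bound ha'
    have h1 : Tendsto (fun n => ∫ θ, poissonKernel 0 (φ a) (circleMap 0 1 θ) * g n (ψs θ) ∂arc)
        atTop (𝓝 (∫ _, (0 : ℝ) ∂arc)) := by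
      refine tendsto_integral_of_dominated_convergence (fun _ => M) (fun n => ?_)
        (integrable_const M) (fun n => Eventually.of_forall fun θ => ?_) ?_
      · exact ((continuous_poissonKernel_circle ha').measurable.mul
          ((hgc n).measurable.comp hψs.meas)).aestronglyMeasurable
      · rw [Real.norm_eq_abs, abs_mul, abs_of_nonneg (hg0 n _)]
        nlinarith [hM θ, hg0 n (ψs θ), hg1 n (ψs θ),
          abs_nonneg (poissonKernel 0 (φ a) (circleMap 0 1 θ))]
      · have : ∀ᵐ θ ∂arc, ψs θ ∉ S := measure_eq_zero_iff_ae_notMem.mp h0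
        filter_upwards [this] with θ hθ
        have h2 := tendsto_pi_nhds.mp (thickenedIndicator_tendsto_indicator_closure hδ
          tendsto_one_div_add_atTop_nhds_zero_nat S) (ψs θ)
        rw [hS.closure_eq, indicator_of_notMem hθ] at h2
        have h3 := ((NNReal.continuous_coe.tendsto 0).comp h2).const_mul
          (poissonKernel 0 (φ a) (circleMap 0 1 θ))
        rw [NNReal.coe_zero, mul_zero] at h3
        exact h3
    simpa [poisExt] using h1.const_mul (2 * π)⁻¹
  have h2 : ω.real S ≤ 0 := ge_of_tendsto' hlim hlow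
  have h3 : 0 < ω.real S := ENNReal.toReal_pos hpos.ne' (measure_ne_top _ _)
  linarith

end Pool.Agent.Lib.MP_3a6b94_an
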