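import Pool.Agent.Lib.MP_3a6b94_an.Annih
import Pool.Agent.Lib.MP_3a6b94_an.Outer
import Pool.Agent.Lib.MP_3a6b94_an.Regular
import Pool.Agent.Lib.MP_3a6b94_an.Dual
import Pool.Agent.Lib.MP_3a6b94_an.Cyclic
import Pool.Agent.Lib.MP_3a6b94_an.Closed

open MeasureTheory Set Metric Filter Topology
open scoped ENNReal NNReal Real

namespace Pool.Agent.Lib.MP_3a6b94_an

theorem complete_aux {Ω : Set ℂ} {φ ψ : ℂ → ℂ} (h : Conf Ω φ ψ) {W : ℝ → ℝ} (hW : Wt W)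
    (hdiv : ∃ a ∈ Ioc (0 : ℝ) 1, W a < 1 ∧
      ∫⁻ t in Ioo 0 a, ENNReal.ofReal (Real.log (Real.log (1 / W t))) = ⊤)
    {a : ℂ} (ha : a ∈ Ω) {ω : Measure ℂ} (hω : IsHarmonicMeasure Ω a ω)
    (hpos : 0 < ω (frontier (outerComp Ω))) (p : ℝ≥0∞) [Fact (1 ≤ p)] (hp : p ≠ ⊤) :
    closure {F : Lp ℂ p (wMeas Ω φ W) | ∃ P : Polynomial ℂ, F =ᵐ[wMeas Ω φ W] fun z => P.eval z} =
      {F : Lp ℂ p (wMeas Ω φ W) | ∃ f : ℂ → ℂ, DifferentiableOn ℂ f Ω ∧ F =ᵐ[wMeas Ω φ W] f} := by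
  have hp1 : 1 ≤ p := Fact.out
  have := isFiniteMeasure_wMeas h hW
  refine subset_antisymm (closure_minimal ?_ (isClosed_bergman h hW p)) ?_
  · rintro F ⟨P, hP⟩
    exact ⟨_, P.differentiable.differentiableOn, hP⟩
  rintro F ⟨f, hf, hFf⟩
  by_contra hF
  let S : Submodule ℂ (Lp ℂ p (wMeas Ω φ W)) :=
    { carrier := {F | ∃ P : Polynomial ℂ, F =ᵐ[wMeas Ω φ W] fun z => P.eval z}
      add_mem' := by
        rintro F G ⟨P, hP⟩ ⟨Q, hQ⟩
        refine ⟨P + Q, ?_⟩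
        filter_upwards [Lp.coeFn_add F G, hP, hQ] with z h1 h2 h3
        rw [h1, Pi.add_apply, h2, h3, Polynomial.eval_add]
      zero_mem' := ⟨0, by
        filter_upwards [Lp.coeFn_zero ℂ p (wMeas Ω φ W)] with z h1
        rw [h1, Polynomial.eval_zero, Pi.zero_apply]⟩
      smul_mem' := by
        rintro c F ⟨P, hP⟩
        refine ⟨c • P, ?_⟩
        filter_upwards [Lp.coeFn_smul c F, hP] with z h1 h2
        rw [h1, Pi.smul_apply, h2, Polynomial.eval_smul] }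
  obtain ⟨k, hk, hkb, hk0, hk1⟩ := exists_annihilator hp S F hF
  obtain ⟨q, hq1, hq2, hkq⟩ := exists_exponent hp1 hp hk hkb
  obtain ⟨η₀, hη₀, H⟩ := annih hq1 hq2
  obtain ⟨b, B, hb, hbψ⟩ := h.exists_bloch
  have hp0 : 0 ≤ p.toReal := ENNReal.toReal_nonneg
  have hη : 0 < min η₀ (1 / (2 * p.toReal + 1)) := lt_min hη₀ (by positivity)
  obtain ⟨m, u, C, hm⟩ := hb.exists_outer hη
  obtain ⟨R, hR⟩ := h.bdd.exists_norm_le
  have hρ : Radii fun i : ℕ => 1 - 1 / ((i : ℝ) + 2) := by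
    refine ⟨fun i => ⟨?_, ?_⟩, ?_⟩
    · have : (0 : ℝ) ≤ i := Nat.cast_nonneg i
      rw [sub_pos, div_lt_one (by linarith)]
      linarith
    · exact sub_lt_self _ (by positivity)
    · have h1 : Tendsto (fun i : ℕ => 1 / ((i : ℝ) + 2)) atTop (𝓝 0) :=
        tendsto_const_nhds.div_atTop (tendsto_natCast_atTop_atTop.atTop_add tendsto_const_nhds)
      simpa using h1.const_sub 1
  obtain ⟨κ₁, ψs, hκ₁, hψs⟩ := exists_bdry h.dψ (fun z hz => hR _ (h.mψ hz)) hρ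
  obtain ⟨κ₂, ms, hκ₂, hms⟩ := exists_bdry hm.diff hm.le_one (hρ.comp hκ₁)
  have hρ₂ := (hρ.comp hκ₁).comp hκ₂
  have harc : arc {θ | ψs θ ∈ closure (outerComp Ω)} ≠ 0 := fun h0 =>
    arc_ne_zero_of_harmonicMeasure h hρ₂ (hψs.comp hκ₂) ha hω isClosed_frontier hpos
      (measure_mono_null (fun θ hθ => frontier_subset_closure (s := outerComp Ω) hθ) h0)
  have hmem : ∀ᵐ z ∂wMeas Ω φ W, z ∈ Ω :=
    (withDensity_absolutelyContinuous _ _).ae_le (ae_restrict_mem h.isOpen.measurableSet)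
  have hmom : ∀ n : ℕ, ∫ z, z ^ n * k z ∂(wMeas Ω φ W) = 0 := by
    intro n
    have h1 : MemLp (fun z : ℂ => z ^ n) p (wMeas Ω φ W) :=
      MemLp.of_bound (continuous_pow n).aestronglyMeasurable (R ^ n) (by
        filter_upwards [hmem] with z hz
        rw [norm_pow]
        exact pow_le_pow_left₀ (norm_nonneg _) (hR z hz) n)
    rw [← hk0 h1.toLp ⟨Polynomial.X ^ n, by simpa using h1.coeFn_toLp⟩]
    refine integral_congr_ae ?_
    filter_upwards [h1.coeFn_toLp] with z hz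
    rw [hz]
  have h2 := H h hbψ hm hη (min_le_left _ _) hW hdiv hρ₂ (hψs.comp hκ₂) hms harc hk hkq hmom
  have h3 : min η₀ (1 / (2 * p.toReal + 1)) * p.toReal < 1 := by
    refine (mul_le_mul_of_nonneg_right (min_le_right _ _) hp0).trans_lt ?_
    rw [div_mul_eq_mul_div, div_lt_one (by positivity)]
    linarith
  have h4 := cyclic h hb hbψ hm hη hW hp1 hp h3 hk hkb h2 hf ((Lp.memLp F).ae_eq hFf)
  refine hk1 (Eq.trans (integral_congr_ae ?_) h4)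
  filter_upwards [hFf] with z hz
  rw [hz]

theorem complete {Ω : Set ℂ} (hΩ : IsOpen Ω) (hb : Bornology.IsBounded Ω) {φ : ℂ → ℂ}
    (hφ : DifferentiableOn ℂ φ Ω) (hbij : BijOn φ Ω (ball 0 1)) {W : ℝ → ℝ}
    (hWpos : ∀ t ∈ Ioc (0 : ℝ) 1, 0 < W t) (hWmono : MonotoneOn W (Ioc 0 1))
    (hdiv : ∃ a ∈ Ioc (0 : ℝ) 1, W a < 1 ∧
      ∫⁻ t in Ioo 0 a, ENNReal.ofReal (Real.log (Real.log (1 / W t))) = ⊤)
    {a : ℂ} (ha : a ∈ Ω) {ω : Measure ℂ} (hω : IsHarmonicMeasure Ω a ω)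
    (hpos : 0 < ω (frontier (outerComp Ω))) (p : ℝ≥0∞) [Fact (1 ≤ p)] (hp : p ≠ ⊤) :
    closure {F : Lp ℂ p (wMeas Ω φ W) | ∃ P : Polynomial ℂ, F =ᵐ[wMeas Ω φ W] fun z => P.eval z} =
      {F : Lp ℂ p (wMeas Ω φ W) | ∃ f : ℂ → ℂ, DifferentiableOn ℂ f Ω ∧ F =ᵐ[wMeas Ω φ W] f} := by
  obtain ⟨φ', ψ, h, hφ'⟩ := exists_conf hΩ hb hφ hbij
  set W' : ℝ → ℝ := fun t => if t ≤ 0 then 0 else W (min t 1) with hW'
  have hin : ∀ t : ℝ, ¬ t ≤ 0 → min t 1 ∈ Ioc (0 : ℝ) 1 := fun t ht =>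
    ⟨lt_min (not_le.mp ht) one_pos, min_le_right _ _⟩
  have hmono : Monotone W' := by
    intro s t hst
    simp only [hW']
    split_ifs with h1 h2 h2
    · exact le_rfl
    · exact (hWpos _ (hin t h2)).le
    · exact absurd (hst.trans h2) h1
    · exact hWmono (hin s h1) (hin t h2) (min_le_min_right _ hst)
  have heq : ∀ t ∈ Ioc (0 : ℝ) 1, W' t = W t := fun t ht => by
    simp only [hW']
    rw [if_neg (not_le.mpr ht.1), min_eq_left ht.2]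
  have hWt : Wt W' := ⟨fun t ht => (heq t ht).symm ▸ hWpos t ht, hmono.monotoneOn _,
    hmono.measurable⟩
  have e : wMeas Ω φ W = wMeas Ω φ' W' := by
    refine withDensity_congr_ae ?_
    filter_upwards [ae_restrict_mem hΩ.measurableSet] with z hz
    have h1 := mem_ball_zero_iff.mp (hbij.mapsTo hz)
    have h2 := norm_nonneg (φ z)
    rw [hφ' hz, heq _ ⟨by linarith, by linarith⟩]
  rw [e]
  refine complete_aux h hWt ?_ ha hω hpos p hp
  obtain ⟨c, hc, h1, h2⟩ := hdiv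
  refine ⟨c, hc, by rwa [heq c hc], ?_⟩
  rw [← h2]
  exact setLIntegral_congr_fun measurableSet_Ioo fun t ht => by
    simp only [heq t ⟨ht.1, ht.2.le.trans hc.2⟩]

end Pool.Agent.Lib.MP_3a6b94_an
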