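import Pool.Agent.Lib.MP_3a6b94_an.LengthArea

open MeasureTheory Set Metric Filter Topology
open scoped ENNReal NNReal Real

namespace Pool.Agent.Lib.MP_3a6b94_an

theorem Radii.mem_ball {ρ : ℕ → ℝ} (hρ : Radii ρ) (i : ℕ) (θ : ℝ) :
    circleMap 0 (ρ i) θ ∈ ball (0 : ℂ) 1 :=
  circleMap_mem_ball (by rw [abs_of_pos (hρ.mem i).1]; exact (hρ.mem i).2) θ

theorem Outer.const_nonneg {b m : ℂ → ℂ} {u : ℕ → ℂ → ℂ} {C η : ℝ} (hm : Outer b m u C η) :
    0 ≤ C := by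
  have h := hm.bound 0 (mem_ball_self one_pos) 0 ⟨le_rfl, zero_le_one⟩
  simp only [zero_mul, sub_zero, Real.one_rpow, mul_one] at h
  exact le_trans (by positivity) h

theorem Outer.norm_le_deriv {ψ b m : ℂ → ℂ} {u : ℕ → ℂ → ℂ} {C η : ℝ} (hm : Outer b m u C η)
    (hb : ∀ z ∈ ball (0 : ℂ) 1, Complex.exp (b z) = deriv ψ z) {y : ℂ} (hy : y ∈ ball (0 : ℂ) 1)
    {s : ℝ} (hs : s ∈ Icc (0 : ℝ) 1) :
    ‖m y‖ ≤ C * (1 - s * ‖y‖) ^ (-η) * ‖deriv ψ (s * y)‖ := by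
  have hsy : (s : ℂ) * y ∈ ball (0 : ℂ) 1 := by
    rw [mem_ball_zero_iff, norm_mul, Complex.norm_real, Real.norm_eq_abs, abs_of_nonneg hs.1]
    have := mem_ball_zero_iff.mp hy
    nlinarith [hs.1, hs.2, norm_nonneg y]
  have h1 := hm.bound y hy s hs
  have h2 : 1 ≤ Real.exp (2 * ‖b (s * y)‖) * ‖deriv ψ (s * y)‖ := by
    rw [← hb _ hsy, Complex.norm_exp, ← Real.exp_add]
    refine Real.one_le_exp ?_
    have := (abs_le.mp (Complex.abs_re_le_norm (b (s * y)))).1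
    linarith [norm_nonneg (b (s * y))]
  calc ‖m y‖ ≤ ‖m y‖ * (Real.exp (2 * ‖b (s * y)‖) * ‖deriv ψ (s * y)‖) :=
        le_mul_of_one_le_right (norm_nonneg _) h2
    _ ≤ _ := by
        rw [← mul_assoc]
        exact mul_le_mul_of_nonneg_right h1 (norm_nonneg _)

theorem Outer.bdry_le_one {b m : ℂ → ℂ} {u : ℕ → ℂ → ℂ} {C η : ℝ} (hm : Outer b m u C η)
    {ρ : ℕ → ℝ} (hρ : Radii ρ) {ms : ℝ → ℂ} (hms : Bdry ρ m ms) : ∀ᵐ θ ∂arc, ‖ms θ‖ ≤ 1 := by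
  filter_upwards [hms.tendsto] with θ hθ
  exact le_of_tendsto' hθ.norm fun i => hm.le_one _ (hρ.mem_ball i θ)

theorem Outer.bdry_le_deriv {ψ b m : ℂ → ℂ} {u : ℕ → ℂ → ℂ} {C η : ℝ} (hm : Outer b m u C η)
    (hψ : Univ ψ) (hb : ∀ z ∈ ball (0 : ℂ) 1, Complex.exp (b z) = deriv ψ z) (hη : 0 < η)
    {ρ : ℕ → ℝ} (hρ : Radii ρ) {ms : ℝ → ℂ} (hms : Bdry ρ m ms) :
    ∀ᵐ θ ∂arc, ∀ s ∈ Ico (0 : ℝ) 1,
      ‖ms θ‖ ≤ C * (1 - s) ^ (-η) * ‖deriv ψ (circleMap 0 s θ)‖ := by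
  filter_upwards [hms.tendsto] with θ hθ s hs
  have hmem : circleMap 0 s θ ∈ ball (0 : ℂ) 1 :=
    circleMap_mem_ball (by rw [abs_of_nonneg hs.1]; exact hs.2) θ
  have hc : ContinuousAt (deriv ψ) (circleMap 0 s θ) :=
    (hψ.diff.deriv isOpen_ball).continuousOn.continuousAt (isOpen_ball.mem_nhds hmem)
  have ht : Tendsto (fun i => (s : ℂ) * circleMap 0 (ρ i) θ) atTop (𝓝 (circleMap 0 s θ)) := by
    have h1 := ((Complex.continuous_ofReal.tendsto 1).comp hρ.tendsto).mul_const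
      (Complex.exp (θ * Complex.I)) |>.const_mul (s : ℂ)
    simpa [circleMap] using h1
  refine le_of_tendsto_of_tendsto' hθ.norm
    ((hc.tendsto.comp ht).norm.const_mul (C * (1 - s) ^ (-η))) fun i => ?_
  refine (hm.norm_le_deriv hb (hρ.mem_ball i θ) ⟨hs.1, hs.2.le⟩).trans ?_
  refine mul_le_mul_of_nonneg_right (mul_le_mul_of_nonneg_left ?_ hm.const_nonneg) (norm_nonneg _)
  refine Real.rpow_le_rpow_of_nonpos (by linarith [hs.2]) ?_ (by linarith)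
  have := mem_ball_zero_iff.mp (hρ.mem_ball i θ)
  nlinarith [hs.1]

/-- Weighted form of Makarov's lower bound for the dimension of harmonic measure. -/
theorem makarov {Ω : Set ℂ} {φ ψ b m : ℂ → ℂ} {u : ℕ → ℂ → ℂ} {C η : ℝ} (h : Conf Ω φ ψ)
    (hb : ∀ z ∈ ball (0 : ℂ) 1, Complex.exp (b z) = deriv ψ z) (hm : Outer b m u C η)
    (hη : 0 < η) {ρ : ℕ → ℝ} (hρ : Radii ρ) {ψs ms : ℝ → ℂ} (hψs : Bdry ρ ψ ψs)
    (hms : Bdry ρ m ms) {β q : ℝ} (hβ : 0 < β) (hβη : β * (1 + η) < 1) (hq : 1 ≤ q) :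
    ∃ K : ℝ≥0∞, K ≠ ⊤ ∧ ∀ z : ℂ, ∫⁻ θ, ‖ms θ‖ₑ ^ q * ‖z - ψs θ‖ₑ⁻¹ ^ β ∂arc ≤ K := by
  set a : ℝ := (1 + η)⁻¹ with ha
  have ha0 : 0 < a := by positivity
  have ha1 : a ≤ 1 := inv_le_one_of_one_le₀ (by linarith)
  have hβa : β < a := by
    rw [ha, ← one_div, lt_div_iff₀ (by linarith)]
    exact hβη
  obtain ⟨K₀, hK₀, hpot⟩ := exists_potential_const hβ hβa
  obtain ⟨K, hK, hkoebe⟩ := exists_koebe
  obtain ⟨d₀, hd₀, hthick⟩ := ((isCompact_closedBall (0 : ℂ) (1 / 2)).image_of_continuousOn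
    (h.dψ.continuousOn.mono (closedBall_subset_ball (by norm_num)))).exists_thickening_subset_open
    h.isOpen (by
      rintro _ ⟨y, hy, rfl⟩
      exact h.mψ (closedBall_subset_ball (by norm_num) hy))
  have hC := hm.const_nonneg
  set L : ℝ≥0∞ := ENNReal.ofReal (Real.log 2) ^ 2 with hL
  have hL0 : L ≠ 0 := pow_ne_zero 2 (by simpa using Real.log_pos one_lt_two)
  have hLt : L ≠ ⊤ := ENNReal.pow_ne_top ENNReal.ofReal_ne_top
  set A : ℝ≥0∞ := ENNReal.ofReal (2 * π * (3 / d₀) ^ a) +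
    L⁻¹ * ENNReal.ofReal (4 * π * Real.log 2) * ENNReal.ofReal ((3 * C * K) ^ a) with hA
  have hAt : A ≠ ⊤ := ENNReal.add_ne_top.mpr ⟨ENNReal.ofReal_ne_top, ENNReal.mul_ne_top
    (ENNReal.mul_ne_top (ENNReal.inv_ne_top.mpr hL0) ENNReal.ofReal_ne_top) ENNReal.ofReal_ne_top⟩
  have hwm : Measurable fun θ => ‖ms θ‖ₑ ^ q := hms.meas.enorm.pow_const q
  have hw1 : ∀ᵐ θ ∂arc, ‖ms θ‖ₑ ≤ 1 := by
    filter_upwards [hm.bdry_le_one hρ hms] with θ hθ
    rw [← ofReal_norm]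
    exact ENNReal.ofReal_le_one.mpr hθ
  have huniv : arc.withDensity (fun θ => ‖ms θ‖ₑ ^ q) univ ≤ ENNReal.ofReal (2 * π) := by
    rw [withDensity_apply _ MeasurableSet.univ, Measure.restrict_univ, ← arc_univ,
      ← lintegral_one]
    exact lintegral_mono_ae (hw1.mono fun θ hθ => ENNReal.rpow_le_one hθ (by linarith))
  refine ⟨ENNReal.ofReal (2 * π) + K₀ * A, ENNReal.add_ne_top.mpr
    ⟨ENNReal.ofReal_ne_top, ENNReal.mul_ne_top hK₀ hAt⟩, fun z => ?_⟩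
  have hdm : Measurable fun θ => ‖z - ψs θ‖ₑ := (measurable_const.sub hψs.meas).enorm
  have key := hpot ℝ (arc.withDensity fun θ => ‖ms θ‖ₑ ^ q) (fun θ => ‖z - ψs θ‖ₑ) A hdm ?_
  · rw [lintegral_withDensity_eq_lintegral_mul _ hwm
      (g := fun θ => ‖z - ψs θ‖ₑ⁻¹ ^ β) (hdm.inv.pow_const β)] at key
    exact key.trans (add_le_add_left huniv _)
  intro r hr _
  rw [hA, add_mul]
  rcases le_or_gt d₀ (3 * r) with hrd | hrd
  · refine le_add_right ((measure_mono (subset_univ _)).trans (huniv.trans ?_))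
    rw [← ENNReal.ofReal_mul (by positivity), mul_assoc, mul_assoc,
      ← Real.mul_rpow (by positivity) hr.le, ← mul_assoc]
    refine ENNReal.ofReal_le_ofReal (le_mul_of_one_le_right (by positivity)
      (Real.one_le_rpow ?_ ha0.le))
    rw [div_mul_eq_mul_div, one_le_div hd₀]
    exact hrd
  refine le_add_left ?_
  set T := {θ | ‖z - ψs θ‖ₑ < ENNReal.ofReal r} with hT
  have hTm : MeasurableSet T := measurableSet_lt hdm measurable_const
  have hpt : ∀ᵐ θ ∂arc, θ ∈ T → ‖ms θ‖ₑ ^ q ≤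
      L⁻¹ * ENNReal.ofReal ((3 * C * K * r) ^ a) * radE ψ z r (2 * r) θ := by
    filter_upwards [hw1, hm.bdry_le_deriv h.univ hb hη hρ hms, h.bdry_mem hρ hψs, hψs.tendsto]
      with θ h1 h2 h3 h4 hθ
    rw [hT, mem_ofPred_eq, ← ofReal_norm, ENNReal.ofReal_lt_ofReal_iff hr] at hθ
    rcases eq_or_ne (ms θ) 0 with h0 | h0
    · rw [h0, enorm_zero, ENNReal.zero_rpow_of_pos (by linarith)]
      exact zero_le
    have hp : 0 < ‖ms θ‖ := norm_pos_iff.mpr h0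
    have e₂ : 2 * r ≤ ‖ψ (circleMap 0 (1 / 2) θ) - z‖ := by
      have h5 : d₀ ≤ dist (ψs θ) (ψ (circleMap 0 (1 / 2) θ)) := by
        by_contra hn
        exact h3.2 (hthick (mem_thickening_iff.mpr ⟨_, ⟨_, by simp, rfl⟩, not_le.mp hn⟩))
      have h6 := dist_triangle (ψs θ) z (ψ (circleMap 0 (1 / 2) θ))
      rw [dist_comm (ψs θ) z, dist_eq_norm z, dist_comm z, dist_eq_norm _ z] at h6
      linarith
    obtain ⟨i, hi1, hi2⟩ : ∃ i, 1 / 2 < ρ i ∧ ‖ψ (circleMap 0 (ρ i) θ) - z‖ < r := by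
      refine ((hρ.tendsto.eventually (lt_mem_nhds (by norm_num))).and
        ((h4.sub_const z).norm.eventually (gt_mem_nhds ?_))).exists
      rwa [norm_sub_rev]
    have h5 := h.univ.radE_cross z hr (by linarith : r ≤ 2 * r) ⟨hi1.le, (hρ.mem i).2⟩
      ⟨le_rfl, by norm_num⟩ hi2.le e₂
    rw [mul_div_cancel_right₀ _ hr.ne'] at h5
    have h6 : volume {s ∈ Ioo (1 / 2 : ℝ) 1 | ‖ψ (circleMap 0 s θ) - z‖ ≤ 2 * r} ≤
        ENNReal.ofReal ((3 * C * K * r / ‖ms θ‖) ^ a) := by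
      refine (measure_mono (t := Icc (1 - (3 * C * K * r / ‖ms θ‖) ^ a) 1) ?_).trans (by simp)
      rintro s ⟨hs, hs2⟩
      refine ⟨?_, hs.2.le⟩
      have hs0 : 0 < s := by linarith [hs.1]
      have hs1 : 0 < 1 - s := by linarith [hs.2]
      have h7 := hkoebe ψ (ψs θ) h.univ (by rw [h.image]; exact h3.2) (circleMap 0 s θ)
        (circleMap_mem_ball (by rw [abs_of_pos hs0]; exact hs.2) θ)
      rw [norm_circleMap_zero, abs_of_pos hs0] at h7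
      have h8 : ‖ψ (circleMap 0 s θ) - ψs θ‖ ≤ 3 * r := by
        have := norm_add_le (ψ (circleMap 0 s θ) - z) (z - ψs θ)
        rw [sub_add_sub_cancel] at this
        linarith
      have h9 := h2 s ⟨hs0.le, hs.2⟩
      have h10 : (1 - s) ^ (1 + η) ≤ 3 * C * K * r / ‖ms θ‖ := by
        rw [le_div_iff₀ hp]
        calc (1 - s) ^ (1 + η) * ‖ms θ‖ ≤ (1 - s) ^ (1 + η) *
              (C * (1 - s) ^ (-η) * ‖deriv ψ (circleMap 0 s θ)‖) :=
              mul_le_mul_of_nonneg_left h9 (by positivity)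
          _ = C * ((1 - s) * ‖deriv ψ (circleMap 0 s θ)‖) := by
              rw [Real.rpow_add hs1, Real.rpow_one, Real.rpow_neg hs1.le]
              field_simp
          _ ≤ C * (K * (3 * r)) := mul_le_mul_of_nonneg_left
              (h7.trans (mul_le_mul_of_nonneg_left h8 hK.le)) hC
          _ = _ := by ring
      have h11 := Real.rpow_le_rpow (by positivity) h10 ha0.le
      rw [ha, Real.rpow_rpow_inv hs1.le (by linarith)] at h11
      linarith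
    have h7 : ‖ms θ‖ₑ ^ a * ENNReal.ofReal ((3 * C * K * r / ‖ms θ‖) ^ a) =
        ENNReal.ofReal ((3 * C * K * r) ^ a) := by
      rw [← ofReal_norm, ENNReal.ofReal_rpow_of_pos hp, ← ENNReal.ofReal_mul (by positivity),
        ← Real.mul_rpow hp.le (by positivity), mul_div_cancel₀ _ hp.ne']
    calc ‖ms θ‖ₑ ^ q ≤ ‖ms θ‖ₑ ^ a := ENNReal.rpow_le_rpow_of_exponent_ge h1 (ha1.trans hq)
      _ = L⁻¹ * (‖ms θ‖ₑ ^ a * L) := by
          rw [mul_comm _ L, ← mul_assoc, ENNReal.inv_mul_cancel hL0 hLt, one_mul]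
      _ ≤ L⁻¹ * (‖ms θ‖ₑ ^ a *
            (ENNReal.ofReal ((3 * C * K * r / ‖ms θ‖) ^ a) * radE ψ z r (2 * r) θ)) :=
          mul_le_mul_right (mul_le_mul_right (h5.trans (mul_le_mul_left h6 _)) _) _
      _ = _ := by rw [← mul_assoc (‖ms θ‖ₑ ^ a), h7, mul_assoc L⁻¹]
  rw [withDensity_apply _ hTm]
  refine (setLIntegral_mono_ae' hTm hpt).trans ((setLIntegral_le_lintegral _ _).trans ?_)
  rw [lintegral_const_mul _ (h.univ.measurable_radE z r (2 * r))]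
  refine (mul_le_mul_right (h.univ.lintegral_radE_le z hr (by linarith)) _).trans (le_of_eq ?_)
  rw [mul_div_cancel_right₀ _ hr.ne', Real.mul_rpow (by positivity) hr.le,
    ENNReal.ofReal_mul (by positivity)]
  ring

end Pool.Agent.Lib.MP_3a6b94_an
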