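import Pool.Agent.Lib.MP_3a6b94_an.Basic

open MeasureTheory Set Metric Filter Topology
open scoped ENNReal NNReal Real

namespace Pool.Agent.Lib.MP_3a6b94_an

theorem lintegral_arc_periodic {G : ℝ → ℝ≥0∞} (hG : Function.Periodic G (2 * π)) (t : ℝ) :
    ∫⁻ θ in Ioc t (t + 2 * π), G θ = ∫⁻ θ, G θ ∂arc := by
  have h2 : (0 : ℝ) < 2 * π := by positivity
  have := (isAddFundamentalDomain_Ioc h2 t).setLIntegral_eq (isAddFundamentalDomain_Ioc h2 0) G
    hG.map_vadd_zmultiples
  rw [this, zero_add, arc]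

theorem measurable_circleMap_pair : Measurable fun p : ℝ × ℝ => circleMap 0 p.1 p.2 := by
  have : Continuous fun p : ℝ × ℝ => circleMap 0 p.1 p.2 := by
    unfold circleMap
    fun_prop
  exact this.measurable

theorem lintegral_polar' {F : ℂ → ℝ≥0∞} (hF : Measurable F) :
    ∫⁻ z, F z = ∫⁻ r in Ioi (0 : ℝ), ENNReal.ofReal r * ∫⁻ θ, F (circleMap 0 r θ) ∂arc := by
  rw [← Complex.lintegral_comp_polarCoord_symm]
  have ht : _root_.polarCoord.target = Ioi (0 : ℝ) ×ˢ Ioo (-π) π := rfl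
  have e3 : ∀ p : ℝ × ℝ, Complex.polarCoord.symm p = circleMap 0 p.1 p.2 := by
    intro p
    simp [circleMap, Complex.exp_mul_I]
  simp_rw [e3, smul_eq_mul]
  rw [ht, Measure.volume_eq_prod, ← Measure.prod_restrict, lintegral_prod]
  · refine lintegral_congr fun r => ?_
    rw [lintegral_const_mul' _ _ ENNReal.ofReal_ne_top, ← lintegral_arc_periodic
      (G := fun θ => F (circleMap 0 r θ)) ((periodic_circleMap 0 r).comp F) (-π),
      show -π + 2 * π = π by ring, restrict_Ioo_eq_restrict_Ioc]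
  · exact ((measurable_fst.ennreal_ofReal).mul (hF.comp measurable_circleMap_pair)).aemeasurable

/-- Polar coordinates. -/
theorem lintegral_polar {F : ℂ → ℝ≥0∞} (hF : Measurable F) :
    ∫⁻ z, F z = ∫⁻ θ, (∫⁻ r in Ioi (0 : ℝ), ENNReal.ofReal r * F (circleMap 0 r θ)) ∂arc := by
  rw [lintegral_polar' hF, ← lintegral_lintegral_swap]
  · refine lintegral_congr fun r => ?_
    rw [lintegral_const_mul' _ _ ENNReal.ofReal_ne_top]
  · exact ((measurable_fst.ennreal_ofReal).mul (hF.comp measurable_circleMap_pair)).aemeasurable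

/-- Frostman type bound for potentials. -/
theorem exists_potential_const {a β : ℝ} (hβ : 0 < β) (hβa : β < a) :
    ∃ K : ℝ≥0∞, K ≠ ⊤ ∧ ∀ (X : Type) [MeasurableSpace X] (μ : Measure X) (d : X → ℝ≥0∞)
      (A : ℝ≥0∞), Measurable d →
      (∀ r : ℝ, 0 < r → r ≤ 1 → μ {x | d x < ENNReal.ofReal r} ≤ A * ENNReal.ofReal (r ^ a)) →
      ∫⁻ x, (d x)⁻¹ ^ β ∂μ ≤ μ univ + K * A := by
  set c : ℝ := (2 : ℝ) ^ (β - a) with hc
  have hc0 : 0 ≤ c := by positivity
  have hc1 : c < 1 := Real.rpow_lt_one_of_one_lt_of_neg one_lt_two (by linarith)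
  have hsum : Summable fun j : ℕ => (2 : ℝ) ^ β * c ^ j :=
    (summable_geometric_of_lt_one hc0 hc1).mul_left _
  refine ⟨∑' j : ℕ, ENNReal.ofReal ((2 : ℝ) ^ β * c ^ j), ?_, ?_⟩
  · rw [← ENNReal.ofReal_tsum_of_nonneg (fun j => by positivity) hsum]
    exact ENNReal.ofReal_ne_top
  intro X _ μ d A hd hA
  set S : ℕ → Set X := fun j => {x | d x < ENNReal.ofReal ((1 / 2) ^ j)} with hS
  have hSm : ∀ j, MeasurableSet (S j) := fun j => measurableSet_lt hd measurable_const
  set w : ℕ → ℝ≥0∞ := fun j => ENNReal.ofReal (((2 : ℝ) ^ (j + 1)) ^ β) with hw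
  have hpt : ∀ x, (d x)⁻¹ ^ β ≤ 1 + ∑' j, (S j).indicator (fun _ => w j) x := by
    intro x
    by_cases h1 : 1 ≤ d x
    · exact le_add_right (ENNReal.rpow_le_one (ENNReal.inv_le_one.mpr h1) hβ.le)
    refine le_add_left ?_
    by_cases h0 : d x = 0
    · have : ∑' j, (S j).indicator (fun _ => w j) x = ⊤ := by
        refine top_unique ?_
        calc (⊤ : ℝ≥0∞) = ∑' _ : ℕ, (1 : ℝ≥0∞) := by simp
          _ ≤ _ := ENNReal.tsum_le_tsum fun j => by
            have hx : x ∈ S j := by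
              simp only [hS, mem_ofPred_eq, h0]
              exact ENNReal.ofReal_pos.mpr (by positivity)
            rw [indicator_of_mem hx, hw]
            exact ENNReal.one_le_ofReal.mpr
              (Real.one_le_rpow (one_le_pow₀ one_le_two) hβ.le)
      rw [this]
      exact le_top
    have hex : ∃ j : ℕ, x ∉ S j := by
      have ht : Tendsto (fun j : ℕ => ENNReal.ofReal ((1 / 2 : ℝ) ^ j)) atTop (𝓝 0) := by
        simpa using ENNReal.tendsto_ofReal
          (tendsto_pow_atTop_nhds_zero_of_lt_one (r := (1 / 2 : ℝ)) (by norm_num) (by norm_num))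
      obtain ⟨j, hj⟩ := (ht.eventually (gt_mem_nhds (pos_iff_ne_zero.mpr h0))).exists
      exact ⟨j, fun hx => lt_asymm hx hj⟩
    classical
    have hj := Nat.find_spec hex
    have hpos : Nat.find hex ≠ 0 := by
      intro e
      rw [e] at hj
      exact hj (by simpa [hS] using not_le.mp h1)
    obtain ⟨i, hi⟩ := Nat.exists_eq_succ_of_ne_zero hpos
    have hin : x ∈ S i := by
      by_contra hn
      have := Nat.find_min' hex hn
      omega
    rw [hi] at hj
    have hle : ENNReal.ofReal ((1 / 2) ^ (i + 1)) ≤ d x := not_lt.mp hj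
    refine le_trans ?_ (ENNReal.le_tsum i)
    rw [indicator_of_mem hin, hw]
    simp only
    rw [← ENNReal.ofReal_rpow_of_pos (by positivity)]
    refine ENNReal.rpow_le_rpow ?_ hβ.le
    refine (ENNReal.inv_le_inv.mpr hle).trans (le_of_eq ?_)
    rw [← ENNReal.ofReal_inv_of_pos (by positivity)]
    simp
  calc ∫⁻ x, (d x)⁻¹ ^ β ∂μ ≤ ∫⁻ x, (1 + ∑' j, (S j).indicator (fun _ => w j) x) ∂μ :=
        lintegral_mono hpt
    _ = μ univ + ∑' j, w j * μ (S j) := by
        rw [lintegral_add_left measurable_const, lintegral_one, lintegral_tsum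
          fun j => (measurable_const.indicator (hSm j)).aemeasurable]
        simp_rw [lintegral_indicator_const (hSm _)]
    _ ≤ _ := by
        rw [← ENNReal.tsum_mul_right]
        refine add_le_add_right (ENNReal.tsum_le_tsum fun j => ?_) _
        have h1 := hA ((1 / 2) ^ j) (by positivity) (pow_le_one₀ (by norm_num) (by norm_num))
        refine (mul_le_mul_right h1 _).trans (le_of_eq ?_)
        rw [mul_comm A, ← mul_assoc, hw, ← ENNReal.ofReal_mul (by positivity)]
        have e : ((2 : ℝ) ^ (j + 1)) ^ β * ((1 / 2) ^ j) ^ a = 2 ^ β * c ^ j := by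
          rw [hc, one_div, inv_pow, Real.inv_rpow (by positivity), ← Real.rpow_natCast,
            ← Real.rpow_natCast, ← Real.rpow_natCast, ← Real.rpow_mul zero_le_two,
            ← Real.rpow_mul zero_le_two, ← Real.rpow_mul zero_le_two,
            ← Real.rpow_neg zero_le_two, ← Real.rpow_add two_pos, ← Real.rpow_add two_pos]
          congr 1
          push_cast
          ring
        rw [e]

theorem exists_area_potential {γ : ℝ} (hγ : 0 < γ) (hγ2 : γ < 2) {S : Set ℂ}
    (hS : Bornology.IsBounded S) :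
    ∃ K : ℝ≥0∞, K ≠ ⊤ ∧ ∀ a : ℂ, ∫⁻ z in S, ‖z - a‖ₑ⁻¹ ^ γ ≤ K := by
  obtain ⟨K, hK, h⟩ := exists_potential_const hγ hγ2
  refine ⟨volume S + K * NNReal.pi, ENNReal.add_ne_top.mpr ⟨hS.measure_lt_top.ne,
    ENNReal.mul_ne_top hK ENNReal.coe_ne_top⟩, fun a => ?_⟩
  have := h ℂ (volume.restrict S) (fun z => ‖z - a‖ₑ) NNReal.pi (by fun_prop) fun r hr _ => by
    refine Measure.restrict_le_self _ |>.trans ?_
    have e : {z : ℂ | ‖z - a‖ₑ < ENNReal.ofReal r} = ball a r := by
      ext z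
      rw [mem_ofPred_eq, ← ofReal_norm, ENNReal.ofReal_lt_ofReal_iff hr, mem_ball,
        dist_eq_norm]
    rw [e, Complex.volume_ball, mul_comm, Real.rpow_two, ENNReal.ofReal_pow hr.le]
  simpa using this

theorem norm_circleMap_sub_ge {s t : ℝ} (h : |s - t| ≤ π) :
    2 / π * |s - t| ≤ ‖circleMap 0 1 s - circleMap 0 1 t‖ := by
  have e : circleMap 0 1 s - circleMap 0 1 t =
      circleMap 0 1 t * (Complex.exp (Complex.I * ((s - t : ℝ) : ℂ)) - 1) := by
    simp only [circleMap, zero_add, Complex.ofReal_one, one_mul, mul_sub, mul_one,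
      ← Complex.exp_add]
    congr 2
    push_cast
    ring
  rw [e, norm_mul, norm_circleMap_zero, abs_one, one_mul, Complex.norm_exp_I_mul_ofReal_sub_one,
    Real.norm_eq_abs, abs_mul, abs_two]
  have h1 : |(s - t) / 2| ≤ π / 2 := by
    rw [abs_div, abs_two]
    linarith
  have h2 := Real.mul_abs_le_abs_sin h1
  rw [abs_div, abs_two] at h2
  linarith

theorem exists_circle_potential {β : ℝ} (hβ : 0 < β) (hβ1 : β < 1) :
    ∃ K : ℝ≥0∞, K ≠ ⊤ ∧ ∀ y : ℂ, ∫⁻ θ, ‖circleMap 0 1 θ - y‖ₑ⁻¹ ^ β ∂arc ≤ K := by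
  obtain ⟨K, hK, h⟩ := exists_potential_const hβ hβ1
  refine ⟨arc univ + K * ENNReal.ofReal (2 * π), ENNReal.add_ne_top.mpr ⟨measure_ne_top _ _,
    ENNReal.mul_ne_top hK ENNReal.ofReal_ne_top⟩, fun y => ?_⟩
  have hm : Measurable fun θ => ‖circleMap 0 1 θ - y‖ₑ :=
    ((continuous_circleMap 0 1).sub continuous_const).enorm.measurable
  refine h ℝ arc (fun θ => ‖circleMap 0 1 θ - y‖ₑ) _ hm fun r hr _ => ?_
  set T := {θ | ‖circleMap 0 1 θ - y‖ₑ < ENNReal.ofReal r} with hT
  have hTm : MeasurableSet T := measurableSet_lt hm measurable_const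
  rcases T.eq_empty_or_nonempty with h0 | ⟨t, ht⟩
  · simp [h0]
  have hper : Function.Periodic (T.indicator (1 : ℝ → ℝ≥0∞)) (2 * π) := by
    intro θ
    have : θ + 2 * π ∈ T ↔ θ ∈ T := by simp only [hT, mem_ofPred_eq, periodic_circleMap 0 1 θ]
    by_cases hθ : θ ∈ T
    · simp [indicator_of_mem hθ, indicator_of_mem (this.mpr hθ)]
    · simp [indicator_of_notMem hθ, indicator_of_notMem (mt this.mp hθ)]
  rw [← lintegral_indicator_one hTm, ← lintegral_arc_periodic hper (t - π),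
    lintegral_indicator_one hTm, Measure.restrict_apply hTm]
  have hsub : T ∩ Ioc (t - π) (t - π + 2 * π) ⊆ Icc (t - π * r) (t + π * r) := by
    rintro θ ⟨h1, h2, h3⟩
    simp only [hT, mem_ofPred_eq, ← ofReal_norm, ENNReal.ofReal_lt_ofReal_iff hr] at h1 ht
    have h4 := norm_circleMap_sub_ge (s := θ) (t := t) (abs_le.mpr ⟨by linarith, by linarith⟩)
    have h5 : ‖circleMap 0 1 θ - circleMap 0 1 t‖ ≤ 2 * r := by
      have := norm_sub_le (circleMap 0 1 θ - y) (circleMap 0 1 t - y)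
      rw [sub_sub_sub_cancel_right] at this
      linarith
    have h6 : |θ - t| ≤ π * r := by
      have h7 := h4.trans h5
      rw [div_mul_eq_mul_div, div_le_iff₀ Real.pi_pos] at h7
      linarith
    have := abs_le.mp h6
    exact ⟨by linarith, by linarith⟩
  refine (measure_mono hsub).trans (le_of_eq ?_)
  rw [Real.volume_Icc, Real.rpow_one, ← ENNReal.ofReal_mul (by positivity)]
  congr 1
  ring

theorem exists_interval_potential {β : ℝ} (hβ : 0 < β) (hβ1 : β < 1) :
    ∃ K : ℝ≥0∞, K ≠ ⊤ ∧ ∀ x r : ℝ, 0 < r →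
      ∫⁻ s in Ioo 0 r, ‖x - s‖ₑ⁻¹ ^ β ≤ K * ENNReal.ofReal (r ^ (1 - β)) := by
  obtain ⟨K, hK, h⟩ := exists_potential_const hβ hβ1
  refine ⟨1 + K * 2, ENNReal.add_ne_top.mpr ⟨ENNReal.one_ne_top,
    ENNReal.mul_ne_top hK (by simp)⟩, fun x r hr => ?_⟩
  have hr0 : ENNReal.ofReal r ≠ 0 := by simpa using hr
  have h1 := h ℝ (volume.restrict (Ioo 0 r)) (fun s => ‖x - s‖ₑ / ENNReal.ofReal r)
    (2 * ENNReal.ofReal r) (by fun_prop) fun ρ hρ _ => by
      refine Measure.restrict_le_self _ |>.trans ?_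
      have e : {s : ℝ | ‖x - s‖ₑ / ENNReal.ofReal r < ENNReal.ofReal ρ} = ball x (ρ * r) := by
        ext s
        rw [mem_ofPred_eq, ENNReal.div_lt_iff (Or.inl hr0) (Or.inl ENNReal.ofReal_ne_top),
          ← ENNReal.ofReal_mul hρ.le, ← ofReal_norm,
          ENNReal.ofReal_lt_ofReal_iff (by positivity), mem_ball, dist_comm, dist_eq_norm]
      rw [e, Real.volume_ball, Real.rpow_one, mul_assoc, ← ENNReal.ofReal_mul hr.le,
        ENNReal.ofReal_mul zero_le_two, mul_comm ρ r]
      simp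
  have e2 : ∀ s : ℝ, ‖x - s‖ₑ⁻¹ ^ β =
      (ENNReal.ofReal r)⁻¹ ^ β * (‖x - s‖ₑ / ENNReal.ofReal r)⁻¹ ^ β := by
    intro s
    rw [← ENNReal.mul_rpow_of_nonneg _ _ hβ.le, ENNReal.inv_div (Or.inl ENNReal.ofReal_ne_top)
      (Or.inl hr0), ENNReal.div_eq_inv_mul, mul_comm (‖x - s‖ₑ⁻¹), ← mul_assoc,
      ENNReal.inv_mul_cancel hr0 ENNReal.ofReal_ne_top, one_mul]
  simp_rw [e2]
  rw [lintegral_const_mul' _ _ (ENNReal.rpow_ne_top_of_nonneg hβ.le (ENNReal.inv_ne_top.mpr hr0))]
  refine (mul_le_mul_right h1 _).trans (le_of_eq ?_)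
  rw [Measure.restrict_apply_univ, Real.volume_Ioo, sub_zero, ← ENNReal.ofReal_inv_of_pos hr,
    ENNReal.ofReal_rpow_of_pos (by positivity), Real.rpow_sub hr, Real.rpow_one, div_eq_mul_inv,
    ENNReal.ofReal_mul hr.le, Real.inv_rpow hr.le]
  ring

theorem lintegral_one_sub_norm_ne_top {a : ℝ} (ha : a < 1) :
    ∫⁻ y in ball (0 : ℂ) 1, ENNReal.ofReal ((1 - ‖y‖) ^ (-a)) ≠ ⊤ := by
  set β := max a (1 / 2) with hβ
  have hβ0 : 0 < β := lt_max_of_lt_right (by norm_num)
  have hβ1 : β < 1 := max_lt ha (by norm_num)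
  obtain ⟨K, hK, h⟩ := exists_potential_const hβ0 hβ1
  have h1 := h ℂ (volume.restrict (ball 0 1)) (fun y => ENNReal.ofReal (1 - ‖y‖))
    (2 * NNReal.pi) (by fun_prop) fun r hr hr1 => by
      rw [Measure.restrict_apply' measurableSet_ball]
      have hsub : {y : ℂ | ENNReal.ofReal (1 - ‖y‖) < ENNReal.ofReal r} ∩ ball 0 1 ⊆
          ball 0 1 \ ball 0 (1 - r) := by
        rintro y ⟨h1, h2⟩
        rw [mem_ofPred_eq, ENNReal.ofReal_lt_ofReal_iff hr] at h1
        refine ⟨h2, fun h3 => ?_⟩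
        have := mem_ball_zero_iff.mp h3
        linarith
      refine (measure_mono hsub).trans ?_
      rw [measure_sdiff (ball_subset_ball (by linarith)) measurableSet_ball.nullMeasurableSet
        measure_ball_lt_top.ne, Complex.volume_ball, Complex.volume_ball, tsub_le_iff_right,
        Real.rpow_one, mul_right_comm, ← add_mul]
      refine mul_le_mul_left ?_ _
      rw [← ENNReal.ofReal_pow (by linarith), ← ENNReal.ofReal_pow (by linarith),
        ← ENNReal.ofReal_ofNat 2, ← ENNReal.ofReal_mul zero_le_two,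
        ← ENNReal.ofReal_add (by positivity) (by positivity)]
      exact ENNReal.ofReal_le_ofReal (by nlinarith)
  refine ne_top_of_le_ne_top (ne_top_of_le_ne_top ?_ h1) ?_
  · exact ENNReal.add_ne_top.mpr ⟨by simp,
      ENNReal.mul_ne_top hK (ENNReal.mul_ne_top (by simp) ENNReal.coe_ne_top)⟩
  · refine setLIntegral_mono' measurableSet_ball fun y hy => ?_
    have h2 : 0 < 1 - ‖y‖ := by linarith [mem_ball_zero_iff.mp hy]
    rw [← ENNReal.ofReal_inv_of_pos h2, ENNReal.ofReal_rpow_of_pos (by positivity),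
      Real.inv_rpow h2.le, ← Real.rpow_neg h2.le]
    exact ENNReal.ofReal_le_ofReal (Real.rpow_le_rpow_of_exponent_ge h2
      (by linarith [norm_nonneg y]) (neg_le_neg (le_max_left _ _)))

/-- Hoelder inequality adapted to the Cauchy kernel `D`. -/
theorem lintegral_kernel_le {X : Type} [MeasurableSpace X] (μ : Measure X) {q β : ℝ}
    (hq : 1 < q) (hβ : 0 ≤ β) (hβq : β ≤ q) {G w D : X → ℝ≥0∞} (hG : AEMeasurable G μ)
    (hw : AEMeasurable w μ) (hD : AEMeasurable D μ) :
    ∫⁻ x, G x * w x * D x ∂μ ≤ (∫⁻ x, G x ^ q * D x ^ β ∂μ) ^ (1 / q) *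
      (∫⁻ x, w x ^ (q / (q - 1)) * D x ^ ((q - β) / (q - 1)) ∂μ) ^ ((q - 1) / q) := by
  have hq0 : 0 < q := by linarith
  have hq1 : 0 < q - 1 := by linarith
  have hc : q.HolderConjugate (q / (q - 1)) := Real.HolderConjugate.conjExponent hq
  have h := ENNReal.lintegral_mul_le_Lp_mul_Lq μ hc (f := fun x => G x * D x ^ (β / q))
    (g := fun x => w x * D x ^ ((q - β) / q)) (hG.mul (hD.pow_const _)) (hw.mul (hD.pow_const _))
  have e1 : ∀ x, G x * w x * D x = (G x * D x ^ (β / q)) * (w x * D x ^ ((q - β) / q)) := by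
    intro x
    have : D x = D x ^ (β / q) * D x ^ ((q - β) / q) := by
      rw [← ENNReal.rpow_add_of_nonneg _ _ (by positivity) (div_nonneg (by linarith) hq0.le)]
      rw [show β / q + (q - β) / q = 1 by field_simp; ring, ENNReal.rpow_one]
    conv_lhs => rw [this]
    ring
  have e2 : ∀ x, (G x * D x ^ (β / q)) ^ q = G x ^ q * D x ^ β := by
    intro x
    rw [ENNReal.mul_rpow_of_nonneg _ _ hq0.le, ← ENNReal.rpow_mul, div_mul_cancel₀ _ hq0.ne']
  have e3 : ∀ x, (w x * D x ^ ((q - β) / q)) ^ (q / (q - 1)) =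
      w x ^ (q / (q - 1)) * D x ^ ((q - β) / (q - 1)) := by
    intro x
    rw [ENNReal.mul_rpow_of_nonneg _ _ (by positivity), ← ENNReal.rpow_mul]
    congr 2
    field_simp
  simp only [Pi.mul_apply, e2, e3, ← e1] at h
  rwa [one_div_div] at h

/-- Cauchy type integrals are holomorphic. -/
theorem differentiableOn_cauchy {X : Type} [MeasurableSpace X] {μ : Measure X} {u a : X → ℂ}
    (hu : Integrable u μ) (ha : AEMeasurable a μ) {K : Set ℂ} (hK : IsClosed K)
    (haK : ∀ᵐ x ∂μ, a x ∈ K) : DifferentiableOn ℂ (fun w => ∫ x, u x / (a x - w) ∂μ) Kᶜ := by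
  intro w hw
  obtain ⟨ε, hε, hball⟩ := Metric.isOpen_iff.mp hK.isOpen_compl w hw
  have hd : ∀ z ∈ K, ∀ y ∈ ball w (ε / 2), ε / 2 ≤ ‖z - y‖ := by
    intro z hz y hy
    have h1 : ε ≤ dist z w := by
      by_contra hn
      exact hball (mem_ball.mpr (not_le.mp hn)) hz
    have h2 := dist_triangle z y w
    have h3 := mem_ball.mp hy
    rw [← dist_eq_norm]
    linarith
  have hm : ∀ y, AEStronglyMeasurable (fun x => u x / (a x - y)) μ := fun y =>
    (hu.aemeasurable.div (ha.sub_const y)).aestronglyMeasurable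
  refine (hasDerivAt_integral_of_dominated_loc_of_deriv_le (F := fun w x => u x / (a x - w))
    (F' := fun w x => u x / (a x - w) ^ 2) (bound := fun x => ‖u x‖ / (ε / 2) ^ 2)
    (ball_mem_nhds w (half_pos hε)) (Eventually.of_forall hm) ?_ ?_ ?_ ?_
    ?_).2.differentiableAt.differentiableWithinAt
  · refine Integrable.mono' (hu.norm.div_const (ε / 2)) (hm w) ?_
    filter_upwards [haK] with x hx
    rw [norm_div]
    exact div_le_div_of_nonneg_left (norm_nonneg _) (half_pos hε)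
      (hd _ hx w (mem_ball_self (half_pos hε)))
  · exact (hu.aemeasurable.div ((ha.sub_const w).pow_const 2)).aestronglyMeasurable
  · filter_upwards [haK] with x hx y hy
    rw [norm_div, norm_pow]
    exact div_le_div_of_nonneg_left (norm_nonneg _) (by positivity)
      (pow_le_pow_left₀ (half_pos hε).le (hd _ hx y hy) 2)
  · exact hu.norm.div_const _
  · filter_upwards [haK] with x hx y hy
    have hne : a x - y ≠ 0 := norm_pos_iff.mp ((half_pos hε).trans_le (hd _ hx y hy))
    have := (hasDerivAt_const y (u x)).fun_div ((hasDerivAt_id' y).const_sub (a x)) hne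
    simpa using this

theorem Univ.lintegral_image {ψ : ℂ → ℂ} (hψ : Univ ψ) (F : ℂ → ℝ≥0∞) :
    ∫⁻ a in ψ '' ball 0 1, F a = ∫⁻ z in ball (0 : ℂ) 1, ‖deriv ψ z‖ₑ ^ 2 * F (ψ z) := by
  rw [lintegral_image_eq_lintegral_abs_det_fderiv_mul volume measurableSet_ball
    (f' := fun z => (ContinuousLinearMap.toSpanSingleton ℂ (deriv ψ z)).restrictScalars ℝ)
    (fun z hz => ((hψ.diff.differentiableAt
      (isOpen_ball.mem_nhds hz)).hasDerivAt.hasFDerivAt.restrictScalars ℝ).hasFDerivWithinAt)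
    hψ.inj]
  refine lintegral_congr fun z => ?_
  congr 1
  rw [← ofReal_norm, ← ENNReal.ofReal_pow (norm_nonneg _)]
  congr 1
  simp [ContinuousLinearMap.det, LinearMap.det_restrictScalars, Algebra.norm_complex_eq,
    Complex.normSq_eq_norm_sq]

theorem poissonKernel_nonneg {w : ℂ} (hw : ‖w‖ ≤ 1) (t : ℝ) :
    0 ≤ poissonKernel 0 w (circleMap 0 1 t) := by
  rw [poissonKernel_def]
  refine div_nonneg ?_ (by positivity)
  simp only [sub_zero, norm_circleMap_zero, abs_one]
  nlinarith [norm_nonneg w]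

theorem continuous_poissonKernel {w : ℂ} (hw : w ∈ ball (0 : ℂ) 1) :
    Continuous fun t => poissonKernel 0 w (circleMap 0 1 t) := by
  simp only [poissonKernel_def, sub_zero]
  refine Continuous.div (by fun_prop) (by fun_prop) fun t => ?_
  exact pow_ne_zero 2 (norm_ne_zero_iff.mpr (sub_ne_zero.mpr (circleMap_ne_mem_ball hw t)))

theorem integral_poissonKernel {w : ℂ} (hw : w ∈ ball (0 : ℂ) 1) :
    ∫ t, poissonKernel 0 w (circleMap 0 1 t) ∂arc = 2 * π := by
  have h := (diffContOnCl_const (c := (1 : ℂ)) (𝕜 := ℂ)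
    (s := ball (0 : ℂ) 1)).circleAverage_poissonKernel_smul hw
  rw [circleAverage_eq_arc] at h
  simp only [Pi.smul_apply', Complex.real_smul, mul_one] at h
  rw [integral_complex_ofReal] at h
  have h2 : (2 * π)⁻¹ * ∫ t, poissonKernel 0 w (circleMap 0 1 t) ∂arc = 1 := by
    exact_mod_cast h
  field_simp at h2
  linarith

theorem integrable_arc_of_continuous {E : Type} [NormedAddCommGroup E] {F : ℝ → E}
    (hF : Continuous F) : Integrable F arc :=
  (hF.integrableOn_Icc (a := 0) (b := 2 * π)).mono_set Ioc_subset_Icc_self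

/-- Poisson integrals converge at points of continuity. -/
theorem tendsto_poisson {v : ℝ → ℂ} (hv : Measurable v) {M : ℝ} (hM : ∀ t, ‖v t‖ ≤ M) {θ : ℝ}
    (hθ : θ ∈ Ioo 0 (2 * π)) (hc : ContinuousAt v θ) :
    Tendsto (fun r : ℝ => (2 * π)⁻¹ •
      ∫ t, poissonKernel 0 (circleMap 0 r θ) (circleMap 0 1 t) • v t ∂arc) (𝓝[<] 1) (𝓝 (v θ)) := by
  have hM0 : 0 ≤ M := (norm_nonneg _).trans (hM 0)
  rw [Metric.tendsto_nhds]
  intro ε hε
  obtain ⟨δ, hδ, hδε⟩ := Metric.continuousAt_iff.mp hc (ε / 3) (by positivity)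
  obtain ⟨c, hc0, hcl⟩ : ∃ c : ℝ, 0 < c ∧ ∀ t ∈ Icc 0 (2 * π), δ ≤ dist t θ →
      c ≤ ‖circleMap 0 1 t - circleMap 0 1 θ‖ := by
    have hK : IsCompact (Icc 0 (2 * π) ∩ {t | δ ≤ dist t θ}) :=
      isCompact_Icc.inter_right (isClosed_le continuous_const (by fun_prop))
    obtain ⟨c, hc0, hc⟩ := hK.exists_forall_le'
      (f := fun t => ‖circleMap 0 1 t - circleMap 0 1 θ‖) (a := 0) (by fun_prop) (by
        rintro t ⟨ht, hd⟩
        refine norm_pos_iff.mpr (sub_ne_zero.mpr fun e => ?_)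
        have h1 : t = θ := eq_of_circleMap_eq one_ne_zero
          (abs_lt.mpr ⟨by linarith [ht.1, hθ.2], by linarith [ht.2, hθ.1]⟩) e
        rw [h1] at hd
        simp only [mem_ofPred_eq, dist_self] at hd
        linarith)
    exact ⟨c, hc0, fun t ht hd => hc t ⟨ht, hd⟩⟩
  have hev : ∀ᶠ r : ℝ in 𝓝[<] 1, 0 < r ∧ 1 - r < c / 2 ∧ 16 * M / c ^ 2 * (1 - r) < ε / 3 := by
    refine mem_nhdsWithin_of_mem_nhds (Eventually.and (lt_mem_nhds one_pos) (Eventually.and ?_ ?_))
    · exact ContinuousAt.eventually_lt (f := fun r : ℝ => 1 - r) (g := fun _ => c / 2)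
        (by fun_prop) (by fun_prop) (by simpa using hc0)
    · exact ContinuousAt.eventually_lt (f := fun r : ℝ => 16 * M / c ^ 2 * (1 - r))
        (g := fun _ => ε / 3) (by fun_prop) (by fun_prop) (by simpa using hε)
  filter_upwards [hev, self_mem_nhdsWithin] with r ⟨hr0, hrc, hrε⟩ hr1
  have hr1' : r < 1 := hr1
  have hw : circleMap 0 r θ ∈ ball (0 : ℂ) 1 := circleMap_mem_ball (by rwa [abs_of_pos hr0]) θ
  set P : ℝ → ℝ := fun t => poissonKernel 0 (circleMap 0 r θ) (circleMap 0 1 t) with hP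
  have hPc : Continuous P := continuous_poissonKernel hw
  have hP0 : ∀ t, 0 ≤ P t := poissonKernel_nonneg (mem_ball_zero_iff.mp hw).le
  have hPi : Integrable P arc := integrable_arc_of_continuous hPc
  have hPv : Integrable (fun t => P t • v t) arc :=
    hPi.smul_bdd M hv.aestronglyMeasurable (Eventually.of_forall hM)
  have h2 : (0 : ℝ) < 2 * π := by positivity
  have e1 : (2 * π)⁻¹ • ∫ t, P t • v t ∂arc - v θ = (2 * π)⁻¹ • ∫ t, P t • (v t - v θ) ∂arc := by
    simp_rw [smul_sub]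
    rw [integral_sub hPv (hPi.smul_const _), integral_smul_const, smul_sub, hP,
      integral_poissonKernel hw, smul_smul, inv_mul_cancel₀ h2.ne', one_smul]
  rw [dist_eq_norm, e1, norm_smul, Real.norm_eq_abs, abs_of_pos (inv_pos.mpr h2)]
  have hb : ‖∫ t, P t • (v t - v θ) ∂arc‖ ≤
      ∫ t, (ε / 3 * P t + 16 * M / c ^ 2 * (1 - r)) ∂arc := by
    refine norm_integral_le_of_norm_le ((hPi.const_mul _).add (integrable_const _)) ?_
    rw [arc]
    filter_upwards [ae_restrict_mem measurableSet_Ioc] with t ht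
    rw [norm_smul, Real.norm_eq_abs, abs_of_nonneg (hP0 t)]
    have hnn : 0 ≤ 16 * M / c ^ 2 * (1 - r) := mul_nonneg (by positivity) (by linarith)
    by_cases hd : dist t θ < δ
    · have := (hδε hd).le
      rw [dist_eq_norm] at this
      nlinarith [hP0 t]
    · have h3 := hcl t (Ioc_subset_Icc_self ht) (not_lt.mp hd)
      have h4 : ‖circleMap 0 1 θ - circleMap 0 r θ‖ = 1 - r := by
        have : circleMap 0 1 θ - circleMap 0 r θ = circleMap 0 (1 - r) θ := by
          simp [circleMap, sub_mul]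
        rw [this, norm_circleMap_zero, abs_of_pos (by linarith)]
      have h5 : c / 2 ≤ ‖circleMap 0 1 t - circleMap 0 r θ‖ := by
        have := norm_sub_le (circleMap 0 1 t - circleMap 0 r θ) (circleMap 0 1 θ - circleMap 0 r θ)
        rw [sub_sub_sub_cancel_right] at this
        linarith
      have h6 : P t ≤ 8 / c ^ 2 * (1 - r) := by
        simp only [hP, poissonKernel_def, sub_zero, norm_circleMap_zero, abs_one, abs_of_pos hr0]
        rw [div_le_iff₀ (pow_pos ((half_pos hc0).trans_le h5) 2)]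
        have h7 := pow_le_pow_left₀ (half_pos hc0).le h5 2
        calc 1 ^ 2 - r ^ 2 ≤ 8 / c ^ 2 * (1 - r) * (c / 2) ^ 2 := by
              field_simp
              nlinarith
          _ ≤ _ := mul_le_mul_of_nonneg_left h7 (mul_nonneg (by positivity) (by linarith))
      have h8 : ‖v t - v θ‖ ≤ 2 * M := (norm_sub_le _ _).trans (by linarith [hM t, hM θ])
      calc P t * ‖v t - v θ‖ ≤ 8 / c ^ 2 * (1 - r) * (2 * M) :=
            mul_le_mul h6 h8 (norm_nonneg _) (mul_nonneg (by positivity) (by linarith))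
        _ = 16 * M / c ^ 2 * (1 - r) := by ring
        _ ≤ _ := le_add_of_nonneg_left (mul_nonneg (by positivity) (hP0 t))
  rw [integral_add (hPi.const_mul _) (integrable_const _), integral_const_mul, hP,
    integral_poissonKernel hw, integral_const, Measure.real, arc_univ,
    ENNReal.toReal_ofReal h2.le, smul_eq_mul] at hb
  rw [inv_mul_lt_iff₀ h2]
  nlinarith

end Pool.Agent.Lib.MP_3a6b94_an
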